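import Pool.Agent.Helper76.ExtBasic

set_option autoImplicit false

namespace Pool.Agent.Helper76.Menger

open Set Topology Metric Filter TopologicalSpace
open scoped BoundedContinuousFunction

/-- Closing off a countable set of ring elements under ring operations and one vector valued
operation. -/
lemma exists_countable_subring {B : Type} [CommRing B] {N : ℕ}
    (sol : (Fin N → B) → (Fin N → B)) {S₀ : Set B} (h : S₀.Countable) :
    ∃ S : Subring B, (S : Set B).Countable ∧ S₀ ⊆ S ∧
      ∀ s : Fin N → B, (∀ j, s j ∈ S) → ∀ j, sol s j ∈ S := by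
  let step : Set B → Set B := fun S => (S ∪ {0, 1}) ∪ (image2 (· + ·) S S ∪ image2 (· * ·) S S) ∪
    ((fun x => -x) '' S ∪ ⋃ j : Fin N, (fun s : Fin N → B => sol s j) '' {s | ∀ j, s j ∈ S})
  have hstepc : ∀ S : Set B, S.Countable → (step S).Countable := by
    intro S hS
    refine ((hS.union ((countable_singleton 1).insert 0)).union
      ((hS.image2 hS _).union (hS.image2 hS _))).union ((hS.image _).union ?_)
    exact countable_iUnion (fun j => (countable_pi (fun _ => hS)).image _)
  have hstep1 : ∀ S : Set B, S ⊆ step S := fun S x hx => Or.inl (Or.inl (Or.inl hx))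
  let s : ℕ → Set B := fun k => step^[k] S₀
  have hs0 : s 0 = S₀ := rfl
  have hs1 : ∀ k, s (k + 1) = step (s k) := fun k => Function.iterate_succ_apply' _ _ _
  have hsc : ∀ k, (s k).Countable := by
    intro k
    induction k with
    | zero => exact h
    | succ k ih =>
      rw [hs1]
      exact hstepc _ ih
  have hsm : Monotone s := monotone_nat_of_le_succ (fun k => by rw [hs1]; exact hstep1 _)
  refine ⟨{
    carrier := ⋃ k, s k
    mul_mem' := ?_
    one_mem' := ?_
    add_mem' := ?_
    zero_mem' := ?_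
    neg_mem' := ?_ }, ?_, ?_, ?_⟩
  · intro a b ha hb
    obtain ⟨i, hi⟩ := mem_iUnion.1 ha
    obtain ⟨j, hj⟩ := mem_iUnion.1 hb
    refine mem_iUnion.2 ⟨max i j + 1, ?_⟩
    rw [hs1]
    exact Or.inl (Or.inr (Or.inr ⟨a, hsm (le_max_left _ _) hi, b, hsm (le_max_right _ _) hj, rfl⟩))
  · refine mem_iUnion.2 ⟨1, ?_⟩
    rw [hs1]
    exact Or.inl (Or.inl (Or.inr (Or.inr rfl)))
  · intro a b ha hb
    obtain ⟨i, hi⟩ := mem_iUnion.1 ha
    obtain ⟨j, hj⟩ := mem_iUnion.1 hb
    refine mem_iUnion.2 ⟨max i j + 1, ?_⟩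
    rw [hs1]
    exact Or.inl (Or.inr (Or.inl ⟨a, hsm (le_max_left _ _) hi, b, hsm (le_max_right _ _) hj, rfl⟩))
  · refine mem_iUnion.2 ⟨1, ?_⟩
    rw [hs1]
    exact Or.inl (Or.inl (Or.inr (Or.inl rfl)))
  · intro a ha
    obtain ⟨i, hi⟩ := mem_iUnion.1 ha
    refine mem_iUnion.2 ⟨i + 1, ?_⟩
    rw [hs1]
    exact Or.inr (Or.inl ⟨a, hi, rfl⟩)
  · exact countable_iUnion hsc
  · intro x hx
    exact mem_iUnion.2 ⟨0, hx⟩
  · intro t ht j
    have ht' : ∀ j, ∃ k, t j ∈ s k := fun j => mem_iUnion.1 (ht j)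
    choose k hk using ht'
    refine mem_iUnion.2 ⟨Finset.univ.sup k + 1, ?_⟩
    rw [hs1]
    refine Or.inr (Or.inr (mem_iUnion.2 ⟨j, t, fun i => ?_, rfl⟩))
    exact hsm (Finset.le_sup (Finset.mem_univ i)) (hk i)

section

variable {E : Type} [NormedAddCommGroup E] [NormedSpace ℝ E] [FiniteDimensional ℝ E]
variable {K W : Set E} {r : E → E}

omit [FiniteDimensional ℝ E] in
/-- Solutions of extension problems in terms of bounded functions. -/
lemma exists_sol (h : Tgt K W r) {X : Type} [TopologicalSpace X] (hX : Ext X K) {N : ℕ}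
    (T : E ≃L[ℝ] (Fin N → ℝ)) {η : ℝ} (hη : cthickening η K ⊆ W) (s : Fin N → (X →ᵇ ℝ)) :
    ∃ t : Fin N → (X →ᵇ ℝ), (∀ x, T.symm (fun j => t j x) ∈ K) ∧
      ∀ x, T.symm (fun j => s j x) ∈ cthickening η K →
        T.symm (fun j => t j x) = r (T.symm (fun j => s j x)) := by
  let p : X → E := fun x => T.symm (fun j => s j x)
  have hp : Continuous p := T.symm.continuous.comp (continuous_pi (fun j => (s j).continuous))
  obtain ⟨q, hq, hqK, hqA⟩ := hX (p ⁻¹' (cthickening η K)) (r ∘ p)
    (isClosed_cthickening.preimage hp)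
    (h.cont.comp hp.continuousOn (fun x hx => hη hx)) (fun x hx => h.maps (hη hx))
  obtain ⟨M, hM⟩ := (h.compact.image T.continuous).isBounded.exists_norm_le
  refine ⟨fun j => BoundedContinuousFunction.ofNormedAddCommGroup (fun x => T (q x) j)
    (by fun_prop) M (fun x => ?_), ?_, ?_⟩
  · exact (norm_le_pi_norm (T (q x)) j).trans (hM _ ⟨q x, hqK x, rfl⟩)
  · intro x
    have : (fun j => T (q x) j) = T (q x) := rfl
    simp only [BoundedContinuousFunction.coe_ofNormedAddCommGroup]
    rw [this, T.symm_apply_apply]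
    exact hqK x
  · intro x hx
    have : (fun j => T (q x) j) = T (q x) := rfl
    simp only [BoundedContinuousFunction.coe_ofNormedAddCommGroup]
    rw [this, T.symm_apply_apply]
    exact hqA hx

/-- The compactification theorem for extension properties. -/
theorem compactification (h : Tgt K W r) {X : Type} [TopologicalSpace X]
    (hX : Ext X K) {n : ℕ} {f₀ : X → (Fin n → ℝ)} (hf₀ : IsEmbedding f₀) :
    ∃ (Z : Type) (_ : TopologicalSpace Z), CompactSpace Z ∧ MetrizableSpace Z ∧
      (∃ e : X → Z, IsEmbedding e ∧ DenseRange e) ∧ Ext Z K := by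
  classical
  obtain ⟨ε, hε, hclose⟩ := close_ext h
  obtain ⟨δ, hδ, hnear⟩ := h.near hε
  obtain ⟨δ', hδ', hW⟩ := h.compact.exists_cthickening_subset_open h.isOpen h.subset
  let η : ℝ := min δ' (δ / 2)
  have hη0 : 0 < η := lt_min hδ' (half_pos hδ)
  have hηW : cthickening η K ⊆ W := (cthickening_mono (min_le_left _ _) _).trans hW
  let N := Module.finrank ℝ E
  let T : E ≃L[ℝ] (Fin N → ℝ) := ContinuousLinearEquiv.ofFinrankEq (by simp [N])
  choose sol hsolK hsolr using exists_sol h hX T hηW
  -- base functions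
  let base : Fin n → (X →ᵇ ℝ) := fun i => BoundedContinuousFunction.ofNormedAddCommGroup
    (fun x => Real.arctan (f₀ x i)) (by
      have := hf₀.continuous
      exact Real.continuous_arctan.comp ((continuous_apply i).comp this)) (Real.pi / 2)
    (fun x => by
      rw [Real.norm_eq_abs, abs_le]
      exact ⟨(Real.neg_pi_div_two_lt_arctan _).le, (Real.arctan_lt_pi_div_two _).le⟩)
  obtain ⟨S, hSc, hS₀, hSsol⟩ := exists_countable_subring sol
    (S₀ := range base ∪ range (fun q : ℚ => BoundedContinuousFunction.const X (q : ℝ)))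
    ((countable_range _).union (countable_range _))
  have hSbase : ∀ i, base i ∈ S := fun i => hS₀ (Or.inl ⟨i, rfl⟩)
  have hSq : ∀ q : ℚ, BoundedContinuousFunction.const X (q : ℝ) ∈ S :=
    fun q => hS₀ (Or.inr ⟨q, rfl⟩)
  have : Countable S := hSc.to_subtype
  let ι : X → (S → ℝ) := fun x s => (s : X →ᵇ ℝ) x
  have hι : Continuous ι := continuous_pi (fun s => (s : X →ᵇ ℝ).continuous)
  let Z : Type := closure (range ι)
  have hcomp : IsCompact (closure (range ι)) := by
    have h1 : IsCompact (univ.pi (fun s : S => closedBall (0 : ℝ) ‖(s : X →ᵇ ℝ)‖)) :=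
      isCompact_univ_pi (fun s => isCompact_closedBall _ _)
    refine h1.of_isClosed_subset isClosed_closure (closure_minimal ?_ h1.isClosed)
    rintro _ ⟨x, rfl⟩ s _
    rw [mem_closedBall_zero_iff]
    exact (s : X →ᵇ ℝ).norm_coe_le_norm x
  have hZc : CompactSpace Z := isCompact_iff_compactSpace.1 hcomp
  let e : X → Z := fun x => ⟨ι x, subset_closure (mem_range_self x)⟩
  have he : Continuous e := hι.subtype_mk _
  have hdense : DenseRange e := by
    rw [DenseRange, Subtype.dense_iff]
    intro z hz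
    have : ((↑) '' (range e) : Set (S → ℝ)) = range ι := by
      rw [← range_comp]
      rfl
    rw [this]
    exact hz
  have hemb : IsEmbedding e := by
    let A : (Fin n → ℝ) → (Fin n → ℝ) := fun y i => Real.arctan (y i)
    have hA : IsEmbedding A := by
      have h1 : IsEmbedding Real.arctan :=
        IsEmbedding.subtypeVal.comp Real.tanOrderIso.symm.toHomeomorph.isEmbedding
      exact IsEmbedding.piMap (fun _ => h1)
    let π : Z → (Fin n → ℝ) := fun z i => z.1 ⟨base i, hSbase i⟩
    have hπ : Continuous π := by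
      refine continuous_pi (fun i => ?_)
      exact (continuous_apply _).comp continuous_subtype_val
    have hcompe : π ∘ e = A ∘ f₀ := by
      ext x i
      rfl
    exact IsEmbedding.of_comp he hπ (by rw [hcompe]; exact hA.comp hf₀)
  -- restriction homomorphism
  let φ : C(Z, ℝ) →+* (X →ᵇ ℝ) :=
    { toFun := fun g => (BoundedContinuousFunction.mkOfCompact g).compContinuous ⟨e, he⟩
      map_one' := by ext; simp
      map_mul' := by intros; ext; simp
      map_zero' := by ext; simp
      map_add' := by intros; ext; simp }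
  have hφ : ∀ g x, φ g x = g (e x) := fun g x => rfl
  let ev : S → C(Z, ℝ) := fun s => ⟨fun z => z.1 s, (continuous_apply s).comp
    continuous_subtype_val⟩
  have hev : ∀ s : S, φ (ev s) = s := by
    intro s
    ext x
    rfl
  let R₀ : Subring C(Z, ℝ) := S.comap φ
  have hevR : ∀ s : S, ev s ∈ R₀ := by
    intro s
    rw [Subring.mem_comap, hev]
    exact s.2
  have hconst : ∀ q : ℚ, ContinuousMap.const Z (q : ℝ) ∈ R₀ := by
    intro q
    rw [Subring.mem_comap]
    have h1 : φ (ContinuousMap.const Z (q : ℝ)) = BoundedContinuousFunction.const X (q : ℝ) := by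
      ext x
      rfl
    rw [h1]
    exact hSq q
  let A₀ : Subalgebra ℝ C(Z, ℝ) :=
    { R₀.topologicalClosure.toSubsemiring with
      algebraMap_mem' := by
        intro c
        have h1 : IsClosed {c : ℝ | ContinuousMap.const Z c ∈ closure (R₀ : Set C(Z, ℝ))} :=
          isClosed_closure.preimage ContinuousMap.continuous_const'
        have h2 : ∀ c : ℝ, ContinuousMap.const Z c ∈ closure (R₀ : Set C(Z, ℝ)) :=
          isClosed_property Rat.denseRange_cast h1 (fun q => subset_closure (hconst q))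
        exact h2 c }
  have hA₀ : ∀ g, g ∈ A₀ ↔ g ∈ closure (R₀ : Set C(Z, ℝ)) := fun g => Iff.rfl
  have hSW : A₀.topologicalClosure = ⊤ := by
    refine ContinuousMap.subalgebra_topologicalClosure_eq_top_of_separatesPoints A₀ ?_
    intro z z' hzz
    have : ∃ s, z.1 s ≠ z'.1 s := by
      by_contra hcon
      push Not at hcon
      exact hzz (Subtype.ext (funext hcon))
    obtain ⟨s, hs⟩ := this
    exact ⟨ev s, ⟨ev s, (hA₀ _).2 (subset_closure (hevR s)), rfl⟩, hs⟩
  have hR₀ : Dense (R₀ : Set C(Z, ℝ)) := by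
    intro g
    have h1 : g ∈ A₀.topologicalClosure := by rw [hSW]; trivial
    have h2 : g ∈ closure (A₀ : Set C(Z, ℝ)) := h1
    have h3 : (A₀ : Set C(Z, ℝ)) = closure (R₀ : Set C(Z, ℝ)) := rfl
    rw [h3, closure_closure] at h2
    exact h2
  refine ⟨Z, inferInstance, hZc, inferInstance, ⟨e, hemb, hdense⟩, ?_⟩
  intro B f hB hf hfK
  obtain ⟨f', hf', hff⟩ := tietze hB hf
  obtain ⟨ε₁, hε₁, hTu⟩ := Metric.uniformContinuous_iff.1
    (T.symm : (Fin N → ℝ) →L[ℝ] E).uniformContinuous η hη0
  have happ : ∀ j : Fin N, ∃ g ∈ R₀, ∀ z, dist (g z) (T (f' z) j) < ε₁ := by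
    intro j
    obtain ⟨g, hg, hgR⟩ := Metric.dense_iff.1 hR₀
      (⟨fun z => T (f' z) j, by fun_prop⟩ : C(Z, ℝ)) ε₁ hε₁
    refine ⟨g, hgR, ?_⟩
    exact (ContinuousMap.dist_lt_iff hε₁).1 hg
  choose g hgR hg using happ
  let p : Z → E := fun z => T.symm (fun j => g j z)
  have hp : Continuous p := T.symm.continuous.comp (continuous_pi (fun j => (g j).continuous))
  have hpf : ∀ z, dist (p z) (f' z) < η := by
    intro z
    have h1 : dist (fun j => g j z) (T (f' z)) < ε₁ := (dist_pi_lt_iff hε₁).2 (fun j => hg j z)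
    have h2 := hTu h1
    simp only [ContinuousLinearEquiv.coe_coe, T.symm_apply_apply] at h2
    exact h2
  let s : Fin N → (X →ᵇ ℝ) := fun j => φ (g j)
  have hsS : ∀ j, s j ∈ S := fun j => hgR j
  have htS : ∀ j, sol s j ∈ S := hSsol s hsS
  let q : Z → E := fun z => T.symm (fun j => ev ⟨sol s j, htS j⟩ z)
  have hq : Continuous q :=
    T.symm.continuous.comp (continuous_pi (fun j => (ev ⟨sol s j, htS j⟩).continuous))
  have hqe : ∀ x, q (e x) = T.symm (fun j => sol s j x) := fun x => rfl
  have hpe : ∀ x, p (e x) = T.symm (fun j => s j x) := fun x => rfl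
  have hqK : ∀ z, q z ∈ K :=
    isClosed_property hdense (h.compact.isClosed.preimage hq) (fun x => by
      rw [hqe]; exact hsolK s x)
  have hqB : ∀ b ∈ B, q b = r (p b) := by
    intro b hb
    by_contra hne
    have hbK : p b ∈ thickening η K :=
      mem_thickening_iff.2 ⟨f' b, by rw [hff hb]; exact hfK hb, hpf b⟩
    have hbW : p b ∈ W := hηW (thickening_subset_cthickening _ _ hbK)
    have h1 : ContinuousAt (fun z => r (p z)) b :=
      ContinuousAt.comp (h.cont.continuousAt (h.isOpen.mem_nhds hbW)) hp.continuousAt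
    have h2 : ∀ᶠ z in 𝓝 b, q z ≠ r (p z) := by
      have h4 : ContinuousAt (fun z => dist (q z) (r (p z))) b := hq.continuousAt.dist h1
      filter_upwards [h4.eventually (isOpen_Ioi.mem_nhds (dist_pos.2 hne))] with z hz
      exact dist_pos.1 hz
    have h3 : ∀ᶠ z in 𝓝 b, p z ∈ thickening η K :=
      hp.continuousAt.eventually (isOpen_thickening.mem_nhds hbK)
    obtain ⟨z, ⟨hz1, hz2⟩, x, rfl⟩ := mem_closure_iff_nhds.1 (hdense b) _ (h2.and h3)
    apply hz1
    rw [hqe, hpe]
    exact hsolr s x (thickening_subset_cthickening _ _ hz2)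
  refine hclose hB hf hfK (G := q) hq hqK ?_
  intro b hb
  rw [hqB b hb, dist_comm]
  refine (hnear (f b) (hfK hb) (p b) ?_).2
  have h1 := hpf b
  rw [hff hb] at h1
  have h2 : η ≤ δ / 2 := min_le_right _ _
  linarith

end

end Pool.Agent.Helper76.Menger
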