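import Pool.Agent.Helper76.QuatCover
import Pool.Agent.Helper76.Compactify

set_option autoImplicit false

namespace Pool.Agent.Helper76.Menger

open Set Topology Metric Filter TopologicalSpace Module

lemma tgt_prod {E E' : Type*} [TopologicalSpace E] [TopologicalSpace E'] {K W : Set E} {r : E → E}
    {K' W' : Set E'} {r' : E' → E'} (h : Tgt K W r) (h' : Tgt K' W' r') :
    Tgt (K ×ˢ K') (W ×ˢ W') (Prod.map r r') where
  compact := h.compact.prod h'.compact
  nonempty := h.nonempty.prod h'.nonempty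
  isOpen := h.isOpen.prod h'.isOpen
  subset := prod_mono h.subset h'.subset
  cont := h.cont.prodMap h'.cont
  maps := fun _ hx => ⟨h.maps hx.1, h'.maps hx.2⟩
  fix := fun x hx => Prod.ext (h.fix _ hx.1) (h'.fix _ hx.2)

lemma ext_prod {E E' : Type*} [TopologicalSpace E] [TopologicalSpace E'] {K : Set E}
    {K' : Set E'} {X : Type*} [TopologicalSpace X] (h : Ext X K) (h' : Ext X K') :
    Ext X (K ×ˢ K') := by
  intro A f hA hf hfK
  obtain ⟨F, hF, hFK, hFA⟩ := h A (fun x => (f x).1) hA (continuous_fst.comp_continuousOn hf)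
    (fun x hx => (hfK hx).1)
  obtain ⟨F', hF', hFK', hFA'⟩ := h' A (fun x => (f x).2) hA (continuous_snd.comp_continuousOn hf)
    (fun x hx => (hfK hx).2)
  exact ⟨fun x => (F x, F' x), hF.prodMk hF', fun x => ⟨hFK x, hFK' x⟩,
    fun x hx => Prod.ext (hFA hx) (hFA' hx)⟩

lemma ext_fst {E E' : Type*} [TopologicalSpace E] [TopologicalSpace E'] {K : Set E}
    {K' : Set E'} {X : Type*} [TopologicalSpace X] (h : Ext X (K ×ˢ K')) (hK' : K'.Nonempty) :
    Ext X K := by
  obtain ⟨y, hy⟩ := hK'
  intro A f hA hf hfK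
  obtain ⟨F, hF, hFK, hFA⟩ := h A (fun x => (f x, y)) hA (hf.prodMk continuousOn_const)
    (fun x hx => ⟨hfK hx, hy⟩)
  exact ⟨fun x => (F x).1, continuous_fst.comp hF, fun x => (hFK x).1,
    fun x hx => congrArg Prod.fst (hFA hx)⟩

lemma ext_snd {E E' : Type*} [TopologicalSpace E] [TopologicalSpace E'] {K : Set E}
    {K' : Set E'} {X : Type*} [TopologicalSpace X] (h : Ext X (K ×ˢ K')) (hK : K.Nonempty) :
    Ext X K' := by
  obtain ⟨y, hy⟩ := hK
  intro A f hA hf hfK
  obtain ⟨F, hF, hFK, hFA⟩ := h A (fun x => (y, f x)) hA (continuousOn_const.prodMk hf)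
    (fun x hx => ⟨hy, hfK hx⟩)
  exact ⟨fun x => (F x).2, continuous_snd.comp hF, fun x => (hFK x).2,
    fun x hx => congrArg Prod.snd (hFA hx)⟩

/-- The combined target. -/
def K12 : Set ((HQ × HQ) × (Fin 3 → ℝ)) := K1 ×ˢ sphere (0 : Fin 3 → ℝ) 1

/-- The neighbourhood of the combined target. -/
def W12 : Set ((HQ × HQ) × (Fin 3 → ℝ)) := W1 ×ˢ {0}ᶜ

lemma tgt_K12 : Tgt K12 W12 (Prod.map ret1 (fun x => ‖x‖⁻¹ • x)) := tgt_prod tgt_K1 tgt_sphere

lemma K12_pathConnected : IsPathConnected K12 := by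
  refine K1_pathConnected.prod (isPathConnected_sphere ?_ 0 zero_le_one)
  rw [← finrank_eq_rank ℝ (Fin 3 → ℝ)]
  simp

lemma memU_pi {n : ℕ} {X : Type} [TopologicalSpace X] (h : MemU n X) :
    ∃ f : X → (Fin n → ℝ), IsEmbedding f := by
  obtain ⟨f, hf⟩ := h
  exact ⟨_, (EuclideanSpace.equiv (Fin n) ℝ).toHomeomorph.isEmbedding.comp hf⟩

lemma not_indLT_le {k : ℕ} {X : Type} [TopologicalSpace X] (h : ¬ IndLT k X) :
    ((k : ℤ) : EInt) ≤ ind X := by
  unfold ind
  refine le_iInf₂ (fun l hl => ?_)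
  have h1 : k + 1 ≤ l := by
    by_contra hlt
    exact h (hl.mono (by omega))
  have h3 : (k : ℤ) ≤ (l : ℤ) - 1 := by omega
  exact WithBotTop.coe_le_coe.2 h3

lemma ind_le_one_iff (X : Type) [TopologicalSpace X] : ind X ≤ ((1 : ℤ) : EInt) ↔ IndLT 2 X := by
  have := ind_le_iff 2 X
  norm_num at this
  exact this

lemma ind_le_two_iff (X : Type) [TopologicalSpace X] : ind X ≤ ((2 : ℤ) : EInt) ↔ IndLT 3 X := by
  have := ind_le_iff 3 X
  norm_num at this
  exact this

/-- Compactifications within the class. -/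
lemma compactification12 {n : ℕ} (hn : 5 ≤ n) {X : Type} [TopologicalSpace X] (hX : MemU n X)
    (h : Ext X K12) : ∃ (Z : Type) (_ : TopologicalSpace Z), CompactSpace Z ∧ MemU n Z ∧
      (∃ e : X → Z, IsEmbedding e ∧ DenseRange e) ∧ Ext Z K12 ∧ IndLT 3 Z := by
  obtain ⟨f, hf⟩ := memU_pi hX
  obtain ⟨Z, hZt, hZc, hZm, he, hZ⟩ := compactification tgt_K12 h hf
  have hSR : SR 3 Z := sr_of_ext (ext_snd hZ tgt_K1.nonempty)
  exact ⟨Z, hZt, hZc, hSR.memU hn, he, hZ, hSR.indLT⟩

lemma indLT_three_of_ext {n : ℕ} (hn : 5 ≤ n) {X : Type} [TopologicalSpace X] (hX : MemU n X)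
    (h : Ext X K12) : IndLT 3 X := by
  obtain ⟨Z, hZt, hZc, hZU, ⟨e, he, -⟩, hZ, hZ3⟩ := compactification12 hn hX h
  exact hZ3.of_isEmbedding he

lemma not_ext_euclidean {m : ℕ} (hm : 2 ≤ m) : ¬ Ext (EuclideanSpace ℝ (Fin m)) K12 := by
  intro h
  have h1 := ext_fst h tgt_sphere.nonempty
  apply not_ext_plane
  let L : ℂ →ₗ[ℝ] EuclideanSpace ℝ (Fin m) :=
    { toFun := fun z => (EuclideanSpace.equiv (Fin m) ℝ).symm
        (fun i => if (i : ℕ) = 0 then z.re else if (i : ℕ) = 1 then z.im else 0)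
      map_add' := by
        intro x y
        rw [← map_add]
        congr 1
        ext i
        simp only [Complex.add_re, Complex.add_im, Pi.add_apply]
        split_ifs <;> simp
      map_smul' := by
        intro c x
        rw [← map_smul]
        congr 1
        ext i
        simp only [Complex.real_smul, Complex.re_ofReal_mul, Complex.im_ofReal_mul,
          RingHom.id_apply, Pi.smul_apply, smul_eq_mul]
        split_ifs <;> simp }
  have hL : Function.Injective L := by
    intro x y hxy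
    have h2 := (EuclideanSpace.equiv (Fin m) ℝ).symm.injective hxy
    have h3 := congrFun h2 ⟨0, by omega⟩
    have h4 := congrFun h2 ⟨1, by omega⟩
    simp at h3 h4
    exact Complex.ext h3 h4
  exact Ext.of_isClosedEmbedding (LinearMap.isClosedEmbedding_of_injective
    (LinearMap.ker_eq_bot.2 hL)) h1

open Classical in
/-- The exotic dimension function. -/
noncomputable def dd (X : Type) [TopologicalSpace X] : EInt :=
  if Ext X K12 then min (ind X) ((1 : ℤ) : EInt) else ind X

lemma dd_le_ind (X : Type) [TopologicalSpace X] : dd X ≤ ind X := by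
  unfold dd
  split_ifs
  · exact min_le_left _ _
  · exact le_rfl

lemma dd_of_ext {X : Type} [TopologicalSpace X] (h : Ext X K12) :
    dd X = min (ind X) ((1 : ℤ) : EInt) := by
  unfold dd
  rw [if_pos h]

lemma dd_of_not_ext {X : Type} [TopologicalSpace X] (h : ¬ Ext X K12) : dd X = ind X := by
  unfold dd
  rw [if_neg h]

lemma dd_of_ind_le {X : Type} [TopologicalSpace X] (h : ind X ≤ ((1 : ℤ) : EInt)) :
    dd X = ind X := by
  by_cases h' : Ext X K12
  · rw [dd_of_ext h', min_eq_left h]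
  · rw [dd_of_not_ext h']

theorem dd_axioms {n : ℕ} (hn : 5 ≤ n) (hax : MengerAxioms n ind) : MengerAxioms n dd where
  invariant := by
    rintro X Y _ _ hX ⟨e⟩
    have h1 := hax.invariant X Y hX ⟨e⟩
    by_cases h : Ext X K12
    · rw [dd_of_ext h, dd_of_ext (h.homeomorph e.symm), h1]
    · rw [dd_of_not_ext h, dd_of_not_ext (fun h' => h (h'.homeomorph e)), h1]
  empty := by
    rw [dd_of_ind_le, hax.empty]
    rw [hax.empty]
    exact WithBotTop.coe_le_coe.2 (by norm_num)
  point := by
    rw [dd_of_ind_le, hax.point]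
    rw [hax.point]
    exact WithBotTop.coe_le_coe.2 (by norm_num)
  euclidean := by
    intro m hm hmn
    have h1 := hax.euclidean m hm hmn
    by_cases hm1 : m = 1
    · rw [dd_of_ind_le, h1]
      rw [h1, hm1]
      exact WithBotTop.coe_le_coe.2 (by norm_num)
    · rw [dd_of_not_ext (not_ext_euclidean (by omega)), h1]
  subspace := by
    intro X _ hX Y
    have := hX.metrizable
    have h1 := hax.subspace X hX Y
    by_cases h : Ext X K12
    · rw [dd_of_ext h, dd_of_ext (Ext.subspace tgt_K12 h Y)]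
      exact min_le_min_right _ h1
    · rw [dd_of_not_ext h]
      exact (dd_le_ind _).trans h1
  closed_sum := by
    intro X _ hX A hA hcov
    have := hX.metrizable
    have h1 := hax.closed_sum X hX A hA hcov
    by_cases h : ∀ i, Ext (A i) K12
    · have hn : NormalSpace X := by
        let _ := metrizableSpaceMetric X
        infer_instance
      have hXE : Ext X K12 := ext_sum tgt_K12 A hA hcov h
      rw [dd_of_ext hXE]
      by_cases h2 : ∃ i, ((1 : ℤ) : EInt) ≤ ind (A i)
      · obtain ⟨i, hi⟩ := h2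
        refine (min_le_right _ _).trans ?_
        refine le_trans ?_ (le_iSup _ i)
        rw [dd_of_ext (h i), min_eq_right hi]
      · push Not at h2
        refine (min_le_left _ _).trans (h1.trans (iSup_mono (fun i => ?_)))
        rw [dd_of_ext (h i), min_eq_left (h2 i).le]
    · push Not at h
      obtain ⟨j, hj⟩ := h
      have h2 : ((2 : ℤ) : EInt) ≤ ⨆ i, dd (A i) := by
        refine le_trans ?_ (le_iSup _ j)
        rw [dd_of_not_ext hj]
        refine not_indLT_le (k := 2) ?_
        intro h3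
        exact hj (ext_of_indLT_two hax (hX.subtype _) h3 tgt_K12 K12_pathConnected)
      refine (dd_le_ind _).trans (h1.trans (iSup_le (fun i => ?_)))
      by_cases h3 : Ext (A i) K12
      · refine le_trans ?_ h2
        rw [ind_le_two_iff]
        exact indLT_three_of_ext hn (hX.subtype _) h3
      · refine le_trans ?_ (le_iSup _ i)
        rw [dd_of_not_ext h3]
  compactification := by
    intro X _ hX
    obtain ⟨Z, hZt, hZc, hZU, ⟨e, he, hed⟩, hZX⟩ := hax.compactification X hX
    have hZm := hZU.metrizable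
    by_cases h : Ext X K12
    · by_cases h2 : IndLT 2 X
      · have h3 : ind X ≤ ((1 : ℤ) : EInt) := (ind_le_one_iff X).2 h2
        refine ⟨Z, hZt, hZc, hZU, ⟨e, he, hed⟩, ?_⟩
        rw [dd_of_ind_le h3, dd_of_ind_le (by rw [hZX]; exact h3), hZX]
      · have h3 : ((1 : ℤ) : EInt) ≤ ind X := by
          refine le_trans ?_ (not_indLT_le h2)
          exact WithBotTop.coe_le_coe.2 (by norm_num)
        obtain ⟨Z', hZt', hZc', hZU', ⟨e', he', hed'⟩, hZ', hZ3'⟩ := compactification12 hn hX h
        refine ⟨Z', hZt', hZc', hZU', ⟨e', he', hed'⟩, ?_⟩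
        have h4 : ((1 : ℤ) : EInt) ≤ ind Z' := by
          have h5 : ¬ IndLT 2 Z' := fun h6 => h2 (h6.of_isEmbedding he')
          refine le_trans ?_ (not_indLT_le h5)
          exact WithBotTop.coe_le_coe.2 (by norm_num)
        rw [dd_of_ext h, dd_of_ext hZ', min_eq_right h3, min_eq_right h4]
    · refine ⟨Z, hZt, hZc, hZU, ⟨e, he, hed⟩, ?_⟩
      have h2 : ¬ Ext Z K12 := fun h3 => h (Ext.of_isEmbedding tgt_K12 h3 he)
      rw [dd_of_not_ext h, dd_of_not_ext h2, hZX]

lemma circle_pathConnected : IsPathConnected (sphere (0 : ℂ) 1) := by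
  refine isPathConnected_sphere ?_ 0 zero_le_one
  rw [← finrank_eq_rank ℝ ℂ, Complex.finrank_real_complex]
  norm_num

theorem main_of_example {P : Type} [TopologicalSpace P] [CompactSpace P] [MetrizableSpace P]
    (h1 : Ext P K12) (h2 : ¬ Ext P (sphere (0 : ℂ) 1)) {n : ℕ} (hn : 5 ≤ n) :
    ¬ (MengerAxioms n ind ∧ ∀ d : (X : Type) → [TopologicalSpace X] → EInt,
      MengerAxioms n d → ∀ (X : Type) [TopologicalSpace X], MemU n X → d X = ind X) := by
  rintro ⟨hax, huniq⟩
  have hP : MemU n P := (sr_of_ext (ext_snd h1 tgt_K1.nonempty)).memU hn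
  have h3 := huniq dd (dd_axioms hn hax) P hP
  rw [dd_of_ext h1] at h3
  have h4 : ind P ≤ ((1 : ℤ) : EInt) := by
    rw [← h3]
    exact min_le_right _ _
  rw [ind_le_one_iff] at h4
  exact h2 (ext_of_indLT_two hax hP h4 tgt_sphere circle_pathConnected)

end Pool.Agent.Helper76.Menger
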