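import Pool.Agent.Helper76.Barthe

set_option autoImplicit false

open MeasureTheory Set ENNReal Filter Topology Pointwise

namespace Pool.Agent.Helper76

lemma radon {d : ℕ} {a b α β : ℝ} (ha : 0 < a) (hb : 0 < b) (hα : 0 < α) (hβ : 0 < β) :
    (a + b) ^ (d + 1) / (α + β) ^ d ≤ a ^ (d + 1) / α ^ d + b ^ (d + 1) / β ^ d := by
  have hs : 0 < α + β := by positivity
  have m1 : a / α ∈ Ici (0:ℝ) := by simp only [mem_Ici]; positivity
  have m2 : b / β ∈ Ici (0:ℝ) := by simp only [mem_Ici]; positivity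
  have w1 : 0 ≤ α / (α + β) := by positivity
  have w2 : 0 ≤ β / (α + β) := by positivity
  have h := (convexOn_pow (d + 1)).2 m1 m2 w1 w2 (by field_simp)
  simp only [smul_eq_mul] at h
  have e1 : α / (α + β) * (a / α) + β / (α + β) * (b / β) = (a + b) / (α + β) := by
    field_simp
  rw [e1] at h
  have h2 := mul_le_mul_of_nonneg_left h hs.le
  have e2 : (α + β) * ((a + b) / (α + β)) ^ (d + 1) = (a + b) ^ (d + 1) / (α + β) ^ d := by
    rw [div_pow, pow_succ (α + β) d]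
    field_simp
  have e3 : (α + β) * (α / (α + β) * (a / α) ^ (d + 1) + β / (α + β) * (b / β) ^ (d + 1)) =
      a ^ (d + 1) / α ^ d + b ^ (d + 1) / β ^ d := by
    rw [div_pow, div_pow, pow_succ α d, pow_succ β d]
    field_simp
  rw [e2, e3] at h2
  exact h2

lemma exists_root {k : ℕ} (hk : k ≠ 0) {y : ℝ} (hy : 0 < y) : ∃ a : ℝ, 0 < a ∧ (a ^ k)⁻¹ = y := by
  refine ⟨(y⁻¹) ^ ((k : ℝ)⁻¹), by positivity, ?_⟩
  rw [Real.rpow_inv_natCast_pow (by positivity) hk, inv_inv]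

lemma exists_root_ennreal {k : ℕ} (hk : k ≠ 0) {y : ℝ≥0∞} (hy : y ≠ 0) (hy' : y ≠ ∞) :
    ∃ a : ℝ, 0 < a ∧ y = ENNReal.ofReal ((a ^ k)⁻¹) := by
  obtain ⟨a, ha, h⟩ := exists_root hk (ENNReal.toReal_pos hy hy')
  exact ⟨a, ha, by rw [h, ENNReal.ofReal_toReal hy']⟩

/-- One-dimensional Borell-Brascamp-Lieb inequality for the exponent `-1/(d+1)`. -/
lemma bbl {d : ℕ} (f g h : ℝ → ℝ≥0∞) (hf : Measurable f) (hg : Measurable g) (hh : Measurable h)
    (hfb : (⨆ x, f x) ≠ ∞) (hgb : (⨆ x, g x) ≠ ∞) {α β : ℝ} (hα : 0 < α) (hβ : 0 < β)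
    (hA : (d : ℝ≥0∞) * ∫⁻ x, f x = ENNReal.ofReal ((α ^ d)⁻¹))
    (hB : (d : ℝ≥0∞) * ∫⁻ x, g x = ENNReal.ofReal ((β ^ d)⁻¹))
    (H : ∀ (u v a b : ℝ), 0 < a → 0 < b → ENNReal.ofReal ((a ^ (d + 1))⁻¹) ≤ f u →
      ENNReal.ofReal ((b ^ (d + 1))⁻¹) ≤ g v →
      ENNReal.ofReal (((a + b) ^ (d + 1))⁻¹) ≤ h (u + v)) :
    ENNReal.ofReal (((α + β) ^ d)⁻¹) ≤ (d : ℝ≥0∞) * ∫⁻ x, h x := by
  have hf0 : (⨆ x, f x) ≠ 0 := by
    intro h0
    have : ∀ x, f x = 0 := fun x => le_antisymm ((le_iSup f x).trans h0.le) bot_le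
    simp_rw [this] at hA
    simp only [lintegral_zero, mul_zero] at hA
    have : (0:ℝ) < (α ^ d)⁻¹ := by positivity
    exact absurd (ENNReal.ofReal_pos.2 this) (by rw [← hA]; simp)
  have hg0 : (⨆ x, g x) ≠ 0 := by
    intro h0
    have : ∀ x, g x = 0 := fun x => le_antisymm ((le_iSup g x).trans h0.le) bot_le
    simp_rw [this] at hB
    simp only [lintegral_zero, mul_zero] at hB
    have : (0:ℝ) < (β ^ d)⁻¹ := by positivity
    exact absurd (ENNReal.ofReal_pos.2 this) (by rw [← hB]; simp)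
  obtain ⟨a, ha, hFa⟩ := exists_root_ennreal (Nat.succ_ne_zero d) hf0 hfb
  obtain ⟨b, hb, hGb⟩ := exists_root_ennreal (Nat.succ_ne_zero d) hg0 hgb
  have key := level_ineq (Finset.univ : Finset Bool) (fun _ => 1) (fun _ _ => one_pos)
    (fun j => bif j then f else g) (by intro j _; cases j <;> simpa)
    (fun j => bif j then (⨆ x, f x) else (⨆ x, g x)) (by intro j _; cases j <;> rfl)
    (by intro j _; cases j; exacts [hg0, hf0]) (by intro j _; cases j; exacts [hgb, hfb])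
    h hh (ENNReal.ofReal (((a + b) ^ (d + 1))⁻¹)) ENNReal.ofReal_ne_top (by
      intro t ht x hx
      rcases eq_or_ne t 0 with rfl | ht0
      · simp
      obtain ⟨r, hr, htr⟩ := exists_root_ennreal (Nat.succ_ne_zero d) ht0 (ne_top_of_lt ht)
      have h1 := hx true (Finset.mem_univ _)
      have h2 := hx false (Finset.mem_univ _)
      simp only [cond_true, cond_false] at h1 h2
      rw [hFa, htr, ← ENNReal.ofReal_mul (by positivity)] at h1
      rw [hGb, htr, ← ENNReal.ofReal_mul (by positivity)] at h2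
      have h3 := H (x true) (x false) (r * a) (r * b) (by positivity) (by positivity)
        (by refine le_trans (le_of_eq ?_) h1.le; congr 1; rw [mul_pow, mul_inv])
        (by refine le_trans (le_of_eq ?_) h2.le; congr 1; rw [mul_pow, mul_inv])
      rw [htr, ← ENNReal.ofReal_mul (by positivity)]
      have e : ∑ j ∈ (Finset.univ : Finset Bool), (1:ℝ) * x j = x true + x false := by
        simp
      rw [e]
      refine le_trans (le_of_eq ?_) h3
      congr 1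
      rw [← mul_inv, ← mul_pow, mul_add])
  have e1 : ∑ j ∈ (Finset.univ : Finset Bool), ENNReal.ofReal 1 *
      ((∫⁻ x, (bif j then f else g) x) / (bif j then (⨆ x, f x) else (⨆ x, g x))) =
      (∫⁻ x, f x) / (⨆ x, f x) + (∫⁻ x, g x) / (⨆ x, g x) := by
    simp
  rw [e1] at key
  refine le_trans ?_ (mul_le_mul' (le_refl (d : ℝ≥0∞)) key)
  have e2 : (d : ℝ≥0∞) * (ENNReal.ofReal (((a + b) ^ (d + 1))⁻¹) *
      ((∫⁻ x, f x) / (⨆ x, f x) + (∫⁻ x, g x) / (⨆ x, g x))) =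
      ENNReal.ofReal (((a + b) ^ (d + 1))⁻¹) * (((d : ℝ≥0∞) * ∫⁻ x, f x) / (⨆ x, f x) +
        ((d : ℝ≥0∞) * ∫⁻ x, g x) / (⨆ x, g x)) := by
    simp only [div_eq_mul_inv]
    ring
  rw [e2, hA, hB, hFa, hGb, ← ENNReal.ofReal_div_of_pos (by positivity),
    ← ENNReal.ofReal_div_of_pos (by positivity), ← ENNReal.ofReal_add (by positivity)
    (by positivity), ← ENNReal.ofReal_mul (by positivity)]
  apply ENNReal.ofReal_le_ofReal
  have h4 := radon (d := d) ha hb hα hβ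
  have h5 : 0 < (a + b) ^ (d + 1) := by positivity
  have e3 : ((a + b) ^ (d + 1))⁻¹ * ((α ^ d)⁻¹ / (a ^ (d + 1))⁻¹ + (β ^ d)⁻¹ / (b ^ (d + 1))⁻¹) =
      ((a + b) ^ (d + 1))⁻¹ * (a ^ (d + 1) / α ^ d + b ^ (d + 1) / β ^ d) := by
    field_simp
  rw [e3]
  calc ((α + β) ^ d)⁻¹ = ((a + b) ^ (d + 1))⁻¹ * ((a + b) ^ (d + 1) / (α + β) ^ d) := by
        field_simp
    _ ≤ _ := by gcongr

end Pool.Agent.Helper76
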