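import Pool.Agent.Helper76.PL

set_option autoImplicit false

open MeasureTheory Set ENNReal Filter Topology Pointwise

namespace Pool.Agent.Helper76

/-- The coordinate form of Barthe's reverse Brascamp-Lieb inequality, with weights `c` for which
every coordinate in `T` is covered with total weight one; both Prekopa-Leindler and
Liakopoulos' inequality are special cases. -/
theorem barthe_coord {ι : Type*} [Fintype ι] [DecidableEq ι] {J : Type*} [Fintype J]
    [DecidableEq J] (T : Finset ι) (τ : J → Finset ι) (hτ : ∀ j, τ j ⊆ T)
    (c : J → ℝ) (hc : ∀ j, 0 < c j)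
    (hcov : ∀ i ∈ T, ∑ j ∈ Finset.univ.filter (fun j => i ∈ τ j), c j = 1)
    (g : (ι → ℝ) → ℝ≥0∞) (hg : Measurable g)
    (f : J → (ι → ℝ) → ℝ≥0∞) (hf : ∀ j, Measurable (f j))
    (x0 : ι → ℝ) (y0 : J → ι → ℝ)
    (H : ∀ (x : ι → ℝ) (y : J → ι → ℝ), (∀ i, i ∉ T → x i = x0 i) →
      (∀ j, ∀ i, i ∉ τ j → y j i = y0 j i) →
      (∀ i ∈ T, x i = ∑ j ∈ Finset.univ.filter (fun j => i ∈ τ j), c j * y j i) →
      ∏ j, f j (y j) ^ c j ≤ g x) :
    ∏ j, (lmarginal (fun _ => volume) (τ j) (f j) (y0 j)) ^ c j ≤
      lmarginal (fun _ => volume) T g x0 := by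
  classical
  have claim : ∀ S : Finset ι, S ⊆ T → ∀ (x : ι → ℝ) (y : J → ι → ℝ),
      (∀ i, i ∉ T → x i = x0 i) → (∀ j, ∀ i, i ∉ τ j → y j i = y0 j i) →
      (∀ i ∈ T, i ∉ S → x i = ∑ j ∈ Finset.univ.filter (fun j => i ∈ τ j), c j * y j i) →
      ∏ j, (lmarginal (fun _ => volume) (S ∩ τ j) (f j) (y j)) ^ c j ≤
        lmarginal (fun _ => volume) S g x := by
    intro S
    induction S using Finset.induction_on with
    | empty =>
      intro _ x y hx hy hxy
      simp only [Finset.empty_inter, lmarginal_empty]
      exact H x y hx hy (fun i hi => hxy i hi (Finset.notMem_empty i))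
    | insert i S hi ih =>
      intro hS x y hx hy hxy
      have hiT : i ∈ T := hS (Finset.mem_insert_self i S)
      have hST : S ⊆ T := fun k hk => hS (Finset.mem_insert_of_mem hk)
      rw [lmarginal_insert g hg hi x]
      have h1 : ∀ j, i ∈ τ j → lmarginal (fun _ => volume) (insert i S ∩ τ j) (f j) (y j) =
          ∫⁻ t, lmarginal (fun _ => volume) (S ∩ τ j) (f j) (Function.update (y j) i t) := by
        intro j hj
        rw [Finset.insert_inter_of_mem hj, lmarginal_insert (f j) (hf j)
          (fun h => hi (Finset.mem_inter.1 h).1)]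
      have h2 : ∀ j, i ∉ τ j → lmarginal (fun _ => volume) (insert i S ∩ τ j) (f j) (y j) =
          lmarginal (fun _ => volume) (S ∩ τ j) (f j) (y j) := by
        intro j hj
        rw [Finset.insert_inter_of_notMem hj]
      rw [← Finset.prod_filter_mul_prod_filter_not Finset.univ (fun j => i ∈ τ j), mul_comm]
      rw [Finset.prod_congr rfl (g := fun j => (∫⁻ t, lmarginal (fun _ => volume) (S ∩ τ j) (f j)
        (Function.update (y j) i t)) ^ c j) (s₁ := Finset.univ.filter (fun j => i ∈ τ j))
        (fun j hj => by rw [h1 j (Finset.mem_filter.1 hj).2])]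
      rw [Finset.prod_congr rfl (g := fun j => (lmarginal (fun _ => volume) (S ∩ τ j) (f j)
        (y j)) ^ c j) (s₁ := Finset.univ.filter (fun j => ¬ i ∈ τ j))
        (fun j hj => by rw [h2 j (Finset.mem_filter.1 hj).2])]
      refine pl_one_const (Finset.univ.filter (fun j => i ∈ τ j)) c (fun j _ => hc j)
        (hcov i hiT) (fun j t => lmarginal (fun _ => volume) (S ∩ τ j) (f j)
        (Function.update (y j) i t)) ?_
        (fun t => lmarginal (fun _ => volume) S g (Function.update x i t)) ?_ _ ?_
      · intro j _
        exact ((hf j).lmarginal (fun _ => volume)).comp (measurable_update _)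
      · exact (hg.lmarginal (fun _ => volume)).comp (measurable_update _)
      · intro t
        have h3 := ih hST (Function.update x i (∑ j ∈ Finset.univ.filter (fun j => i ∈ τ j),
          c j * t j)) (fun j => if i ∈ τ j then Function.update (y j) i (t j) else y j) ?_ ?_ ?_
        · refine le_trans (le_of_eq ?_) h3
          rw [← Finset.prod_filter_mul_prod_filter_not Finset.univ (fun j => i ∈ τ j), mul_comm]
          congr 1
          · refine Finset.prod_congr rfl fun j hj => ?_
            rw [if_pos (Finset.mem_filter.1 hj).2]
          · refine Finset.prod_congr rfl fun j hj => ?_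
            rw [if_neg (Finset.mem_filter.1 hj).2]
        · intro k hk
          have hki : k ≠ i := fun h => hk (h ▸ hiT)
          rw [Function.update_of_ne hki]
          exact hx k hk
        · intro j k hk
          by_cases hj : i ∈ τ j
          · have hki : k ≠ i := fun h => hk (h ▸ hj)
            simp only [if_pos hj]
            rw [Function.update_of_ne hki]
            exact hy j k hk
          · simp only [if_neg hj]
            exact hy j k hk
        · intro k hk hkS
          by_cases hki : k = i
          · subst hki
            rw [Function.update_self]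
            refine Finset.sum_congr rfl fun j hj => ?_
            simp only [if_pos (Finset.mem_filter.1 hj).2]
            rw [Function.update_self]
          · rw [Function.update_of_ne hki, hxy k hk (by simp [hki, hkS])]
            refine Finset.sum_congr rfl fun j _ => ?_
            by_cases hj : i ∈ τ j
            · simp only [if_pos hj]
              rw [Function.update_of_ne hki]
            · simp only [if_neg hj]
  have h := claim T (le_refl _) x0 y0 (fun _ _ => rfl) (fun _ _ _ => rfl)
    (fun i hi hi' => absurd hi hi')
  simp_rw [fun j => Finset.inter_eq_right.2 (hτ j)] at h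
  exact h

end Pool.Agent.Helper76
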