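import Pool.Agent.Helper76.GenPos

set_option autoImplicit false

namespace Pool.Agent.Helper76.Menger

open Set Topology Metric Filter TopologicalSpace

section

variable {Z : Type} [TopologicalSpace Z] [CompactSpace Z] [MetrizableSpace Z]

/-- Generic families: three functions with different first index avoid any grid triple. -/
lemma generic_family (h : SR 3 Z) {ι : Type} [Fintype ι] {η : ℝ} (hη : 0 < η)
    (b : ι → C(Z, ℝ)) :
    ∃ a : Fin 5 × ι → C(Z, ℝ), (∀ p z, dist (a p z) (b p.2 z) < η) ∧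
      ∀ p q r : Fin 5 × ι, p.1 ≠ q.1 → p.1 ≠ r.1 → q.1 ≠ r.1 → ∀ l m n : ℤ, ∀ z,
        ¬ (a p z = η * l ∧ a q z = η * m ∧ a r z = η * n) := by
  classical
  let _ := metrizableSpaceMetric Z
  let Idx := {t : (Fin 5 × ι) × (Fin 5 × ι) × (Fin 5 × ι) //
    t.1.1 ≠ t.2.1.1 ∧ t.1.1 ≠ t.2.2.1 ∧ t.2.1.1 ≠ t.2.2.1} × (ℤ × ℤ × ℤ)
  let G : Idx → Set (Fin 5 × ι → C(Z, ℝ)) := fun t => {a | ∀ z,
    ¬ (a t.1.1.1 z = η * t.2.1 ∧ a t.1.1.2.1 z = η * t.2.2.1 ∧ a t.1.1.2.2 z = η * t.2.2.2)}
  have hopen : ∀ t, IsOpen (G t) := by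
    rintro ⟨⟨⟨p, q, r⟩, hpq, hpr, hqr⟩, l, m, n⟩
    let Ψ : (Fin 5 × ι → C(Z, ℝ)) → C(Z, ℝ × ℝ × ℝ) := fun a =>
      (a p).prodMk ((a q).prodMk (a r))
    have hΨ : Continuous Ψ := by
      simp only [Ψ]
      refine ContinuousMap.continuous_of_continuous_uncurry _ ?_
      have h1 : ∀ s : Fin 5 × ι, Continuous (fun x : (Fin 5 × ι → C(Z, ℝ)) × Z => x.1 s x.2) := by
        intro s
        have : Continuous (fun x : (Fin 5 × ι → C(Z, ℝ)) × Z => (x.1 s, x.2)) := by fun_prop
        exact continuous_eval.comp this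
      exact (h1 p).prodMk ((h1 q).prodMk (h1 r))
    have h2 : G ⟨⟨⟨p, q, r⟩, hpq, hpr, hqr⟩, l, m, n⟩ = Ψ ⁻¹' {g | MapsTo g univ
        {((η * l, η * m, η * n) : ℝ × ℝ × ℝ)}ᶜ} := by
      ext a
      simp only [G, mem_ofPred_eq, mem_preimage]
      constructor
      · intro ha z _ hz
        apply ha z
        simp only [mem_singleton_iff, Prod.ext_iff] at hz
        exact hz
      · intro ha z hz
        apply ha (mem_univ z)
        simp only [mem_singleton_iff, Prod.ext_iff]
        exact hz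
    rw [h2]
    exact (ContinuousMap.isOpen_setOfPred_mapsTo isCompact_univ isOpen_compl_singleton).preimage hΨ
  have hdense : ∀ t, Dense (G t) := by
    rintro ⟨⟨⟨p, q, r⟩, hpq, hpr, hqr⟩, l, m, n⟩
    rw [Metric.dense_iff]
    intro a₁ δ hδ
    obtain ⟨g, hg0, hg⟩ := h ⟨fun z => ![a₁ p z - η * l, a₁ q z - η * m, a₁ r z - η * n], by
      refine continuous_pi (fun i => ?_)
      fin_cases i
      · simp only [Fin.zero_eta, Matrix.cons_val_zero]; fun_prop
      · simp only [Fin.mk_one, Matrix.cons_val_one]; fun_prop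
      · simp only [Fin.reduceFinMk, Matrix.cons_val]; fun_prop⟩ (δ / 2) (by positivity)
    have hqp : q.1 ≠ p.1 := hpq.symm
    have hqp' : q ≠ p := fun e => hqp (by rw [e])
    have hrp' : r ≠ p := fun e => hpr (by rw [e])
    have hrq' : r ≠ q := fun e => hqr (by rw [e])
    let a : Fin 5 × ι → C(Z, ℝ) := fun s =>
      if s = p then ⟨fun z => g z 0 + η * l, by fun_prop⟩
      else if s = q then ⟨fun z => g z 1 + η * m, by fun_prop⟩
      else if s = r then ⟨fun z => g z 2 + η * n, by fun_prop⟩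
      else a₁ s
    have hap : ∀ z, a p z = g z 0 + η * l := by intro z; simp [a]
    have haq : ∀ z, a q z = g z 1 + η * m := by intro z; simp [a, hqp']
    have har : ∀ z, a r z = g z 2 + η * n := by intro z; simp [a, hrp', hrq']
    refine ⟨a, ?_, ?_⟩
    · rw [mem_ball, dist_pi_lt_iff hδ]
      intro s
      refine lt_of_le_of_lt ?_ (half_lt_self hδ)
      rw [ContinuousMap.dist_le (by positivity)]
      intro z
      have h1 := (dist_pi_lt_iff (half_pos hδ)).1 (hg z)
      by_cases hs : s = p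
      · rw [hs, hap, Real.dist_eq]
        have := h1 0
        simp only [ContinuousMap.coe_mk, Matrix.cons_val_zero, Real.dist_eq] at this
        rw [abs_sub_comm] at this
        rw [show g z 0 + η * l - a₁ p z = g z 0 - (a₁ p z - η * l) by ring]
        exact this.le
      by_cases hs' : s = q
      · rw [hs', haq, Real.dist_eq]
        have := h1 1
        simp only [ContinuousMap.coe_mk, Matrix.cons_val_one, Real.dist_eq] at this
        rw [abs_sub_comm] at this
        rw [show g z 1 + η * m - a₁ q z = g z 1 - (a₁ q z - η * m) by ring]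
        exact this.le
      by_cases hs'' : s = r
      · rw [hs'', har, Real.dist_eq]
        have := h1 2
        simp only [ContinuousMap.coe_mk, Matrix.cons_val, Real.dist_eq] at this
        rw [abs_sub_comm] at this
        rw [show g z 2 + η * n - a₁ r z = g z 2 - (a₁ r z - η * n) by ring]
        exact this.le
      · simp only [a, hs, hs', hs'', if_false, dist_self]
        positivity
    · intro z hz
      simp only [hap, haq, har] at hz
      apply hg0 z
      ext i
      fin_cases i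
      · simpa using hz.1
      · simpa using hz.2.1
      · simpa using hz.2.2
  have hdd := dense_iInter_of_isOpen hopen hdense
  obtain ⟨a, ha, haG⟩ := Metric.dense_iff.1 hdd (fun p => b p.2) η hη
  refine ⟨a, ?_, ?_⟩
  · intro p z
    have h1 := (dist_pi_lt_iff hη).1 (mem_ball.1 ha) p
    exact (ContinuousMap.dist_lt_iff hη).1 h1 z
  · intro p q r hpq hpr hqr l m n
    exact mem_iInter.1 haG ⟨⟨⟨p, q, r⟩, hpq, hpr, hqr⟩, l, m, n⟩

end

/-- Injective real values close to given ones. -/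
lemma code_values {C : Type} [Countable C] (w : C → ℝ) {ε : ℝ} (hε : 0 < ε) :
    ∃ v : C → ℝ, Function.Injective v ∧ ∀ c, |v c - w c| < ε := by
  obtain ⟨n, hn⟩ := exists_injective_nat C
  let x : C → ℝ := fun c => 1 / ((n c : ℝ) + 2)
  have hx0 : ∀ c, 0 < x c := fun c => by positivity
  have hx1 : ∀ c, x c < 1 := by
    intro c
    simp only [x]
    rw [div_lt_one (by positivity)]
    have : (0 : ℝ) ≤ n c := Nat.cast_nonneg _
    linarith
  refine ⟨fun c => ε * ((⌊w c / ε⌋ : ℝ) + x c), ?_, ?_⟩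
  · intro c c' hcc
    simp only at hcc
    have h1 := mul_left_cancel₀ hε.ne' hcc
    have h2 : Int.fract ((⌊w c / ε⌋ : ℝ) + x c) = Int.fract ((⌊w c' / ε⌋ : ℝ) + x c') := by
      rw [h1]
    rw [Int.fract_intCast_add, Int.fract_intCast_add, Int.fract_eq_self.2 ⟨(hx0 c).le, hx1 c⟩,
      Int.fract_eq_self.2 ⟨(hx0 c').le, hx1 c'⟩] at h2
    simp only [x] at h2
    have h3 : (n c : ℝ) + 2 = (n c' : ℝ) + 2 := by
      have := congrArg (fun t => 1 / t) h2
      simpa using this
    exact hn (by exact_mod_cast (add_right_cancel h3))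
  · intro c
    have h1 := Int.floor_le (w c / ε)
    have h2 := Int.lt_floor_add_one (w c / ε)
    have h3 : w c = ε * (w c / ε) := by field_simp
    have h4 : ε * ((⌊w c / ε⌋ : ℝ) + x c) - w c = ε * ((⌊w c / ε⌋ : ℝ) + x c - w c / ε) := by
      rw [mul_sub, ← h3]
    rw [h4, abs_mul, abs_of_pos hε]
    have h5 : |(⌊w c / ε⌋ : ℝ) + x c - w c / ε| < 1 := by
      rw [abs_lt]
      constructor
      · linarith [hx0 c]
      · linarith [hx1 c]
    calc ε * |(⌊w c / ε⌋ : ℝ) + x c - w c / ε| < ε * 1 := mul_lt_mul_of_pos_left h5 hε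
      _ = ε := mul_one ε

/-- Floors are locally constant off the integers. -/
lemma floor_eventually_eq {Z : Type} [TopologicalSpace Z] {g : Z → ℝ} (hg : Continuous g) {z : Z}
    (hz : ∀ m : ℤ, g z ≠ m) : ∀ᶠ y in 𝓝 z, ⌊g y⌋ = ⌊g z⌋ := by
  have h1 : g z ∈ Ioo (⌊g z⌋ : ℝ) (⌊g z⌋ + 1) :=
    ⟨lt_of_le_of_ne (Int.floor_le _) (fun e => hz _ e.symm), Int.lt_floor_add_one _⟩
  filter_upwards [hg.continuousAt.eventually (isOpen_Ioo.mem_nhds h1)] with y hy
  rw [Int.floor_eq_iff]
  exact ⟨hy.1.le, hy.2⟩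

lemma exists_delta_injective {Z : Type} [MetricSpace Z] [CompactSpace Z] (h : SR 3 Z)
    (F₀ : C(Z, Fin 5 → ℝ)) {ε δ : ℝ} (hε : 0 < ε) (hδ : 0 < δ) :
    ∃ F : C(Z, Fin 5 → ℝ), (∀ z, dist (F z) (F₀ z) < ε) ∧
      ∀ x y, δ ≤ dist x y → F x ≠ F y := by
  classical
  have huc := CompactSpace.uniformContinuous_of_continuous F₀.continuous
  obtain ⟨δ₁, hδ₁, hF₀⟩ := Metric.uniformContinuous_iff.1 huc (ε / 2) (by positivity)
  let η : ℝ := min δ δ₁ / 8
  have hη : 0 < η := by positivity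
  have hηδ : 8 * η ≤ δ := by
    have := min_le_left δ δ₁
    simp only [η]; linarith
  have hηδ₁ : 8 * η ≤ δ₁ := by
    have := min_le_right δ δ₁
    simp only [η]; linarith
  obtain ⟨t, -, htfin, htcov⟩ := (isCompact_univ (X := Z)).finite_cover_balls hη
  have : Fintype t := htfin.fintype
  obtain ⟨a, hab, hgen⟩ := generic_family h hη
    (fun c : t => (⟨fun z => dist z (c : Z), by fun_prop⟩ : C(Z, ℝ)))
  simp only [ContinuousMap.coe_mk] at hab
  let code : Fin 5 → Z → (t → ℤ) := fun j z k => ⌊a (j, k) z / η⌋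
  have hcode : ∀ j x y, code j x = code j y → dist x y < 8 * η := by
    intro j x y hxy
    obtain ⟨c, hc, hxc⟩ := mem_iUnion₂.1 (htcov (mem_univ x))
    have h1 : ⌊a (j, ⟨c, hc⟩) x / η⌋ = ⌊a (j, ⟨c, hc⟩) y / η⌋ := congrFun hxy ⟨c, hc⟩
    have h2 := Int.abs_sub_lt_one_of_floor_eq_floor h1
    rw [← sub_div, abs_div, abs_of_pos hη, div_lt_one hη, abs_lt] at h2
    have h3 := hab (j, ⟨c, hc⟩) x
    have h4 := hab (j, ⟨c, hc⟩) y
    rw [Real.dist_eq, abs_lt] at h3 h4
    simp only at h3 h4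
    have h5 := dist_triangle_right x y c
    have h6 : dist x c < η := hxc
    linarith [h2.1, h2.2, h3.1, h3.2, h4.1, h4.2]
  let e : Fin 5 → Z → ℝ := fun j z => ∏ k : t, |Real.sin (Real.pi * (a (j, k) z / η))|
  have he : ∀ j, Continuous (e j) := by
    intro j
    simp only [e]
    fun_prop
  have he0 : ∀ j z, 0 ≤ e j z := fun j z => Finset.prod_nonneg (fun k _ => abs_nonneg _)
  have he1 : ∀ j z, e j z = 0 → ∃ (k : t) (m : ℤ), a (j, k) z = η * m := by
    intro j z hz
    obtain ⟨k, -, hk⟩ := Finset.prod_eq_zero_iff.1 hz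
    rw [abs_eq_zero, Real.sin_eq_zero_iff] at hk
    obtain ⟨m, hm⟩ := hk
    refine ⟨k, m, ?_⟩
    have h1 : (m : ℝ) = a (j, k) z / η := by
      have := mul_left_cancel₀ Real.pi_ne_zero ((mul_comm _ _).trans hm)
      exact this
    rw [h1]
    field_simp
  have he2 : ∀ j z, e j z ≠ 0 → ∀ (k : t) (m : ℤ), a (j, k) z / η ≠ m := by
    intro j z hz k m hm
    apply hz
    refine Finset.prod_eq_zero (Finset.mem_univ k) ?_
    rw [abs_eq_zero, Real.sin_eq_zero_iff]
    exact ⟨m, by rw [hm]; ring⟩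
  have hτ : ∃ τ > 0, ∀ j₁ j₂ j₃ : Fin 5, j₁ ≠ j₂ → j₁ ≠ j₃ → j₂ ≠ j₃ → ∀ z,
      ¬ (e j₁ z < τ ∧ e j₂ z < τ ∧ e j₃ z < τ) := by
    have key : ∀ T : Fin 5 × Fin 5 × Fin 5, ∃ τ > 0, T.1 ≠ T.2.1 → T.1 ≠ T.2.2 → T.2.1 ≠ T.2.2 →
        ∀ z, ¬ (e T.1 z < τ ∧ e T.2.1 z < τ ∧ e T.2.2 z < τ) := by
      rintro ⟨j₁, j₂, j₃⟩
      by_cases hT : j₁ ≠ j₂ ∧ j₁ ≠ j₃ ∧ j₂ ≠ j₃
      · by_cases hZ : Nonempty Z
        · have hs : Continuous (fun z => max (e j₁ z) (max (e j₂ z) (e j₃ z))) :=
            (he j₁).max ((he j₂).max (he j₃))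
          obtain ⟨z₀, -, hz₀⟩ := isCompact_univ.exists_isMinOn (univ_nonempty (α := Z))
            hs.continuousOn
          refine ⟨max (e j₁ z₀) (max (e j₂ z₀) (e j₃ z₀)), ?_, ?_⟩
          · by_contra hcon
            push Not at hcon
            have h1 : e j₁ z₀ = 0 := le_antisymm ((le_max_left _ _).trans hcon) (he0 _ _)
            have h2 : e j₂ z₀ = 0 :=
              le_antisymm (((le_max_left _ _).trans (le_max_right _ _)).trans hcon) (he0 _ _)
            have h3 : e j₃ z₀ = 0 :=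
              le_antisymm (((le_max_right _ _).trans (le_max_right _ _)).trans hcon) (he0 _ _)
            obtain ⟨k₁, m₁, hk₁⟩ := he1 _ _ h1
            obtain ⟨k₂, m₂, hk₂⟩ := he1 _ _ h2
            obtain ⟨k₃, m₃, hk₃⟩ := he1 _ _ h3
            exact hgen (j₁, k₁) (j₂, k₂) (j₃, k₃) hT.1 hT.2.1 hT.2.2 m₁ m₂ m₃ z₀ ⟨hk₁, hk₂, hk₃⟩
          · rintro - - - z ⟨h1, h2, h3⟩
            have h4 : max (e j₁ z₀) (max (e j₂ z₀) (e j₃ z₀)) ≤
              max (e j₁ z) (max (e j₂ z) (e j₃ z)) := hz₀ (mem_univ z)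
            exact absurd (max_lt h1 (max_lt h2 h3)) (not_lt.2 h4)
        · rw [not_nonempty_iff] at hZ
          exact ⟨1, one_pos, fun _ _ _ z => hZ.elim z⟩
      · exact ⟨1, one_pos, fun h1 h2 h3 => absurd ⟨h1, h2, h3⟩ hT⟩
    choose τ hτ0 hτ1 using key
    obtain ⟨T₀, hT₀⟩ := Finite.exists_min τ
    refine ⟨τ T₀, hτ0 T₀, ?_⟩
    rintro j₁ j₂ j₃ h1 h2 h3 z ⟨h4, h5, h6⟩
    have h7 := hT₀ (j₁, j₂, j₃)
    exact hτ1 (j₁, j₂, j₃) h1 h2 h3 z ⟨lt_of_lt_of_le h4 h7, lt_of_lt_of_le h5 h7,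
      lt_of_lt_of_le h6 h7⟩
  obtain ⟨τ, hτ0, hτ⟩ := hτ
  let G : Fin 5 → Set Z := fun j => {z | τ ≤ e j z}
  have hG : ∀ j, IsClosed (G j) := fun j => isClosed_le continuous_const (he j)
  have hpig : ∀ x y : Z, ∃ j, x ∈ G j ∧ y ∈ G j := by
    intro x y
    have hbad : ∀ z : Z, (Finset.univ.filter (fun j => e j z < τ)).card ≤ 2 := by
      intro z
      by_contra hcon
      push Not at hcon
      obtain ⟨j₁, j₂, j₃, h1, h2, h3, h4, h5, h6⟩ := Finset.two_lt_card_iff.1 hcon
      simp only [Finset.mem_filter, Finset.mem_univ, true_and] at h1 h2 h3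
      exact hτ j₁ j₂ j₃ h4 h5 h6 z ⟨h1, h2, h3⟩
    by_contra hcon
    push Not at hcon
    have h1 : (Finset.univ : Finset (Fin 5)) ⊆ (Finset.univ.filter (fun j => e j x < τ)) ∪
        (Finset.univ.filter (fun j => e j y < τ)) := by
      intro j _
      simp only [Finset.mem_union, Finset.mem_filter, Finset.mem_univ, true_and]
      by_cases hx : τ ≤ e j x
      · exact Or.inr (not_le.1 (hcon j hx))
      · exact Or.inl (not_le.1 hx)
    have h2 := Finset.card_le_card h1
    have h3 := Finset.card_union_le (Finset.univ.filter (fun j => e j x < τ))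
      (Finset.univ.filter (fun j => e j y < τ))
    have h4 := hbad x
    have h5 := hbad y
    simp only [Finset.card_univ, Fintype.card_fin] at h2
    omega
  let w : Fin 5 → (t → ℤ) → ℝ := fun j c =>
    if hc : ∃ z ∈ G j, code j z = c then F₀ hc.choose j else 0
  choose v hvinj hv using fun j => code_values (w j) (show 0 < ε / 4 by positivity)
  have hvF : ∀ j, ∀ z ∈ G j, |v j (code j z) - F₀ z j| < 3 * ε / 4 := by
    intro j z hz
    have hc : ∃ z' ∈ G j, code j z' = code j z := ⟨z, hz, rfl⟩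
    have h1 : w j (code j z) = F₀ hc.choose j := by
      simp only [w]
      rw [dif_pos hc]
    have h2 := hv j (code j z)
    rw [h1] at h2
    have h3 := hcode j _ _ hc.choose_spec.2
    have h4 := hF₀ (lt_of_lt_of_le h3 hηδ₁)
    have h5 := (dist_pi_lt_iff (by positivity)).1 h4 j
    rw [Real.dist_eq] at h5
    calc |v j (code j z) - F₀ z j| = |(v j (code j z) - F₀ hc.choose j) +
        (F₀ hc.choose j - F₀ z j)| := by ring_nf
      _ ≤ |v j (code j z) - F₀ hc.choose j| + |F₀ hc.choose j - F₀ z j| := abs_add_le _ _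
      _ < ε / 4 + ε / 2 := add_lt_add h2 h5
      _ = 3 * ε / 4 := by ring
  have hcont : ∀ j, ContinuousOn (fun z => v j (code j z) - F₀ z j) (G j) := by
    intro j z hz
    have hz0 : e j z ≠ 0 := by
      have : τ ≤ e j z := hz
      exact (lt_of_lt_of_le hτ0 this).ne'
    have h1 : ∀ᶠ y in 𝓝 z, code j y = code j z := by
      have h2 : ∀ k : t, ∀ᶠ y in 𝓝 z, code j y k = code j z k := by
        intro k
        exact floor_eventually_eq (g := fun y => a (j, k) y / η) (by fun_prop)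
          (he2 j z hz0 k)
      filter_upwards [eventually_all.2 h2] with y hy
      exact funext hy
    have h3 : ContinuousAt (fun z => v j (code j z)) z := by
      refine (continuousAt_const (y := v j (code j z))).congr ?_
      filter_upwards [h1] with y hy
      rw [hy]
    have h4 : Continuous (fun z => F₀ z j) := by fun_prop
    exact (h3.sub h4.continuousAt).continuousWithinAt
  choose D hD hDG using fun j => tietze (hG j) (hcont j)
  let F : C(Z, Fin 5 → ℝ) := ⟨fun z j => F₀ z j + max (-(3 * ε / 4)) (min (3 * ε / 4) (D j z)), by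
    have := fun j => hD j
    fun_prop⟩
  have hFG : ∀ j, ∀ z ∈ G j, F z j = v j (code j z) := by
    intro j z hz
    have h1 := hvF j z hz
    have h2 := hDG j hz
    simp only at h2
    rw [abs_lt] at h1
    simp only [F, ContinuousMap.coe_mk]
    rw [h2, min_eq_right h1.2.le, max_eq_right h1.1.le]
    ring
  refine ⟨F, ?_, ?_⟩
  · intro z
    rw [dist_pi_lt_iff hε]
    intro j
    simp only [F, ContinuousMap.coe_mk, Real.dist_eq]
    rw [add_sub_cancel_left, abs_lt]
    constructor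
    · exact lt_of_lt_of_le (by linarith) (le_max_left _ _)
    · refine max_lt (by linarith) (lt_of_le_of_lt (min_le_left _ _) (by linarith))
  · intro x y hxy hF
    obtain ⟨j, hx, hy⟩ := hpig x y
    have h1 : v j (code j x) = v j (code j y) := by
      rw [← hFG j x hx, ← hFG j y hy, hF]
    have h2 := hcode j x y (hvinj j h1)
    linarith

/-- Two-dimensional compacta embed in five-space. -/
theorem memU_five {Z : Type} [TopologicalSpace Z] [CompactSpace Z] [MetrizableSpace Z]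
    (h : SR 3 Z) : ∃ F : C(Z, Fin 5 → ℝ), Function.Injective F := by
  let _ := metrizableSpaceMetric Z
  let I : ℕ → Set C(Z, Fin 5 → ℝ) := fun n => {F | ∀ x y, 1 / ((n : ℝ) + 1) ≤ dist x y → F x ≠ F y}
  have hopen : ∀ n, IsOpen (I n) := by
    intro n
    let Kn : Set (Z × Z) := {p | 1 / ((n : ℝ) + 1) ≤ dist p.1 p.2}
    have hKn : IsCompact Kn := (isClosed_le continuous_const continuous_dist).isCompact
    let Ψ : C(Z, Fin 5 → ℝ) → C(Z × Z, Fin 5 → ℝ) := fun F =>
      F.comp ContinuousMap.fst - F.comp ContinuousMap.snd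
    have hΨ : Continuous Ψ :=
      (ContinuousMap.continuous_precomp _).sub (ContinuousMap.continuous_precomp _)
    have : I n = Ψ ⁻¹' {g | MapsTo g Kn {0}ᶜ} := by
      ext F
      simp only [I, mem_ofPred_eq, mem_preimage]
      constructor
      · rintro hF ⟨x, y⟩ hxy h0
        exact hF x y hxy (sub_eq_zero.1 h0)
      · intro hF x y hxy h0
        exact hF (x := (x, y)) hxy (sub_eq_zero.2 h0)
    rw [this]
    exact (ContinuousMap.isOpen_setOfPred_mapsTo hKn isOpen_compl_singleton).preimage hΨ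
  have hdense : ∀ n, Dense (I n) := by
    intro n
    rw [Metric.dense_iff]
    intro F₀ ε hε
    obtain ⟨F, hF, hFI⟩ := exists_delta_injective h F₀ hε
      (show (0 : ℝ) < 1 / ((n : ℝ) + 1) by positivity)
    refine ⟨F, ?_, hFI⟩
    rw [mem_ball, ContinuousMap.dist_lt_iff hε]
    exact hF
  have hdd := dense_iInter_of_isOpen_nat hopen hdense
  obtain ⟨F, hF⟩ := hdd.nonempty
  refine ⟨F, fun x y hxy => ?_⟩
  by_contra hne
  obtain ⟨n, hn⟩ := exists_nat_one_div_lt (dist_pos.2 hne)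
  exact mem_iInter.1 hF n x y hn.le hxy

lemma SR.memU {n : ℕ} (hn : 5 ≤ n) {Z : Type} [TopologicalSpace Z] [CompactSpace Z]
    [MetrizableSpace Z] (h : SR 3 Z) : MemU n Z := by
  obtain ⟨F, hF⟩ := memU_five h
  let _ := metrizableSpaceMetric Z
  let g : Z → EuclideanSpace ℝ (Fin n) := fun z =>
    (EuclideanSpace.equiv (Fin n) ℝ).symm (fun i => if hi : (i : ℕ) < 5 then F z ⟨i, hi⟩ else 0)
  have hg : Continuous g := by
    refine (EuclideanSpace.equiv (Fin n) ℝ).symm.continuous.comp (continuous_pi (fun i => ?_))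
    by_cases hi : (i : ℕ) < 5
    · simp only [hi, dite_true]
      fun_prop
    · simp only [hi, dite_false]
      exact continuous_const
  refine ⟨g, (hg.isClosedEmbedding ?_).isEmbedding⟩
  intro x y hxy
  apply hF
  have h1 := (EuclideanSpace.equiv (Fin n) ℝ).symm.injective hxy
  ext i
  have h2 := congrFun h1 ⟨i, by omega⟩
  simpa using h2

end Pool.Agent.Helper76.Menger
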