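import Mathlib

set_option autoImplicit false

namespace Pool.Agent.Helper76.Menger

open Set Topology Metric Filter

/-- Every continuous map from a closed subset of `X` into `K` extends over `X`. -/
def Ext (X : Type*) [TopologicalSpace X] {E : Type*} [TopologicalSpace E] (K : Set E) : Prop :=
  ∀ (A : Set X) (f : X → E), IsClosed A → ContinuousOn f A → MapsTo f A K →
    ∃ F : X → E, Continuous F ∧ (∀ x, F x ∈ K) ∧ EqOn F f A

/-- `K` is a nonempty compact set with a retraction `r` of an open neighbourhood `W`. -/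
structure Tgt {E : Type*} [TopologicalSpace E] (K W : Set E) (r : E → E) : Prop where
  compact : IsCompact K
  nonempty : K.Nonempty
  isOpen : IsOpen W
  subset : K ⊆ W
  cont : ContinuousOn r W
  maps : MapsTo r W K
  fix : ∀ x ∈ K, r x = x

section

variable {E : Type*} [NormedAddCommGroup E] [NormedSpace ℝ E] [FiniteDimensional ℝ E]
variable {K W : Set E} {r : E → E}

lemma Tgt.near {E : Type*} [PseudoMetricSpace E] {K W : Set E} {r : E → E}
    (h : Tgt K W r) {ε : ℝ} (hε : 0 < ε) :
    ∃ δ > 0, ∀ y ∈ K, ∀ y', dist y' y < δ → y' ∈ W ∧ dist (r y') y < ε := by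
  obtain ⟨δ₁, hδ₁, hW⟩ := h.compact.exists_thickening_subset_open h.isOpen h.subset
  have h1 := h.compact.uniformContinuousAt_of_continuousAt r
    (fun a ha => h.cont.continuousAt (h.isOpen.mem_nhds (h.subset ha))) (dist_mem_uniformity hε)
  obtain ⟨δ₂, hδ₂, hr⟩ := Metric.mem_uniformity_dist.1 h1
  refine ⟨min δ₁ δ₂, lt_min hδ₁ hδ₂, ?_⟩
  intro y hy y' hyy
  refine ⟨hW (mem_thickening_iff.2 ⟨y, hy, lt_of_lt_of_le hyy (min_le_left _ _)⟩), ?_⟩
  have h2 := hr (a := y) (b := y') (by rw [dist_comm]; exact lt_of_lt_of_le hyy (min_le_right _ _))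
    hy
  simp only [mem_ofPred_eq] at h2
  rw [h.fix y hy, dist_comm] at h2
  exact h2

omit [FiniteDimensional ℝ E] in
lemma tietze [FiniteDimensional ℝ E] {X : Type*} [TopologicalSpace X] [NormalSpace X]
    {A : Set X} (hA : IsClosed A) {f : X → E} (hf : ContinuousOn f A) :
    ∃ G : X → E, Continuous G ∧ EqOn G f A := by
  have : TietzeExtension E := TietzeExtension.of_tvs ℝ
  obtain ⟨g, hg⟩ := ContinuousMap.exists_restrict_eq hA ⟨A.domRestrict f, hf.domRestrict⟩
  refine ⟨g, g.continuous, fun x hx => ?_⟩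
  have := congrArg (fun F => F ⟨x, hx⟩) hg
  exact this

/-- Neighbourhood extension. -/
lemma nbhd_ext (h : Tgt K W r) {X : Type*} [TopologicalSpace X] [NormalSpace X]
    {A : Set X} (hA : IsClosed A) {f : X → E} (hf : ContinuousOn f A) (hfK : MapsTo f A K) :
    ∃ (O : Set X) (F : X → E), IsOpen O ∧ A ⊆ O ∧ ContinuousOn F O ∧ MapsTo F O K ∧
      EqOn F f A := by
  obtain ⟨G, hG, hGA⟩ := tietze hA hf
  refine ⟨G ⁻¹' W, r ∘ G, h.isOpen.preimage hG, ?_, ?_, ?_, ?_⟩
  · intro x hx
    rw [mem_preimage, hGA hx]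
    exact h.subset (hfK hx)
  · exact h.cont.comp hG.continuousOn (fun x hx => hx)
  · intro x hx
    exact h.maps hx
  · intro x hx
    simp only [Function.comp]
    rw [hGA hx, h.fix _ (hfK hx)]

/-- Closed neighbourhood extension. -/
lemma nbhd_ext' (h : Tgt K W r) {X : Type*} [TopologicalSpace X] [NormalSpace X]
    {A : Set X} (hA : IsClosed A) {f : X → E} (hf : ContinuousOn f A) (hfK : MapsTo f A K) :
    ∃ (N : Set X) (F : X → E), IsClosed N ∧ A ⊆ interior N ∧ ContinuousOn F N ∧ MapsTo F N K ∧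
      EqOn F f A := by
  obtain ⟨O, F, hO, hAO, hF, hFK, hFA⟩ := nbhd_ext h hA hf hfK
  obtain ⟨V, hV, hAV, hVO⟩ := normal_exists_closure_subset hA hO hAO
  refine ⟨closure V, F, isClosed_closure, ?_, hF.mono hVO, hFK.mono_left hVO, hFA⟩
  exact hAV.trans (interior_maximal subset_closure hV)

/-- There is `ε > 0` such that a map which is `ε`-close to an extendable map is extendable. -/
lemma close_ext (h : Tgt K W r) : ∃ ε > 0, ∀ {X : Type} [TopologicalSpace X] [NormalSpace X]
    {A : Set X} (_ : IsClosed A) {f : X → E} (_ : ContinuousOn f A) (_ : MapsTo f A K)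
    {G : X → E} (_ : Continuous G) (_ : ∀ x, G x ∈ K) (_ : ∀ x ∈ A, dist (f x) (G x) < ε),
    ∃ F : X → E, Continuous F ∧ (∀ x, F x ∈ K) ∧ EqOn F f A := by
  obtain ⟨ε, hε, hn⟩ := h.near one_pos
  refine ⟨ε, hε, ?_⟩
  intro X _ _ A hA f hf hfK G hG hGK hfG
  obtain ⟨f', hf', hff⟩ := tietze hA hf
  have hO : IsOpen {x | dist (f' x) (G x) < ε} := isOpen_lt (hf'.dist hG) continuous_const
  obtain ⟨u, hu0, hu1, hu⟩ := exists_continuous_zero_one_of_isClosed
    (s := {x | dist (f' x) (G x) < ε}ᶜ) (t := A) hO.isClosed_compl hA (by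
      rw [Set.disjoint_left]
      intro x hx hxA
      apply hx
      simp only [mem_ofPred_eq]
      rw [hff hxA]
      exact hfG x hxA)
  let H : X → E := fun x => G x + u x • (f' x - G x)
  have hH : Continuous H := by
    have := u.continuous
    fun_prop
  have hd : ∀ x, dist (H x) (G x) < ε := by
    intro x
    simp only [H, dist_eq_norm, add_sub_cancel_left, norm_smul]
    by_cases hx : dist (f' x) (G x) < ε
    · rw [← dist_eq_norm]
      have h1 : ‖u x‖ ≤ 1 := by
        rw [Real.norm_eq_abs, abs_le]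
        have := hu x
        constructor
        · linarith [this.1]
        · exact this.2
      calc ‖u x‖ * dist (f' x) (G x) ≤ 1 * dist (f' x) (G x) :=
            mul_le_mul_of_nonneg_right h1 dist_nonneg
        _ < ε := by rw [one_mul]; exact hx
    · have := hu0 (show x ∈ {x | dist (f' x) (G x) < ε}ᶜ from hx)
      rw [this]
      simpa using hε
  refine ⟨r ∘ H, ?_, ?_, ?_⟩
  · exact h.cont.comp_continuous hH (fun x => (hn _ (hGK x) _ (hd x)).1)
  · intro x
    exact h.maps (hn _ (hGK x) _ (hd x)).1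
  · intro x hx
    have h1 : u x = 1 := hu1 hx
    simp only [Function.comp, H, h1, one_smul, add_sub_cancel]
    rw [hff hx, h.fix _ (hfK hx)]

/-- Transfer along closed embeddings. -/
lemma Ext.of_isClosedEmbedding {E : Type*} [TopologicalSpace E] {K : Set E}
    {X Y : Type*} [TopologicalSpace X] [TopologicalSpace Y]
    {e : Y → X} (he : IsClosedEmbedding e) (h : Ext X K) : Ext Y K := by
  intro A f hA hf hfK
  by_cases hY : Nonempty Y
  · obtain ⟨y0⟩ := hY
    have hinj := he.injective
    let f' : X → E := Function.extend e f (fun _ => f y0)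
    have hf' : f' ∘ e = f := by
      ext y
      simp [f', hinj.extend_apply]
    obtain ⟨F, hF, hFK, hFA⟩ := h (e '' A) f' (he.isClosedMap _ hA)
      (by
        rw [he.isInducing.continuousOn_image_iff, hf']
        exact hf)
      (by
        rintro _ ⟨y, hy, rfl⟩
        have : f' (e y) = f y := congrFun hf' y
        rw [this]
        exact hfK hy)
    refine ⟨F ∘ e, hF.comp he.continuous, fun y => hFK _, ?_⟩
    intro y hy
    have h1 := hFA (mem_image_of_mem e hy)
    have : f' (e y) = f y := congrFun hf' y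
    simp only [Function.comp]
    rw [h1, this]
  · rw [not_nonempty_iff] at hY
    exact ⟨f, continuous_of_const (fun x => hY.elim x), fun x => hY.elim x, fun x => hY.elim x⟩

lemma Ext.homeomorph {E : Type*} [TopologicalSpace E] {K : Set E}
    {X Y : Type*} [TopologicalSpace X] [TopologicalSpace Y]
    (e : Y ≃ₜ X) (h : Ext X K) : Ext Y K := Ext.of_isClosedEmbedding e.isClosedEmbedding h

/-- Extension over a closed subspace, in terms of sets. -/
lemma Ext.on_closed {E : Type*} [TopologicalSpace E] {K : Set E}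
    {X : Type*} [TopologicalSpace X] {C : Set X} (hC : IsClosed C) (h : Ext C K)
    {A : Set X} {f : X → E} (hA : IsClosed A) (hf : ContinuousOn f A) (hfK : MapsTo f A K) :
    ∃ F : X → E, ContinuousOn F (A ∪ C) ∧ MapsTo F (A ∪ C) K ∧ EqOn F f A := by
  classical
  obtain ⟨g, hg, hgK, hgA⟩ := h (((↑) : C → X) ⁻¹' A) (fun x => f x) (hA.preimage continuous_subtype_val)
    (by
      have := hf.comp (s := ((↑) : C → X) ⁻¹' A) (f := ((↑) : C → X))
        continuous_subtype_val.continuousOn (fun x hx => hx)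
      exact this)
    (fun x (hx : (x : X) ∈ A) => hfK hx)
  let F : X → E := fun x => if hx : x ∈ A then f x else if hx' : x ∈ C then g ⟨x, hx'⟩ else f x
  have hFA : EqOn F f A := by
    intro x hx
    simp [F, hx]
  have hFC : ∀ x (hx : x ∈ C), F x = g ⟨x, hx⟩ := by
    intro x hx
    by_cases hxA : x ∈ A
    · rw [hFA hxA]
      exact (hgA (x := ⟨x, hx⟩) hxA).symm
    · simp [F, hxA, hx]
  refine ⟨F, ?_, ?_, hFA⟩
  · refine ContinuousOn.union_of_isClosed ?_ ?_ hA hC
    · exact hf.congr hFA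
    · rw [continuousOn_iff_continuous_domRestrict]
      refine hg.congr ?_
      rintro ⟨x, hx⟩
      exact (hFC x hx).symm
  · rintro x (hx | hx)
    · rw [hFA hx]
      exact hfK hx
    · rw [hFC x hx]
      exact hgK _

/-- The countable closed sum theorem. -/
lemma ext_sum (h : Tgt K W r) {X : Type*} [TopologicalSpace X] [NormalSpace X]
    (C : ℕ → Set X) (hC : ∀ i, IsClosed (C i)) (hcov : ⋃ i, C i = univ)
    (hext : ∀ i, Ext (C i) K) : Ext X K := by
  classical
  intro A f hA hf hfK
  let S := {p : Set X × (X → E) // IsClosed p.1 ∧ ContinuousOn p.2 p.1 ∧ MapsTo p.2 p.1 K}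
  have step : ∀ (i : ℕ) (s : S), ∃ s' : S, s.1.1 ∪ C i ⊆ interior s'.1.1 ∧
      EqOn s'.1.2 s.1.2 s.1.1 := by
    rintro i ⟨⟨N, g⟩, hN, hg, hgK⟩
    obtain ⟨g', hg', hgK', hgg⟩ := (hext i).on_closed (hC i) hN hg hgK
    obtain ⟨N', F, hN', hsub, hF, hFK, hFg⟩ := nbhd_ext' h (hN.union (hC i)) hg' hgK'
    exact ⟨⟨⟨N', F⟩, hN', hF, hFK⟩, hsub, fun x hx => (hFg (Or.inl hx)).trans (hgg hx)⟩
  choose nxt hn1 hn2 using step
  let s : ℕ → S := fun n => Nat.rec ⟨⟨A, f⟩, hA, hf, hfK⟩ (fun i t => nxt i t) n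
  have hs0 : s 0 = ⟨⟨A, f⟩, hA, hf, hfK⟩ := rfl
  have hs : ∀ n, s (n + 1) = nxt n (s n) := fun n => rfl
  have hmono1 : ∀ n, (s n).1.1 ⊆ interior (s (n + 1)).1.1 := by
    intro n
    rw [hs]
    exact subset_union_left.trans (hn1 n (s n))
  have hmono : ∀ n m, n ≤ m → (s n).1.1 ⊆ (s m).1.1 := by
    intro n m hnm
    induction hnm with
    | refl => exact Subset.rfl
    | step _ ih => exact ih.trans ((hmono1 _).trans interior_subset)
  have heq : ∀ n m, n ≤ m → EqOn (s m).1.2 (s n).1.2 (s n).1.1 := by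
    intro n m hnm
    induction hnm with
    | refl => intro x _; rfl
    | @step k hk ih =>
      intro x hx
      have h1 : (s (k + 1)).1.2 x = (s k).1.2 x := by
        rw [hs]
        exact hn2 k (s k) (hmono n k hk hx)
      have h2 := ih hx
      exact h1.trans h2
  have hex : ∀ x : X, ∃ n, x ∈ (s n).1.1 := by
    intro x
    have : x ∈ ⋃ i, C i := by rw [hcov]; trivial
    obtain ⟨i, hi⟩ := mem_iUnion.1 this
    refine ⟨i + 1, ?_⟩
    rw [hs]
    exact interior_subset (hn1 i (s i) (Or.inr hi))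
  choose n hnx using hex
  let F : X → E := fun x => (s (n x)).1.2 x
  have hF : ∀ m, EqOn F (s m).1.2 (s m).1.1 := by
    intro m x hx
    rcases le_total m (n x) with h1 | h1
    · exact heq _ _ h1 hx
    · exact (heq _ _ h1 (hnx x)).symm
  refine ⟨F, ?_, ?_, ?_⟩
  · rw [continuous_iff_continuousAt]
    intro x
    have h1 : x ∈ interior (s (n x + 1)).1.1 := hmono1 _ (hnx x)
    have h2 : (s (n x + 1)).1.1 ∈ 𝓝 x := mem_interior_iff_mem_nhds.1 h1
    have h3 : ContinuousAt (s (n x + 1)).1.2 x := (s (n x + 1)).2.2.1.continuousAt h2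
    refine h3.congr ?_
    filter_upwards [h2] with y hy
    exact (hF (n x + 1) hy).symm
  · intro x
    rw [hF _ (hnx x)]
    exact (s (n x)).2.2.2 (hnx x)
  · exact hF 0

/-- Open subspaces. -/
lemma Ext.of_open (h : Tgt K W r) {X : Type*} [TopologicalSpace X]
    [TopologicalSpace.MetrizableSpace X] (hX : Ext X K) {U : Set X} (hU : IsOpen U) :
    Ext U K := by
  let _ := TopologicalSpace.metrizableSpaceMetric X
  obtain ⟨F, hF, hFU, hFcov, -⟩ := hU.exists_iUnion_isClosed
  refine ext_sum h (fun i => ((↑) : U → X) ⁻¹' (F i))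
    (fun i => (hF i).preimage continuous_subtype_val) ?_ ?_
  · rw [← preimage_iUnion, hFcov]
    exact Subtype.coe_preimage_self U
  · intro i
    refine Ext.of_isClosedEmbedding (X := X)
      (e := fun x : (((↑) : U → X) ⁻¹' (F i) : Set U) => ((x : U) : X)) ?_ hX
    refine ⟨IsEmbedding.subtypeVal.comp IsEmbedding.subtypeVal, ?_⟩
    have : range (fun x : (((↑) : U → X) ⁻¹' (F i) : Set U) => ((x : U) : X)) = F i := by
      apply Subset.antisymm
      · rintro _ ⟨⟨⟨y, hy⟩, hy'⟩, rfl⟩
        exact hy'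
      · intro x hx
        exact ⟨⟨⟨x, hFU i hx⟩, hx⟩, rfl⟩
    rw [this]
    exact hF i

/-- The subspace theorem. -/
lemma Ext.subspace (h : Tgt K W r) {X : Type} [TopologicalSpace X]
    [TopologicalSpace.MetrizableSpace X] (hX : Ext X K) (Y : Set X) :
    Ext Y K := by
  classical
  let _ := TopologicalSpace.metrizableSpaceMetric X
  obtain ⟨ε, hε, hclose⟩ := close_ext h
  obtain ⟨δ, hδ, hnear⟩ := h.near hε
  intro A f hA hf hfK
  let f' : X → E := fun x => if hx : x ∈ Y then f ⟨x, hx⟩ else 0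
  have hff : ∀ y : Y, f' y = f y := by
    rintro ⟨y, hy⟩
    simp [f', hy]
  have hff' : f' ∘ ((↑) : Y → X) = f := by
    ext y
    exact hff y
  let A' : Set X := (↑) '' A
  have hf' : ContinuousOn f' A' := by
    rw [IsInducing.subtypeVal.continuousOn_image_iff, hff']
    exact hf
  have hfK' : MapsTo f' A' K := by
    rintro _ ⟨y, hy, rfl⟩
    rw [hff]
    exact hfK hy
  let O : Set X := {x | ∃ c : E, ∀ᶠ y in 𝓝 x, y ∈ A' → dist c (f' y) < δ}
  have hO : IsOpen O := by
    rw [isOpen_iff_mem_nhds]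
    rintro x ⟨c, hc⟩
    filter_upwards [eventually_eventually_nhds.2 hc] with z hz
    exact ⟨c, hz⟩
  have hAO : A' ⊆ O := by
    intro a ha
    refine ⟨f' a, ?_⟩
    have h1 : ∀ᶠ y in 𝓝[A'] a, dist (f' a) (f' y) < δ := by
      have := (hf' a ha).eventually (ball_mem_nhds (f' a) hδ)
      filter_upwards [this] with y hy
      rw [dist_comm]
      exact hy
    rw [eventually_nhdsWithin_iff] at h1
    exact h1
  obtain ⟨G, hG⟩ := exists_continuous_forall_mem_convex_of_local_const (X := O) (E := E)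
    (t := fun z => {v | (z : X) ∈ A' → dist v (f' z) < δ}) (by
      intro z
      by_cases hz : (z : X) ∈ A'
      · have : {v | (z : X) ∈ A' → dist v (f' z) < δ} = ball (f' z) δ := by
          ext v
          simp [hz]
        rw [this]
        exact convex_ball _ _
      · have : {v | (z : X) ∈ A' → dist v (f' z) < δ} = univ := by
          ext v
          simp [hz]
        rw [this]
        exact convex_univ) (by
      rintro ⟨z, c, hc⟩
      refine ⟨c, ?_⟩
      have := continuous_subtype_val.continuousAt (x := (⟨z, c, hc⟩ : O)) |>.eventually hc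
      exact this)
  let T : Set O := G ⁻¹' (thickening δ K)
  have hT : IsOpen T := isOpen_thickening.preimage G.continuous
  let O' : Set X := (↑) '' T
  have hO' : IsOpen O' := hO.isOpenMap_subtype_val _ hT
  have hAO' : A' ⊆ O' := by
    intro a ha
    refine ⟨⟨a, hAO ha⟩, ?_, rfl⟩
    exact mem_thickening_iff.2 ⟨f' a, hfK' ha, hG ⟨a, hAO ha⟩ ha⟩
  let g : X → E := fun x => if hx : x ∈ O then r (G ⟨x, hx⟩) else 0
  have hgO : ∀ x : O, g x = r (G x) := by
    rintro ⟨x, hx⟩
    simp [g, hx]
  have hTW : ∀ x ∈ T, G x ∈ W := by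
    intro x hx
    obtain ⟨y, hy, hxy⟩ := mem_thickening_iff.1 hx
    exact (hnear y hy _ hxy).1
  have hg : ContinuousOn g O' := by
    rw [IsInducing.subtypeVal.continuousOn_image_iff]
    have : ContinuousOn (fun x : O => r (G x)) T :=
      h.cont.comp G.continuous.continuousOn hTW
    refine this.congr ?_
    intro x _
    exact hgO x
  have hgK : MapsTo g O' K := by
    rintro _ ⟨x, hx, rfl⟩
    rw [hgO]
    exact h.maps (hTW x hx)
  have hgf : ∀ a ∈ A', dist (f' a) (g a) < ε := by
    intro a ha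
    have h1 := hG ⟨a, hAO ha⟩ ha
    have h2 := (hnear (f' a) (hfK' ha) _ h1).2
    have h3 := hgO ⟨a, hAO ha⟩
    simp only at h3
    rw [h3, dist_comm]
    exact h2
  let X' : Set X := (closure A' \ O')ᶜ
  have hX' : IsOpen X' := by
    rw [isOpen_compl_iff, sdiff_eq]
    exact isClosed_closure.inter hO'.isClosed_compl
  have hYX' : Y ⊆ X' := by
    intro y hy hy'
    apply hy'.2
    apply hAO'
    refine ⟨⟨y, hy⟩, ?_, rfl⟩
    have : (⟨y, hy⟩ : Y) ∈ closure A := by
      rw [IsInducing.subtypeVal.closure_eq_preimage_closure_image]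
      exact hy'.1
    rwa [hA.closure_eq] at this
  have hsub : ∀ x : X', (x : X) ∈ closure A' → (x : X) ∈ O' := by
    rintro ⟨x, hx⟩ hx'
    by_contra hcon
    exact hx ⟨hx', hcon⟩
  obtain ⟨g', hg', hgK', hgg⟩ := Ext.of_open h hX hX' (((↑) : X' → X) ⁻¹' (closure A'))
    (fun x => g x)
    (isClosed_closure.preimage continuous_subtype_val)
    (hg.comp continuous_subtype_val.continuousOn (fun x hx => hsub x hx))
    (fun x (hx : (x : X) ∈ closure A') => hgK (hsub x hx))
  let ι : Y → X' := fun y => ⟨y, hYX' y.2⟩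
  have hι : Continuous ι := by
    apply Continuous.subtype_mk
    exact continuous_subtype_val
  refine hclose hA hf hfK (G := g' ∘ ι) (hg'.comp hι) (fun y => hgK' _) ?_
  intro y hy
  have h1 : (y : X) ∈ A' := mem_image_of_mem _ hy
  have h2 := hgf y h1
  rw [hff] at h2
  have h3 : g' (ι y) = g y := hgg (x := ι y) (subset_closure h1)
  simp only [Function.comp]
  rw [h3]
  exact h2

lemma Ext.of_isEmbedding (h : Tgt K W r) {X Y : Type} [TopologicalSpace X] [TopologicalSpace Y]
    [TopologicalSpace.MetrizableSpace X] (hX : Ext X K) {e : Y → X} (he : IsEmbedding e) :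
    Ext Y K :=
  (Ext.subspace h hX (range e)).homeomorph he.toHomeomorph

end

end Pool.Agent.Helper76.Menger
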