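import Pool.Agent.Helper76.IndBasic
import Pool.Agent.Helper76.ExtBasic

set_option autoImplicit false

namespace Pool.Agent.Helper76.Menger

open Set Topology Metric Filter TopologicalSpace

/-- A zero dimensional approximation through a path. -/
lemma approx_path {E : Type*} [PseudoMetricSpace E] {K : Set E} (hK : IsCompact K)
    (hP : IsPathConnected K) {L : Type} [TopologicalSpace L] [SecondCountableTopology L]
    (hL : IndLT 1 L) {f : L → E} (hf : Continuous f) (hfK : ∀ x, f x ∈ K) {ε : ℝ} (hε : 0 < ε) :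
    ∃ (γ : ℝ → E) (u : L → ℝ), Continuous γ ∧ (∀ t, γ t ∈ K) ∧ Continuous u ∧
      ∀ x, dist (f x) (γ (u x)) < ε := by
  classical
  obtain ⟨t, htK, htfin, htcov⟩ := hK.finite_cover_balls hε
  obtain ⟨p0, hp0⟩ := hP.nonempty
  -- enumerate
  obtain ⟨n, p, hp, hpcov⟩ : ∃ (n : ℕ) (p : Fin (n + 1) → E), (∀ i, p i ∈ K) ∧
      ∀ y ∈ K, ∃ i, dist y (p i) < ε := by
    let s : Finset E := insert p0 htfin.toFinset
    have hs : s.Nonempty := Finset.insert_nonempty _ _
    obtain ⟨n, hn⟩ : ∃ n, s.card = n + 1 := ⟨s.card - 1, by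
      have := hs.card_pos
      omega⟩
    let e := s.equivFin.trans (finCongr hn)
    refine ⟨n, fun i => (e.symm i : E), ?_, ?_⟩
    · intro i
      have := (e.symm i).2
      simp only [s, Finset.mem_insert, Finite.mem_toFinset] at this
      show (e.symm i : E) ∈ K
      rcases this with h | h
      · rw [h]; exact hp0
      · exact htK h
    · intro y hy
      obtain ⟨z, hz, hyz⟩ := mem_iUnion₂.1 (htcov hy)
      have hz' : z ∈ s := by simp [s, hz]
      refine ⟨e ⟨z, hz'⟩, ?_⟩
      simp only [Equiv.symm_apply_apply]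
      exact hyz
  obtain ⟨γ, hγK, hγp⟩ := hP.exists_path_through_family p hp
  choose τ hτ using hγp
  let Γ : ℝ → E := fun t => γ (projIcc 0 1 zero_le_one t)
  have hΓ : Continuous Γ := γ.continuous.comp continuous_projIcc
  have hΓK : ∀ t, Γ t ∈ K := fun t => hγK (mem_range_self _)
  have hΓp : ∀ i, Γ (τ i) = p i := by
    intro i
    simp only [Γ, projIcc_val]
    exact hτ i
  by_cases hLe : IsEmpty L
  · exact ⟨Γ, fun x => hLe.elim x, hΓ, hΓK, continuous_of_const (fun x => hLe.elim x),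
      fun x => hLe.elim x⟩
  rw [not_isEmpty_iff] at hLe
  have hclop : ∀ x : L, ∃ C : Set L, IsClopen C ∧ x ∈ C ∧ ∃ i, ∀ y ∈ C, dist (f y) (p i) < ε := by
    intro x
    obtain ⟨i, hi⟩ := hpcov (f x) (hfK x)
    obtain ⟨V, hV, hxV, hVU, hfr⟩ := hL x (f ⁻¹' (ball (p i) ε)) (isOpen_ball.preimage hf) hi
    refine ⟨V, ?_, hxV, i, fun y hy => hVU hy⟩
    rw [isClopen_iff_frontier_eq_empty]
    exact isEmpty_coe_sort.1 hfr
  choose C hC hxC idx hidx using hclop
  obtain ⟨s, hs, hscov⟩ := countable_cover_nhds (f := C) (fun x => (hC x).isOpen.mem_nhds (hxC x))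
  have hsne : s.Nonempty := by
    by_contra hcon
    rw [not_nonempty_iff_eq_empty] at hcon
    rw [hcon] at hscov
    simp at hscov
    exact (hscov.symm ▸ (univ_nonempty (α := L))).ne_empty rfl
  obtain ⟨v, hv⟩ := hs.exists_eq_range hsne
  have hex : ∀ x : L, ∃ j : ℕ, x ∈ C (v j) := by
    intro x
    have : x ∈ ⋃ y ∈ s, C y := by rw [hscov]; trivial
    obtain ⟨y, hy, hxy⟩ := mem_iUnion₂.1 this
    rw [hv] at hy
    obtain ⟨j, rfl⟩ := hy
    exact ⟨j, hxy⟩
  let j : L → ℕ := fun x => Nat.find (hex x)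
  have hj : IsLocallyConstant j := by
    rw [IsLocallyConstant.iff_exists_open]
    intro x
    refine ⟨C (v (j x)) ∩ ⋂ k ∈ Finset.range (j x), (C (v k))ᶜ, ?_, ⟨Nat.find_spec (hex x), ?_⟩, ?_⟩
    · refine (hC _).isOpen.inter ?_
      exact isOpen_biInter_finset (fun k _ => (hC _).compl.isOpen)
    · simp only [mem_iInter, Finset.mem_range, mem_compl_iff]
      intro k hk
      exact Nat.find_min (hex x) hk
    · rintro y ⟨hy1, hy2⟩
      simp only [mem_iInter, Finset.mem_range, mem_compl_iff] at hy2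
      exact (Nat.find_eq_iff (hex y)).2 ⟨hy1, hy2⟩
  refine ⟨Γ, fun x => τ (idx (v (j x))), hΓ, hΓK, ?_, ?_⟩
  · exact (hj.comp (fun k => ((τ (idx (v k)) : unitInterval) : ℝ))).continuous
  · intro x
    rw [hΓp]
    exact hidx _ _ (Nat.find_spec (hex x))

/-- Extension into path connected targets for spaces with zero dimensional partitions. -/
lemma ext_of_partition {E : Type*} [NormedAddCommGroup E] [NormedSpace ℝ E]
    [FiniteDimensional ℝ E] {K W : Set E} {r : E → E} (h : Tgt K W r) (hP : IsPathConnected K)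
    {X : Type} [TopologicalSpace X] [NormalSpace X] [SecondCountableTopology X]
    (hpart : ∀ A B : Set X, IsClosed A → IsClosed B → Disjoint A B →
      ∃ U V : Set X, IsOpen U ∧ IsOpen V ∧ Disjoint U V ∧ A ⊆ U ∧ B ⊆ V ∧
        IndLT 1 ((U ∪ V)ᶜ : Set X)) : Ext X K := by
  classical
  obtain ⟨ε, hε, hclose⟩ := close_ext h
  intro A f hA hf hfK
  obtain ⟨N, f₁, hN, hAN, hf₁, hf₁K, hff⟩ := nbhd_ext' h hA hf hfK
  obtain ⟨U, V, hU, hV, hUV, hAU, hBV, hL⟩ := hpart A (interior N)ᶜ hA
    isOpen_interior.isClosed_compl (by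
      rw [Set.disjoint_left]
      intro x hx hx'
      exact hx' (hAN hx))
  let L : Set X := (U ∪ V)ᶜ
  have hLc : IsClosed L := (hU.union hV).isClosed_compl
  have hVN : Vᶜ ⊆ N := by
    intro x hx
    by_contra hcon
    exact hx (hBV (fun h' => hcon (interior_subset h')))
  have hLN : L ⊆ N := fun x hx => hVN (fun h' => hx (Or.inr h'))
  have hf₁L : ContinuousOn f₁ L := hf₁.mono hLN
  obtain ⟨γ, u, hγ, hγK, hu, hfu⟩ := approx_path h.compact hP hL (f := fun x : L => f₁ x)
    (continuousOn_iff_continuous_domRestrict.1 hf₁L) (fun x => hf₁K (hLN x.2)) hε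
  obtain ⟨u', hu', huu⟩ := tietze (E := ℝ) (f := fun x => if hx : x ∈ L then u ⟨x, hx⟩ else 0) hLc
    (by
      rw [continuousOn_iff_continuous_domRestrict]
      refine hu.congr ?_
      rintro ⟨x, hx⟩
      have hx' : x ∈ L := hx
      simp only [domRestrict_apply]
      rw [dif_pos hx'])
  obtain ⟨f₂, hf₂, hf₂K, hff₂⟩ := hclose hLc hf₁L (hf₁K.mono_left hLN)
    (G := γ ∘ u') (hγ.comp hu') (fun x => hγK _) (by
      intro x hx
      have h1 := huu hx
      simp only [hx, dite_true] at h1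
      simp only [Function.comp, h1]
      exact hfu ⟨x, hx⟩)
  let F : X → E := fun x => if x ∈ V then f₂ x else f₁ x
  have hF1 : EqOn F f₁ Vᶜ := by
    intro x hx
    simp only [F]
    rw [if_neg hx]
  have hF2 : EqOn F f₂ Uᶜ := by
    intro x hx
    by_cases hxV : x ∈ V
    · simp [F, hxV]
    · have hxL : x ∈ L := by
        rintro (h' | h')
        · exact hx h'
        · exact hxV h'
      rw [hF1 hxV]
      exact (hff₂ hxL).symm
  have hcov : Vᶜ ∪ Uᶜ = univ := by
    rw [← compl_inter, (Set.disjoint_iff_inter_eq_empty.1 hUV.symm), compl_empty]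
  refine ⟨F, ?_, ?_, ?_⟩
  · rw [← continuousOn_univ, ← hcov]
    refine ContinuousOn.union_of_isClosed ?_ ?_ hV.isClosed_compl hU.isClosed_compl
    · exact (hf₁.mono hVN).congr hF1
    · exact hf₂.continuousOn.congr hF2
  · intro x
    by_cases hxV : x ∈ V
    · simp only [F]
      rw [if_pos hxV]
      exact hf₂K x
    · rw [hF1 hxV]
      exact hf₁K (hVN hxV)
  · intro x hx
    have hxV : x ∉ V := fun h' => Set.disjoint_left.1 hUV (hAU hx) h'
    rw [hF1 hxV]
    exact hff hx

end Pool.Agent.Helper76.Menger
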