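import Pool.Agent.Helper76.Radial

set_option autoImplicit false
set_option linter.unusedSectionVars false

open MeasureTheory Set ENNReal Filter Topology Pointwise

namespace Pool.Agent.Helper76

section

variable {V : Type*} [NormedAddCommGroup V] [NormedSpace ℝ V] [MeasurableSpace V] [BorelSpace V]
  [SecondCountableTopology V]

lemma W_zero_point {d : ℕ} (hd : 1 ≤ d) {f : V → ℝ≥0∞} (h0 : f 0 ≠ 0) : W d f 0 = ∞ := by
  have hd0 : (d : ℝ≥0∞) ≠ 0 := by exact_mod_cast (by omega : d ≠ 0)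
  have h1 := W_smul d f (s := 1 / 2) (by norm_num) 0
  rw [smul_zero] at h1
  have hne : W d f 0 ≠ 0 := by
    unfold W
    refine mul_ne_zero hd0 ?_
    simp only [smul_zero]
    have hA : Measurable fun u : ℝ => ENNReal.ofReal ((u ^ (d + 1))⁻¹) * f 0 :=
      (ENNReal.measurable_ofReal.comp ((measurable_id.pow_const _).inv)).mul_const _
    intro hv
    rw [lintegral_eq_zero_iff hA] at hv
    have h4 := (ae_restrict_iff' measurableSet_Ioi).1 hv
    have h5 : volume (Ioi (0:ℝ)) = 0 := by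
      refine measure_mono_null ?_ h4
      intro u hu hcon
      have hu0 : (0:ℝ) < u := hu
      have h6 := hcon hu
      simp only [Pi.zero_apply, mul_eq_zero, h0, or_false, ENNReal.ofReal_eq_zero] at h6
      have : 0 < (u ^ (d + 1))⁻¹ := by positivity
      linarith
    simp at h5
  by_contra hnt
  have h2 : ENNReal.ofReal (((1 / 2 : ℝ) ^ d)⁻¹) = 1 := by
    have h3 : 1 * W d f 0 = ENNReal.ofReal (((1 / 2 : ℝ) ^ d)⁻¹) * W d f 0 := by
      rw [one_mul]; exact h1
    exact ((ENNReal.mul_left_inj hne hnt).1 h3).symm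
  have h4 : (1:ℝ) < ((1 / 2 : ℝ) ^ d)⁻¹ := by
    rw [one_div, inv_pow, inv_inv]
    exact one_lt_pow₀ (by norm_num) (by omega)
  have h5 : (1 : ℝ≥0∞) < ENNReal.ofReal (((1 / 2 : ℝ) ^ d)⁻¹) := by
    rw [← ENNReal.ofReal_one]
    exact (ENNReal.ofReal_lt_ofReal_iff (by linarith)).2 h4
  rw [h2] at h5
  exact lt_irrefl _ h5

lemma expn_N_zero {d : ℕ} (hd : 1 ≤ d) {f : V → ℝ≥0∞} (hf1 : ∀ x, f x ≤ 1) :
    f 0 ≤ expn (N d f 0) := by
  by_cases h0 : f 0 = 0
  · rw [h0]; exact bot_le
  · have hd' : (0 : ℝ) < d := by exact_mod_cast hd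
    have hneg : (-(1 / (d : ℝ))) < 0 := by
      have : 0 < 1 / (d : ℝ) := by positivity
      linarith
    have h1 : N d f 0 = 0 := by
      unfold N
      rw [W_zero_point hd h0, ENNReal.top_rpow_of_neg hneg]
    rw [h1, expn_zero]
    exact hf1 0

lemma N_sum {d : ℕ} (hd : 1 ≤ d) {f : V → ℝ≥0∞} (hf : Measurable f) (hf1 : ∀ x, f x ≤ 1)
    {R : ℝ} (hR : 0 < R) (hs : ∀ x, f x ≠ 0 → ‖x‖ ≤ R) (hc : Conc d f)
    {J : Type*} (s : Finset J) (hne : s.Nonempty) (z : J → V) :
    N d f (∑ j ∈ s, z j) ≤ ∑ j ∈ s, N d f (z j) := by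
  classical
  induction hne using Finset.Nonempty.cons_induction with
  | singleton a => simp
  | cons a s ha hs' ih =>
    rw [Finset.sum_cons, Finset.sum_cons]
    exact (N_add hd hf hf1 hR hs hc _ _).trans (add_le_add le_rfl ih)

end

section

variable {ι : Type*} [Fintype ι] [DecidableEq ι]

/-- The inclusion of `ℝ^s` as the coordinate subspace. -/
lemma smul_updateFinset (s : Finset ι) (c : ℝ) (y : s → ℝ) :
    c • Function.updateFinset (0 : ι → ℝ) s y = Function.updateFinset (0 : ι → ℝ) s (c • y) := by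
  ext i
  simp only [Pi.smul_apply, Function.updateFinset]
  split_ifs <;> simp

lemma norm_le_updateFinset (s : Finset ι) (y : s → ℝ) :
    ‖y‖ ≤ ‖Function.updateFinset (0 : ι → ℝ) s y‖ := by
  rw [pi_norm_le_iff_of_nonneg (norm_nonneg _)]
  intro i
  have h := norm_le_pi_norm (Function.updateFinset (0 : ι → ℝ) s y) i
  simpa [Function.updateFinset] using h

lemma N_updateFinset (d : ℕ) (f : (ι → ℝ) → ℝ≥0∞) (s : Finset ι) (y : s → ℝ) :
    N d f (Function.updateFinset (0 : ι → ℝ) s y) =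
      N d (fun y : s → ℝ => f (Function.updateFinset (0 : ι → ℝ) s y)) y := by
  unfold N W
  simp only [smul_updateFinset]

lemma lower_marginal {d : ℕ} (s : Finset ι) (hd : 1 ≤ d) (hsd : s.card ≤ d)
    {f : (ι → ℝ) → ℝ≥0∞} (hf : Measurable f) (hf1 : ∀ x, f x ≤ 1)
    {R : ℝ} (hR : 0 < R) (hs : ∀ x, f x ≠ 0 → ‖x‖ ≤ R) :
    (s.card.factorial : ℝ≥0∞) * lmarginal (fun _ => volume) s f 0 ≤
      lmarginal (fun _ => volume) s (fun x => expn (N d f x)) 0 := by
  rcases s.eq_empty_or_nonempty with rfl | hne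
  · simp only [lmarginal_empty, Finset.card_empty, Nat.factorial_zero, Nat.cast_one, one_mul]
    exact expn_N_zero hd hf1
  · have : Nonempty s := hne.to_subtype
    have : Nontrivial (s → ℝ) := Function.nontrivial
    have hcard : 1 ≤ s.card := hne.card_pos
    have hm : Measurable fun y : s → ℝ => f (Function.updateFinset (0 : ι → ℝ) s y) :=
      hf.comp (measurable_updateFinset)
    have h := lower_bound (volume : Measure (s → ℝ)) hcard hsd (by simp) hm (fun y => hf1 _) hR
      (fun y hy => (norm_le_updateFinset s y).trans (hs _ hy))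
    unfold lmarginal
    simp only [N_updateFinset]
    exact h

lemma upper_marginal (s : Finset ι) (hne : s.Nonempty)
    {f : (ι → ℝ) → ℝ≥0∞} (hf : Measurable f) (hf1 : ∀ x, f x ≤ 1)
    {R : ℝ} (hR : 0 < R) (hs : ∀ x, f x ≠ 0 → ‖x‖ ≤ R) :
    lmarginal (fun _ => volume) s (fun x => expn (N s.card f x)) 0 ≤
      (s.card.factorial : ℝ≥0∞) * lmarginal (fun _ => volume) s f 0 := by
  have : Nonempty s := hne.to_subtype
  have : Nontrivial (s → ℝ) := Function.nontrivial
  have hcard : 1 ≤ s.card := hne.card_pos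
  have hm : Measurable fun y : s → ℝ => f (Function.updateFinset (0 : ι → ℝ) s y) :=
    hf.comp (measurable_updateFinset)
  have h := upper_bound (volume : Measure (s → ℝ)) hcard (by simp) hm (fun y => hf1 _) hR
    (fun y hy => (norm_le_updateFinset s y).trans (hs _ hy))
  unfold lmarginal
  simp only [N_updateFinset]
  exact h

/-- The functional inequality, normalised by `f ≤ 1`. -/
theorem func_ineq {J : Type*} [Fintype J] [DecidableEq J] (T : Finset ι) (hT : T.Nonempty)
    (τ : J → Finset ι) (hτ : ∀ j, τ j ⊆ T) (r : ℕ) (hr : 0 < r)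
    (hcov : ∀ i ∈ T, (Finset.univ.filter (fun j => i ∈ τ j)).card = r)
    {f : (ι → ℝ) → ℝ≥0∞} (hf : Measurable f) (hf1 : ∀ x, f x ≤ 1)
    {R : ℝ} (hR : 0 < R) (hs : ∀ x, f x ≠ 0 → ‖x‖ ≤ R) (hc : Conc T.card f) :
    ∏ j, (((τ j).card.factorial : ℝ≥0∞) * lmarginal (fun _ => volume) (τ j) f 0) ≤
      ((T.card.factorial : ℝ≥0∞) * lmarginal (fun _ => volume) T f 0) ^ r := by
  have hd : 1 ≤ T.card := hT.card_pos
  have hr' : (0:ℝ) < r := by exact_mod_cast hr
  have hr1 : (0:ℝ) < 1 / r := by positivity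
  have hJ : (Finset.univ : Finset J).Nonempty := by
    obtain ⟨i, hi⟩ := hT
    have := hcov i hi
    obtain ⟨j, _⟩ := Finset.card_pos.1 (this ▸ hr)
    exact ⟨j, Finset.mem_univ j⟩
  set Ψ : (ι → ℝ) → ℝ≥0∞ := fun x => expn (N T.card f x) with hΨ
  have hΨm : Measurable Ψ := measurable_expn.comp (measurable_N _ hf)
  have h1 : ∏ j, (lmarginal (fun _ => volume) (τ j) Ψ 0) ^ (1 / (r : ℝ)) ≤
      lmarginal (fun _ => volume) T Ψ 0 := by
    refine barthe_coord T τ hτ (fun _ => 1 / (r : ℝ)) (fun _ => hr1) ?_ Ψ hΨm (fun _ => Ψ)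
      (fun _ => hΨm) 0 (fun _ => 0) ?_
    · intro i hi
      rw [Finset.sum_const, hcov i hi, nsmul_eq_mul]
      field_simp
    · intro x y hx hy hxy
      have hxs : x = ∑ j, (1 / (r : ℝ)) • y j := by
        ext i
        rw [Finset.sum_apply]
        by_cases hi : i ∈ T
        · rw [hxy i hi, Finset.sum_filter]
          refine Finset.sum_congr rfl fun j _ => ?_
          by_cases hij : i ∈ τ j
          · simp [hij]
          · simp [hij, hy j i hij]
        · rw [hx i hi]
          symm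
          refine Finset.sum_eq_zero fun j _ => ?_
          have : i ∉ τ j := fun h => hi (hτ j h)
          simp [hy j i this]
      simp only [hΨ]
      rw [← expn_sum Finset.univ hr1]
      apply expn_anti
      rw [hxs]
      refine (N_sum hd hf hf1 hR hs hc Finset.univ hJ _).trans (le_of_eq ?_)
      refine Finset.sum_congr rfl fun j _ => ?_
      exact N_smul hd f hr1 (y j)
  have h2 : ∏ j, lmarginal (fun _ => volume) (τ j) Ψ 0 ≤
      (lmarginal (fun _ => volume) T Ψ 0) ^ r := by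
    have h3 := pow_le_pow_left' h1 r
    rw [← Finset.prod_pow] at h3
    refine le_trans (le_of_eq ?_) h3
    refine Finset.prod_congr rfl fun j _ => ?_
    rw [← ENNReal.rpow_natCast, ← ENNReal.rpow_mul]
    rw [one_div, inv_mul_cancel₀ hr'.ne', ENNReal.rpow_one]
  calc ∏ j, (((τ j).card.factorial : ℝ≥0∞) * lmarginal (fun _ => volume) (τ j) f 0)
      ≤ ∏ j, lmarginal (fun _ => volume) (τ j) Ψ 0 :=
        Finset.prod_le_prod' fun j _ => lower_marginal (τ j) hd (Finset.card_le_card (hτ j))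
          hf hf1 hR hs
    _ ≤ (lmarginal (fun _ => volume) T Ψ 0) ^ r := h2
    _ ≤ _ := pow_le_pow_left' (upper_marginal T hT hf hf1 hR hs) r

end

end Pool.Agent.Helper76
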