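import Pool.Agent.Helper76.Ball

set_option autoImplicit false
set_option linter.unusedSectionVars false

open MeasureTheory Set ENNReal Filter Topology Pointwise

namespace Pool.Agent.Helper76

lemma lintegral_tail {d : ℕ} (hd : 1 ≤ d) {δ : ℝ} (hδ : 0 < δ) :
    (d : ℝ≥0∞) * ∫⁻ u in Ioi δ, ENNReal.ofReal ((u ^ (d + 1))⁻¹) =
      ENNReal.ofReal ((δ ^ d)⁻¹) := by
  have hd' : (0 : ℝ) < d := by exact_mod_cast hd
  have hlt : (-(d + 1 : ℝ)) < -1 := by linarith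
  have h1 : ∀ u ∈ Ioi δ, (u ^ (d + 1))⁻¹ = u ^ (-(d + 1 : ℝ)) := by
    intro u hu
    have hu0 : 0 < u := hδ.trans hu
    rw [Real.rpow_neg hu0.le]
    congr 1
    exact_mod_cast (Real.rpow_natCast u (d + 1)).symm
  have h2 : ∫⁻ u in Ioi δ, ENNReal.ofReal ((u ^ (d + 1))⁻¹) =
      ENNReal.ofReal (∫ u in Ioi δ, u ^ (-(d + 1 : ℝ))) := by
    rw [ofReal_integral_eq_lintegral_ofReal (integrableOn_Ioi_rpow_of_lt hlt hδ)]
    · exact setLIntegral_congr_fun measurableSet_Ioi (fun u hu => by rw [h1 u hu])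
    · refine (ae_restrict_iff' measurableSet_Ioi).2 (Eventually.of_forall fun u hu => ?_)
      exact (Real.rpow_nonneg (hδ.trans hu).le _)
  rw [h2, integral_Ioi_rpow_of_lt hlt hδ, ← ENNReal.ofReal_natCast,
    ← ENNReal.ofReal_mul hd'.le]
  congr 1
  have h3 : δ ^ (-(d + 1 : ℝ) + 1) = (δ ^ d)⁻¹ := by
    rw [show (-(d + 1 : ℝ) + 1) = -(d : ℝ) by ring, Real.rpow_neg hδ.le, Real.rpow_natCast]
  rw [h3]
  have : (-(d + 1 : ℝ) + 1) = -d := by ring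
  rw [this]
  field_simp

lemma lintegral_smul_space {V : Type*} [NormedAddCommGroup V] [NormedSpace ℝ V]
    [MeasurableSpace V] [BorelSpace V] [FiniteDimensional ℝ V] (μ : Measure V)
    [μ.IsAddHaarMeasure] (Φ : V → ℝ≥0∞) {s : ℝ} (hs : 0 < s) :
    ∫⁻ v, Φ v ∂μ = ENNReal.ofReal (s ^ Module.finrank ℝ V) * ∫⁻ v, Φ (s • v) ∂μ := by
  have h1 : ∫⁻ v, Φ (s • v) ∂μ = ∫⁻ v, Φ v ∂(Measure.map (s • ·) μ) := by
    exact ((MeasurableEquiv.smul₀ s hs.ne').measurableEmbedding.lintegral_map Φ).symm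
  rw [h1, Measure.map_addHaar_smul μ hs.ne', lintegral_smul_measure, smul_eq_mul, ← mul_assoc,
    ← ENNReal.ofReal_mul (by positivity), abs_of_pos (by positivity),
    mul_inv_cancel₀ (by positivity), ENNReal.ofReal_one, one_mul]

lemma lintegral_Ioi_scale (Φ : ℝ → ℝ≥0∞) {s : ℝ} (hs : 0 < s) :
    ∫⁻ u in Ioi (0:ℝ), Φ u = ENNReal.ofReal s * ∫⁻ u in Ioi (0:ℝ), Φ (s * u) := by
  rw [← lintegral_indicator measurableSet_Ioi, ← lintegral_indicator measurableSet_Ioi,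
    lintegral_smul_space volume (indicator (Ioi (0:ℝ)) Φ) hs]
  simp only [Module.finrank_self, pow_one]
  congr 1
  refine lintegral_congr fun u => ?_
  simp only [indicator, mem_Ioi, smul_eq_mul, mul_pos_iff_of_pos_left hs]

section

variable {V : Type*} [NormedAddCommGroup V] [NormedSpace ℝ V] [MeasurableSpace V] [BorelSpace V]
  [SecondCountableTopology V]

/-- `W d f x = d ∫_0^∞ u^{-(d+1)} f (x / u) du`. -/
noncomputable def W (d : ℕ) (f : V → ℝ≥0∞) (x : V) : ℝ≥0∞ :=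
  (d : ℝ≥0∞) * ∫⁻ u in Ioi (0:ℝ), ENNReal.ofReal ((u ^ (d + 1))⁻¹) * f (u⁻¹ • x)

/-- The gauge `N = W ^ (-1/d)`. -/
noncomputable def N (d : ℕ) (f : V → ℝ≥0∞) (x : V) : ℝ≥0∞ := (W d f x) ^ (-(1 / (d : ℝ)))

lemma measurable_integrand (d : ℕ) {f : V → ℝ≥0∞} (hf : Measurable f) :
    Measurable (fun p : V × ℝ => ENNReal.ofReal ((p.2 ^ (d + 1))⁻¹) * f (p.2⁻¹ • p.1)) := by
  refine Measurable.mul ?_ ?_
  · exact ENNReal.measurable_ofReal.comp ((measurable_snd.pow_const _).inv)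
  · exact hf.comp (measurable_snd.inv.smul measurable_fst)

lemma measurable_W (d : ℕ) {f : V → ℝ≥0∞} (hf : Measurable f) : Measurable (W d f) := by
  refine Measurable.const_mul ?_ _
  exact (measurable_integrand d hf).lintegral_prod_right'

lemma measurable_N (d : ℕ) {f : V → ℝ≥0∞} (hf : Measurable f) : Measurable (N d f) :=
  (measurable_W d hf).pow_const _

lemma W_smul (d : ℕ) (f : V → ℝ≥0∞) {s : ℝ} (hs : 0 < s) (x : V) :
    W d f (s • x) = ENNReal.ofReal ((s ^ d)⁻¹) * W d f x := by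
  unfold W
  rw [lintegral_Ioi_scale _ hs]
  have h1 : ∀ u ∈ Ioi (0:ℝ), ENNReal.ofReal (((s * u) ^ (d + 1))⁻¹) * f ((s * u)⁻¹ • s • x) =
      ENNReal.ofReal ((s ^ (d + 1))⁻¹) * (ENNReal.ofReal ((u ^ (d + 1))⁻¹) * f (u⁻¹ • x)) := by
    intro u hu
    have hu0 : (0:ℝ) < u := hu
    rw [← mul_assoc, ← ENNReal.ofReal_mul (by positivity), ← mul_inv, ← mul_pow, smul_smul,
      mul_inv, mul_comm s⁻¹ u⁻¹, mul_assoc, inv_mul_cancel₀ hs.ne', mul_one]
  rw [setLIntegral_congr_fun measurableSet_Ioi h1, lintegral_const_mul' _ _ ENNReal.ofReal_ne_top]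
  have h2 : ENNReal.ofReal ((s ^ d)⁻¹) = ENNReal.ofReal s * ENNReal.ofReal ((s ^ (d + 1))⁻¹) := by
    rw [← ENNReal.ofReal_mul hs.le]
    congr 1
    rw [pow_succ]
    field_simp
  rw [h2]
  ring

lemma N_smul {d : ℕ} (hd : 1 ≤ d) (f : V → ℝ≥0∞) {s : ℝ} (hs : 0 < s) (x : V) :
    N d f (s • x) = ENNReal.ofReal s * N d f x := by
  unfold N
  have hd' : (0 : ℝ) < d := by exact_mod_cast hd
  have hne : ENNReal.ofReal ((s ^ d)⁻¹) ≠ 0 := by
    simp only [ne_eq, ENNReal.ofReal_eq_zero, not_le]; positivity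
  rw [W_smul d f hs]
  have h1 : (ENNReal.ofReal ((s ^ d)⁻¹)) ^ (-(1 / (d : ℝ))) = ENNReal.ofReal s := by
    rw [ENNReal.ofReal_rpow_of_pos (by positivity)]
    congr 1
    rw [← Real.rpow_natCast, ← Real.rpow_neg hs.le, ← Real.rpow_mul hs.le]
    have : (-(d : ℝ)) * -(1 / (d : ℝ)) = 1 := by field_simp
    rw [this, Real.rpow_one]
  rcases eq_or_ne (W d f x) ∞ with ht | ht
  · rw [ht, ENNReal.mul_top hne]
    have : (-(1 / (d : ℝ))) < 0 := by
      have : 0 < 1 / (d : ℝ) := by positivity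
      linarith
    rw [ENNReal.top_rpow_of_neg this, mul_zero]
  · rw [ENNReal.mul_rpow_of_ne_top ENNReal.ofReal_ne_top ht, h1]

/-- `f` is `-1/(d+1)`-concave. -/
def Conc (d : ℕ) (f : V → ℝ≥0∞) : Prop :=
  ∀ (x y : V) (l m a b : ℝ), 0 < l → 0 < m → l + m = 1 → 0 < a → 0 < b →
    ENNReal.ofReal ((a ^ (d + 1))⁻¹) ≤ f x → ENNReal.ofReal ((b ^ (d + 1))⁻¹) ≤ f y →
    ENNReal.ofReal (((l * a + m * b) ^ (d + 1))⁻¹) ≤ f (l • x + m • y)

/-- The integrand along the ray of `x`. -/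
noncomputable def ray (d : ℕ) (f : V → ℝ≥0∞) (x : V) (u : ℝ) : ℝ≥0∞ :=
  indicator (Ioi (0:ℝ)) (fun u => ENNReal.ofReal ((u ^ (d + 1))⁻¹) * f (u⁻¹ • x)) u

lemma W_eq_ray (d : ℕ) (f : V → ℝ≥0∞) (x : V) : W d f x = (d : ℝ≥0∞) * ∫⁻ u, ray d f x u := by
  unfold W ray
  rw [lintegral_indicator measurableSet_Ioi]

lemma measurable_ray (d : ℕ) {f : V → ℝ≥0∞} (hf : Measurable f) (x : V) :
    Measurable (ray d f x) := by
  refine Measurable.indicator ?_ measurableSet_Ioi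
  exact (measurable_integrand d hf).comp (measurable_const.prodMk measurable_id)

lemma ray_pos {d : ℕ} {f : V → ℝ≥0∞} {x : V} {u a : ℝ} (ha : 0 < a)
    (h : ENNReal.ofReal ((a ^ (d + 1))⁻¹) ≤ ray d f x u) :
    0 < u ∧ ENNReal.ofReal (((a / u) ^ (d + 1))⁻¹) ≤ f (u⁻¹ • x) := by
  have hpos : 0 < ENNReal.ofReal ((a ^ (d + 1))⁻¹) := ENNReal.ofReal_pos.2 (by positivity)
  have hu : 0 < u := by
    by_contra hu
    have : ray d f x u = 0 := by
      unfold ray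
      exact indicator_of_notMem (by simpa using hu) _
    rw [this] at h
    exact absurd hpos (not_lt.2 h)
  refine ⟨hu, ?_⟩
  unfold ray at h
  rw [indicator_of_mem (show u ∈ Ioi (0:ℝ) from hu)] at h
  have h2 : ENNReal.ofReal (u ^ (d + 1)) * ENNReal.ofReal ((a ^ (d + 1))⁻¹) ≤
      ENNReal.ofReal (u ^ (d + 1)) * (ENNReal.ofReal ((u ^ (d + 1))⁻¹) * f (u⁻¹ • x)) := by
    gcongr
  rw [← mul_assoc, ← ENNReal.ofReal_mul (by positivity), ← ENNReal.ofReal_mul (by positivity),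
    mul_inv_cancel₀ (by positivity), ENNReal.ofReal_one, one_mul] at h2
  refine le_trans (le_of_eq ?_) h2
  congr 1
  rw [div_pow]
  field_simp

lemma ray_of_pos {d : ℕ} {f : V → ℝ≥0∞} {x : V} {u a : ℝ} (ha : 0 < a) (hu : 0 < u)
    (h : ENNReal.ofReal (((a / u) ^ (d + 1))⁻¹) ≤ f (u⁻¹ • x)) :
    ENNReal.ofReal ((a ^ (d + 1))⁻¹) ≤ ray d f x u := by
  unfold ray
  rw [indicator_of_mem (show u ∈ Ioi (0:ℝ) from hu)]
  refine le_trans (le_of_eq ?_) (mul_le_mul' (le_refl _) h)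
  rw [← ENNReal.ofReal_mul (by positivity)]
  congr 1
  rw [div_pow]
  field_simp

lemma ray_conc {d : ℕ} {f : V → ℝ≥0∞} (hf : Conc d f) (x y : V) (u v a b : ℝ) (ha : 0 < a)
    (hb : 0 < b) (h1 : ENNReal.ofReal ((a ^ (d + 1))⁻¹) ≤ ray d f x u)
    (h2 : ENNReal.ofReal ((b ^ (d + 1))⁻¹) ≤ ray d f y v) :
    ENNReal.ofReal (((a + b) ^ (d + 1))⁻¹) ≤ ray d f (x + y) (u + v) := by
  obtain ⟨hu, h1'⟩ := ray_pos ha h1
  obtain ⟨hv, h2'⟩ := ray_pos hb h2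
  refine ray_of_pos (by positivity) (by positivity) ?_
  have h3 := hf (u⁻¹ • x) (v⁻¹ • y) (u / (u + v)) (v / (u + v)) (a / u) (b / v)
    (by positivity) (by positivity) (by field_simp) (by positivity) (by positivity) h1' h2'
  have e1 : u / (u + v) * (a / u) + v / (u + v) * (b / v) = (a + b) / (u + v) := by
    field_simp
  have e2 : (u / (u + v)) • u⁻¹ • x + (v / (u + v)) • v⁻¹ • y = (u + v)⁻¹ • (x + y) := by
    rw [smul_smul, smul_smul, smul_add]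
    congr 2
    · field_simp
    · field_simp
  rw [e1, e2] at h3
  exact h3

lemma ray_bound {d : ℕ} {f : V → ℝ≥0∞} (hf1 : ∀ x, f x ≤ 1) {R : ℝ} (hR : 0 < R)
    (hs : ∀ x, f x ≠ 0 → ‖x‖ ≤ R) {x : V} (hx : x ≠ 0) (u : ℝ) :
    ray d f x u ≤ indicator (Ici (‖x‖ / R)) (fun u => ENNReal.ofReal ((u ^ (d + 1))⁻¹)) u := by
  have hδ : 0 < ‖x‖ / R := div_pos (norm_pos_iff.2 hx) hR
  by_cases hu : 0 < u
  · unfold ray
    rw [indicator_of_mem (show u ∈ Ioi (0:ℝ) from hu)]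
    by_cases h0 : f (u⁻¹ • x) = 0
    · rw [h0, mul_zero]; exact bot_le
    · have h1 := hs _ h0
      rw [norm_smul, norm_inv, Real.norm_of_nonneg hu.le] at h1
      have h2 : ‖x‖ / R ≤ u := by
        rw [div_le_iff₀ hR]
        have := mul_le_mul_of_nonneg_left h1 hu.le
        rwa [← mul_assoc, mul_inv_cancel₀ hu.ne', one_mul] at this
      rw [indicator_of_mem (show u ∈ Ici (‖x‖ / R) from h2)]
      calc ENNReal.ofReal ((u ^ (d + 1))⁻¹) * f (u⁻¹ • x)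
          ≤ ENNReal.ofReal ((u ^ (d + 1))⁻¹) * 1 := by gcongr; exact hf1 _
        _ = _ := mul_one _
  · have : ray d f x u = 0 := by
      unfold ray
      exact indicator_of_notMem (by simpa using hu) _
    rw [this]; exact bot_le

lemma ray_sup {d : ℕ} {f : V → ℝ≥0∞} (hf1 : ∀ x, f x ≤ 1) {R : ℝ} (hR : 0 < R)
    (hs : ∀ x, f x ≠ 0 → ‖x‖ ≤ R) {x : V} (hx : x ≠ 0) : (⨆ u, ray d f x u) ≠ ∞ := by
  have hδ : 0 < ‖x‖ / R := div_pos (norm_pos_iff.2 hx) hR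
  refine ne_top_of_le_ne_top (ENNReal.ofReal_ne_top (r := ((‖x‖ / R) ^ (d + 1))⁻¹))
    (iSup_le fun u => ?_)
  refine (ray_bound hf1 hR hs hx u).trans ?_
  by_cases hu : u ∈ Ici (‖x‖ / R)
  · rw [indicator_of_mem hu]
    apply ENNReal.ofReal_le_ofReal
    have hu' : ‖x‖ / R ≤ u := hu
    gcongr
  · rw [indicator_of_notMem hu]; exact bot_le

lemma W_ne_top {d : ℕ} (hd : 1 ≤ d) {f : V → ℝ≥0∞} (hf1 : ∀ x, f x ≤ 1) {R : ℝ} (hR : 0 < R)
    (hs : ∀ x, f x ≠ 0 → ‖x‖ ≤ R) {x : V} (hx : x ≠ 0) : W d f x ≠ ∞ := by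
  have hδ : 0 < ‖x‖ / R := div_pos (norm_pos_iff.2 hx) hR
  rw [W_eq_ray]
  have h1 : ∫⁻ u, ray d f x u ≤ ∫⁻ u in Ioi (‖x‖ / R), ENNReal.ofReal ((u ^ (d + 1))⁻¹) := by
    rw [← setLIntegral_congr (Ioi_ae_eq_Ici (a := ‖x‖ / R)).symm, ← lintegral_indicator measurableSet_Ici]
    exact lintegral_mono fun u => ray_bound hf1 hR hs hx u
  refine ne_top_of_le_ne_top ?_ (mul_le_mul' (le_refl (d : ℝ≥0∞)) h1)
  rw [lintegral_tail hd hδ]
  exact ENNReal.ofReal_ne_top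

/-- If `N x` is a positive real `α` then `W x = α ^ (-d)`. -/
lemma W_of_N {d : ℕ} (hd : 1 ≤ d) {f : V → ℝ≥0∞} {x : V} (h0 : W d f x ≠ 0)
    (ht : W d f x ≠ ∞) : 0 < (N d f x).toReal ∧ N d f x = ENNReal.ofReal (N d f x).toReal ∧
      W d f x = ENNReal.ofReal (((N d f x).toReal ^ d)⁻¹) := by
  have hd' : (0 : ℝ) < d := by exact_mod_cast hd
  have hN0 : N d f x ≠ 0 := by
    unfold N
    rw [ne_eq, ENNReal.rpow_eq_zero_iff]
    push Not
    constructor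
    · intro h; exact absurd h h0
    · intro h; exact absurd h ht
  have hNt : N d f x ≠ ∞ := by
    unfold N
    rw [ne_eq, ENNReal.rpow_eq_top_iff]
    push Not
    constructor
    · intro h; exact absurd h h0
    · intro h; exact absurd h ht
  refine ⟨ENNReal.toReal_pos hN0 hNt, (ENNReal.ofReal_toReal hNt).symm, ?_⟩
  have h1 : W d f x = (N d f x) ^ (-(d : ℝ)) := by
    unfold N
    rw [← ENNReal.rpow_mul]
    have : -(1 / (d : ℝ)) * -(d : ℝ) = 1 := by field_simp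
    rw [this, ENNReal.rpow_one]
  rw [h1]
  have hp := ENNReal.toReal_pos hN0 hNt
  conv_lhs => rw [← ENNReal.ofReal_toReal hNt]
  rw [ENNReal.ofReal_rpow_of_pos hp, Real.rpow_neg hp.le, Real.rpow_natCast]

lemma N_le_of_W_ge {d : ℕ} (hd : 1 ≤ d) {f : V → ℝ≥0∞} {x : V} {γ : ℝ} (hγ : 0 < γ)
    (h : ENNReal.ofReal ((γ ^ d)⁻¹) ≤ W d f x) : N d f x ≤ ENNReal.ofReal γ := by
  have hd' : (0 : ℝ) < d := by exact_mod_cast hd
  unfold N
  have h1 : (ENNReal.ofReal ((γ ^ d)⁻¹)) ^ (-(1 / (d : ℝ))) = ENNReal.ofReal γ := by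
    rw [ENNReal.ofReal_rpow_of_pos (by positivity)]
    congr 1
    rw [← Real.rpow_natCast, ← Real.rpow_neg hγ.le, ← Real.rpow_mul hγ.le]
    have : (-(d : ℝ)) * -(1 / (d : ℝ)) = 1 := by field_simp
    rw [this, Real.rpow_one]
  rw [← h1, ENNReal.rpow_neg, ENNReal.rpow_neg, ENNReal.inv_le_inv]
  exact ENNReal.rpow_le_rpow h (by positivity)

/-- Ball's theorem: `N` is subadditive. -/
theorem N_add {d : ℕ} (hd : 1 ≤ d) {f : V → ℝ≥0∞} (hf : Measurable f) (hf1 : ∀ x, f x ≤ 1)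
    {R : ℝ} (hR : 0 < R) (hs : ∀ x, f x ≠ 0 → ‖x‖ ≤ R) (hc : Conc d f) (x y : V) :
    N d f (x + y) ≤ N d f x + N d f y := by
  have hd' : (0 : ℝ) < d := by exact_mod_cast hd
  have hneg : (-(1 / (d : ℝ))) < 0 := by
    have : 0 < 1 / (d : ℝ) := by positivity
    linarith
  rcases eq_or_ne (W d f x) 0 with hx0 | hx0
  · have : N d f x = ∞ := by
      unfold N; rw [hx0, ENNReal.zero_rpow_of_neg hneg]
    rw [this]; simp
  rcases eq_or_ne (W d f y) 0 with hy0 | hy0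
  · have : N d f y = ∞ := by
      unfold N; rw [hy0, ENNReal.zero_rpow_of_neg hneg]
    rw [this]; simp
  rcases eq_or_ne x 0 with rfl | hx
  · rw [zero_add]; exact le_add_self
  rcases eq_or_ne y 0 with rfl | hy
  · rw [add_zero]; exact le_self_add
  have hxt := W_ne_top hd hf1 hR hs hx
  have hyt := W_ne_top hd hf1 hR hs hy
  obtain ⟨hα, hα1, hα2⟩ := W_of_N hd hx0 hxt
  obtain ⟨hβ, hβ1, hβ2⟩ := W_of_N hd hy0 hyt
  rw [hα1, hβ1, ← ENNReal.ofReal_add hα.le hβ.le]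
  apply N_le_of_W_ge hd (by positivity)
  rw [W_eq_ray]
  refine bbl (ray d f x) (ray d f y) (ray d f (x + y)) (measurable_ray d hf x)
    (measurable_ray d hf y) (measurable_ray d hf (x + y)) (ray_sup hf1 hR hs hx)
    (ray_sup hf1 hR hs hy) hα hβ ?_ ?_ ?_
  · rw [← W_eq_ray]; exact hα2
  · rw [← W_eq_ray]; exact hβ2
  · intro u v a b ha hb h1 h2
    exact ray_conc hc x y u v a b ha hb h1 h2

end

end Pool.Agent.Helper76
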