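import Pool.Agent.Helper76.Partition

set_option autoImplicit false

namespace Pool.Agent.Helper76.Menger

open Set Topology Metric Filter TopologicalSpace

/-- Nowhere vanishing maps to `ℝ ^ m` are dense. -/
def SR (m : ℕ) (Z : Type) [TopologicalSpace Z] : Prop :=
  ∀ (f : C(Z, Fin m → ℝ)) (ε : ℝ), 0 < ε →
    ∃ g : C(Z, Fin m → ℝ), (∀ z, g z ≠ 0) ∧ ∀ z, dist (f z) (g z) < ε

/-- Generic zero sets. -/
lemma SR.generic {m : ℕ} {Z : Type} [TopologicalSpace Z] [CompactSpace Z] [MetrizableSpace Z]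
    (h : SR (m + 1) Z) (a₀ : C(Z, ℝ)) {ε : ℝ} (hε : 0 < ε) :
    ∃ a : C(Z, ℝ), (∀ z, dist (a z) (a₀ z) < ε) ∧ SR m (a ⁻¹' {0} : Set Z) := by
  let _ := metrizableSpaceMetric Z
  let D : ℕ → C(Z, Fin m → ℝ) := denseSeq _
  have hD : DenseRange D := denseRange_denseSeq _
  let G : ℕ × ℕ → Set C(Z, ℝ) := fun p =>
    ⋃ g ∈ {g : C(Z, Fin m → ℝ) | ∀ z, dist (D p.1 z) (g z) < 1 / ((p.2 : ℝ) + 1)},
      {a | MapsTo a (g ⁻¹' {0}) {0}ᶜ}
  have hopen : ∀ p, IsOpen (G p) := by
    intro p
    refine isOpen_biUnion (fun g _ => ContinuousMap.isOpen_setOfPred_mapsTo ?_ ?_)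
    · exact (isClosed_singleton.preimage g.continuous).isCompact
    · exact isOpen_compl_singleton
  have hdense : ∀ p, Dense (G p) := by
    intro p
    rw [Metric.dense_iff]
    intro a₁ η hη
    have hj : 0 < 1 / ((p.2 : ℝ) + 1) := by positivity
    obtain ⟨g, hg0, hg⟩ := h ⟨fun z => Fin.cons (a₁ z) (D p.1 z), by fun_prop⟩
      (min (η / 2) (1 / ((p.2 : ℝ) + 1))) (lt_min (by positivity) hj)
    refine ⟨⟨fun z => g z 0, by fun_prop⟩, ?_, ?_⟩
    · rw [mem_ball, ContinuousMap.dist_lt_iff hη]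
      intro z
      have h1 := hg z
      have h2 := (dist_pi_lt_iff (lt_min (by positivity) hj)).1 h1 0
      simp only [ContinuousMap.coe_mk, Fin.cons_zero] at h2
      rw [dist_comm]
      exact lt_of_lt_of_le h2 ((min_le_left _ _).trans (by linarith))
    · refine mem_iUnion₂.2 ⟨⟨fun z => Fin.tail (g z), by unfold Fin.tail; fun_prop⟩, ?_, ?_⟩
      · intro z
        have h1 := hg z
        have h2 := (dist_pi_lt_iff (lt_min (by positivity) hj)).1 h1
        rw [dist_pi_lt_iff hj]
        intro i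
        have h3 := h2 i.succ
        simp only [ContinuousMap.coe_mk, Fin.cons_succ] at h3
        exact lt_of_lt_of_le h3 (min_le_right _ _)
      · intro z hz hz'
        apply hg0 z
        have h1 : g z 0 = 0 := hz'
        have h2 : Fin.tail (g z) = 0 := hz
        ext i
        refine Fin.cases h1 (fun i => ?_) i
        exact congrFun h2 i
  have hdd := dense_iInter_of_isOpen hopen hdense
  obtain ⟨a, ha, haG⟩ := Metric.dense_iff.1 hdd a₀ ε hε
  refine ⟨a, ?_, ?_⟩
  · rw [mem_ball, ContinuousMap.dist_lt_iff hε] at ha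
    exact ha
  · intro f η hη
    obtain ⟨F, hF⟩ := ContinuousMap.exists_restrict_eq (isClosed_singleton.preimage a.continuous) f
    obtain ⟨k, hk⟩ := hD.exists_dist_lt F (half_pos hη)
    rw [ContinuousMap.dist_lt_iff (half_pos hη)] at hk
    obtain ⟨j, hj⟩ := exists_nat_one_div_lt (half_pos hη)
    obtain ⟨g, hg, hag⟩ := mem_iUnion₂.1 (mem_iInter.1 haG (k, j))
    refine ⟨g.restrict _, ?_, ?_⟩
    · rintro ⟨z, hz⟩ hz'
      exact hag hz' hz
    · rintro ⟨z, hz⟩
      have h1 : f ⟨z, hz⟩ = F z := by rw [← hF]; rfl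
      have h2 := hk z
      have h3 := hg z
      simp only at h3
      rw [h1]
      calc dist (F z) (g z) ≤ dist (F z) (D k z) + dist (D k z) (g z) := dist_triangle _ _ _
        _ < η / 2 + η / 2 := add_lt_add h2 (h3.trans hj)
        _ = η := by ring

/-- Spaces in which nowhere vanishing maps are dense have small dimension. -/
lemma SR.indLT : ∀ {m : ℕ} {Z : Type} [TopologicalSpace Z] [CompactSpace Z] [MetrizableSpace Z],
    SR m Z → IndLT m Z := by
  intro m
  induction m with
  | zero =>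
    intro Z _ _ _ h
    refine ⟨fun z => ?_⟩
    obtain ⟨g, hg, -⟩ := h 0 1 one_pos
    exact hg z (Subsingleton.elim _ _)
  | succ m ih =>
    intro Z _ _ _ h x U hU hx
    let _ := metrizableSpaceMetric Z
    obtain ⟨u, hu0, hu1, hu⟩ := exists_continuous_zero_one_of_isClosed
      (isClosed_singleton (x := x)) hU.isClosed_compl
      (by rw [Set.disjoint_singleton_left]; exact fun h' => h' hx)
    obtain ⟨a, ha, hSR⟩ := h.generic ⟨fun z => u z - 1 / 2, by fun_prop⟩ (ε := 1 / 4) (by norm_num)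
    simp only [ContinuousMap.coe_mk] at ha
    have hCs : CompactSpace (a ⁻¹' {0} : Set Z) :=
      isCompact_iff_compactSpace.1 (isClosed_singleton.preimage a.continuous).isCompact
    refine ⟨{z | a z < 0}, isOpen_lt a.continuous continuous_const, ?_, ?_, ?_⟩
    · have h1 := ha x
      have h2 : u x = 0 := hu0 rfl
      rw [h2, Real.dist_eq, abs_lt] at h1
      simp only [mem_ofPred_eq]
      linarith [h1.2]
    · intro z hz
      by_contra hcon
      have h1 := ha z
      have h2 : u z = 1 := hu1 hcon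
      simp only [mem_ofPred_eq] at hz
      rw [h2, Real.dist_eq, abs_lt] at h1
      linarith [h1.1]
    · refine (ih hSR).subset ?_
      intro z hz
      exact frontier_lt_subset_eq a.continuous continuous_const hz

end Pool.Agent.Helper76.Menger
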