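import Pool.Agent.Helper76.MengerDefs

set_option autoImplicit false

namespace Pool.Agent.Helper76.Menger

open Set Topology

lemma IndLT.of_isEmbedding {k : ℕ} : ∀ {X Y : Type} [TopologicalSpace X] [TopologicalSpace Y]
    {e : Y → X}, IsEmbedding e → IndLT k X → IndLT k Y := by
  induction k with
  | zero =>
    intro X Y _ _ e he h
    simp only [IndLT] at h ⊢
    exact Function.isEmpty e
  | succ k ih =>
    intro X Y _ _ e he h
    simp only [IndLT] at h ⊢
    intro y U hU hy
    obtain ⟨U', hU', rfl⟩ := he.isInducing.isOpen_iff.1 hU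
    obtain ⟨V, hV, hyV, hVU, hfr⟩ := h (e y) U' hU' hy
    refine ⟨e ⁻¹' V, hV.preimage he.continuous, hyV, preimage_mono hVU, ?_⟩
    have hsub : ∀ z ∈ frontier (e ⁻¹' V), e z ∈ frontier V := by
      intro z hz
      rw [(hV.preimage he.continuous).frontier_eq] at hz
      rw [hV.frontier_eq]
      refine ⟨?_, hz.2⟩
      exact he.continuous.closure_preimage_subset _ hz.1
    refine ih (e := fun z : frontier (e ⁻¹' V) => (⟨e z, hsub z z.2⟩ : frontier V)) ?_ hfr
    have h1 : IsEmbedding (fun z : frontier (e ⁻¹' V) => e z) := he.comp IsEmbedding.subtypeVal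
    exact h1.codRestrict _ _

lemma IndLT.subset {k : ℕ} {X : Type} [TopologicalSpace X] {A B : Set X} (h : A ⊆ B)
    (hB : IndLT k B) : IndLT k A :=
  hB.of_isEmbedding (IsEmbedding.inclusion h)

lemma IndLT.subtype {k : ℕ} {X : Type} [TopologicalSpace X] (h : IndLT k X) (A : Set X) :
    IndLT k A := h.of_isEmbedding IsEmbedding.subtypeVal

lemma IndLT.succ {k : ℕ} : ∀ {X : Type} [TopologicalSpace X], IndLT k X → IndLT (k + 1) X := by
  induction k with
  | zero =>
    intro X _ h
    simp only [IndLT] at h ⊢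
    intro x
    exact h.elim x
  | succ k ih =>
    intro X _ h x U hU hx
    obtain ⟨V, hV, hxV, hVU, hfr⟩ := h x U hU hx
    exact ⟨V, hV, hxV, hVU, ih hfr⟩

lemma IndLT.mono {k l : ℕ} (hkl : k ≤ l) {X : Type} [TopologicalSpace X] (h : IndLT k X) :
    IndLT l X := by
  induction hkl with
  | refl => exact h
  | step _ ih => exact ih.succ

lemma ind_le_iff (k : ℕ) (X : Type) [TopologicalSpace X] :
    ind X ≤ (((k : ℤ) - 1 : ℤ) : EInt) ↔ IndLT k X := by
  constructor
  · intro h
    by_contra hcon
    have h1 : ∀ l : ℕ, IndLT l X → k + 1 ≤ l := by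
      intro l hl
      by_contra hlt
      exact hcon (hl.mono (by omega))
    have h2 : ((k : ℤ) : EInt) ≤ ind X := by
      unfold ind
      refine le_iInf₂ (fun l hl => ?_)
      have := h1 l hl
      have h3 : (k : ℤ) ≤ (l : ℤ) - 1 := by omega
      exact WithBotTop.coe_le_coe.2 h3
    have h3 := WithBotTop.coe_le_coe.1 (h2.trans h)
    omega
  · intro h
    exact iInf₂_le k h

end Pool.Agent.Helper76.Menger
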