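import Mathlib

set_option autoImplicit false

namespace Pool.Agent.Helper76.Menger

open Set Topology

/-- `IndLT k X` says that the small inductive dimension of `X` is less than `k`. -/
def IndLT : ℕ → (X : Type) → [TopologicalSpace X] → Prop
  | 0, X, _ => IsEmpty X
  | k + 1, X, _ => ∀ (x : X) (U : Set X), IsOpen U → x ∈ U →
      ∃ V : Set X, IsOpen V ∧ x ∈ V ∧ V ⊆ U ∧ IndLT k (frontier V)

/-- The small inductive dimension. -/
noncomputable def ind (X : Type) [TopologicalSpace X] : EInt :=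
  ⨅ (k : ℕ) (_ : IndLT k X), (((k : ℤ) - 1 : ℤ) : EInt)

/-- The class of all spaces that embed in Euclidean `n`-space. -/
def MemU (n : ℕ) (X : Type) [TopologicalSpace X] : Prop :=
  ∃ f : X → EuclideanSpace ℝ (Fin n), IsEmbedding f

/-- Menger's axioms for a topological invariant `d` on the class `MemU n`. -/
structure MengerAxioms (n : ℕ) (d : (X : Type) → [TopologicalSpace X] → EInt) : Prop where
  invariant : ∀ (X Y : Type) [TopologicalSpace X] [TopologicalSpace Y], MemU n X →
    Nonempty (X ≃ₜ Y) → d X = d Y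
  empty : d Empty = ((-1 : ℤ) : EInt)
  point : d Unit = ((0 : ℤ) : EInt)
  euclidean : ∀ m : ℕ, 1 ≤ m → m ≤ n → d (EuclideanSpace ℝ (Fin m)) = ((m : ℤ) : EInt)
  subspace : ∀ (X : Type) [TopologicalSpace X], MemU n X → ∀ Y : Set X, d Y ≤ d X
  closed_sum : ∀ (X : Type) [TopologicalSpace X], MemU n X → ∀ A : ℕ → Set X,
    (∀ i, IsClosed (A i)) → ⋃ i, A i = univ → d X ≤ ⨆ i, d (A i)
  compactification : ∀ (X : Type) [TopologicalSpace X], MemU n X →
    ∃ (Z : Type) (_ : TopologicalSpace Z), CompactSpace Z ∧ MemU n Z ∧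
      (∃ e : X → Z, IsEmbedding e ∧ DenseRange e) ∧ d Z = d X

end Pool.Agent.Helper76.Menger
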