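import Pool.Agent.Helper76.PiExt

set_option autoImplicit false

namespace Pool.Agent.Helper76.Menger

open Set Topology Metric Filter TopologicalSpace Module

lemma indLT_sum_countable {n : ℕ} (hax : MengerAxioms n ind) {X : Type} [TopologicalSpace X]
    (hX : MemU n X) {k : ℕ} {ι : Type} [Countable ι] [Nonempty ι] (F : ι → Set X)
    (hFc : ∀ i, IsClosed (F i)) (hF : ∀ i, IndLT k (F i)) {L : Set X} (hL : L ⊆ ⋃ i, F i) :
    IndLT k L := by
  obtain ⟨f, hf⟩ := exists_surjective_nat ι
  refine indLT_sum hax hX (fun j => F (f j)) (fun j => hFc _) (fun j => hF _) ?_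
  intro x hx
  obtain ⟨i, hi⟩ := mem_iUnion.1 (hL hx)
  obtain ⟨j, rfl⟩ := hf i
  exact mem_iUnion.2 ⟨j, hi⟩

lemma indLT_real {n : ℕ} (hn : 1 ≤ n) (hax : MengerAxioms n ind) : IndLT 2 ℝ := by
  have h1 := hax.euclidean 1 le_rfl hn
  have h2 : IndLT 2 (EuclideanSpace ℝ (Fin 1)) := by
    rw [← ind_le_one_iff, h1]
    exact WithBotTop.coe_le_coe.2 (by norm_num)
  let L : ℝ →ₗ[ℝ] EuclideanSpace ℝ (Fin 1) :=
    { toFun := fun t => (EuclideanSpace.equiv (Fin 1) ℝ).symm (fun _ => t)
      map_add' := by
        intro x y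
        rw [← map_add]
        rfl
      map_smul' := by
        intro c x
        rw [← map_smul]
        rfl }
  have hL : Function.Injective L := by
    intro x y hxy
    exact congrFun ((EuclideanSpace.equiv (Fin 1) ℝ).symm.injective hxy) 0
  exact h2.of_isEmbedding (LinearMap.isClosedEmbedding_of_injective
    (LinearMap.ker_eq_bot.2 hL)).isEmbedding

lemma memU_complex {n : ℕ} (hn : 2 ≤ n) : MemU n ℂ := by
  let L : ℂ →ₗ[ℝ] EuclideanSpace ℝ (Fin n) :=
    { toFun := fun z => (EuclideanSpace.equiv (Fin n) ℝ).symm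
        (fun i => if (i : ℕ) = 0 then z.re else if (i : ℕ) = 1 then z.im else 0)
      map_add' := by
        intro x y
        rw [← map_add]
        congr 1
        ext i
        simp only [Complex.add_re, Complex.add_im, Pi.add_apply]
        split_ifs <;> simp
      map_smul' := by
        intro c x
        rw [← map_smul]
        congr 1
        ext i
        simp only [Complex.real_smul, Complex.re_ofReal_mul, Complex.im_ofReal_mul,
          RingHom.id_apply, Pi.smul_apply, smul_eq_mul]
        split_ifs <;> simp }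
  have hL : Function.Injective L := by
    intro x y hxy
    have h2 := (EuclideanSpace.equiv (Fin n) ℝ).symm.injective hxy
    have h3 := congrFun h2 ⟨0, by omega⟩
    have h4 := congrFun h2 ⟨1, by omega⟩
    simp at h3 h4
    exact Complex.ext h3 h4
  exact ⟨L, (LinearMap.isClosedEmbedding_of_injective (LinearMap.ker_eq_bot.2 hL)).isEmbedding⟩

lemma indLT_Gr {n : ℕ} (hn : 2 ≤ n) (hax : MengerAxioms n ind) (m : ℕ) : IndLT 2 (Gr m) := by
  have hR := indLT_real (by omega) hax
  have hmk1 : ∀ x : ℝ, Continuous (fun t : ℝ => (⟨x, t⟩ : ℂ)) := by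
    intro x
    have : (fun t : ℝ => (⟨x, t⟩ : ℂ)) = fun t : ℝ => (x : ℂ) + t * Complex.I := by
      ext t
      rw [Complex.mk_eq_add_mul_I]
    rw [this]
    fun_prop
  have hmk2 : ∀ x : ℝ, Continuous (fun t : ℝ => (⟨t, x⟩ : ℂ)) := by
    intro x
    have : (fun t : ℝ => (⟨t, x⟩ : ℂ)) = fun t : ℝ => (t : ℂ) + x * Complex.I := by
      ext t
      rw [Complex.mk_eq_add_mul_I]
    rw [this]
    fun_prop
  let F : ℤ ⊕ ℤ → Set ℂ := fun s => match s with
    | Sum.inl a => {z | z.re = ((2 * a + 1 : ℤ) : ℝ) / (2 * 3 ^ m)}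
    | Sum.inr a => {z | z.im = ((2 * a + 1 : ℤ) : ℝ) / (2 * 3 ^ m)}
  refine indLT_sum_countable hax (memU_complex hn) F ?_ ?_ ?_
  · rintro (a | a)
    · exact isClosed_eq Complex.continuous_re continuous_const
    · exact isClosed_eq Complex.continuous_im continuous_const
  · rintro (a | a)
    · let e : F (Sum.inl a) ≃ₜ ℝ :=
        { toFun := fun z => (z : ℂ).im
          invFun := fun t => ⟨⟨((2 * a + 1 : ℤ) : ℝ) / (2 * 3 ^ m), t⟩, rfl⟩
          left_inv := by
            rintro ⟨z, hz⟩
            exact Subtype.ext (Complex.ext (Eq.symm hz) rfl)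
          right_inv := fun t => rfl
          continuous_toFun := Complex.continuous_im.comp continuous_subtype_val
          continuous_invFun := (hmk1 _).subtype_mk _ }
      exact hR.of_isEmbedding e.isEmbedding
    · let e : F (Sum.inr a) ≃ₜ ℝ :=
        { toFun := fun z => (z : ℂ).re
          invFun := fun t => ⟨⟨t, ((2 * a + 1 : ℤ) : ℝ) / (2 * 3 ^ m)⟩, rfl⟩
          left_inv := by
            rintro ⟨z, hz⟩
            exact Subtype.ext (Complex.ext rfl (Eq.symm hz))
          right_inv := fun t => rfl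
          continuous_toFun := Complex.continuous_re.comp continuous_subtype_val
          continuous_invFun := (hmk2 _).subtype_mk _ }
      exact hR.of_isEmbedding e.isEmbedding
  · rintro z (⟨a, ha⟩ | ⟨a, ha⟩)
    · exact mem_iUnion.2 ⟨Sum.inl a, ha⟩
    · exact mem_iUnion.2 ⟨Sum.inr a, ha⟩

lemma indLT_circle {n : ℕ} (hn : 2 ≤ n) (hax : MengerAxioms n ind) :
    IndLT 2 (sphere (0 : ℂ) 1) := by
  have hR := indLT_real (by omega) hax
  have hsq : ∀ z ∈ sphere (0 : ℂ) 1, z.re ^ 2 + z.im ^ 2 = 1 := by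
    intro z hz
    have h1 : ‖z‖ = 1 := by simpa using hz
    have h2 := Complex.sq_norm z
    rw [h1, Complex.normSq_apply] at h2
    nlinarith
  let F : Bool → Set ℂ := fun b => if b then sphere (0 : ℂ) 1 ∩ {z | 0 ≤ z.im}
    else sphere (0 : ℂ) 1 ∩ {z | z.im ≤ 0}
  have hFt : F true = sphere (0 : ℂ) 1 ∩ {z | 0 ≤ z.im} := rfl
  have hFf : F false = sphere (0 : ℂ) 1 ∩ {z | z.im ≤ 0} := rfl
  have hsc : IsCompact (sphere (0 : ℂ) 1) := isCompact_sphere _ _
  have hFc : ∀ b, IsCompact (F b) := by
    rintro (_ | _)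
    · rw [hFf]
      exact hsc.inter_right (isClosed_le Complex.continuous_im continuous_const)
    · rw [hFt]
      exact hsc.inter_right (isClosed_le continuous_const Complex.continuous_im)
  refine indLT_sum_countable hax (memU_complex hn) F (fun b => (hFc b).isClosed) ?_ ?_
  · intro b
    have hcs : CompactSpace (F b) := isCompact_iff_compactSpace.1 (hFc b)
    have hre : Continuous (fun z : F b => (z : ℂ).re) :=
      Complex.continuous_re.comp continuous_subtype_val
    refine hR.of_isEmbedding (hre.isClosedEmbedding ?_).isEmbedding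
    rintro ⟨z, hz⟩ ⟨w, hw⟩ hzw
    have hzw' : z.re = w.re := hzw
    have him : z.im = w.im := by
      cases b
      · rw [hFf] at hz hw
        have e1 := hsq z hz.1
        have e2 := hsq w hw.1
        have e3 : z.im ≤ 0 := hz.2
        have e4 : w.im ≤ 0 := hw.2
        rw [hzw'] at e1
        have e5 : z.im ^ 2 = w.im ^ 2 := by linarith
        rcases sq_eq_sq_iff_eq_or_eq_neg.1 e5 with h | h
        · exact h
        · linarith
      · rw [hFt] at hz hw
        have e1 := hsq z hz.1
        have e2 := hsq w hw.1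
        have e3 : 0 ≤ z.im := hz.2
        have e4 : 0 ≤ w.im := hw.2
        rw [hzw'] at e1
        have e5 : z.im ^ 2 = w.im ^ 2 := by linarith
        rcases sq_eq_sq_iff_eq_or_eq_neg.1 e5 with h | h
        · exact h
        · linarith
    exact Subtype.ext (Complex.ext hzw' him)
  · intro z hz
    rcases le_total 0 z.im with h | h
    · exact mem_iUnion.2 ⟨true, hz, h⟩
    · exact mem_iUnion.2 ⟨false, hz, h⟩

lemma ext_PP_of_axioms {n : ℕ} (hn : 2 ≤ n) (hax : MengerAxioms n ind) {E : Type}
    [NormedAddCommGroup E] [NormedSpace ℝ E] [FiniteDimensional ℝ E]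
    {K W : Set E} {r : E → E} (h : Tgt K W r) (hP : IsPathConnected K) (hFill : Fill3 K) :
    Ext PP K := by
  refine ext_PP h hFill ?_ ?_
  · exact ext_of_indLT_two hax ((memU_complex hn).subtype _) (indLT_circle hn hax) h hP
  · intro m
    exact ext_of_indLT_two hax ((memU_complex hn).subtype _) (indLT_Gr hn hax m) h hP

theorem menger_disproof {n : ℕ} (hn : 5 ≤ n) :
    ¬ (MengerAxioms n ind ∧ ∀ d : (X : Type) → [TopologicalSpace X] → EInt,
      MengerAxioms n d → ∀ (X : Type) [TopologicalSpace X], MemU n X → d X = ind X) := by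
  rintro ⟨hax, huniq⟩
  have hpc : IsPathConnected (sphere (0 : Fin 3 → ℝ) 1) := by
    refine isPathConnected_sphere ?_ 0 zero_le_one
    rw [← finrank_eq_rank ℝ (Fin 3 → ℝ)]
    simp
  have h1 : Ext PP K12 := ext_prod
    (ext_PP_of_axioms (by omega) hax tgt_K1 K1_pathConnected fill3_K1)
    (ext_PP_of_axioms (by omega) hax tgt_sphere hpc (fill3_sphere (by simp)))
  exact main_of_example h1 not_ext_PP hn ⟨hax, huniq⟩

end Pool.Agent.Helper76.Menger
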