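import Mathlib

set_option autoImplicit false

open MeasureTheory Set ENNReal Filter Topology Pointwise

namespace Pool.Agent.Helper76

/-! ### Layer cake for extended nonnegative functions -/

lemma volume_ioi_inter_lt (a : ℝ≥0∞) :
    volume (Ioi (0:ℝ) ∩ {t | ENNReal.ofReal t < a}) = a := by
  rcases eq_or_ne a ∞ with rfl | ha
  · have : Ioi (0:ℝ) ∩ {t | ENNReal.ofReal t < ∞} = Ioi 0 := by
      ext t; simp
    rw [this]; simp
  · have : Ioi (0:ℝ) ∩ {t | ENNReal.ofReal t < a} = Ioo 0 a.toReal := by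
      ext t
      simp only [mem_inter_iff, mem_Ioi, mem_ofPred_eq, mem_Ioo, and_congr_right_iff]
      intro ht
      exact ENNReal.ofReal_lt_iff_lt_toReal ht.le ha
    rw [this, Real.volume_Ioo, sub_zero, ENNReal.ofReal_toReal ha]

lemma volume_ioi_inter_le (a : ℝ≥0∞) :
    volume (Ioi (0:ℝ) ∩ {t | ENNReal.ofReal t ≤ a}) = a := by
  rcases eq_or_ne a ∞ with rfl | ha
  · have : Ioi (0:ℝ) ∩ {t | ENNReal.ofReal t ≤ ∞} = Ioi 0 := by
      ext t; simp
    rw [this]; simp
  · have : Ioi (0:ℝ) ∩ {t | ENNReal.ofReal t ≤ a} = Ioc 0 a.toReal := by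
      ext t
      simp only [mem_inter_iff, mem_Ioi, mem_ofPred_eq, mem_Ioc, and_congr_right_iff]
      intro ht
      exact ENNReal.ofReal_le_iff_le_toReal ha
    rw [this, Real.volume_Ioc, sub_zero, ENNReal.ofReal_toReal ha]

lemma lintegral_eq_meas_lt {α : Type*} [MeasurableSpace α] (μ : Measure α) [SFinite μ]
    {f : α → ℝ≥0∞} (hf : Measurable f) :
    ∫⁻ x, f x ∂μ = ∫⁻ t in Ioi (0:ℝ), μ {x | ENNReal.ofReal t < f x} := by
  have hmeas : MeasurableSet {p : ℝ × α | ENNReal.ofReal p.1 < f p.2} :=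
    measurableSet_lt (ENNReal.measurable_ofReal.comp measurable_fst) (hf.comp measurable_snd)
  calc ∫⁻ x, f x ∂μ
      = ∫⁻ x, (∫⁻ t in Ioi (0:ℝ),
          indicator {p : ℝ × α | ENNReal.ofReal p.1 < f p.2} 1 (t, x)) ∂μ := by
        apply lintegral_congr
        intro x
        have h1 : ∀ t : ℝ, indicator {p : ℝ × α | ENNReal.ofReal p.1 < f p.2}
            (1 : ℝ × α → ℝ≥0∞) (t, x) = indicator {t : ℝ | ENNReal.ofReal t < f x} 1 t := by
          intro t
          simp [indicator]
        simp_rw [h1]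
        have h2 : MeasurableSet {t : ℝ | ENNReal.ofReal t < f x} :=
          measurableSet_lt ENNReal.measurable_ofReal measurable_const
        rw [lintegral_indicator_one h2, Measure.restrict_apply h2, inter_comm,
          volume_ioi_inter_lt]
    _ = ∫⁻ t in Ioi (0:ℝ),
          (∫⁻ x, indicator {p : ℝ × α | ENNReal.ofReal p.1 < f p.2} 1 (t, x) ∂μ) := by
        rw [lintegral_lintegral_swap]
        apply Measurable.aemeasurable
        exact (measurable_one.indicator hmeas).comp measurable_swap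
    _ = ∫⁻ t in Ioi (0:ℝ), μ {x | ENNReal.ofReal t < f x} := by
        apply lintegral_congr
        intro t
        have h1 : ∀ x : α, indicator {p : ℝ × α | ENNReal.ofReal p.1 < f p.2}
            (1 : ℝ × α → ℝ≥0∞) (t, x) = indicator {x : α | ENNReal.ofReal t < f x} 1 x := by
          intro x
          simp [indicator]
        simp_rw [h1]
        have h2 : MeasurableSet {x : α | ENNReal.ofReal t < f x} :=
          measurableSet_lt measurable_const hf
        rw [lintegral_indicator_one h2]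

lemma lintegral_eq_meas_le {α : Type*} [MeasurableSpace α] (μ : Measure α) [SFinite μ]
    {f : α → ℝ≥0∞} (hf : Measurable f) :
    ∫⁻ x, f x ∂μ = ∫⁻ t in Ioi (0:ℝ), μ {x | ENNReal.ofReal t ≤ f x} := by
  have hmeas : MeasurableSet {p : ℝ × α | ENNReal.ofReal p.1 ≤ f p.2} :=
    measurableSet_le (ENNReal.measurable_ofReal.comp measurable_fst) (hf.comp measurable_snd)
  calc ∫⁻ x, f x ∂μ
      = ∫⁻ x, (∫⁻ t in Ioi (0:ℝ),
          indicator {p : ℝ × α | ENNReal.ofReal p.1 ≤ f p.2} 1 (t, x)) ∂μ := by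
        apply lintegral_congr
        intro x
        have h1 : ∀ t : ℝ, indicator {p : ℝ × α | ENNReal.ofReal p.1 ≤ f p.2}
            (1 : ℝ × α → ℝ≥0∞) (t, x) = indicator {t : ℝ | ENNReal.ofReal t ≤ f x} 1 t := by
          intro t
          simp [indicator]
        simp_rw [h1]
        have h2 : MeasurableSet {t : ℝ | ENNReal.ofReal t ≤ f x} :=
          measurableSet_le ENNReal.measurable_ofReal measurable_const
        rw [lintegral_indicator_one h2, Measure.restrict_apply h2, inter_comm,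
          volume_ioi_inter_le]
    _ = ∫⁻ t in Ioi (0:ℝ),
          (∫⁻ x, indicator {p : ℝ × α | ENNReal.ofReal p.1 ≤ f p.2} 1 (t, x) ∂μ) := by
        rw [lintegral_lintegral_swap]
        apply Measurable.aemeasurable
        exact (measurable_one.indicator hmeas).comp measurable_swap
    _ = ∫⁻ t in Ioi (0:ℝ), μ {x | ENNReal.ofReal t ≤ f x} := by
        apply lintegral_congr
        intro t
        have h1 : ∀ x : α, indicator {p : ℝ × α | ENNReal.ofReal p.1 ≤ f p.2}
            (1 : ℝ × α → ℝ≥0∞) (t, x) = indicator {x : α | ENNReal.ofReal t ≤ f x} 1 x := by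
          intro x
          simp [indicator]
        simp_rw [h1]
        have h2 : MeasurableSet {x : α | ENNReal.ofReal t ≤ f x} :=
          measurableSet_le measurable_const hf
        rw [lintegral_indicator_one h2]

/-! ### One-dimensional Brunn-Minkowski -/

lemma bm_compact {A B : Set ℝ} (hA : IsCompact A) (hB : IsCompact B) (hA0 : A.Nonempty)
    (hB0 : B.Nonempty) : volume A + volume B ≤ volume (A + B) := by
  obtain ⟨a, haA, ha⟩ := hA.exists_isGreatest hA0
  obtain ⟨b, hbB, hb⟩ := hB.exists_isLeast hB0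
  have h1 : volume ((fun x => x + b) '' A) = volume A := by
    rw [image_add_right]
    exact measure_preimage_add_right _ _ _
  have h2 : volume ((fun x => a + x) '' B) = volume B := by
    rw [image_add_left]
    exact measure_preimage_add _ _ _
  have hdis : AEDisjoint volume ((fun x => x + b) '' A) ((fun x => a + x) '' B) := by
    refine measure_mono_null (t := {a + b}) ?_ (by simp)
    rintro _ ⟨⟨x, hx, rfl⟩, ⟨y, hy, hxy⟩⟩
    have hx' := ha hx
    have hy' := hb hy
    simp only at hxy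
    rw [mem_singleton_iff]
    linarith
  have hm : NullMeasurableSet ((fun x => a + x) '' B) volume :=
    ((hB.image (continuous_const.add continuous_id)).measurableSet).nullMeasurableSet
  rw [← h1, ← h2, ← measure_union₀ hm hdis]
  apply measure_mono
  rintro _ (⟨x, hx, rfl⟩ | ⟨x, hx, rfl⟩)
  · exact add_mem_add hx hbB
  · exact add_mem_add haA hx

lemma bm_finset {J : Type*} (s : Finset J) (A : J → Set ℝ) (hA : ∀ j ∈ s, IsCompact (A j))
    (hA0 : ∀ j ∈ s, (A j).Nonempty) :
    IsCompact (∑ j ∈ s, A j) ∧ (∑ j ∈ s, A j).Nonempty ∧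
      ∑ j ∈ s, volume (A j) ≤ volume (∑ j ∈ s, A j) := by
  classical
  induction s using Finset.induction_on with
  | empty =>
    refine ⟨?_, ?_, by simp⟩
    · rw [Finset.sum_empty]
      exact isCompact_singleton
    · rw [Finset.sum_empty]
      exact ⟨0, rfl⟩
  | insert i s hi ih =>
    obtain ⟨h1, h2, h3⟩ := ih (fun j hj => hA j (Finset.mem_insert_of_mem hj))
      (fun j hj => hA0 j (Finset.mem_insert_of_mem hj))
    have hi1 := hA i (Finset.mem_insert_self i s)
    have hi2 := hA0 i (Finset.mem_insert_self i s)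
    rw [Finset.sum_insert hi, Finset.sum_insert hi]
    exact ⟨hi1.add h1, hi2.add h2,
      (add_le_add le_rfl h3).trans (bm_compact hi1 h1 hi2 h2)⟩

lemma exists_compact_seq {A : Set ℝ} (hA : MeasurableSet A) (hA0 : A.Nonempty) :
    ∃ K : ℕ → Set ℝ, (∀ n, IsCompact (K n) ∧ K n ⊆ A ∧ (K n).Nonempty) ∧
      Tendsto (fun n => volume (K n)) atTop (𝓝 (volume A)) := by
  obtain ⟨a, ha⟩ := hA0
  rcases eq_or_ne (volume A) 0 with h0 | h0
  · refine ⟨fun _ => {a}, fun n => ⟨isCompact_singleton, by simpa using ha, ⟨a, rfl⟩⟩, ?_⟩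
    rw [h0]
    simp
  · obtain ⟨u, -, hu, hlim⟩ := exists_seq_strictMono_tendsto' (pos_iff_ne_zero.2 h0)
    have : ∀ n, ∃ K ⊆ A, IsCompact K ∧ u n < volume K := fun n =>
      hA.exists_lt_isCompact (hu n).2
    choose K hKA hK hKu using this
    refine ⟨fun n => K n ∪ {a}, fun n => ⟨(hK n).union isCompact_singleton, ?_, ⟨a, Or.inr rfl⟩⟩, ?_⟩
    · exact union_subset (hKA n) (by simpa using ha)
    · refine tendsto_of_tendsto_of_tendsto_of_le_of_le hlim tendsto_const_nhds ?_ ?_
      · intro n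
        exact (hKu n).le.trans (measure_mono subset_union_left)
      · intro n
        exact measure_mono (union_subset (hKA n) (by simpa using ha))

lemma bm_weighted {J : Type*} (s : Finset J) (c : J → ℝ) (hc : ∀ j ∈ s, 0 < c j)
    (A : J → Set ℝ) (hA : ∀ j ∈ s, MeasurableSet (A j)) (hA0 : ∀ j ∈ s, (A j).Nonempty)
    (C : Set ℝ) (hC : ∀ x : J → ℝ, (∀ j ∈ s, x j ∈ A j) → ∑ j ∈ s, c j * x j ∈ C) :
    ∑ j ∈ s, ENNReal.ofReal (c j) * volume (A j) ≤ volume C := by
  classical
  have : ∀ j : J, ∃ K : ℕ → Set ℝ, j ∈ s → (∀ n, IsCompact (K n) ∧ K n ⊆ A j ∧ (K n).Nonempty) ∧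
      Tendsto (fun n => volume (K n)) atTop (𝓝 (volume (A j))) := by
    intro j
    by_cases hj : j ∈ s
    · obtain ⟨K, hK⟩ := exists_compact_seq (hA j hj) (hA0 j hj)
      exact ⟨K, fun _ => hK⟩
    · exact ⟨fun _ => ∅, fun h => absurd h hj⟩
  choose K hK using this
  have hlim : Tendsto (fun n => ∑ j ∈ s, ENNReal.ofReal (c j) * volume (K j n)) atTop
      (𝓝 (∑ j ∈ s, ENNReal.ofReal (c j) * volume (A j))) := by
    refine tendsto_finsetSum _ ?_
    intro j hj
    exact ENNReal.Tendsto.const_mul (hK j hj).2 (Or.inr ENNReal.ofReal_ne_top)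
  refine le_of_tendsto' hlim ?_
  intro n
  have h1 := bm_finset s (fun j => c j • K j n)
    (fun j hj => ((hK j hj).1 n).1.smul (c j))
    (fun j hj => ((hK j hj).1 n).2.2.smul_set)
  refine le_trans (le_of_eq ?_) (h1.2.2.trans (measure_mono ?_))
  · refine Finset.sum_congr rfl ?_
    intro j hj
    rw [Measure.addHaar_smul]
    simp [abs_of_pos (hc j hj)]
  · intro y hy
    rw [Set.mem_finsetSum] at hy
    obtain ⟨g, hg, rfl⟩ := hy
    have h2 : ∀ j : J, ∃ x : ℝ, j ∈ s → x ∈ K j n ∧ c j * x = g j := by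
      intro j
      by_cases hj : j ∈ s
      · obtain ⟨x, hx, hxg⟩ := hg hj
        exact ⟨x, fun _ => ⟨hx, hxg⟩⟩
      · exact ⟨0, fun h => absurd h hj⟩
    choose x hx using h2
    have h3 := hC x (fun j hj => ((hK j hj).1 n).2.1 (hx j hj).1)
    rwa [Finset.sum_congr rfl (fun j hj => (hx j hj).2)] at h3

/-! ### The sup-normalised inequality -/

lemma level_ineq {J : Type*} (s : Finset J) (c : J → ℝ) (hc : ∀ j ∈ s, 0 < c j)
    (f : J → ℝ → ℝ≥0∞) (hf : ∀ j ∈ s, Measurable (f j))
    (F : J → ℝ≥0∞) (hF : ∀ j ∈ s, F j = ⨆ x, f j x) (hF0 : ∀ j ∈ s, F j ≠ 0)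
    (hFt : ∀ j ∈ s, F j ≠ ∞) (h : ℝ → ℝ≥0∞) (hh : Measurable h) (L : ℝ≥0∞) (hL : L ≠ ∞)
    (H : ∀ t : ℝ≥0∞, t < 1 → ∀ x : J → ℝ, (∀ j ∈ s, t * F j < f j (x j)) →
      t * L ≤ h (∑ j ∈ s, c j * x j)) :
    L * ∑ j ∈ s, ENNReal.ofReal (c j) * ((∫⁻ x, f j x) / F j) ≤ ∫⁻ x, h x := by
  classical
  rcases eq_or_ne L 0 with rfl | hL0
  · simp
  have hLh : ∫⁻ x, h x = L * ∫⁻ x, h x / L := by
    have : ∀ x, h x / L = L⁻¹ * h x := fun x => by rw [div_eq_mul_inv, mul_comm]
    simp_rw [this]
    rw [lintegral_const_mul _ hh, ← mul_assoc, ENNReal.mul_inv_cancel hL0 hL, one_mul]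
  rw [hLh]
  gcongr
  have hhL : Measurable fun x => h x / L := hh.div_const L
  rw [lintegral_eq_meas_le volume hhL]
  have hfj : ∀ j ∈ s, (∫⁻ x, f j x) / F j =
      ∫⁻ t in Ioo (0:ℝ) 1, volume {x | ENNReal.ofReal t * F j < f j x} := by
    intro j hj
    have h1 : (∫⁻ x, f j x) / F j = ∫⁻ x, f j x / F j := by
      have : ∀ x, f j x / F j = (F j)⁻¹ * f j x := fun x => by rw [div_eq_mul_inv, mul_comm]
      simp_rw [this]
      rw [lintegral_const_mul _ (hf j hj), div_eq_mul_inv, mul_comm]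
    rw [h1, lintegral_eq_meas_lt volume ((hf j hj).div_const (F j))]
    have h2 : ∀ t : ℝ, {x | ENNReal.ofReal t < f j x / F j} =
        {x | ENNReal.ofReal t * F j < f j x} := by
      intro t
      ext x
      simp only [mem_ofPred_eq]
      rw [ENNReal.lt_div_iff_mul_lt (Or.inl (hF0 j hj)) (Or.inl (hFt j hj))]
    simp_rw [h2]
    have h3 : ∀ t : ℝ, t ∈ Ici (1:ℝ) → volume {x | ENNReal.ofReal t * F j < f j x} = 0 := by
      intro t ht
      have : {x | ENNReal.ofReal t * F j < f j x} = ∅ := by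
        ext x
        simp only [mem_ofPred_eq, mem_empty_iff_false, iff_false, not_lt]
        have h4 : f j x ≤ F j := by
          rw [hF j hj]
          exact le_iSup (f j) x
        have h5 : (1 : ℝ≥0∞) ≤ ENNReal.ofReal t := by
          rw [← ENNReal.ofReal_one]
          exact ENNReal.ofReal_le_ofReal ht
        calc f j x ≤ 1 * F j := by rw [one_mul]; exact h4
          _ ≤ ENNReal.ofReal t * F j := by gcongr
      rw [this]; simp
    rw [← Ioo_union_Ici_eq_Ioi (zero_lt_one (α := ℝ)),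
      lintegral_union measurableSet_Ici (by
        rw [Set.disjoint_left]
        rintro x ⟨-, hx⟩ hx'
        exact absurd hx (not_lt.2 hx'))]
    have h6 : ∫⁻ t in Ici (1:ℝ), volume {x | ENNReal.ofReal t * F j < f j x} = 0 := by
      rw [setLIntegral_congr_fun measurableSet_Ici (g := fun _ => 0) (fun t ht => h3 t ht)]
      simp
    rw [h6, add_zero]
  rw [Finset.sum_congr rfl (fun j hj => by rw [hfj j hj])]
  have hmeas : ∀ j ∈ s, Measurable fun t : ℝ => volume {x | ENNReal.ofReal t * F j < f j x} := by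
    intro j hj
    apply Antitone.measurable
    intro t t' htt'
    apply measure_mono
    intro x hx
    simp only [mem_ofPred_eq] at hx ⊢
    refine lt_of_le_of_lt ?_ hx
    gcongr
  have hsum : ∑ j ∈ s, ENNReal.ofReal (c j) *
      ∫⁻ t in Ioo (0:ℝ) 1, volume {x | ENNReal.ofReal t * F j < f j x} =
      ∫⁻ t in Ioo (0:ℝ) 1, ∑ j ∈ s, ENNReal.ofReal (c j) *
        volume {x | ENNReal.ofReal t * F j < f j x} := by
    rw [lintegral_finsetSum' _ (fun j hj => ((hmeas j hj).const_mul _).aemeasurable)]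
    refine Finset.sum_congr rfl (fun j hj => ?_)
    rw [lintegral_const_mul _ (hmeas j hj)]
  rw [hsum]
  refine le_trans ?_ (lintegral_mono_set (s := Ioo (0:ℝ) 1) Ioo_subset_Ioi_self)
  refine setLIntegral_mono' measurableSet_Ioo ?_
  intro t ht
  have ht1 : ENNReal.ofReal t < 1 := by
    rw [← ENNReal.ofReal_one]
    exact (ENNReal.ofReal_lt_ofReal_iff zero_lt_one).2 ht.2
  refine bm_weighted s c hc (fun j => {x | ENNReal.ofReal t * F j < f j x}) ?_ ?_ _ ?_
  · intro j hj
    exact measurableSet_lt measurable_const (hf j hj)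
  · intro j hj
    have h1 : ENNReal.ofReal t * F j < F j := by
      calc ENNReal.ofReal t * F j < 1 * F j := by
            exact ENNReal.mul_lt_mul_left (hF0 j hj) (hFt j hj) ht1
        _ = F j := one_mul _
    rw [hF j hj] at h1
    obtain ⟨x, hx⟩ := lt_iSup_iff.1 h1
    rw [← hF j hj] at hx
    exact ⟨x, hx⟩
  · intro x hx
    have h1 := H _ ht1 x (fun j hj => hx j hj)
    simp only [mem_ofPred_eq]
    rw [ENNReal.le_div_iff_mul_le (Or.inl hL0) (Or.inl hL)]
    exact h1

end Pool.Agent.Helper76
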