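import Pool.Agent.Helper76.OneD

set_option autoImplicit false

open MeasureTheory Set ENNReal Filter Topology Pointwise

namespace Pool.Agent.Helper76

lemma geom_le_arith {J : Type*} (s : Finset J) (c : J → ℝ) (hc : ∀ j ∈ s, 0 < c j)
    (hsum : ∑ j ∈ s, c j = 1) (a : J → ℝ≥0∞) :
    ∏ j ∈ s, a j ^ c j ≤ ∑ j ∈ s, ENNReal.ofReal (c j) * a j := by
  classical
  by_cases htop : ∃ j ∈ s, a j = ∞
  · obtain ⟨j, hj, hja⟩ := htop
    have : ∑ j ∈ s, ENNReal.ofReal (c j) * a j = ∞ := by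
      rw [ENNReal.sum_eq_top]
      refine ⟨j, hj, ?_⟩
      rw [hja]
      exact ENNReal.mul_top (by simpa using hc j hj)
    rw [this]; exact le_top
  · push Not at htop
    have h1 : (∏ j ∈ s, (a j).toNNReal ^ ((c j).toNNReal : ℝ)) ≤
        ∑ j ∈ s, (c j).toNNReal * (a j).toNNReal := by
      apply NNReal.geom_mean_le_arith_mean_weighted
      rw [← NNReal.coe_inj]
      push_cast
      rw [← hsum]
      refine Finset.sum_congr rfl (fun j hj => ?_)
      exact max_eq_left (hc j hj).le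
    have h2 : ((∏ j ∈ s, (a j).toNNReal ^ ((c j).toNNReal : ℝ) : NNReal) : ℝ≥0∞) ≤
        ((∑ j ∈ s, (c j).toNNReal * (a j).toNNReal : NNReal) : ℝ≥0∞) := by
      exact_mod_cast h1
    rw [ENNReal.ofNNReal_finsetProd, ENNReal.ofNNReal_finsetSum] at h2
    refine le_trans (le_of_eq ?_) (h2.trans (le_of_eq ?_))
    · refine Finset.prod_congr rfl (fun j hj => ?_)
      have h3 : (((c j).toNNReal : NNReal) : ℝ) = c j := max_eq_left (hc j hj).le
      rw [ENNReal.coe_rpow_of_nonneg _ (by rw [h3]; exact (hc j hj).le), h3,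
        ENNReal.coe_toNNReal (htop j hj)]
    · refine Finset.sum_congr rfl (fun j hj => ?_)
      rw [ENNReal.coe_mul, ENNReal.coe_toNNReal (htop j hj)]
      rfl

lemma iSup_mul_iSup_of_monotone {a b : ℕ → ℝ≥0∞} (ha : Monotone a) (hb : Monotone b) :
    (⨆ n, a n) * (⨆ n, b n) = ⨆ n, a n * b n := by
  refine le_antisymm ?_ ?_
  · rw [ENNReal.iSup_mul]
    refine iSup_le fun n => ?_
    rw [ENNReal.mul_iSup]
    refine iSup_le fun m => ?_
    refine le_trans ?_ (le_iSup _ (max n m))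
    exact mul_le_mul' (ha (le_max_left _ _)) (hb (le_max_right _ _))
  · refine iSup_le fun n => ?_
    exact mul_le_mul' (le_iSup a n) (le_iSup b n)

lemma prod_iSup_of_monotone {J : Type*} (s : Finset J) (a : J → ℕ → ℝ≥0∞)
    (ha : ∀ j ∈ s, Monotone (a j)) :
    ∏ j ∈ s, (⨆ n, a j n) = ⨆ n, ∏ j ∈ s, a j n := by
  classical
  induction s using Finset.induction_on with
  | empty => simp
  | insert i s hi ih =>
    rw [Finset.prod_insert hi, ih (fun j hj => ha j (Finset.mem_insert_of_mem hj)),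
      iSup_mul_iSup_of_monotone (ha i (Finset.mem_insert_self i s))]
    · refine iSup_congr fun n => ?_
      rw [Finset.prod_insert hi]
    · intro n m hnm
      exact Finset.prod_le_prod' fun j hj => ha j (Finset.mem_insert_of_mem hj) hnm

lemma iSup_rpow {c : ℝ} (hc : 0 < c) (a : ℕ → ℝ≥0∞) : (⨆ n, a n) ^ c = ⨆ n, a n ^ c := by
  exact (ENNReal.orderIsoRpow c hc).map_iSup a

lemma iSup_min_nat (x : ℝ≥0∞) : ⨆ n : ℕ, min x (n : ℝ≥0∞) = x := by
  have : ⨆ n : ℕ, min x (n : ℝ≥0∞) = min x (⨆ n : ℕ, (n : ℝ≥0∞)) := by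
    exact (inf_iSup_eq x _).symm
  rw [this, ENNReal.iSup_natCast]
  simp

lemma prod_rpow_eq {J : Type*} (s : Finset J) (c : J → ℝ) {t : ℝ≥0∞} (h0 : t ≠ 0)
    (ht : t ≠ ∞) : ∏ j ∈ s, t ^ c j = t ^ (∑ j ∈ s, c j) := by
  classical
  induction s using Finset.induction_on with
  | empty => simp
  | insert i s hi ih =>
    rw [Finset.prod_insert hi, Finset.sum_insert hi, ih, ENNReal.rpow_add _ _ h0 ht]

/-- Prekopa-Leindler in one dimension, several functions, bounded case. -/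
lemma pl_bounded {J : Type*} (s : Finset J) (c : J → ℝ) (hc : ∀ j ∈ s, 0 < c j)
    (hsum : ∑ j ∈ s, c j = 1) (f : J → ℝ → ℝ≥0∞) (hf : ∀ j ∈ s, Measurable (f j))
    (hb : ∀ j ∈ s, (⨆ x, f j x) ≠ ∞) (h : ℝ → ℝ≥0∞) (hh : Measurable h)
    (H : ∀ x : J → ℝ, ∏ j ∈ s, f j (x j) ^ c j ≤ h (∑ j ∈ s, c j * x j)) :
    ∏ j ∈ s, (∫⁻ x, f j x) ^ c j ≤ ∫⁻ x, h x := by
  classical
  by_cases hz : ∃ j ∈ s, (⨆ x, f j x) = 0
  · obtain ⟨j, hj, hj0⟩ := hz
    have h1 : ∫⁻ x, f j x = 0 := by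
      have : ∀ x, f j x = 0 := by
        intro x
        exact le_antisymm ((le_iSup (f j) x).trans hj0.le) bot_le
      simp_rw [this]
      simp
    rw [Finset.prod_eq_zero hj (by rw [h1]; exact ENNReal.zero_rpow_of_pos (hc j hj))]
    exact bot_le
  · push Not at hz
    have hL : ∏ j ∈ s, (⨆ x, f j x) ^ c j ≠ ∞ := by
      refine ENNReal.prod_ne_top fun j hj => ?_
      exact ENNReal.rpow_ne_top_of_nonneg (hc j hj).le (hb j hj)
    have h1 := level_ineq s c hc f hf (fun j => ⨆ x, f j x) (fun j _ => rfl) hz hb h hh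
      (∏ j ∈ s, (⨆ x, f j x) ^ c j) hL (by
        intro t ht x hx
        refine le_trans ?_ (H x)
        have h2 : t * ∏ j ∈ s, (⨆ x, f j x) ^ c j = ∏ j ∈ s, (t * ⨆ x, f j x) ^ c j := by
          have h3 : t = ∏ j ∈ s, t ^ c j := by
            have h4 : ∏ j ∈ s, t ^ c j = t ^ (∑ j ∈ s, c j) := by
              rcases eq_or_ne t 0 with rfl | ht0
              · have hne : s.Nonempty := by
                  rw [Finset.nonempty_iff_ne_empty]
                  rintro rfl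
                  simp at hsum
                obtain ⟨j, hj⟩ := hne
                rw [hsum, Finset.prod_eq_zero hj (ENNReal.zero_rpow_of_pos (hc j hj))]
                simp
              · exact prod_rpow_eq s c ht0 (ne_top_of_lt ht)
            rw [h4, hsum, ENNReal.rpow_one]
          conv_lhs => rw [h3]
          rw [← Finset.prod_mul_distrib]
          refine Finset.prod_congr rfl fun j hj => ?_
          rw [ENNReal.mul_rpow_of_nonneg _ _ (hc j hj).le]
        rw [h2]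
        refine Finset.prod_le_prod' fun j hj => ?_
        exact ENNReal.rpow_le_rpow (hx j hj).le (hc j hj).le)
    refine le_trans ?_ h1
    have h2 : ∏ j ∈ s, (∫⁻ x, f j x) ^ c j = (∏ j ∈ s, (⨆ x, f j x) ^ c j) *
        ∏ j ∈ s, ((∫⁻ x, f j x) / (⨆ x, f j x)) ^ c j := by
      rw [← Finset.prod_mul_distrib]
      refine Finset.prod_congr rfl fun j hj => ?_
      rw [← ENNReal.mul_rpow_of_nonneg _ _ (hc j hj).le,
        ENNReal.mul_div_cancel (hz j hj) (hb j hj)]
    rw [h2]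
    gcongr
    exact geom_le_arith s c hc hsum _

/-- Prekopa-Leindler in one dimension for several functions. -/
lemma pl_one {J : Type*} (s : Finset J) (c : J → ℝ) (hc : ∀ j ∈ s, 0 < c j)
    (hsum : ∑ j ∈ s, c j = 1) (f : J → ℝ → ℝ≥0∞) (hf : ∀ j ∈ s, Measurable (f j))
    (h : ℝ → ℝ≥0∞) (hh : Measurable h)
    (H : ∀ x : J → ℝ, ∏ j ∈ s, f j (x j) ^ c j ≤ h (∑ j ∈ s, c j * x j)) :
    ∏ j ∈ s, (∫⁻ x, f j x) ^ c j ≤ ∫⁻ x, h x := by
  have h1 : ∀ n : ℕ, ∏ j ∈ s, (∫⁻ x, min (f j x) n) ^ c j ≤ ∫⁻ x, h x := by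
    intro n
    refine pl_bounded s c hc hsum (fun j x => min (f j x) n)
      (fun j hj => (hf j hj).min measurable_const) ?_ h hh ?_
    · intro j hj
      refine ne_top_of_le_ne_top (ENNReal.natCast_ne_top n) (iSup_le fun x => min_le_right _ _)
    · intro x
      refine le_trans ?_ (H x)
      refine Finset.prod_le_prod' fun j hj => ?_
      exact ENNReal.rpow_le_rpow (min_le_left _ _) (hc j hj).le
  have h2 : ∀ j ∈ s, (∫⁻ x, f j x) = ⨆ n : ℕ, ∫⁻ x, min (f j x) n := by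
    intro j hj
    rw [← lintegral_iSup]
    · simp_rw [iSup_min_nat]
    · intro n
      exact (hf j hj).min measurable_const
    · intro n m hnm x
      exact min_le_min le_rfl (by exact_mod_cast hnm)
  have h3 : ∏ j ∈ s, (∫⁻ x, f j x) ^ c j = ⨆ n : ℕ, ∏ j ∈ s, (∫⁻ x, min (f j x) n) ^ c j := by
    rw [← prod_iSup_of_monotone]
    · refine Finset.prod_congr rfl fun j hj => ?_
      rw [h2 j hj, iSup_rpow (hc j hj)]
    · intro j hj n m hnm
      refine ENNReal.rpow_le_rpow (lintegral_mono fun x => ?_) (hc j hj).le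
      exact min_le_min le_rfl (by exact_mod_cast hnm)
  rw [h3]
  exact iSup_le h1

/-- Prekopa-Leindler with a constant factor. -/
lemma pl_one_const {J : Type*} (s : Finset J) (c : J → ℝ) (hc : ∀ j ∈ s, 0 < c j)
    (hsum : ∑ j ∈ s, c j = 1) (f : J → ℝ → ℝ≥0∞) (hf : ∀ j ∈ s, Measurable (f j))
    (h : ℝ → ℝ≥0∞) (hh : Measurable h) (C : ℝ≥0∞)
    (H : ∀ x : J → ℝ, C * ∏ j ∈ s, f j (x j) ^ c j ≤ h (∑ j ∈ s, c j * x j)) :
    C * ∏ j ∈ s, (∫⁻ x, f j x) ^ c j ≤ ∫⁻ x, h x := by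
  have key : ∀ n : ℕ, min C n * ∏ j ∈ s, (∫⁻ x, f j x) ^ c j ≤ ∫⁻ x, h x := by
    intro n
    rcases eq_or_ne (min C n) 0 with h0 | h0
    · rw [h0, zero_mul]; exact bot_le
    · have ht : min C n ≠ ∞ := ne_top_of_le_ne_top (ENNReal.natCast_ne_top n) (min_le_right _ _)
      have h1 := pl_one s c hc hsum f hf (fun x => h x / min C n) (hh.div_const _) (by
        intro x
        show ∏ j ∈ s, f j (x j) ^ c j ≤ h (∑ j ∈ s, c j * x j) / min C n
        rw [ENNReal.le_div_iff_mul_le (Or.inl h0) (Or.inl ht), mul_comm]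
        refine le_trans ?_ (H x)
        gcongr
        exact min_le_left _ _)
      have h2 : ∫⁻ x, h x / min C n = (∫⁻ x, h x) / min C n := by
        simp_rw [div_eq_mul_inv]
        rw [lintegral_mul_const _ hh]
      rw [h2, ENNReal.le_div_iff_mul_le (Or.inl h0) (Or.inl ht), mul_comm] at h1
      exact h1
  have h3 : C = ⨆ n : ℕ, min C (n : ℝ≥0∞) := (iSup_min_nat C).symm
  rw [h3, ENNReal.iSup_mul]
  exact iSup_le key

end Pool.Agent.Helper76
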