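import Pool.Agent.Helper76.ExtPath

set_option autoImplicit false

namespace Pool.Agent.Helper76.Menger

open Set Topology Metric Filter TopologicalSpace

lemma MemU.metrizable {n : ℕ} {X : Type} [TopologicalSpace X] (h : MemU n X) :
    MetrizableSpace X := by
  obtain ⟨f, hf⟩ := h
  exact hf.metrizableSpace

lemma MemU.secondCountable {n : ℕ} {X : Type} [TopologicalSpace X] (h : MemU n X) :
    SecondCountableTopology X := by
  obtain ⟨f, hf⟩ := h
  exact hf.secondCountableTopology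

lemma MemU.of_isEmbedding {n : ℕ} {X Y : Type} [TopologicalSpace X] [TopologicalSpace Y]
    (h : MemU n X) {e : Y → X} (he : IsEmbedding e) : MemU n Y := by
  obtain ⟨f, hf⟩ := h
  exact ⟨f ∘ e, hf.comp he⟩

lemma MemU.subtype {n : ℕ} {X : Type} [TopologicalSpace X] (h : MemU n X) (Y : Set X) :
    MemU n Y := h.of_isEmbedding IsEmbedding.subtypeVal

/-- Countable closed sums, from Menger's third axiom. -/
lemma indLT_sum {n : ℕ} (hax : MengerAxioms n ind) {X : Type} [TopologicalSpace X]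
    (hX : MemU n X) {k : ℕ} (F : ℕ → Set X) (hFc : ∀ i, IsClosed (F i))
    (hF : ∀ i, IndLT k (F i)) {L : Set X} (hL : L ⊆ ⋃ i, F i) : IndLT k L := by
  rw [← ind_le_iff]
  refine (hax.closed_sum L (hX.subtype L) (fun i => ((↑) : L → X) ⁻¹' (F i))
    (fun i => (hFc i).preimage continuous_subtype_val) ?_).trans ?_
  · rw [← preimage_iUnion]
    ext x
    exact ⟨fun _ => trivial, fun _ => hL x.2⟩
  · refine iSup_le (fun i => ?_)
    rw [ind_le_iff]
    refine (hF i).of_isEmbedding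
      (e := fun x : (((↑) : L → X) ⁻¹' (F i) : Set L) => (⟨x, x.2⟩ : F i)) ?_
    exact (IsEmbedding.subtypeVal.comp IsEmbedding.subtypeVal).codRestrict _ _

/-- Zero dimensional partitions in spaces of dimension at most one. -/
lemma exists_partition {n : ℕ} (hax : MengerAxioms n ind) {X : Type} [TopologicalSpace X]
    (hX : MemU n X) (h : IndLT 2 X) (A B : Set X) (hA : IsClosed A) (hB : IsClosed B)
    (hAB : Disjoint A B) :
    ∃ U V : Set X, IsOpen U ∧ IsOpen V ∧ Disjoint U V ∧ A ⊆ U ∧ B ⊆ V ∧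
        IndLT 1 ((U ∪ V)ᶜ : Set X) := by
  classical
  have := hX.metrizable
  have := hX.secondCountable
  let _ := metrizableSpaceMetric X
  by_cases hXe : IsEmpty X
  · refine ⟨∅, ∅, isOpen_empty, isOpen_empty, disjoint_bot_left, fun x => hXe.elim x,
      fun x => hXe.elim x, ?_⟩
    rintro ⟨x, hx⟩
    exact hXe.elim x
  rw [not_isEmpty_iff] at hXe
  have hloc : ∀ x : X, ∃ V : Set X, IsOpen V ∧ x ∈ V ∧ IndLT 1 (frontier V) ∧
      (Disjoint (closure V) A ∨ Disjoint (closure V) B) := by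
    intro x
    have key : ∀ C : Set X, IsClosed C → x ∉ C → ∃ V : Set X, IsOpen V ∧ x ∈ V ∧
        IndLT 1 (frontier V) ∧ Disjoint (closure V) C := by
      intro C hC hx
      obtain ⟨O, hO, hxO, hOC⟩ := normal_exists_closure_subset (isClosed_singleton (x := x))
        hC.isOpen_compl (singleton_subset_iff.2 hx)
      obtain ⟨V, hV, hxV, hVU, hfr⟩ := h x O hO (singleton_subset_iff.1 hxO)
      refine ⟨V, hV, hxV, hfr, ?_⟩
      rw [Set.disjoint_left]
      intro y hy
      exact hOC (closure_mono hVU hy)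
    by_cases hx : x ∈ A
    · obtain ⟨V, hV, hxV, hfr, hd⟩ := key B hB (fun h' => Set.disjoint_left.1 hAB hx h')
      exact ⟨V, hV, hxV, hfr, Or.inr hd⟩
    · obtain ⟨V, hV, hxV, hfr, hd⟩ := key A hA hx
      exact ⟨V, hV, hxV, hfr, Or.inl hd⟩
  choose v' hv' hxv' hfr' hd' using hloc
  obtain ⟨s, hs, hscov⟩ := countable_cover_nhds (f := v') (fun x => (hv' x).mem_nhds (hxv' x))
  have hsne : s.Nonempty := by
    by_contra hcon
    rw [not_nonempty_iff_eq_empty] at hcon
    rw [hcon] at hscov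
    simp at hscov
    exact (hscov.symm ▸ (univ_nonempty (α := X))).ne_empty rfl
  obtain ⟨w, hw⟩ := hs.exists_eq_range hsne
  let v : ℕ → Set X := fun i => v' (w i)
  have hv : ∀ i, IsOpen (v i) := fun i => hv' _
  have hvfr : ∀ i, IndLT 1 (frontier (v i)) := fun i => hfr' _
  have hvd : ∀ i, Disjoint (closure (v i)) A ∨ Disjoint (closure (v i)) B := fun i => hd' _
  have hcov : ∀ x, ∃ i, x ∈ v i := by
    intro x
    have : x ∈ ⋃ y ∈ s, v' y := by rw [hscov]; trivial
    obtain ⟨y, hy, hxy⟩ := mem_iUnion₂.1 this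
    rw [hw] at hy
    obtain ⟨j, rfl⟩ := hy
    exact ⟨j, hxy⟩
  let Wi : ℕ → Set X := fun i => v i ∩ ⋂ j ∈ Finset.range i, (closure (v j))ᶜ
  have hWi : ∀ i, IsOpen (Wi i) := fun i => (hv i).inter
    (isOpen_biInter_finset (fun k _ => isClosed_closure.isOpen_compl))
  have hWlt : ∀ i j, j < i → ∀ x ∈ Wi i, x ∉ closure (v j) := by
    rintro i j hij x ⟨-, hx⟩
    simp only [mem_iInter, Finset.mem_range, mem_compl_iff] at hx
    exact hx j hij
  have hWne : ∀ i j, i ≠ j → ∀ x ∈ Wi i, x ∉ Wi j := by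
    intro i j hij x hx hx'
    rcases lt_or_gt_of_ne hij with h1 | h1
    · exact hWlt j i h1 x hx' (subset_closure hx.1)
    · exact hWlt i j h1 x hx (subset_closure hx'.1)
  let U₀ : Set X := ⋃ i ∈ {i | Disjoint (closure (v i)) B}, Wi i
  let V₀ : Set X := ⋃ i ∈ {i | ¬ Disjoint (closure (v i)) B}, Wi i
  have hU₀ : IsOpen U₀ := isOpen_biUnion (fun i _ => hWi i)
  have hV₀ : IsOpen V₀ := isOpen_biUnion (fun i _ => hWi i)
  have hU₀V₀ : ∀ x ∈ U₀, x ∉ V₀ := by
    intro x hx hx'
    obtain ⟨i, hi, hxi⟩ := mem_iUnion₂.1 hx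
    obtain ⟨j, hj, hxj⟩ := mem_iUnion₂.1 hx'
    exact hWne i j (fun e => hj (e ▸ hi)) x hxi hxj
  have hsepaux : ∀ (I : Set ℕ) (C : Set X), (∀ i ∈ I, Disjoint (closure (v i)) C) →
      Disjoint (closure (⋃ i ∈ I, Wi i)) C := by
    intro I C hI
    rw [Set.disjoint_left]
    intro x hx hxC
    obtain ⟨j, hj⟩ := hcov x
    have hO : IsOpen (v j ∩ ⋂ i ∈ (Finset.range (j + 1)).filter (fun i => i ∈ I),
        (closure (v i))ᶜ) := (hv j).inter
          (isOpen_biInter_finset (fun k _ => isClosed_closure.isOpen_compl))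
    have hxO : x ∈ (v j ∩ ⋂ i ∈ (Finset.range (j + 1)).filter (fun i => i ∈ I),
        (closure (v i))ᶜ) := by
      refine ⟨hj, ?_⟩
      simp only [mem_iInter, Finset.mem_filter, mem_compl_iff]
      rintro i ⟨_, hi⟩ hxi
      exact Set.disjoint_left.1 (hI i hi) hxi hxC
    obtain ⟨y, ⟨hy1, hy2⟩, hy3⟩ := mem_closure_iff.1 hx _ hO hxO
    obtain ⟨i, hi, hyi⟩ := mem_iUnion₂.1 hy3
    simp only [mem_iInter, Finset.mem_filter, mem_compl_iff, Finset.mem_range] at hy2
    by_cases hij : i < j + 1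
    · exact hy2 i ⟨hij, hi⟩ (subset_closure hyi.1)
    · exact hWlt i j (by omega) y hyi (subset_closure hy1)
  have hU₀B : Disjoint (closure U₀) B := hsepaux _ _ (fun i hi => hi)
  have hV₀A : Disjoint (closure V₀) A :=
    hsepaux _ _ (fun i hi => (hvd i).resolve_right hi)
  obtain ⟨O, hO, hAO, hOB⟩ := normal_exists_closure_subset hA hB.isOpen_compl
    (fun x hx hx' => Set.disjoint_left.1 hAB hx hx')
  refine ⟨U₀ ∪ ((closure V₀)ᶜ ∩ O), V₀ ∪ ((closure U₀)ᶜ ∩ (closure O)ᶜ),
    hU₀.union (isClosed_closure.isOpen_compl.inter hO),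
    hV₀.union (isClosed_closure.isOpen_compl.inter isClosed_closure.isOpen_compl), ?_, ?_, ?_, ?_⟩
  · rw [Set.disjoint_left]
    rintro x (hx | ⟨hx1, hx2⟩) (hx' | ⟨hx'1, hx'2⟩)
    · exact hU₀V₀ x hx hx'
    · exact hx'1 (subset_closure hx)
    · exact hx1 (subset_closure hx')
    · exact hx'2 (subset_closure hx2)
  · intro x hx
    exact Or.inr ⟨fun h' => Set.disjoint_left.1 hV₀A h' hx, hAO hx⟩
  · intro x hx
    exact Or.inr ⟨fun h' => Set.disjoint_left.1 hU₀B h' hx, fun h' => hOB h' hx⟩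
  · refine indLT_sum hax hX (fun i => frontier (v i)) (fun i => isClosed_frontier) hvfr ?_
    intro x hx
    have hxW : ∀ i, x ∉ Wi i := by
      intro i hi
      apply hx
      by_cases hB' : Disjoint (closure (v i)) B
      · exact Or.inl (Or.inl (mem_iUnion₂.2 ⟨i, hB', hi⟩))
      · exact Or.inr (Or.inl (mem_iUnion₂.2 ⟨i, hB', hi⟩))
    have hmin := Nat.find_spec (hcov x)
    have hmin' : ∀ j, j < Nat.find (hcov x) → x ∉ v j := fun j hj => Nat.find_min (hcov x) hj
    have h1 : ∃ j, j < Nat.find (hcov x) ∧ x ∈ closure (v j) := by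
      by_contra hcon
      push Not at hcon
      apply hxW (Nat.find (hcov x))
      refine ⟨hmin, ?_⟩
      simp only [mem_iInter, Finset.mem_range, mem_compl_iff]
      exact hcon
    obtain ⟨j, hj, hxj⟩ := h1
    refine mem_iUnion.2 ⟨j, ?_⟩
    rw [(hv j).frontier_eq]
    exact ⟨hxj, hmin' j hj⟩

lemma ext_of_indLT_two {n : ℕ} (hax : MengerAxioms n ind) {X : Type} [TopologicalSpace X]
    (hX : MemU n X) (hX2 : IndLT 2 X) {E : Type*} [NormedAddCommGroup E] [NormedSpace ℝ E]
    [FiniteDimensional ℝ E] {K W : Set E} {r : E → E} (h : Tgt K W r) (hP : IsPathConnected K) :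
    Ext X K := by
  have := hX.metrizable
  have := hX.secondCountable
  let _ := metrizableSpaceMetric X
  exact ext_of_partition h hP (exists_partition hax hX hX2)

end Pool.Agent.Helper76.Menger
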