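import Pool.Agent.Helper76.PiFill

set_option autoImplicit false

namespace Pool.Agent.Helper76.Menger

open Set Topology Metric Filter TopologicalSpace Module

/-- Only finitely many core circles are bad. -/
lemma finite_bad {A O : Set PP} (hA : IsClosed A) (hO : IsOpen O) (hAO : A ⊆ O) :
    {q : Q3 | (∃ p ∈ A, (p : ℂ × (Q3 → ℂ)).1 = q) ∧
      (∃ p ∈ Oᶜ, (p : ℂ × (Q3 → ℂ)).1 = q)}.Finite := by
  by_contra hinf
  have hinf' : Infinite {q : Q3 | (∃ p ∈ A, (p : ℂ × (Q3 → ℂ)).1 = q) ∧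
      (∃ p ∈ Oᶜ, (p : ℂ × (Q3 → ℂ)).1 = q)} := Set.Infinite.to_subtype hinf
  generalize hB : {q : Q3 | (∃ p ∈ A, (p : ℂ × (Q3 → ℂ)).1 = q) ∧
      (∃ p ∈ Oᶜ, (p : ℂ × (Q3 → ℂ)).1 = q)} = B at hinf'
  have ha : ∀ q : B, ∃ p ∈ A, (p : ℂ × (Q3 → ℂ)).1 = (q : Q3) := by
    intro q
    have h1 : (q : Q3) ∈ {q : Q3 | (∃ p ∈ A, (p : ℂ × (Q3 → ℂ)).1 = q) ∧
      (∃ p ∈ Oᶜ, (p : ℂ × (Q3 → ℂ)).1 = q)} := by rw [hB]; exact q.2
    exact h1.1
  have hb : ∀ q : B, ∃ p ∈ Oᶜ, (p : ℂ × (Q3 → ℂ)).1 = (q : Q3) := by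
    intro q
    have h1 : (q : Q3) ∈ {q : Q3 | (∃ p ∈ A, (p : ℂ × (Q3 → ℂ)).1 = q) ∧
      (∃ p ∈ Oᶜ, (p : ℂ × (Q3 → ℂ)).1 = q)} := by rw [hB]; exact q.2
    exact h1.2
  choose a haA ha1 using ha
  choose b hbO hb1 using hb
  let u : Ultrafilter B := hyperfilter B
  have h0 : Tendsto a (u : Filter B) (𝓟 A) := tendsto_principal.2 (Eventually.of_forall haA)
  obtain ⟨x, hxA, hx⟩ := hA.isCompact.ultrafilter_le_nhds (u.map a) h0
  have hax : Tendsto a u (𝓝 x) := hx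
  have hbx : Tendsto b u (𝓝 x) := by
    rw [tendsto_subtype_rng] at hax ⊢
    rw [nhds_prod_eq] at *
    have h1 : Tendsto (fun q => (a q : ℂ × (Q3 → ℂ)).1) u (𝓝 (x : ℂ × (Q3 → ℂ)).1) :=
      tendsto_fst.comp hax
    have h2 : Tendsto (fun q => (a q : ℂ × (Q3 → ℂ)).2) u (𝓝 (x : ℂ × (Q3 → ℂ)).2) :=
      tendsto_snd.comp hax
    refine Tendsto.prodMk ?_ ?_
    · refine h1.congr (fun q => ?_)
      rw [ha1, hb1]
    · rw [tendsto_pi_nhds] at h2 ⊢
      intro q'
      refine (h2 q').congr' ?_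
      have h3 : ∀ᶠ q : B in (u : Filter B), (q : Q3) ≠ q' := by
        have h4 : ({q : B | (q : Q3) ≠ q'}ᶜ).Finite := by
          refine Set.Subsingleton.finite ?_
          intro q hq q'' hq''
          simp only [mem_compl_iff, mem_ofPred_eq, not_not] at hq hq''
          exact Subtype.ext (hq.trans hq''.symm)
        have h5 : {q : B | (q : Q3) ≠ q'} ∈ (cofinite : Filter B) := by
          rw [mem_cofinite]
          exact h4
        exact hyperfilter_le_cofinite h5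
      filter_upwards [h3] with q hq
      have hq' : ((q : Q3) : ℂ) ≠ q' := fun e => hq (Subtype.ext e)
      rw [coord_eq (a q).2 (by rw [ha1]; exact hq'), coord_eq (b q).2 (by rw [hb1]; exact hq'),
        ha1, hb1]
  have hxO : x ∈ Oᶜ := hO.isClosed_compl.mem_of_tendsto hbx (Eventually.of_forall hbO)
  exact hxO (hAO hxA)

/-- The core circle over a triadic point. -/
def Core (q : Q3) : Set PP := {p | (p : ℂ × (Q3 → ℂ)).1 = q}

lemma isClosed_Core (q : Q3) : IsClosed (Core q) :=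
  isClosed_eq (continuous_fst.comp continuous_subtype_val) continuous_const

lemma ext_Core {E : Type} [TopologicalSpace E] {K : Set E} (hcirc : Ext (sphere (0 : ℂ) 1) K)
    (q : Q3) : Ext (Core q) K := by
  let e : Core q → sphere (0 : ℂ) 1 := fun p =>
    ⟨((p : PP) : ℂ × (Q3 → ℂ)).2 q, mem_sphere_zero_iff_norm.2 ((p : PP).2.2 q).1⟩
  have he : Continuous e := by
    refine Continuous.subtype_mk ?_ _
    exact (continuous_apply q).comp
      (continuous_snd.comp (continuous_subtype_val.comp continuous_subtype_val))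
  have : CompactSpace (Core q) := isCompact_iff_compactSpace.1 (isClosed_Core q).isCompact
  refine Ext.of_isClosedEmbedding (he.isClosedEmbedding ?_) hcirc
  intro p p' hpp
  have h1 : ((p : PP) : ℂ × (Q3 → ℂ)).2 q = ((p' : PP) : ℂ × (Q3 → ℂ)).2 q :=
    congrArg Subtype.val hpp
  apply Subtype.ext
  apply Subtype.ext
  rw [eq_core (p : PP).2 (c := q) p.2, eq_core (p' : PP).2 (c := q) p'.2, h1]

lemma ext_cores {E : Type} [TopologicalSpace E] {K : Set E} (hcirc : Ext (sphere (0 : ℂ) 1) K)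
    (s : Finset Q3) {A : Set PP} {f : PP → E} (hA : IsClosed A) (hf : ContinuousOn f A)
    (hfK : MapsTo f A K) :
    ∃ F : PP → E, ContinuousOn F (A ∪ ⋃ q ∈ s, Core q) ∧ MapsTo F (A ∪ ⋃ q ∈ s, Core q) K ∧
      EqOn F f A := by
  classical
  induction s using Finset.induction_on with
  | empty =>
    simp only [Finset.notMem_empty, iUnion_of_empty, iUnion_empty, union_empty]
    exact ⟨f, hf, hfK, fun _ _ => rfl⟩
  | insert q s _ ih =>
    obtain ⟨F, hF, hFK, hFA⟩ := ih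
    have hcl : IsClosed (A ∪ ⋃ q ∈ s, Core q) :=
      hA.union (isClosed_biUnion_finset (fun q _ => isClosed_Core q))
    obtain ⟨F', hF', hFK', hFA'⟩ := (ext_Core hcirc q).on_closed (isClosed_Core q) hcl hF hFK
    have heq : A ∪ ⋃ q' ∈ insert q s, Core q' = (A ∪ ⋃ q' ∈ s, Core q') ∪ Core q := by
      rw [Finset.set_biUnion_insert, union_comm (Core q), union_assoc]
    rw [heq]
    exact ⟨F', hF', hFK', fun x hx => (hFA' (Or.inl hx)).trans (hFA hx)⟩

/-- The extension theorem for the compact set. -/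
theorem ext_PP {E : Type} [NormedAddCommGroup E] [NormedSpace ℝ E] [FiniteDimensional ℝ E]
    {K W : Set E} {r : E → E} (h : Tgt K W r) (hFill : Fill3 K)
    (hcirc : Ext (sphere (0 : ℂ) 1) K) (hgrid : ∀ m, Ext (Gr m) K) : Ext PP K := by
  classical
  intro A f hA hf hfK
  obtain ⟨N, f₁, hN, hAN, hf₁, hf₁K, hff₁⟩ := nbhd_ext' h hA hf hfK
  have hbad := finite_bad hA isOpen_interior hAN
  let s := hbad.toFinset
  obtain ⟨f₁', hf₁', hf₁K', hff₁'⟩ := ext_cores hcirc s hN hf₁ hf₁K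
  have hA'cl : IsClosed (N ∪ ⋃ q ∈ s, Core q) :=
    hN.union (isClosed_biUnion_finset (fun q _ => isClosed_Core q))
  obtain ⟨N', f₂, hN', hAN', hf₂, hf₂K, hff₂⟩ := nbhd_ext' h hA'cl hf₁' hf₁K'
  have hf₂A : EqOn f₂ f A := by
    intro p hp
    have hpN : p ∈ N := interior_subset (hAN hp)
    rw [hff₂ (Or.inl hpN), hff₁' hpN, hff₁ hp]
  have hNN' : N ⊆ interior N' := fun p hp => hAN' (Or.inl hp)
  let π : PP → ℂ := fun p => (p : ℂ × (Q3 → ℂ)).1
  have hπ : Continuous π := continuous_fst.comp continuous_subtype_val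
  -- fibres
  have hfibre : ∀ z ∈ DD, (∀ p : PP, π p = z → p ∈ interior N') ∨ (∀ p : PP, π p = z → p ∉ A) := by
    intro z hz
    by_cases hzQ : z ∈ Q3
    · let q : Q3 := ⟨z, hzQ⟩
      by_cases hq : q ∈ s
      · left
        intro p hp
        exact hAN' (Or.inr (mem_iUnion₂.2 ⟨q, hq, hp⟩))
      · rw [Set.Finite.mem_toFinset] at hq
        by_cases h1 : ∃ p ∈ A, (p : ℂ × (Q3 → ℂ)).1 = q
        · left
          intro p hp
          by_contra hcon
          apply hq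
          refine ⟨h1, p, ?_, hp⟩
          intro h2
          exact hcon (hNN' (interior_subset h2))
        · right
          intro p hp hpA
          exact h1 ⟨p, hpA, hp⟩
    · by_cases h1 : ∃ p ∈ A, π p = z
      · obtain ⟨p₀, hp₀, hp₀z⟩ := h1
        left
        intro p hp
        have : p = p₀ := by
          apply Subtype.ext
          rw [eq_sec p.2 (by rw [show (p : ℂ × (Q3 → ℂ)).1 = z from hp]; exact hzQ),
            eq_sec p₀.2 (by rw [show (p₀ : ℂ × (Q3 → ℂ)).1 = z from hp₀z]; exact hzQ),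
            show (p : ℂ × (Q3 → ℂ)).1 = z from hp, show (p₀ : ℂ × (Q3 → ℂ)).1 = z from hp₀z]
        rw [this]
        exact hNN' (interior_subset (hAN hp₀))
      · right
        intro p hp hpA
        exact h1 ⟨p, hpA, hp⟩
  -- open sets in the plane
  let U₁ : Set ℂ := (π '' (interior N')ᶜ)ᶜ
  let U₂ : Set ℂ := (π '' A)ᶜ
  have hU₁ : IsOpen U₁ :=
    ((isOpen_interior.isClosed_compl.isCompact).image hπ).isClosed.isOpen_compl
  have hU₂ : IsOpen U₂ := (hA.isCompact.image hπ).isClosed.isOpen_compl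
  obtain ⟨δ, hδ, hleb⟩ := lebesgue_number_lemma_of_metric (c := fun b : Bool => if b then U₁ else U₂)
    isCompact_DD (by
      intro b
      cases b
      · exact hU₂
      · exact hU₁) (by
      intro z hz
      rcases hfibre z hz with h1 | h1
      · refine mem_iUnion.2 ⟨true, ?_⟩
        rintro ⟨p, hp, hpz⟩
        exact hp (h1 p hpz)
      · refine mem_iUnion.2 ⟨false, ?_⟩
        rintro ⟨p, hp, hpz⟩
        exact h1 p hpz hp)
  obtain ⟨m, hm⟩ := exists_pow_lt_of_lt_one (show 0 < δ / 2 by positivity)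
    (show (1 / 3 : ℝ) < 1 by norm_num)
  have h3m : (0 : ℝ) < 3 ^ m := by positivity
  have hρ : (0 : ℝ) < 1 / (2 * 3 ^ m) := by positivity
  have hSqU : ∀ i : ℤ × ℤ, (Sq m i ∩ DD).Nonempty → Sq m i ⊆ U₁ ∨ Sq m i ⊆ U₂ := by
    rintro i ⟨z₀, hz₀, hz₀D⟩
    obtain ⟨b, hb⟩ := hleb z₀ hz₀D
    have hball : Sq m i ⊆ ball z₀ δ := by
      intro z hz
      rw [mem_ball, dist_eq_norm]
      refine lt_of_le_of_lt (norm_le_two_Nn _) ?_
      have h1 : Nn (z - z₀) ≤ (1 / 3) ^ m := by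
        rw [mem_Sq_iff] at hz hz₀
        have h5 : ((1 : ℝ) / 3) ^ m = 1 / 3 ^ m := one_div_pow 3 m
        rw [h5]
        simp only [Nn, Complex.sub_re, Complex.sub_im]
        have key : ∀ (x y : ℝ) (a : ℤ), |3 ^ m * x - a| ≤ 1 / 2 → |3 ^ m * y - a| ≤ 1 / 2 →
            |x - y| ≤ 1 / 3 ^ m := by
          intro x y a h1 h2
          rw [le_div_iff₀ h3m]
          have h3 : |x - y| * 3 ^ m = |(3 ^ m * x - a) - (3 ^ m * y - a)| := by
            rw [show (3 ^ m * x - (a : ℝ)) - (3 ^ m * y - a) = (x - y) * 3 ^ m by ring, abs_mul,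
              abs_of_pos h3m]
          rw [h3]
          refine (abs_sub _ _).trans ?_
          linarith
        exact max_le (key _ _ _ hz.1 hz₀.1) (key _ _ _ hz.2 hz₀.2)
      linarith
    cases b
    · exact Or.inr (hball.trans hb)
    · exact Or.inl (hball.trans hb)
  let I : Finset (ℤ × ℤ) := Finset.Icc (-(3 : ℤ) ^ m) (3 ^ m) ×ˢ Finset.Icc (-(3 : ℤ) ^ m) (3 ^ m)
  -- the function on the grid
  let Γ₁ : Set ℂ := ⋃ i ∈ I.filter (fun i => Sq m i ⊆ U₁), (Sq m i ∩ DD)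
  have hΓ₁c : IsClosed Γ₁ :=
    isClosed_biUnion_finset (fun i _ => (isClosed_Sq m i).inter isClosed_DD)
  have hΓ₁D : ∀ z ∈ Γ₁, z ∈ DD := by
    intro z hz
    obtain ⟨i, -, hzi⟩ := mem_iUnion₂.1 hz
    exact hzi.2
  have hΓ₁N : ∀ z (hz : z ∈ Γ₁), (⟨sec z, sec_mem (hΓ₁D z hz)⟩ : PP) ∈ N' := by
    intro z hz
    obtain ⟨i, hi, hzi⟩ := mem_iUnion₂.1 hz
    have h1 : z ∈ U₁ := (Finset.mem_filter.1 hi).2 hzi.1
    by_contra hcon
    exact h1 ⟨⟨sec z, sec_mem (hΓ₁D z hz)⟩, fun h2 => hcon (interior_subset h2), rfl⟩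
  let k : ℂ → E := fun z => if hz : z ∈ DD then f₂ ⟨sec z, sec_mem hz⟩ else 0
  have hkc : ContinuousOn k (Γ₁ ∩ Q3ᶜ) := by
    rw [continuousOn_iff_continuous_domRestrict]
    have h1 : Continuous (fun z : (Γ₁ ∩ Q3ᶜ : Set ℂ) =>
        (⟨⟨sec z, sec_mem (hΓ₁D z z.2.1)⟩, hΓ₁N z z.2.1⟩ : N')) := by
      refine Continuous.subtype_mk (Continuous.subtype_mk ?_ _) _
      exact continuousOn_iff_continuous_domRestrict.1 (continuousOn_sec.mono inter_subset_right)
    have h2 := (continuousOn_iff_continuous_domRestrict.1 hf₂).comp h1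
    refine h2.congr ?_
    rintro ⟨z, hz⟩
    have hzD : z ∈ DD := hΓ₁D z hz.1
    simp only [Function.comp, domRestrict_apply, k]
    rw [dif_pos hzD]
  have hkK : ∀ z ∈ Γ₁, k z ∈ K := by
    intro z hz
    simp only [k]
    rw [dif_pos (hΓ₁D z hz)]
    exact hf₂K (hΓ₁N z hz)
  obtain ⟨g, hg, hgK, hgk⟩ := hgrid m (((↑) : Gr m → ℂ) ⁻¹' Γ₁) (fun z => k z)
    (hΓ₁c.preimage continuous_subtype_val)
    (hkc.comp continuous_subtype_val.continuousOn (fun z hz => ⟨hz, Gr_disj_Q3 z.2⟩))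
    (fun z (hz : (z : ℂ) ∈ Γ₁) => hkK z hz)
  -- fill squares
  have hcirc_mem : ∀ (i : ℤ × ℤ) (t : ℝ),
      ctr m i + ((1 / (2 * 3 ^ m)) / Nn (eC t) : ℝ) • eC t ∈ Gr m := by
    intro i t
    refine Gr_of_boundary (i := i) ?_
    rw [add_sub_cancel_left, Nn_smul, abs_of_pos (div_pos hρ (Nn_eC_pos t)),
      div_mul_cancel₀ _ (Nn_eC_pos t).ne']
  have hfillex : ∀ i : ℤ × ℤ, ∃ Φ : PP → E,
      ContinuousOn Φ {p | π p ∈ Sq m i} ∧ (∀ p, Φ p ∈ K) ∧
      ∀ (p : PP) (hp : π p ∈ Gr m), π p ∈ Sq m i → Φ p = g ⟨π p, hp⟩ := by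
    intro i
    have hloop : Continuous (fun t : ℝ => (⟨ctr m i + ((1 / (2 * 3 ^ m)) / Nn (eC t) : ℝ) • eC t,
        hcirc_mem i t⟩ : Gr m)) := by
      refine Continuous.subtype_mk ?_ _
      have e1 : Continuous (fun t : ℝ => (1 / (2 * 3 ^ m)) / Nn (eC t)) :=
        continuous_const.div (continuous_Nn.comp continuous_eC) (fun t => (Nn_eC_pos t).ne')
      exact continuous_const.add (e1.smul continuous_eC)
    obtain ⟨Φ, hΦ, hΦK, hΦf⟩ := fill_square hFill ⟨ctr m i, ctr_mem m i⟩ hρ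
      (f := fun t => g ⟨ctr m i + ((1 / (2 * 3 ^ m)) / Nn (eC t) : ℝ) • eC t, hcirc_mem i t⟩)
      (hg.comp hloop) (fun t => hgK _) (by
        congr 2
        rw [eC_zero, eC_one])
    refine ⟨Φ, hΦ, hΦK, ?_⟩
    intro p hp hpS
    have h1 : Nn (π p - ctr m i) = 1 / (2 * 3 ^ m) := boundary_of_Gr hpS hp
    have h0 : π p - ctr m i ≠ 0 := by
      intro h0
      rw [h0, Nn_zero] at h1
      exact hρ.ne h1
    have hn : ‖π p - ctr m i‖ ≠ 0 := norm_ne_zero_iff.2 h0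
    have hu : ‖((π p - ctr m i) / (‖π p - ctr m i‖ : ℂ))‖ = 1 := by
      rw [norm_div, Complex.norm_real, norm_norm, div_self hn]
    obtain ⟨t, ht, htu⟩ := exists_eC hu
    have h4 : π p - ctr m i = ‖π p - ctr m i‖ • eC t := by
      rw [htu, Complex.real_smul, mul_div_cancel₀]
      exact Complex.ofReal_ne_zero.2 hn
    have h5 : Nn (π p - ctr m i) = ‖π p - ctr m i‖ * Nn (eC t) := by
      conv_lhs => rw [h4]
      rw [Nn_smul, abs_of_nonneg (norm_nonneg _)]
    have h6 : π p = ctr m i + ((1 / (2 * 3 ^ m)) / Nn (eC t) : ℝ) • eC t := by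
      rw [← h1, h5, mul_div_assoc, div_self (Nn_eC_pos t).ne', mul_one, ← h4]
      ring
    rw [hΦf p t ht h6]
    congr 1
    exact Subtype.ext h6.symm
  choose Φ hΦ hΦK hΦg using hfillex
  -- local pieces
  let φ : ℤ × ℤ → PP → E := fun i => if Sq m i ⊆ U₁ then f₂ else Φ i
  have hpieceN : ∀ i, Sq m i ⊆ U₁ → ∀ p : PP, π p ∈ Sq m i → p ∈ N' := by
    intro i hi p hp
    by_contra hcon
    exact hi hp ⟨p, fun h2 => hcon (interior_subset h2), rfl⟩
  have hφc : ∀ i, ContinuousOn (φ i) {p | π p ∈ Sq m i} := by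
    intro i
    by_cases hi : Sq m i ⊆ U₁
    · simp only [φ]
      rw [if_pos hi]
      exact hf₂.mono (fun p hp => hpieceN i hi p hp)
    · simp only [φ]
      rw [if_neg hi]
      exact hΦ i
  have hφK : ∀ i, ∀ p : PP, π p ∈ Sq m i → φ i p ∈ K := by
    intro i p hp
    by_cases hi : Sq m i ⊆ U₁
    · simp only [φ]
      rw [if_pos hi]
      exact hf₂K (hpieceN i hi p hp)
    · simp only [φ]
      rw [if_neg hi]
      exact hΦK i p
  have hφg : ∀ i ∈ I, ∀ p : PP, π p ∈ Sq m i → ∀ hp : π p ∈ Gr m, φ i p = g ⟨π p, hp⟩ := by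
    intro i hiI p hpS hp
    by_cases hi : Sq m i ⊆ U₁
    · simp only [φ]
      rw [if_pos hi]
      have hpD : π p ∈ DD := p.2.1
      have h1 : π p ∈ Γ₁ := mem_iUnion₂.2 ⟨i, Finset.mem_filter.2 ⟨hiI, hi⟩, hpS, hpD⟩
      have h2 : g ⟨π p, hp⟩ = k (π p) := hgk (x := ⟨π p, hp⟩) h1
      rw [h2]
      simp only [k]
      rw [dif_pos hpD]
      congr 1
      exact Subtype.ext (eq_sec p.2 (Gr_disj_Q3 hp))
    · simp only [φ]
      rw [if_neg hi]
      exact hΦg i p hp hpS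
  have hex : ∀ p : PP, ∃ i, i ∈ I ∧ π p ∈ Sq m i := fun p => exists_Sq p.2.1
  choose idx hidxI hidx using hex
  let F : PP → E := fun p => φ (idx p) p
  have hFφ : ∀ i ∈ I, EqOn F (φ i) {p | π p ∈ Sq m i} := by
    intro i hi p hp
    by_cases hij : idx p = i
    · simp only [F, hij]
    · have h1 : π p ∈ Gr m := overlap_Gr hij (hidx p) hp
      simp only [F]
      rw [hφg (idx p) (hidxI p) p (hidx p) h1, hφg i hi p hp h1]
  refine ⟨F, ?_, ?_, ?_⟩
  · refine LocallyFinite.continuous (f := fun i : I => {p | π p ∈ Sq m i}) (locallyFinite_of_finite _)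
      ?_ ?_ ?_
    · ext p
      simp only [mem_iUnion, mem_univ, iff_true]
      exact ⟨⟨idx p, hidxI p⟩, hidx p⟩
    · intro i
      exact (isClosed_Sq m i).preimage hπ
    · intro i
      exact (hφc i).congr (hFφ i i.2)
  · intro p
    exact hφK _ _ (hidx p)
  · intro p hp
    have hi : Sq m (idx p) ⊆ U₁ := by
      rcases hSqU (idx p) ⟨π p, hidx p, p.2.1⟩ with h1 | h1
      · exact h1
      · exact absurd ⟨p, hp, rfl⟩ (h1 (hidx p))
    simp only [F, φ]
    rw [if_pos hi]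
    exact hf₂A hp

end Pool.Agent.Helper76.Menger
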