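import Pool.Agent.Helper76.PiGeom

set_option autoImplicit false

namespace Pool.Agent.Helper76.Menger

open Set Topology Metric Filter TopologicalSpace Module

/-- Filling over a square. -/
lemma fill_square {E : Type} [TopologicalSpace E] {K : Set E} (hK : Fill3 K) (c : Q3) {ρ : ℝ}
    (hρ : 0 < ρ) {f : ℝ → E} (hf : Continuous f) (hfK : ∀ t, f t ∈ K) (h01 : f 0 = f 1) :
    ∃ Φ : PP → E, ContinuousOn Φ {p | Nn ((p : ℂ × (Q3 → ℂ)).1 - c) ≤ ρ} ∧
      (∀ p, Φ p ∈ K) ∧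
      ∀ p : PP, ∀ t ∈ Icc (0 : ℝ) 1,
        (p : ℂ × (Q3 → ℂ)).1 = c + (ρ / Nn (eC t) : ℝ) • eC t → Φ p = f t := by
  classical
  obtain ⟨H, hH, hHK, hH1, hH2, hH3⟩ := hK f hf hfK h01
  let T : Set ((ℝ × ℝ) × PP) := {x | x.1 ∈ Icc (0 : ℝ) 1 ×ˢ Icc (0 : ℝ) 1 ∧
    (x.2 : ℂ × (Q3 → ℂ)).1 = c + (x.1.2 * ρ / Nn (eC x.1.1) : ℝ) • eC x.1.1 ∧
    (x.2 : ℂ × (Q3 → ℂ)).2 c = eC x.1.1 ^ 3}
  let Y : Set PP := {p | Nn ((p : ℂ × (Q3 → ℂ)).1 - c) ≤ ρ}
  have hN : ∀ x ∈ T, Nn ((x.2 : ℂ × (Q3 → ℂ)).1 - c) = x.1.2 * ρ := by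
    rintro ⟨⟨t, s⟩, p⟩ ⟨⟨-, hs⟩, h2, -⟩
    simp only at h2 hs ⊢
    have h3 : 0 ≤ s * ρ / Nn (eC t) := div_nonneg (mul_nonneg hs.1 hρ.le) (Nn_eC_pos t).le
    rw [h2, add_sub_cancel_left, Nn_smul, abs_of_nonneg h3, div_mul_cancel₀ _ (Nn_eC_pos t).ne']
  have hTY : ∀ x ∈ T, x.2 ∈ Y := by
    intro x hx
    have h1 := hN x hx
    have h2 : x.1.2 ≤ 1 := hx.1.2.2
    show Nn _ ≤ ρ
    rw [h1]
    nlinarith
  have hTc : IsClosed T := by
    have e1 : Continuous (fun x : (ℝ × ℝ) × PP => x.1.1) := by fun_prop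
    have e2 : Continuous (fun x : (ℝ × ℝ) × PP => x.1.2) := by fun_prop
    have e3 : Continuous (fun x : (ℝ × ℝ) × PP => (x.2 : ℂ × (Q3 → ℂ)).1) :=
      continuous_fst.comp (continuous_subtype_val.comp continuous_snd)
    have e4 : Continuous (fun x : (ℝ × ℝ) × PP => (x.2 : ℂ × (Q3 → ℂ)).2 c) :=
      (continuous_apply c).comp (continuous_snd.comp (continuous_subtype_val.comp continuous_snd))
    have e5 : Continuous (fun x : (ℝ × ℝ) × PP => eC x.1.1) := continuous_eC.comp e1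
    have e6 : Continuous (fun x : (ℝ × ℝ) × PP => x.1.2 * ρ / Nn (eC x.1.1)) :=
      (e2.mul continuous_const).div (continuous_Nn.comp e5) (fun x => (Nn_eC_pos _).ne')
    refine ((isClosed_Icc.prod isClosed_Icc).preimage continuous_fst).inter
      ((isClosed_eq e3 (continuous_const.add (e6.smul e5))).inter (isClosed_eq e4 (e5.pow 3)))
  have hTcomp : IsCompact T := by
    have hI : IsCompact (Icc (0 : ℝ) 1) := isCompact_Icc
    refine ((hI.prod hI).prod (isCompact_univ (X := PP))).of_isClosed_subset hTc ?_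
    rintro x ⟨h1, -⟩
    exact ⟨h1, trivial⟩
  have hsurj : ∀ p ∈ Y, ∃ y : ℝ × ℝ, (y, p) ∈ T := by
    intro p hp
    have hp1 : Nn ((p : ℂ × (Q3 → ℂ)).1 - c) ≤ ρ := hp
    by_cases hz : (p : ℂ × (Q3 → ℂ)).1 = c
    · obtain ⟨τ, hτ, hτw⟩ := exists_eC ((p.2.2 c).1)
      refine ⟨(τ / 3, 0), ⟨⟨⟨by linarith [hτ.1], by linarith [hτ.2]⟩, by norm_num⟩, ?_, ?_⟩⟩
      · simp only [zero_mul, zero_div, zero_smul, add_zero]
        exact hz
      · simp only
        rw [eC_cube, show 3 * (τ / 3) = τ by ring, hτw]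
    · have hz' : (p : ℂ × (Q3 → ℂ)).1 - c ≠ 0 := sub_ne_zero.2 hz
      have hn : ‖(p : ℂ × (Q3 → ℂ)).1 - c‖ ≠ 0 := norm_ne_zero_iff.2 hz'
      have hu : ‖(((p : ℂ × (Q3 → ℂ)).1 - c) / (‖(p : ℂ × (Q3 → ℂ)).1 - c‖ : ℂ))‖ = 1 := by
        rw [norm_div, Complex.norm_real, norm_norm, div_self hn]
      obtain ⟨t, ht, htu⟩ := exists_eC hu
      have h4 : (p : ℂ × (Q3 → ℂ)).1 - c = ‖(p : ℂ × (Q3 → ℂ)).1 - c‖ • eC t := by
        rw [htu, Complex.real_smul, mul_div_cancel₀]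
        exact Complex.ofReal_ne_zero.2 hn
      have h5 : Nn ((p : ℂ × (Q3 → ℂ)).1 - c) = ‖(p : ℂ × (Q3 → ℂ)).1 - c‖ * Nn (eC t) := by
        conv_lhs => rw [h4]
        rw [Nn_smul, abs_of_nonneg (norm_nonneg _)]
      refine ⟨(t, Nn ((p : ℂ × (Q3 → ℂ)).1 - c) / ρ), ⟨⟨ht, ⟨div_nonneg (Nn_nonneg _) hρ.le,
        (div_le_one hρ).2 hp1⟩⟩, ?_, ?_⟩⟩
      · simp only
        rw [div_mul_cancel₀ _ hρ.ne', h5, mul_div_assoc, div_self (Nn_eC_pos t).ne', mul_one, ← h4]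
        ring
      · simp only
        rw [coord_eq p.2 hz, s3_of_ne hz', htu]
  have hfib : ∀ p : PP, ∀ y y' : ℝ × ℝ, (y, p) ∈ T → (y', p) ∈ T → H y = H y' := by
    rintro p ⟨t, s⟩ ⟨t', s'⟩ h1 h2
    have e1 := hN _ h1
    have e2 := hN _ h2
    simp only at e1 e2
    have hss : s = s' := mul_right_cancel₀ hρ.ne' (e1.symm.trans e2)
    subst hss
    obtain ⟨⟨ht, hs⟩, h3, h4⟩ := h1
    obtain ⟨⟨ht', -⟩, h3', h4'⟩ := h2
    simp only at ht hs h3 h4 ht' h3' h4'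
    by_cases hs0 : s = 0
    · subst hs0
      refine hH3 t ht t' ht' ?_
      have h5 : eC (3 * t) = eC (3 * t') := by
        rw [← eC_cube, ← eC_cube, ← h4, ← h4']
      obtain ⟨m, hm⟩ := eC_eq_iff.1 h5
      exact ⟨m, by linarith⟩
    · have hs1 : 0 < s := lt_of_le_of_ne hs.1 (Ne.symm hs0)
      have h5 : (s * ρ / Nn (eC t) : ℝ) • eC t = (s * ρ / Nn (eC t') : ℝ) • eC t' :=
        add_left_cancel (h3.symm.trans h3')
      have p1 : 0 < s * ρ / Nn (eC t) := div_pos (mul_pos hs1 hρ) (Nn_eC_pos t)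
      have p2 : 0 < s * ρ / Nn (eC t') := div_pos (mul_pos hs1 hρ) (Nn_eC_pos t')
      have h6 := congrArg norm h5
      rw [norm_smul, norm_smul, norm_eC, norm_eC, mul_one, mul_one, Real.norm_of_nonneg p1.le,
        Real.norm_of_nonneg p2.le] at h6
      rw [← h6] at h5
      have h7 : eC t = eC t' := smul_right_injective ℂ p1.ne' h5
      obtain ⟨m, hm⟩ := eC_eq_iff.1 h7
      have hm1 : (-1 : ℝ) ≤ m := by linarith [ht.1, ht'.2]
      have hm2 : (m : ℝ) ≤ 1 := by linarith [ht.2, ht'.1]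
      have hm1' : (-1 : ℤ) ≤ m := by exact_mod_cast hm1
      have hm2' : m ≤ 1 := by exact_mod_cast hm2
      have hcases : m = -1 ∨ m = 0 ∨ m = 1 := by omega
      rcases hcases with rfl | rfl | rfl
      · push_cast at hm
        have e3 : t = 0 := by linarith [ht.1, ht'.2]
        have e4 : t' = 1 := by linarith [ht.1, ht'.2]
        rw [e3, e4]
        exact hH2 s hs
      · push_cast at hm
        have : t = t' := by linarith
        rw [this]
      · push_cast at hm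
        have e3 : t = 1 := by linarith [ht.2, ht'.1]
        have e4 : t' = 0 := by linarith [ht.2, ht'.1]
        rw [e3, e4]
        exact (hH2 s hs).symm
  let Φ : PP → E := fun p => if h : ∃ y : ℝ × ℝ, (y, p) ∈ T then H h.choose else f 0
  have hΦ : ∀ (p : PP) (y : ℝ × ℝ), (y, p) ∈ T → Φ p = H y := by
    intro p y hy
    have h : ∃ y : ℝ × ℝ, (y, p) ∈ T := ⟨y, hy⟩
    simp only [Φ]
    rw [dif_pos h]
    exact hfib p _ _ h.choose_spec hy
  refine ⟨Φ, ?_, ?_, ?_⟩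
  · rw [continuousOn_iff_continuous_domRestrict]
    let pr : T → Y := fun x => ⟨x.1.2, hTY x.1 x.2⟩
    have hprc : Continuous pr := (continuous_snd.comp continuous_subtype_val).subtype_mk _
    have hprs : Function.Surjective pr := by
      rintro ⟨p, hp⟩
      obtain ⟨y, hy⟩ := hsurj p hp
      exact ⟨⟨(y, p), hy⟩, rfl⟩
    have : CompactSpace T := isCompact_iff_compactSpace.1 hTcomp
    have hq : IsQuotientMap pr := hprc.isClosedMap.isQuotientMap hprc hprs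
    rw [hq.continuous_iff]
    have h1 : Continuous (fun x : T => H x.1.1) :=
      hH.comp (continuous_fst.comp continuous_subtype_val)
    refine h1.congr ?_
    rintro ⟨⟨y, p⟩, hx⟩
    exact (hΦ p y hx).symm
  · intro p
    simp only [Φ]
    split_ifs with h
    · exact hHK _
    · exact hfK 0
  · intro p t ht hpt
    have h0 : (p : ℂ × (Q3 → ℂ)).1 ≠ c := by
      intro h0
      rw [h0] at hpt
      have h1 : (ρ / Nn (eC t) : ℝ) • eC t = 0 := by
        have := hpt.symm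
        rwa [add_eq_left] at this
      rcases smul_eq_zero.1 h1 with h2 | h2
      · exact (div_pos hρ (Nn_eC_pos t)).ne' h2
      · exact eC_ne_zero t h2
    have hz' : (p : ℂ × (Q3 → ℂ)).1 - c ≠ 0 := sub_ne_zero.2 h0
    have hT : ((t, 1), p) ∈ T := by
      refine ⟨⟨ht, by norm_num⟩, ?_, ?_⟩
      · simp only [one_mul]
        exact hpt
      · simp only
        rw [coord_eq p.2 h0, s3_of_ne hz']
        congr 1
        rw [hpt, add_sub_cancel_left, norm_smul, norm_eC, mul_one,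
          Real.norm_of_nonneg (div_pos hρ (Nn_eC_pos t)).le, Complex.real_smul,
          mul_div_cancel_left₀]
        exact Complex.ofReal_ne_zero.2 (div_pos hρ (Nn_eC_pos t)).ne'
    rw [hΦ p _ hT]
    exact hH1 t ht

end Pool.Agent.Helper76.Menger
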