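import Pool.Agent.Helper76.PiNotExt

set_option autoImplicit false

namespace Pool.Agent.Helper76.Menger

open Set Topology Metric Filter TopologicalSpace Module

/-- Centres of the triadic squares. -/
noncomputable def ctr (m : ℕ) (i : ℤ × ℤ) : ℂ := ((i.1 : ℂ) + i.2 * Complex.I) / 3 ^ m

lemma ctr_mem (m : ℕ) (i : ℤ × ℤ) : ctr m i ∈ Q3 := ⟨(m, i.1, i.2), rfl⟩

lemma ctr_re (m : ℕ) (i : ℤ × ℤ) : (ctr m i).re = (i.1 : ℝ) / 3 ^ m := by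
  have : ctr m i = (((i.1 : ℝ) / 3 ^ m : ℝ) : ℂ) + (((i.2 : ℝ) / 3 ^ m : ℝ) : ℂ) * Complex.I := by
    unfold ctr
    push_cast
    ring
  rw [this, Complex.add_re, Complex.ofReal_re, Complex.re_ofReal_mul]
  simp

lemma ctr_im (m : ℕ) (i : ℤ × ℤ) : (ctr m i).im = (i.2 : ℝ) / 3 ^ m := by
  have : ctr m i = (((i.1 : ℝ) / 3 ^ m : ℝ) : ℂ) + (((i.2 : ℝ) / 3 ^ m : ℝ) : ℂ) * Complex.I := by
    unfold ctr
    push_cast
    ring
  rw [this, Complex.add_im, Complex.ofReal_im, Complex.im_ofReal_mul]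
  simp

/-- Triadic squares. -/
def Sq (m : ℕ) (i : ℤ × ℤ) : Set ℂ := {z | Nn (z - ctr m i) ≤ 1 / (2 * 3 ^ m)}

/-- The triadic grid. -/
def Gr (m : ℕ) : Set ℂ := {z | (∃ a : ℤ, z.re = ((2 * a + 1 : ℤ) : ℝ) / (2 * 3 ^ m)) ∨
  ∃ a : ℤ, z.im = ((2 * a + 1 : ℤ) : ℝ) / (2 * 3 ^ m)}

lemma isClosed_Sq (m : ℕ) (i : ℤ × ℤ) : IsClosed (Sq m i) :=
  isClosed_le (continuous_Nn.comp (by fun_prop)) continuous_const

lemma Gr_disj_Q3 {m : ℕ} {z : ℂ} (hz : z ∈ Gr m) : z ∉ Q3 := by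
  intro hQ
  obtain ⟨k, a, hka⟩ := re_Q3 hQ
  obtain ⟨k', a', hka'⟩ := im_Q3 hQ
  rcases hz with ⟨n, hn⟩ | ⟨n, hn⟩
  · exact odd_ne_triadic (odd_two_mul_add_one n) m k a (hn ▸ hka)
  · exact odd_ne_triadic (odd_two_mul_add_one n) m k' a' (hn ▸ hka')

lemma mem_Sq_iff {m : ℕ} {i : ℤ × ℤ} {z : ℂ} : z ∈ Sq m i ↔
    |3 ^ m * z.re - i.1| ≤ 1 / 2 ∧ |3 ^ m * z.im - i.2| ≤ 1 / 2 := by
  have h3 : (0 : ℝ) < 3 ^ m := by positivity
  have key : ∀ (x : ℝ) (a : ℤ), |x - a / 3 ^ m| ≤ 1 / (2 * 3 ^ m) ↔ |3 ^ m * x - a| ≤ 1 / 2 := by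
    intro x a
    have h1 : 3 ^ m * x - a = 3 ^ m * (x - a / 3 ^ m) := by field_simp
    rw [h1, abs_mul, abs_of_pos h3]
    rw [show (1 : ℝ) / (2 * 3 ^ m) = (1 / 2) / 3 ^ m by field_simp, le_div_iff₀ h3, mul_comm]
  simp only [Sq, Nn, mem_ofPred_eq, Complex.sub_re, Complex.sub_im, ctr_re, ctr_im, max_le_iff]
  rw [key, key]

lemma exists_Sq {m : ℕ} {z : ℂ} (hz : z ∈ DD) : ∃ i : ℤ × ℤ,
    i ∈ Finset.Icc (-(3 : ℤ) ^ m) (3 ^ m) ×ˢ Finset.Icc (-(3 : ℤ) ^ m) (3 ^ m) ∧ z ∈ Sq m i := by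
  have h3 : (1 : ℝ) ≤ 3 ^ m := one_le_pow₀ (by norm_num)
  have key : ∀ x : ℝ, x ∈ Icc (-(1 / 2) : ℝ) (1 / 2) →
      round (3 ^ m * x) ∈ Finset.Icc (-(3 : ℤ) ^ m) (3 ^ m) := by
    intro x hx
    have h1 := abs_sub_round (3 ^ m * x)
    rw [abs_le] at h1
    rw [Finset.mem_Icc]
    constructor
    · have : (-(3 : ℝ) ^ m) ≤ (round (3 ^ m * x) : ℤ) := by nlinarith [hx.1, h1.2]
      exact_mod_cast this
    · have : ((round (3 ^ m * x) : ℤ) : ℝ) ≤ 3 ^ m := by nlinarith [hx.2, h1.1]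
      exact_mod_cast this
  rw [mem_DD_iff] at hz
  refine ⟨(round (3 ^ m * z.re), round (3 ^ m * z.im)), ?_, ?_⟩
  · rw [Finset.mem_product]
    exact ⟨key _ hz.1, key _ hz.2⟩
  · rw [mem_Sq_iff]
    exact ⟨abs_sub_round _, abs_sub_round _⟩

lemma half_of_two {y : ℝ} {a b : ℤ} (hab : a ≠ b) (h1 : |y - a| ≤ 1 / 2) (h2 : |y - b| ≤ 1 / 2) :
    ∃ n : ℤ, y = ((2 * n + 1 : ℤ) : ℝ) / 2 := by
  rw [abs_le] at h1 h2
  rcases lt_or_gt_of_ne hab with h | h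
  · have h3 : (a : ℝ) + 1 ≤ b := by exact_mod_cast h
    refine ⟨a, ?_⟩
    push_cast
    linarith [h1.2, h2.1]
  · have h3 : (b : ℝ) + 1 ≤ a := by exact_mod_cast h
    refine ⟨b, ?_⟩
    push_cast
    linarith [h1.1, h2.2]

lemma mem_Gr_iff {m : ℕ} {z : ℂ} : z ∈ Gr m ↔ (∃ a : ℤ, 3 ^ m * z.re = ((2 * a + 1 : ℤ) : ℝ) / 2) ∨
    ∃ a : ℤ, 3 ^ m * z.im = ((2 * a + 1 : ℤ) : ℝ) / 2 := by
  have h3 : (0 : ℝ) < 3 ^ m := by positivity
  have key : ∀ (x : ℝ) (a : ℤ), x = (a : ℝ) / (2 * 3 ^ m) ↔ 3 ^ m * x = (a : ℝ) / 2 := by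
    intro x a
    rw [eq_div_iff (by positivity), eq_div_iff (by positivity)]
    constructor <;> intro h <;> linarith
  simp only [Gr, mem_ofPred_eq, key]

lemma overlap_Gr {m : ℕ} {i j : ℤ × ℤ} (hij : i ≠ j) {z : ℂ} (hi : z ∈ Sq m i) (hj : z ∈ Sq m j) :
    z ∈ Gr m := by
  rw [mem_Sq_iff] at hi hj
  rw [mem_Gr_iff]
  by_cases h1 : i.1 = j.1
  · have h2 : i.2 ≠ j.2 := fun h => hij (Prod.ext h1 h)
    exact Or.inr (half_of_two h2 hi.2 hj.2)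
  · exact Or.inl (half_of_two h1 hi.1 hj.1)

lemma boundary_of_Gr {m : ℕ} {i : ℤ × ℤ} {z : ℂ} (hi : z ∈ Sq m i) (hz : z ∈ Gr m) :
    Nn (z - ctr m i) = 1 / (2 * 3 ^ m) := by
  have h3 : (0 : ℝ) < 3 ^ m := by positivity
  refine le_antisymm hi ?_
  have key : ∀ (x : ℝ) (a : ℤ), |3 ^ m * x - a| ≤ 1 / 2 →
      (∃ n : ℤ, 3 ^ m * x = ((2 * n + 1 : ℤ) : ℝ) / 2) → 1 / (2 * 3 ^ m) ≤ |x - a / 3 ^ m| := by
    rintro x a h1 ⟨n, hn⟩
    have h4 : 3 ^ m * x - a = 3 ^ m * (x - a / 3 ^ m) := by field_simp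
    have h5 : (1 : ℝ) / 2 ≤ |3 ^ m * x - a| := by
      rw [hn] at h1 ⊢
      have h6 : (((2 * n + 1 : ℤ) : ℝ) / 2 - a) = (((2 * (n - a) + 1 : ℤ) : ℝ)) / 2 := by
        push_cast; ring
      rw [h6, abs_div, abs_of_pos (by norm_num : (0 : ℝ) < 2)]
      have h7 : (1 : ℝ) ≤ |((2 * (n - a) + 1 : ℤ) : ℝ)| := by
        have h8 : (1 : ℤ) ≤ |2 * (n - a) + 1| := Int.one_le_abs (by omega)
        have h9 : ((1 : ℤ) : ℝ) ≤ ((|2 * (n - a) + 1| : ℤ) : ℝ) := by exact_mod_cast h8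
        rwa [Int.cast_abs, Int.cast_one] at h9
      linarith
    rw [h4, abs_mul, abs_of_pos h3] at h5
    rw [show (1 : ℝ) / (2 * 3 ^ m) = (1 / 2) / 3 ^ m by field_simp, div_le_iff₀ h3, mul_comm]
    exact h5
  rw [mem_Sq_iff] at hi
  rw [mem_Gr_iff] at hz
  simp only [Nn, Complex.sub_re, Complex.sub_im, ctr_re, ctr_im]
  rcases hz with h | h
  · exact (key _ _ hi.1 h).trans (le_max_left _ _)
  · exact (key _ _ hi.2 h).trans (le_max_right _ _)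

lemma Gr_of_boundary {m : ℕ} {i : ℤ × ℤ} {z : ℂ} (hz : Nn (z - ctr m i) = 1 / (2 * 3 ^ m)) :
    z ∈ Gr m := by
  have h3 : (0 : ℝ) < 3 ^ m := by positivity
  rw [mem_Gr_iff]
  have key : ∀ (x : ℝ) (a : ℤ), |x - a / 3 ^ m| = 1 / (2 * 3 ^ m) →
      (∃ n : ℤ, 3 ^ m * x = ((2 * n + 1 : ℤ) : ℝ) / 2) := by
    intro x a h
    rcases (abs_eq (by positivity)).1 h with h | h
    · refine ⟨a, ?_⟩
      have : x = a / 3 ^ m + 1 / (2 * 3 ^ m) := by linarith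
      rw [this]
      push_cast
      field_simp
    · refine ⟨a - 1, ?_⟩
      have : x = a / 3 ^ m - 1 / (2 * 3 ^ m) := by linarith
      rw [this]
      push_cast
      field_simp
      ring
  simp only [Nn, Complex.sub_re, Complex.sub_im, ctr_re, ctr_im] at hz
  rcases max_choice |z.re - (i.1 : ℝ) / 3 ^ m| |z.im - (i.2 : ℝ) / 3 ^ m| with h | h
  · rw [h] at hz
    exact Or.inl (key _ _ hz)
  · rw [h] at hz
    exact Or.inr (key _ _ hz)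

/-- The unit circle parametrisation. -/
noncomputable def eC (t : ℝ) : ℂ := Complex.exp ((2 * Real.pi * t : ℝ) * Complex.I)

lemma continuous_eC : Continuous eC := by
  unfold eC
  fun_prop

lemma norm_eC (t : ℝ) : ‖eC t‖ = 1 := Complex.norm_exp_ofReal_mul_I _

lemma eC_ne_zero (t : ℝ) : eC t ≠ 0 := Complex.exp_ne_zero _

lemma Nn_eC_pos (t : ℝ) : 0 < Nn (eC t) := Nn_pos (eC_ne_zero t)

lemma eC_zero : eC 0 = 1 := by simp [eC]

lemma eC_one : eC 1 = 1 := by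
  unfold eC
  push_cast
  rw [mul_one, Complex.exp_two_pi_mul_I]

lemma eC_eq_iff {t t' : ℝ} : eC t = eC t' ↔ ∃ m : ℤ, t - t' = m := by
  unfold eC
  rw [Complex.exp_eq_exp_iff_exists_int]
  have hpi : (2 * (Real.pi : ℂ) * Complex.I) ≠ 0 := Complex.two_pi_I_ne_zero
  constructor
  · rintro ⟨n, hn⟩
    refine ⟨n, ?_⟩
    have h1 : ((t : ℂ) - t') * (2 * (Real.pi : ℂ) * Complex.I) =
        n * (2 * (Real.pi : ℂ) * Complex.I) := by
      have h2 : ((2 * Real.pi * t : ℝ) : ℂ) * Complex.I -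
          ((2 * Real.pi * t' : ℝ) : ℂ) * Complex.I = n * (2 * (Real.pi : ℂ) * Complex.I) := by
        rw [hn]; ring
      rw [← h2]
      push_cast
      ring
    have h3 := mul_right_cancel₀ hpi h1
    have h4 : ((t - t' : ℝ) : ℂ) = ((n : ℝ) : ℂ) := by
      push_cast
      exact h3
    exact Complex.ofReal_injective h4
  · rintro ⟨n, hn⟩
    refine ⟨n, ?_⟩
    have : t = t' + n := by linarith
    rw [this]
    push_cast
    ring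

lemma exists_eC {z : ℂ} (hz : ‖z‖ = 1) : ∃ t ∈ Icc (0 : ℝ) 1, eC t = z := by
  have h1 : z = Complex.exp ((Complex.arg z : ℝ) * Complex.I) := by
    have := Complex.norm_mul_exp_arg_mul_I z
    rw [hz] at this
    simpa using this.symm
  let s : ℝ := Complex.arg z / (2 * Real.pi)
  have hpi : (2 * Real.pi) ≠ 0 := by positivity
  have hs : eC s = z := by
    rw [h1]
    unfold eC
    congr 3
    simp only [s]
    field_simp
  refine ⟨Int.fract s, ⟨Int.fract_nonneg _, (Int.fract_lt_one _).le⟩, ?_⟩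
  rw [← hs, eC_eq_iff]
  refine ⟨-⌊s⌋, ?_⟩
  rw [Int.fract]
  push_cast
  ring

lemma eC_cube (t : ℝ) : eC t ^ 3 = eC (3 * t) := by
  unfold eC
  rw [← Complex.exp_nat_mul]
  congr 1
  push_cast
  ring

end Pool.Agent.Helper76.Menger
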