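import Pool.Agent.Helper76.PiSpace

set_option autoImplicit false

namespace Pool.Agent.Helper76.Menger

open Set Topology Metric Filter TopologicalSpace Module

/-- Cube roots of functions of the cubed direction. -/
lemma exists_chi {ψ : ℂ → ℂ} (hψ : Continuous ψ) (hψ1 : ∀ w : ℂ, ‖w‖ = 1 → ‖ψ w‖ = 1) :
    ∃ χ : ℂ → ℂ, ContinuousOn χ {0}ᶜ ∧ ∀ u, u ≠ 0 → χ u ^ 3 = ψ (s3 u) := by
  have hmem : ∀ t : ℝ, ψ (Complex.exp (t * Complex.I)) ∈ Submonoid.unitSphere ℂ := by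
    intro t
    exact mem_sphere_zero_iff_norm.2 (hψ1 _ (Complex.norm_exp_ofReal_mul_I t))
  let ψc : C(ℝ, Circle) := ⟨fun t => ⟨ψ (Complex.exp (t * Complex.I)), hmem t⟩, by
    refine Continuous.subtype_mk ?_ _
    exact hψ.comp (by fun_prop)⟩
  have hψc : ∀ t, ((ψc t : Circle) : ℂ) = ψ (Complex.exp (t * Complex.I)) := fun t => rfl
  have hcov := Circle.isCoveringMap_exp
  obtain ⟨κ, ⟨-, hκ⟩, -⟩ := hcov.existsUnique_continuousMap_lifts (A := ℝ) ψc 0
    (Complex.arg (ψc 0)) (Circle.exp_arg _)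
  have hκ' : ∀ t, Circle.exp (κ t) = ψc t := fun t => congrFun hκ t
  have hper : ∀ t, ψc (t + 2 * Real.pi) = ψc t := by
    intro t
    apply Subtype.ext
    rw [hψc, hψc]
    congr 1
    push_cast
    rw [add_mul, Complex.exp_add, Complex.exp_two_pi_mul_I, mul_one]
  obtain ⟨d, hd⟩ := Circle.exp_eq_exp.1 ((hκ' (0 + 2 * Real.pi)).trans ((hper 0).trans (hκ' 0).symm))
  have hκper : ∀ t, κ (t + 2 * Real.pi) = κ t + d * (2 * Real.pi) := by
    have h1 : (fun t => κ (t + 2 * Real.pi)) = fun t => κ t + d * (2 * Real.pi) := by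
      refine hcov.eq_of_comp_eq (by fun_prop) (by fun_prop) ?_ 0 hd
      ext t
      simp only [Function.comp]
      rw [hκ', hper, ← hκ']
      congr 1
      exact (Circle.exp_eq_exp.2 ⟨d, rfl⟩).symm
    exact fun t => congrFun h1 t
  let Ef : ℝ → ℂ := fun t => Complex.exp (((κ (3 * t) / 3 : ℝ) : ℂ) * Complex.I)
  have hEf : Continuous Ef := by
    refine Complex.continuous_exp.comp ?_
    have : Continuous (fun t : ℝ => κ (3 * t) / 3) := by fun_prop
    exact (Complex.continuous_ofReal.comp this).mul continuous_const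
  have hEf3 : ∀ t, Ef t ^ 3 = ψ (Complex.exp ((3 * t : ℝ) * Complex.I)) := by
    intro t
    rw [← hψc, ← hκ', Circle.coe_exp, ← Complex.exp_nat_mul]
    congr 1
    push_cast
    ring
  have hEfper1 : ∀ t, Ef (t + 2 * Real.pi) = Ef t := by
    intro t
    simp only [Ef]
    rw [Complex.exp_eq_exp_iff_exists_int]
    refine ⟨d, ?_⟩
    have h1 : κ (3 * (t + 2 * Real.pi)) = κ (3 * t) + 3 * (d * (2 * Real.pi)) := by
      rw [show 3 * (t + 2 * Real.pi) = ((3 * t + 2 * Real.pi) + 2 * Real.pi) + 2 * Real.pi by ring,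
        hκper, hκper, hκper]
      ring
    rw [h1]
    push_cast
    ring
  have hEfperN : ∀ (n : ℕ) (t : ℝ), Ef (t + n * (2 * Real.pi)) = Ef t := by
    intro n
    induction n with
    | zero => intro t; simp
    | succ n ih =>
      intro t
      rw [show t + ((n + 1 : ℕ) : ℝ) * (2 * Real.pi) =
        (t + n * (2 * Real.pi)) + 2 * Real.pi by push_cast; ring, hEfper1, ih]
  have hEfper : ∀ (m : ℤ) (t : ℝ), Ef (t + m * (2 * Real.pi)) = Ef t := by
    intro m t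
    obtain ⟨n, rfl | rfl⟩ := m.eq_nat_or_neg
    · exact_mod_cast hEfperN n t
    · have := hEfperN n (t + ((-(n : ℤ) : ℤ) : ℝ) * (2 * Real.pi))
      rw [← this]
      congr 1
      push_cast
      ring
  refine ⟨fun u => Ef (Complex.arg u), ?_, ?_⟩
  · intro u hu
    have hu0 : u ≠ 0 := hu
    refine ContinuousAt.continuousWithinAt ?_
    by_cases hs : u ∈ Complex.slitPlane
    · exact hEf.continuousAt.comp (Complex.continuousAt_arg hs)
    · have hs' : -u ∈ Complex.slitPlane := by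
        rw [Complex.mem_slitPlane_iff] at hs ⊢
        push Not at hs
        have h1 : u.re ≠ 0 := by
          intro h2
          exact hu0 (Complex.ext h2 hs.2)
        left
        have := lt_of_le_of_ne hs.1 h1
        simp only [Complex.neg_re]
        linarith
      have h1 : ContinuousAt (fun v : ℂ => Ef (Complex.arg (-v) + Real.pi)) u := by
        refine hEf.continuousAt.comp (ContinuousAt.add ?_ continuousAt_const)
        exact ContinuousAt.comp (x := u) (f := fun v : ℂ => -v) (Complex.continuousAt_arg hs')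
          continuousAt_neg
      refine h1.congr ?_
      filter_upwards [isOpen_ne.mem_nhds hu0] with v hv
      have h2 := Complex.arg_neg_coe_angle (x := -v) (neg_ne_zero.2 hv)
      rw [neg_neg, ← Real.Angle.coe_add, Real.Angle.angle_eq_iff_two_pi_dvd_sub] at h2
      obtain ⟨k, hk⟩ := h2
      rw [← hEfper k]
      congr 1
      rw [mul_comm] at hk
      linarith
  · intro u hu
    rw [hEf3, s3_of_ne hu]
    congr 1
    have h1 : u / (‖u‖ : ℂ) = Complex.exp (Complex.arg u * Complex.I) := by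
      have h2 : ((‖u‖ : ℝ) : ℂ) ≠ 0 := Complex.ofReal_ne_zero.2 (norm_ne_zero_iff.2 hu)
      rw [div_eq_iff h2, mul_comm]
      exact (Complex.norm_mul_exp_arg_mul_I u).symm
    rw [h1, ← Complex.exp_nat_mul]
    congr 1
    push_cast
    ring

/-- Existence of continuous cube roots. -/
def CR (g : ℂ → ℂ) (B : Set ℂ) : Prop := ∃ h : ℂ → ℂ, ContinuousOn h B ∧ ∀ z ∈ B, h z ^ 3 = g z

lemma CR.mono {g : ℂ → ℂ} {B B' : Set ℂ} (h : CR g B) (hB : B' ⊆ B) : CR g B' := by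
  obtain ⟨f, hf, hfg⟩ := h
  exact ⟨f, hf.mono hB, fun z hz => hfg z (hB hz)⟩

lemma CR.of_close {g k : ℂ → ℂ} {B : Set ℂ} (hg : ContinuousOn g B) (hk : ContinuousOn k B)
    (hk1 : ∀ z ∈ B, ‖k z ^ 3‖ = 1) (h : ∀ z ∈ B, ‖g z - k z ^ 3‖ < 1) : CR g B := by
  have hk0 : ∀ z ∈ B, k z ^ 3 ≠ 0 := by
    intro z hz h0
    have := hk1 z hz
    rw [h0] at this
    simp at this
  have hslit : ∀ z ∈ B, g z / k z ^ 3 ∈ Complex.slitPlane := by
    intro z hz
    have h1 : ‖g z / k z ^ 3 - 1‖ < 1 := by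
      have h2 : g z / k z ^ 3 - 1 = (g z - k z ^ 3) / k z ^ 3 := by
        rw [sub_div, div_self (hk0 z hz)]
      rw [h2, norm_div, hk1 z hz, div_one]
      exact h z hz
    have := Complex.mem_slitPlane_of_norm_lt_one h1
    rwa [add_sub_cancel] at this
  refine ⟨fun z => k z * Complex.exp (Complex.log (g z / k z ^ 3) / 3), ?_, ?_⟩
  · refine hk.mul (Complex.continuous_exp.comp_continuousOn ?_)
    refine ContinuousOn.div_const ?_ _
    exact ContinuousOn.clog (hg.div (hk.pow 3) hk0) hslit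
  · intro z hz
    have h1 : g z / k z ^ 3 ≠ 0 := Complex.slitPlane_ne_zero (hslit z hz)
    rw [mul_pow, ← Complex.exp_nat_mul]
    have h2 : ((3 : ℕ) : ℂ) * (Complex.log (g z / k z ^ 3) / 3) = Complex.log (g z / k z ^ 3) := by
      push_cast
      ring
    rw [h2, Complex.exp_log h1]
    exact mul_div_cancel₀ _ (hk0 z hz)

lemma cube_root_const {α : Type} [TopologicalSpace α] {B : Set α} (hB : IsPreconnected B)
    {f : α → ℂ} (hf : ContinuousOn f B)
    (h : ∀ z ∈ B, f z ^ 3 = 1) {x y : α} (hx : x ∈ B) (hy : y ∈ B) : f x = f y := by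
  have hfin : ({z : ℂ | z ^ 3 = 1}).Finite := by
    have : {z : ℂ | z ^ 3 = 1} ⊆ (Polynomial.nthRoots 3 (1 : ℂ)).toFinset := by
      intro z hz
      simp only [Finset.mem_coe, Multiset.mem_toFinset]
      exact (Polynomial.mem_nthRoots (by norm_num)).2 hz
    exact (Finset.finite_toSet _).subset this
  exact hB.constant_of_mapsTo hfin.isDiscrete hf (fun z hz => h z hz) hx hy

/-- Gluing cube roots. -/
lemma CR.glue {g : ℂ → ℂ} {B₁ B₂ : Set ℂ} (hB₁ : IsClosed B₁) (hB₂ : IsClosed B₂)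
    (hconn : IsPreconnected (B₁ ∩ B₂)) (hg : ∀ z ∈ B₁ ∩ B₂, g z ≠ 0)
    (h₁ : CR g B₁) (h₂ : CR g B₂) : CR g (B₁ ∪ B₂) := by
  classical
  obtain ⟨f₁, hf₁, hfg₁⟩ := h₁
  obtain ⟨f₂, hf₂, hfg₂⟩ := h₂
  obtain ⟨ζ, hζ3, hζ⟩ : ∃ ζ : ℂ, ζ ^ 3 = 1 ∧ ∀ z ∈ B₁ ∩ B₂, f₁ z = ζ * f₂ z := by
    by_cases hne : (B₁ ∩ B₂).Nonempty
    · obtain ⟨b, hb⟩ := hne
      have h20 : ∀ z ∈ B₁ ∩ B₂, f₂ z ≠ 0 := by
        intro z hz h0
        apply hg z hz
        rw [← hfg₂ z hz.2, h0]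
        norm_num
      have hcub : ∀ z ∈ B₁ ∩ B₂, (f₁ z / f₂ z) ^ 3 = 1 := by
        intro z hz
        rw [div_pow, hfg₁ z hz.1, hfg₂ z hz.2, div_self (hg z hz)]
      refine ⟨f₁ b / f₂ b, hcub b hb, ?_⟩
      intro z hz
      have h1 : f₁ b / f₂ b = f₁ z / f₂ z :=
        cube_root_const hconn (f := fun z => f₁ z / f₂ z)
        ((hf₁.mono inter_subset_left).div (hf₂.mono inter_subset_right) h20) hcub hb hz
      rw [h1, div_mul_cancel₀ _ (h20 z hz)]
    · exact ⟨1, by norm_num, fun z hz => absurd ⟨z, hz⟩ hne⟩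
  let f : ℂ → ℂ := fun z => if z ∈ B₁ then f₁ z else ζ * f₂ z
  have e1 : EqOn f f₁ B₁ := fun z hz => by simp only [f]; rw [if_pos hz]
  have e2 : EqOn f (fun z => ζ * f₂ z) B₂ := by
    intro z hz
    by_cases hz1 : z ∈ B₁
    · rw [e1 hz1]
      exact hζ z ⟨hz1, hz⟩
    · simp only [f]; rw [if_neg hz1]
  refine ⟨f, ContinuousOn.union_of_isClosed (hf₁.congr e1)
    ((continuousOn_const.mul hf₂).congr e2) hB₁ hB₂, ?_⟩
  rintro z (hz | hz)
  · rw [e1 hz, hfg₁ z hz]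
  · rw [e2 hz, mul_pow, hζ3, one_mul, hfg₂ z hz]

/-- The boundary of a rectangle. -/
def bdy (a b c d : ℝ) : Set ℂ :=
  {z | (z.re ∈ Icc a b ∧ z.im ∈ Icc c d) ∧ (z.re = a ∨ z.re = b ∨ z.im = c ∨ z.im = d)}

lemma isClosed_bdy (a b c d : ℝ) : IsClosed (bdy a b c d) := by
  have h1 := Complex.continuous_re
  have h2 := Complex.continuous_im
  refine IsClosed.inter ((isClosed_Icc.preimage h1).inter (isClosed_Icc.preimage h2)) ?_
  exact (isClosed_eq h1 continuous_const).union ((isClosed_eq h1 continuous_const).union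
    ((isClosed_eq h2 continuous_const).union (isClosed_eq h2 continuous_const)))

lemma CR.split_re {g : ℂ → ℂ} {a m b c d : ℝ} (ham : a ≤ m) (hmb : m ≤ b)
    (hg : ∀ z ∈ bdy a m c d, g z ≠ 0) (h₁ : CR g (bdy a m c d)) (h₂ : CR g (bdy m b c d)) :
    CR g (bdy a b c d) := by
  have hconn : IsPreconnected (bdy a m c d ∩ bdy m b c d) := by
    have : bdy a m c d ∩ bdy m b c d = (fun t : ℝ => (⟨m, t⟩ : ℂ)) '' Icc c d := by
      ext z
      constructor
      · rintro ⟨⟨⟨h1, h2⟩, -⟩, ⟨h3, -⟩, -⟩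
        exact ⟨z.im, h2, Complex.ext (le_antisymm h3.1 h1.2) rfl⟩
      · rintro ⟨t, ht, rfl⟩
        exact ⟨⟨⟨⟨ham, le_rfl⟩, ht⟩, Or.inr (Or.inl rfl)⟩, ⟨⟨⟨le_rfl, hmb⟩, ht⟩, Or.inl rfl⟩⟩
    rw [this]
    refine isPreconnected_Icc.image _ (Continuous.continuousOn ?_)
    have : (fun t : ℝ => (⟨m, t⟩ : ℂ)) = fun t : ℝ => (m : ℂ) + t * Complex.I := by
      ext t
      rw [Complex.mk_eq_add_mul_I]
    rw [this]
    fun_prop
  refine (CR.glue (isClosed_bdy _ _ _ _) (isClosed_bdy _ _ _ _) hconn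
    (fun z hz => hg z hz.1) h₁ h₂).mono ?_
  rintro z ⟨⟨h1, h2⟩, h3⟩
  rcases le_total z.re m with h4 | h4
  · refine Or.inl ⟨⟨⟨h1.1, h4⟩, h2⟩, ?_⟩
    rcases h3 with h | h | h | h
    · exact Or.inl h
    · exact Or.inr (Or.inl (le_antisymm h4 (by rw [h]; exact hmb)))
    · exact Or.inr (Or.inr (Or.inl h))
    · exact Or.inr (Or.inr (Or.inr h))
  · refine Or.inr ⟨⟨⟨h4, h1.2⟩, h2⟩, ?_⟩
    rcases h3 with h | h | h | h
    · exact Or.inl (le_antisymm (by rw [h]; exact ham) h4)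
    · exact Or.inr (Or.inl h)
    · exact Or.inr (Or.inr (Or.inl h))
    · exact Or.inr (Or.inr (Or.inr h))

lemma CR.split_im {g : ℂ → ℂ} {a b c m d : ℝ} (hcm : c ≤ m) (hmd : m ≤ d)
    (hg : ∀ z ∈ bdy a b c m, g z ≠ 0) (h₁ : CR g (bdy a b c m)) (h₂ : CR g (bdy a b m d)) :
    CR g (bdy a b c d) := by
  have hconn : IsPreconnected (bdy a b c m ∩ bdy a b m d) := by
    have : bdy a b c m ∩ bdy a b m d = (fun t : ℝ => (⟨t, m⟩ : ℂ)) '' Icc a b := by
      ext z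
      constructor
      · rintro ⟨⟨⟨h1, h2⟩, -⟩, ⟨-, h3⟩, -⟩
        exact ⟨z.re, h1, Complex.ext rfl (le_antisymm h3.1 h2.2)⟩
      · rintro ⟨t, ht, rfl⟩
        exact ⟨⟨⟨ht, ⟨hcm, le_rfl⟩⟩, Or.inr (Or.inr (Or.inr rfl))⟩,
          ⟨⟨ht, ⟨le_rfl, hmd⟩⟩, Or.inr (Or.inr (Or.inl rfl))⟩⟩
    rw [this]
    refine isPreconnected_Icc.image _ (Continuous.continuousOn ?_)
    have : (fun t : ℝ => (⟨t, m⟩ : ℂ)) = fun t : ℝ => (t : ℂ) + m * Complex.I := by
      ext t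
      rw [Complex.mk_eq_add_mul_I]
    rw [this]
    fun_prop
  refine (CR.glue (isClosed_bdy _ _ _ _) (isClosed_bdy _ _ _ _) hconn
    (fun z hz => hg z hz.1) h₁ h₂).mono ?_
  rintro z ⟨⟨h1, h2⟩, h3⟩
  rcases le_total z.im m with h4 | h4
  · refine Or.inl ⟨⟨h1, ⟨h2.1, h4⟩⟩, ?_⟩
    rcases h3 with h | h | h | h
    · exact Or.inl h
    · exact Or.inr (Or.inl h)
    · exact Or.inr (Or.inr (Or.inl h))
    · exact Or.inr (Or.inr (Or.inr (le_antisymm h4 (by rw [h]; exact hmd))))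
  · refine Or.inr ⟨⟨h1, ⟨h4, h2.2⟩⟩, ?_⟩
    rcases h3 with h | h | h | h
    · exact Or.inl h
    · exact Or.inr (Or.inl h)
    · exact Or.inr (Or.inr (Or.inl (le_antisymm (by rw [h]; exact hcm) h4)))
    · exact Or.inr (Or.inr (Or.inr h))

lemma CR.grid {g : ℂ → ℂ} {x : ℕ → ℝ} (hx : Monotone x) {N : ℕ}
    (hg : ∀ z : ℂ, z.re ∈ Icc (x 0) (x N) → z.im ∈ Icc (x 0) (x N) → g z ≠ 0)
    (h : ∀ i < N, ∀ j < N, CR g (bdy (x i) (x (i + 1)) (x j) (x (j + 1)))) :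
    ∀ j < N, CR g (bdy (x 0) (x N) (x 0) (x (j + 1))) := by
  have hrow : ∀ j < N, ∀ i < N, CR g (bdy (x 0) (x (i + 1)) (x j) (x (j + 1))) := by
    intro j hj i
    induction i with
    | zero => exact fun hi => h 0 hi j hj
    | succ i ih =>
      intro hi
      refine CR.split_re (hx (Nat.zero_le _)) (hx (Nat.le_succ _)) ?_ (ih (by omega)) (h (i + 1) hi j hj)
      rintro z ⟨⟨h1, h2⟩, -⟩
      exact hg z ⟨h1.1, h1.2.trans (hx (by omega))⟩
        ⟨(hx (Nat.zero_le _)).trans h2.1, h2.2.trans (hx (by omega))⟩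
  have hrow' : ∀ j < N, CR g (bdy (x 0) (x N) (x j) (x (j + 1))) := by
    intro j hj
    obtain ⟨M, rfl⟩ : ∃ M, N = M + 1 := ⟨N - 1, by omega⟩
    exact hrow j hj M (by omega)
  intro j
  induction j with
  | zero => exact fun hj => hrow' 0 hj
  | succ j ih =>
    intro hj
    refine CR.split_im (hx (Nat.zero_le _)) (hx (Nat.le_succ _)) ?_ (ih (by omega)) (hrow' (j + 1) hj)
    rintro z ⟨⟨h1, h2⟩, -⟩
    exact hg z h1 ⟨h2.1, h2.2.trans (hx (by omega))⟩

/-- Half-integral triadic numbers are not triadic. -/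
lemma odd_ne_triadic {n : ℤ} (hn : Odd n) (m k : ℕ) (a : ℤ) :
    (n : ℝ) / (2 * 3 ^ m) ≠ (a : ℝ) / 3 ^ k := by
  intro h
  rw [div_eq_div_iff (by positivity) (by positivity)] at h
  have h2 : n * 3 ^ k = a * (2 * 3 ^ m) := by exact_mod_cast h
  have h3 : Odd (n * 3 ^ k) := hn.mul (Odd.pow (by decide))
  rw [h2] at h3
  have h4 : Even (a * (2 * 3 ^ m)) := by
    rw [show a * (2 * 3 ^ m) = 2 * (a * 3 ^ m) by ring]
    exact even_two_mul _
  exact (Int.not_even_iff_odd.2 h3) h4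

lemma re_Q3 {z : ℂ} (hz : z ∈ Q3) : ∃ (k : ℕ) (a : ℤ), z.re = (a : ℝ) / 3 ^ k := by
  obtain ⟨⟨k, a, b⟩, rfl⟩ := hz
  refine ⟨k, a, ?_⟩
  have : ((a : ℂ) + b * Complex.I) / 3 ^ k = (((a : ℝ) / 3 ^ k : ℝ) : ℂ) +
      (((b : ℝ) / 3 ^ k : ℝ) : ℂ) * Complex.I := by
    push_cast
    ring
  simp only
  rw [this, Complex.add_re, Complex.ofReal_re, Complex.re_ofReal_mul]
  simp

lemma im_Q3 {z : ℂ} (hz : z ∈ Q3) : ∃ (k : ℕ) (a : ℤ), z.im = (a : ℝ) / 3 ^ k := by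
  obtain ⟨⟨k, a, b⟩, rfl⟩ := hz
  refine ⟨k, b, ?_⟩
  have : ((a : ℂ) + b * Complex.I) / 3 ^ k = (((a : ℝ) / 3 ^ k : ℝ) : ℂ) +
      (((b : ℝ) / 3 ^ k : ℝ) : ℂ) * Complex.I := by
    push_cast
    ring
  simp only
  rw [this, Complex.add_im, Complex.ofReal_im, Complex.im_ofReal_mul]
  simp

end Pool.Agent.Helper76.Menger
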