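import Pool.Agent.Helper76.PiLower

set_option autoImplicit false

namespace Pool.Agent.Helper76.Menger

open Set Topology Metric Filter TopologicalSpace Module

/-- Two functions agreeing on a fibre are close near the fibre. -/
lemma fibre_close {F G : ℂ × (Q3 → ℂ) → ℂ} (hF : Continuous F) (hG : Continuous G) {c : ℂ}
    (h : ∀ p ∈ PP, p.1 = c → F p = G p) :
    ∃ ρ > 0, ∀ p ∈ PP, p.1 ∈ ball c ρ → ‖F p - G p‖ < 1 := by
  have hB : IsCompact (PP ∩ {p | 1 ≤ ‖F p - G p‖}) :=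
    isCompact_PP.inter_right (isClosed_le continuous_const (hF.sub hG).norm)
  have hB1 : IsClosed (Prod.fst '' (PP ∩ {p | 1 ≤ ‖F p - G p‖})) :=
    (hB.image continuous_fst).isClosed
  have hc : c ∉ Prod.fst '' (PP ∩ {p | 1 ≤ ‖F p - G p‖}) := by
    rintro ⟨p, ⟨hp, hp1⟩, hpc⟩
    simp only [mem_ofPred_eq] at hp1
    rw [h p hp hpc, sub_self, norm_zero] at hp1
    linarith
  obtain ⟨ρ, hρ, hball⟩ := Metric.isOpen_iff.1 hB1.isOpen_compl c hc
  refine ⟨ρ, hρ, fun p hp hpb => ?_⟩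
  by_contra hcon
  push Not at hcon
  exact hball hpb ⟨p, ⟨hp, hcon⟩, rfl⟩

/-- Local cube roots. -/
lemma local_CR {F : ℂ × (Q3 → ℂ) → ℂ} (hF : Continuous F) (hF1 : ∀ p ∈ PP, ‖F p‖ = 1)
    {c : ℂ} (hc : c ∈ DD) :
    ∃ ρ > 0, CR (fun z => F (sec z)) ((ball c ρ ∩ DD) \ Q3) := by
  have hgc : ContinuousOn (fun z => F (sec z)) Q3ᶜ := hF.comp_continuousOn continuousOn_sec
  by_cases hcQ : c ∈ Q3
  · let c' : Q3 := ⟨c, hcQ⟩
    have hψ : Continuous (fun w => F (core c' w)) := hF.comp (continuous_core c')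
    have hψ1 : ∀ w : ℂ, ‖w‖ = 1 → ‖F (core c' w)‖ = 1 := fun w hw => hF1 _ (core_mem hc hw)
    obtain ⟨χ, hχ, hχ3⟩ := exists_chi hψ hψ1
    have hG : Continuous (fun p : ℂ × (Q3 → ℂ) => F (core c' (p.2 c'))) :=
      hψ.comp ((continuous_apply c').comp continuous_snd)
    obtain ⟨ρ, hρ, hclose⟩ := fibre_close hF hG (c := c) (by
      intro p hp hpc
      rw [← eq_core hp (c := c') hpc])
    refine ⟨ρ, hρ, ?_⟩
    have hne : ∀ z ∈ (ball c ρ ∩ DD) \ Q3, z - c ≠ 0 := by
      intro z hz h0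
      exact hz.2 (by rw [sub_eq_zero.1 h0]; exact hcQ)
    refine CR.of_close (k := fun z => χ (z - c)) (hgc.mono (fun z hz => hz.2)) ?_ ?_ ?_
    · exact hχ.comp (by fun_prop) hne
    · intro z hz
      rw [hχ3 _ (hne z hz)]
      exact hψ1 _ (norm_s3 _)
    · intro z hz
      rw [hχ3 _ (hne z hz)]
      exact hclose (sec z) (sec_mem hz.1.2) hz.1.1
  · obtain ⟨r₀, hr₀⟩ : ∃ r₀ : ℂ, r₀ ^ 3 = F (sec c) :=
      IsAlgClosed.exists_pow_nat_eq _ (by norm_num)
    obtain ⟨ρ, hρ, hclose⟩ := fibre_close hF (continuous_const (y := F (sec c))) (c := c) (by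
      intro p hp hpc
      rw [eq_sec hp (by rw [hpc]; exact hcQ), hpc])
    refine ⟨ρ, hρ, ?_⟩
    refine CR.of_close (k := fun _ => r₀) (hgc.mono (fun z hz => hz.2)) continuousOn_const ?_ ?_
    · intro z _
      rw [hr₀]
      exact hF1 _ (sec_mem hc)
    · intro z hz
      rw [hr₀]
      exact hclose (sec z) (sec_mem hz.1.2) hz.1.1

lemma mem_DD_iff {z : ℂ} : z ∈ DD ↔ z.re ∈ Icc (-(1 / 2) : ℝ) (1 / 2) ∧
    z.im ∈ Icc (-(1 / 2) : ℝ) (1 / 2) := by
  simp only [DD, Nn, mem_ofPred_eq, max_le_iff, abs_le, mem_Icc]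

/-- The boundary circle of the square carries no cube root of the direction. -/
lemma no_cube_root : ¬ CR (fun z => z / (‖z‖ : ℂ)) (bdy (-(1 / 2)) (1 / 2) (-(1 / 2)) (1 / 2)) := by
  rintro ⟨h, hh, hh3'⟩
  have hh3 : ∀ z ∈ bdy (-(1 / 2)) (1 / 2) (-(1 / 2)) (1 / 2), h z ^ 3 = z / (‖z‖ : ℂ) := hh3'
  have hexp : Continuous (fun t : ℝ => Complex.exp (t * Complex.I)) := by fun_prop
  have hexp1 : ∀ t : ℝ, ‖Complex.exp (t * Complex.I)‖ = 1 := Complex.norm_exp_ofReal_mul_I
  have hexp0 : ∀ t : ℝ, Complex.exp (t * Complex.I) ≠ 0 := fun t => Complex.exp_ne_zero _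
  have hN0 : ∀ t : ℝ, Nn (Complex.exp (t * Complex.I)) ≠ 0 := fun t => (Nn_pos (hexp0 t)).ne'
  let β : ℝ → ℂ := fun t => ((2 * Nn (Complex.exp (t * Complex.I)))⁻¹ : ℝ) •
    Complex.exp (t * Complex.I)
  have hβ : Continuous β := by
    have h1 : Continuous (fun t : ℝ => 2 * Nn (Complex.exp (t * Complex.I))) :=
      continuous_const.mul (continuous_Nn.comp hexp)
    have h2 : Continuous (fun t : ℝ => (2 * Nn (Complex.exp (t * Complex.I)))⁻¹) :=
      h1.inv₀ (fun t => mul_ne_zero two_ne_zero (hN0 t))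
    exact h2.smul hexp
  have hβmem : ∀ t, β t ∈ bdy (-(1 / 2)) (1 / 2) (-(1 / 2)) (1 / 2) := by
    intro t
    have h1 : Nn (β t) = 1 / 2 := by
      simp only [β]
      rw [Nn_smul, abs_of_pos (inv_pos.2 (mul_pos two_pos (Nn_pos (hexp0 t)))), mul_inv,
        mul_assoc, inv_mul_cancel₀ (hN0 t), mul_one, one_div]
    refine ⟨mem_DD_iff.1 h1.le, ?_⟩
    rcases max_choice |(β t).re| |(β t).im| with h2 | h2
    · have h3 : |(β t).re| = 1 / 2 := by rw [← h2]; exact h1
      rcases (abs_eq (by norm_num)).1 h3 with h4 | h4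
      · exact Or.inr (Or.inl h4)
      · exact Or.inl h4
    · have h3 : |(β t).im| = 1 / 2 := by rw [← h2]; exact h1
      rcases (abs_eq (by norm_num)).1 h3 with h4 | h4
      · exact Or.inr (Or.inr (Or.inr h4))
      · exact Or.inr (Or.inr (Or.inl h4))
  have hβdir : ∀ t, β t / (‖β t‖ : ℂ) = Complex.exp (t * Complex.I) := by
    intro t
    have hp : 0 < (2 * Nn (Complex.exp (t * Complex.I)))⁻¹ :=
      inv_pos.2 (mul_pos two_pos (Nn_pos (hexp0 t)))
    simp only [β]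
    rw [norm_smul, hexp1, mul_one, Real.norm_of_nonneg hp.le, Complex.real_smul,
      mul_div_cancel_left₀]
    exact Complex.ofReal_ne_zero.2 hp.ne'
  let u : ℝ → ℂ := fun t => h (β t) * Complex.exp ((-(t / 3) : ℝ) * Complex.I)
  have hu : Continuous u := by
    refine Continuous.mul (hh.comp_continuous hβ hβmem) ?_
    fun_prop
  have hu3 : ∀ t, u t ^ 3 = 1 := by
    intro t
    simp only [u]
    rw [mul_pow, hh3 _ (hβmem t), hβdir, ← Complex.exp_nat_mul, ← Complex.exp_add]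
    have : (t : ℂ) * Complex.I + ((3 : ℕ) : ℂ) * (((-(t / 3) : ℝ) : ℂ) * Complex.I) = 0 := by
      push_cast
      ring
    rw [this, Complex.exp_zero]
  have hconst := cube_root_const (isPreconnected_univ (α := ℝ)) hu.continuousOn
    (fun t _ => hu3 t) (mem_univ (0 : ℝ)) (mem_univ (2 * Real.pi))
  have hβper : β (2 * Real.pi) = β 0 := by
    simp only [β]
    have : Complex.exp (((2 * Real.pi : ℝ) : ℂ) * Complex.I) =
        Complex.exp (((0 : ℝ) : ℂ) * Complex.I) := by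
      push_cast
      rw [Complex.exp_two_pi_mul_I, zero_mul, Complex.exp_zero]
    rw [this]
  have h0 : h (β 0) ≠ 0 := by
    intro h0
    have := hu3 0
    simp [u, h0] at this
  simp only [u] at hconst
  rw [hβper] at hconst
  have h1 := mul_left_cancel₀ h0 hconst
  have h2 : Complex.exp ((-((2 * Real.pi) / 3) : ℝ) * Complex.I) = 1 := by
    rw [← h1]
    simp
  have h3 : Real.cos (-((2 * Real.pi) / 3)) = 1 := by
    have := congrArg Complex.re h2
    rwa [Complex.exp_ofReal_mul_I_re, Complex.one_re] at this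
  have h4 : (2 * Real.pi) / 3 = Real.pi - Real.pi / 3 := by ring
  rw [Real.cos_neg, h4, Real.cos_pi_sub, Real.cos_pi_div_three] at h3
  norm_num at h3

/-- The compact set does not have the extension property for the circle. -/
theorem not_ext_PP : ¬ Ext PP (sphere (0 : ℂ) 1) := by
  classical
  intro hExt
  have hne0 : ∀ z : ℂ, Nn z = 1 / 2 → z ≠ 0 := by
    rintro z hz rfl
    rw [Nn_zero] at hz
    norm_num at hz
  obtain ⟨F', hF', hF'K, hF'A⟩ := hExt {p : PP | Nn (p : ℂ × (Q3 → ℂ)).1 = 1 / 2}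
    (fun p => (p : ℂ × (Q3 → ℂ)).1 / (‖(p : ℂ × (Q3 → ℂ)).1‖ : ℂ))
    (isClosed_eq (continuous_Nn.comp (continuous_fst.comp continuous_subtype_val))
      continuous_const) (by
      have h1 : Continuous (fun p : PP => (p : ℂ × (Q3 → ℂ)).1) :=
        continuous_fst.comp continuous_subtype_val
      refine h1.continuousOn.div (Complex.continuous_ofReal.comp h1.norm).continuousOn ?_
      intro p hp
      exact Complex.ofReal_ne_zero.2 (norm_ne_zero_iff.2 (hne0 _ hp))) (by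
      intro p hp
      rw [mem_sphere_zero_iff_norm, norm_div, Complex.norm_real, norm_norm, div_self]
      exact norm_ne_zero_iff.2 (hne0 _ hp))
  -- extend to the ambient space
  obtain ⟨F, hF, hFF⟩ := tietze (E := ℂ) (X := ℂ × (Q3 → ℂ)) isClosed_PP
    (f := fun p => if hp : p ∈ PP then F' ⟨p, hp⟩ else 0) (by
      rw [continuousOn_iff_continuous_domRestrict]
      refine hF'.congr ?_
      rintro ⟨p, hp⟩
      simp [domRestrict_apply, hp])
  have hFp : ∀ p (hp : p ∈ PP), F p = F' ⟨p, hp⟩ := by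
    intro p hp
    rw [hFF hp]
    simp [hp]
  have hF1 : ∀ p ∈ PP, ‖F p‖ = 1 := by
    intro p hp
    rw [hFp p hp]
    exact mem_sphere_zero_iff_norm.1 (hF'K _)
  choose! ρ hρ hCR using fun c (hc : c ∈ DD) => local_CR hF hF1 hc
  obtain ⟨δ, hδ, hleb⟩ := lebesgue_number_lemma_of_metric (c := fun c : DD => ball (c : ℂ) (ρ c))
    isCompact_DD (fun c => isOpen_ball) (by
      intro c hc
      exact mem_iUnion.2 ⟨⟨c, hc⟩, mem_ball_self (hρ c hc)⟩)
  obtain ⟨m, hm⟩ := exists_pow_lt_of_lt_one (show 0 < δ / 2 by positivity)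
    (show (1 / 3 : ℝ) < 1 by norm_num)
  have h3m : (0 : ℝ) < 3 ^ m := by positivity
  let x : ℕ → ℝ := fun i => -(1 / 2) + i / 3 ^ m
  have hx : Monotone x := by
    intro i j hij
    have : (i : ℝ) ≤ j := by exact_mod_cast hij
    simp only [x]
    gcongr
  have hx0 : x 0 = -(1 / 2) := by simp [x]
  have hxN : x (3 ^ m) = 1 / 2 := by
    simp only [x]
    push_cast
    rw [div_self h3m.ne']
    norm_num
  have hxodd : ∀ i k : ℕ, ∀ a : ℤ, x i ≠ (a : ℝ) / 3 ^ k := by
    intro i k a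
    have h1 : x i = ((2 * (i : ℤ) - 3 ^ m : ℤ) : ℝ) / (2 * 3 ^ m) := by
      simp only [x]
      push_cast
      field_simp
      ring
    rw [h1]
    refine odd_ne_triadic ?_ _ _ _
    have h2 : Odd ((3 : ℤ) ^ m) := Odd.pow (by decide)
    exact Even.sub_odd (even_two_mul _) h2
  have hsmall : ∀ i < 3 ^ m, ∀ j < 3 ^ m, CR (fun z => F (sec z))
      (bdy (x i) (x (i + 1)) (x j) (x (j + 1))) := by
    intro i hi j hj
    have hxi : ∀ i < 3 ^ m, x i ∈ Icc (-(1 / 2) : ℝ) (1 / 2) ∧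
        x (i + 1) ∈ Icc (-(1 / 2) : ℝ) (1 / 2) := by
      intro i hi
      have e1 := hx (Nat.zero_le i)
      have e2 := hx (show i ≤ i + 1 by omega)
      have e3 := hx (show i + 1 ≤ 3 ^ m by omega)
      rw [hx0] at e1
      rw [hxN] at e3
      exact ⟨⟨e1, e2.trans e3⟩, ⟨e1.trans e2, e3⟩⟩
    have hstep : ∀ i, x (i + 1) - x i = (1 / 3) ^ m := by
      intro i
      have h5 : ((1 : ℝ) / 3) ^ m = 1 / 3 ^ m := one_div_pow 3 m
      rw [h5]
      simp only [x]
      push_cast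
      field_simp
      ring
    have hz₀ : (⟨x i, x j⟩ : ℂ) ∈ DD := mem_DD_iff.2 ⟨(hxi i hi).1, (hxi j hj).1⟩
    obtain ⟨⟨c, hc⟩, hcb⟩ := hleb _ hz₀
    refine (hCR c hc).mono ?_
    rintro z ⟨⟨h1, h2⟩, h3⟩
    refine ⟨⟨hcb ?_, ?_⟩, ?_⟩
    · rw [mem_ball, dist_eq_norm]
      refine lt_of_le_of_lt (norm_le_two_Nn _) ?_
      have h4 : Nn (z - ⟨x i, x j⟩) ≤ (1 / 3) ^ m := by
        simp only [Nn, Complex.sub_re, Complex.sub_im]
        refine max_le ?_ ?_
        · rw [abs_le]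
          have := hstep i
          constructor
          · linarith [h1.1, pow_pos (show (0 : ℝ) < 1 / 3 by norm_num) m]
          · linarith [h1.2]
        · rw [abs_le]
          have := hstep j
          constructor
          · linarith [h2.1, pow_pos (show (0 : ℝ) < 1 / 3 by norm_num) m]
          · linarith [h2.2]
      linarith
    · exact mem_DD_iff.2 ⟨⟨(hxi i hi).1.1.trans h1.1, h1.2.trans (hxi i hi).2.2⟩,
        ⟨(hxi j hj).1.1.trans h2.1, h2.2.trans (hxi j hj).2.2⟩⟩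
    · intro hzQ
      obtain ⟨k, a, hka⟩ := re_Q3 hzQ
      obtain ⟨k', a', hka'⟩ := im_Q3 hzQ
      rcases h3 with h | h | h | h
      · exact hxodd i k a (h ▸ hka)
      · exact hxodd (i + 1) k a (h ▸ hka)
      · exact hxodd j k' a' (h ▸ hka')
      · exact hxodd (j + 1) k' a' (h ▸ hka')
  have hbig := CR.grid hx (N := 3 ^ m) (g := fun z => F (sec z)) (by
    intro z hz1 hz2 h0
    rw [hx0, hxN] at hz1 hz2
    have := hF1 _ (sec_mem (mem_DD_iff.2 ⟨hz1, hz2⟩))
    have h0' : F (sec z) = 0 := h0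
    rw [h0'] at this
    simp at this) hsmall (3 ^ m - 1) (by
      have : 0 < 3 ^ m := by positivity
      omega)
  have hN1 : 3 ^ m - 1 + 1 = 3 ^ m := by
    have : 0 < 3 ^ m := by positivity
    omega
  rw [hN1, hx0, hxN] at hbig
  apply no_cube_root
  obtain ⟨h, hh, hh3⟩ := hbig
  refine ⟨h, hh, fun z hz => ?_⟩
  rw [hh3 z hz]
  have hzD : z ∈ DD := mem_DD_iff.2 hz.1
  have hzN : Nn z = 1 / 2 := by
    refine le_antisymm hzD ?_
    rcases hz.2 with h | h | h | h
    · refine le_trans ?_ (le_max_left _ _)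
      rw [h]; norm_num
    · refine le_trans ?_ (le_max_left _ _)
      rw [h]; norm_num
    · refine le_trans ?_ (le_max_right _ _)
      rw [h]; norm_num
    · refine le_trans ?_ (le_max_right _ _)
      rw [h]; norm_num
  show F (sec z) = z / (‖z‖ : ℂ)
  rw [hFp _ (sec_mem hzD)]
  exact hF'A (x := ⟨sec z, sec_mem hzD⟩) hzN

end Pool.Agent.Helper76.Menger
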