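import Pool.Agent.Helper76.Assembly

set_option autoImplicit false

namespace Pool.Agent.Helper76.Menger

open Set Topology Metric Filter TopologicalSpace Module

/-- The maximum norm on the plane. -/
noncomputable def Nn (z : ℂ) : ℝ := max |z.re| |z.im|

lemma continuous_Nn : Continuous Nn := by
  unfold Nn
  have h1 := Complex.continuous_re
  have h2 := Complex.continuous_im
  fun_prop

lemma Nn_nonneg (z : ℂ) : 0 ≤ Nn z := le_max_of_le_left (abs_nonneg _)

lemma Nn_smul (t : ℝ) (z : ℂ) : Nn (t • z) = |t| * Nn z := by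
  simp only [Nn, Complex.real_smul, Complex.re_ofReal_mul, Complex.im_ofReal_mul, abs_mul]
  rw [← mul_max_of_nonneg _ _ (abs_nonneg t)]

lemma Nn_eq_zero {z : ℂ} : Nn z = 0 ↔ z = 0 := by
  constructor
  · intro h
    have h1 : |z.re| ≤ 0 := h ▸ le_max_left _ _
    have h2 : |z.im| ≤ 0 := h ▸ le_max_right _ _
    exact Complex.ext (abs_nonpos_iff.1 h1) (abs_nonpos_iff.1 h2)
  · rintro rfl
    simp [Nn]

lemma Nn_pos {z : ℂ} (h : z ≠ 0) : 0 < Nn z :=
  lt_of_le_of_ne (Nn_nonneg z) (fun e => h (Nn_eq_zero.1 e.symm))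

lemma Nn_zero : Nn 0 = 0 := Nn_eq_zero.2 rfl

lemma norm_le_two_Nn (z : ℂ) : ‖z‖ ≤ 2 * Nn z := by
  have h1 := Complex.norm_le_abs_re_add_abs_im z
  have h2 : |z.re| ≤ Nn z := le_max_left _ _
  have h3 : |z.im| ≤ Nn z := le_max_right _ _
  linarith

lemma Nn_le_norm (z : ℂ) : Nn z ≤ ‖z‖ :=
  max_le (Complex.abs_re_le_norm z) (Complex.abs_im_le_norm z)

/-- The triadic points of the plane. -/
def Q3 : Set ℂ := range (fun p : ℕ × ℤ × ℤ => ((p.2.1 : ℂ) + p.2.2 * Complex.I) / 3 ^ p.1)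

lemma Q3_countable : Q3.Countable := countable_range _

instance : Countable Q3 := Q3_countable.to_subtype

/-- The square. -/
def DD : Set ℂ := {z | Nn z ≤ 1 / 2}

lemma isClosed_DD : IsClosed DD := isClosed_le continuous_Nn continuous_const

lemma isCompact_DD : IsCompact DD := by
  refine (isCompact_closedBall (0 : ℂ) 1).of_isClosed_subset isClosed_DD ?_
  intro z hz
  rw [mem_closedBall_zero_iff]
  have := norm_le_two_Nn z
  have h2 : Nn z ≤ 1 / 2 := hz
  linarith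

/-- The cube of the direction. -/
noncomputable def s3 (u : ℂ) : ℂ := if u = 0 then 1 else (u / (‖u‖ : ℂ)) ^ 3

lemma norm_s3 (u : ℂ) : ‖s3 u‖ = 1 := by
  unfold s3
  split_ifs with h
  · simp
  · rw [norm_pow, norm_div, Complex.norm_real, norm_norm, div_self (norm_ne_zero_iff.2 h), one_pow]

lemma s3_of_ne {u : ℂ} (h : u ≠ 0) : s3 u = (u / (‖u‖ : ℂ)) ^ 3 := if_neg h

lemma s3_eq (u : ℂ) : (‖u‖ : ℂ) ^ 3 * s3 u = u ^ 3 := by
  by_cases h : u = 0
  · simp [h]
  · rw [s3_of_ne h, div_pow, mul_div_cancel₀]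
    exact pow_ne_zero _ (Complex.ofReal_ne_zero.2 (norm_ne_zero_iff.2 h))

lemma continuousAt_s3 {u : ℂ} (h : u ≠ 0) : ContinuousAt s3 u := by
  have h1 : ContinuousAt (fun u : ℂ => (u / (‖u‖ : ℂ)) ^ 3) u := by
    refine ContinuousAt.pow (ContinuousAt.div continuousAt_id ?_ ?_) 3
    · exact (Complex.continuous_ofReal.comp continuous_norm).continuousAt
    · exact Complex.ofReal_ne_zero.2 (norm_ne_zero_iff.2 h)
  refine h1.congr ?_
  filter_upwards [isOpen_ne.mem_nhds h] with v hv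
  exact (s3_of_ne hv).symm

/-- The compact set in the product. -/
def PP : Set (ℂ × (Q3 → ℂ)) :=
  {p | Nn p.1 ≤ 1 / 2 ∧ ∀ q : Q3, ‖p.2 q‖ = 1 ∧ (‖p.1 - q‖ : ℂ) ^ 3 * p.2 q = (p.1 - q) ^ 3}

lemma isClosed_PP : IsClosed PP := by
  have : PP = {p | Nn p.1 ≤ 1 / 2} ∩ ⋂ q : Q3, ({p : ℂ × (Q3 → ℂ) | ‖p.2 q‖ = 1} ∩
      {p | (‖p.1 - q‖ : ℂ) ^ 3 * p.2 q = (p.1 - q) ^ 3}) := by
    ext p
    simp [PP]
  rw [this]
  refine (isClosed_le (continuous_Nn.comp continuous_fst) continuous_const).inter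
    (isClosed_iInter (fun q => ?_))
  have hq : Continuous (fun p : ℂ × (Q3 → ℂ) => p.2 q) := (continuous_apply q).comp continuous_snd
  refine (isClosed_eq hq.norm continuous_const).inter (isClosed_eq ?_ ?_)
  · have h1 : Continuous (fun p : ℂ × (Q3 → ℂ) => ((‖p.1 - q‖ : ℝ) : ℂ)) :=
      Complex.continuous_ofReal.comp (by fun_prop)
    exact (h1.pow 3).mul hq
  · fun_prop

lemma isCompact_PP : IsCompact PP := by
  refine (isCompact_DD.prod (isCompact_univ_pi
    (fun q : Q3 => isCompact_sphere (0 : ℂ) 1))).of_isClosed_subset isClosed_PP ?_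
  rintro p ⟨h1, h2⟩
  refine ⟨h1, fun q _ => ?_⟩
  rw [mem_sphere_zero_iff_norm]
  exact (h2 q).1

instance : CompactSpace PP := isCompact_iff_compactSpace.1 isCompact_PP

/-- The section over the square. -/
noncomputable def sec (z : ℂ) : ℂ × (Q3 → ℂ) := (z, fun q => s3 (z - q))

lemma sec_mem {z : ℂ} (hz : z ∈ DD) : sec z ∈ PP :=
  ⟨hz, fun q => ⟨norm_s3 _, s3_eq _⟩⟩

lemma coord_eq {p : ℂ × (Q3 → ℂ)} (hp : p ∈ PP) {q : Q3} (h : p.1 ≠ q) :
    p.2 q = s3 (p.1 - q) := by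
  have h1 := (hp.2 q).2
  rw [← s3_eq (p.1 - q)] at h1
  have h2 : ‖p.1 - (q : ℂ)‖ ≠ 0 := norm_ne_zero_iff.2 (sub_ne_zero.2 h)
  have h3 : ((‖p.1 - (q : ℂ)‖ : ℝ) : ℂ) ^ 3 ≠ 0 := pow_ne_zero 3 (Complex.ofReal_ne_zero.2 h2)
  exact mul_left_cancel₀ h3 h1

lemma eq_sec {p : ℂ × (Q3 → ℂ)} (hp : p ∈ PP) (h : p.1 ∉ Q3) : p = sec p.1 := by
  refine Prod.ext rfl (funext (fun q => ?_))
  exact coord_eq hp (fun e => h (e ▸ q.2))

lemma continuousOn_sec : ContinuousOn sec Q3ᶜ := by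
  intro z hz
  refine ContinuousAt.continuousWithinAt ?_
  refine continuousAt_id.prodMk (continuousAt_pi.2 (fun q => ?_))
  have h1 : z - q ≠ 0 := sub_ne_zero.2 (fun e => hz (e ▸ q.2))
  exact ContinuousAt.comp (x := z) (f := fun y => y - (q : ℂ)) (continuousAt_s3 h1) (by fun_prop)

open Classical in
/-- The points over a triadic point. -/
noncomputable def core (c : Q3) (w : ℂ) : ℂ × (Q3 → ℂ) :=
  (c, Function.update (fun q => s3 (c - q)) c w)

lemma core_mem {c : Q3} (hc : (c : ℂ) ∈ DD) {w : ℂ} (hw : ‖w‖ = 1) : core c w ∈ PP := by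
  refine ⟨hc, fun q => ?_⟩
  by_cases h : q = c
  · subst h
    simp [core, hw]
  · simp only [core, Function.update_of_ne h]
    exact ⟨norm_s3 _, s3_eq _⟩

lemma continuous_core (c : Q3) : Continuous (core c) := by
  unfold core
  refine continuous_const.prodMk (continuous_pi (fun q => ?_))
  by_cases h : q = c
  · subst h
    simp only [Function.update_self]
    exact continuous_id
  · simp only [Function.update_of_ne h]
    exact continuous_const

lemma eq_core {p : ℂ × (Q3 → ℂ)} (hp : p ∈ PP) {c : Q3} (h : p.1 = c) : p = core c (p.2 c) := by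
  refine Prod.ext h (funext (fun q => ?_))
  by_cases hq : q = c
  · subst hq
    simp [core]
  · simp only [core, Function.update_of_ne hq]
    rw [← h]
    refine coord_eq hp (fun e => hq ?_)
    exact Subtype.ext (e.symm.trans h)

lemma core_snd (c : Q3) (w : ℂ) : (core c w).2 c = w := by
  simp [core]

end Pool.Agent.Helper76.Menger
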