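import Pool.Agent.Helper76.Sphere

set_option autoImplicit false

namespace Pool.Agent.Helper76.Menger

open Set Topology Metric Filter TopologicalSpace Module

/-- The quaternions. -/
abbrev HQ : Type := Quaternion ℝ

noncomputable def qi : HQ := ⟨0, 1, 0, 0⟩
noncomputable def qj : HQ := ⟨0, 0, 1, 0⟩
noncomputable def qk : HQ := ⟨0, 0, 0, 1⟩

@[simp] lemma qi_re : qi.re = 0 := rfl
@[simp] lemma qi_imI : qi.imI = 1 := rfl
@[simp] lemma qi_imJ : qi.imJ = 0 := rfl
@[simp] lemma qi_imK : qi.imK = 0 := rfl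
@[simp] lemma qj_re : qj.re = 0 := rfl
@[simp] lemma qj_imI : qj.imI = 0 := rfl
@[simp] lemma qj_imJ : qj.imJ = 1 := rfl
@[simp] lemma qj_imK : qj.imK = 0 := rfl
@[simp] lemma qk_re : qk.re = 0 := rfl
@[simp] lemma qk_imI : qk.imI = 0 := rfl
@[simp] lemma qk_imJ : qk.imJ = 0 := rfl
@[simp] lemma qk_imK : qk.imK = 1 := rfl
@[simp] lemma hq_one_re : (1 : HQ).re = 1 := rfl
@[simp] lemma hq_one_imI : (1 : HQ).imI = 0 := rfl
@[simp] lemma hq_one_imJ : (1 : HQ).imJ = 0 := rfl
@[simp] lemma hq_one_imK : (1 : HQ).imK = 0 := rfl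
@[simp] lemma hq_zero_re : (0 : HQ).re = 0 := rfl
@[simp] lemma hq_zero_imI : (0 : HQ).imI = 0 := rfl
@[simp] lemma hq_zero_imJ : (0 : HQ).imJ = 0 := rfl
@[simp] lemma hq_zero_imK : (0 : HQ).imK = 0 := rfl

lemma qi_mul_qj : qi * qj = qk := by ext <;> simp
lemma qj_mul_qi : qj * qi = -qk := by ext <;> simp
lemma qi_mul_qi : qi * qi = -1 := by ext <;> simp
lemma qj_mul_qj : qj * qj = -1 := by ext <;> simp
lemma qk_mul_qi : qk * qi = qj := by ext <;> simp
lemma qk_mul_qj : qk * qj = -qi := by ext <;> simp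
lemma star_qi : star qi = -qi := by ext <;> simp
lemma star_qj : star qj = -qj := by ext <;> simp
lemma norm_qi : ‖qi‖ = 1 := by
  have h : ‖qi‖ * ‖qi‖ = 1 := by
    rw [← Quaternion.normSq_eq_norm_mul_self, Quaternion.normSq_def']
    simp
  nlinarith [norm_nonneg qi]
lemma norm_qj : ‖qj‖ = 1 := by
  have h : ‖qj‖ * ‖qj‖ = 1 := by
    rw [← Quaternion.normSq_eq_norm_mul_self, Quaternion.normSq_def']
    simp
  nlinarith [norm_nonneg qj]

/-- Pairs of anticommuting unit imaginary quaternions. -/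
def K1 : Set (HQ × HQ) :=
  {p | star p.1 = -p.1 ∧ ‖p.1‖ = 1 ∧ star p.2 = -p.2 ∧ ‖p.2‖ = 1 ∧ p.1 * p.2 = -(p.2 * p.1)}

/-- The double covering. -/
noncomputable def rho (q : HQ) : HQ × HQ := (q * qi * star q, q * qj * star q)

lemma self_mul_star_of_norm {q : HQ} (hq : ‖q‖ = 1) : q * star q = 1 := by
  rw [Quaternion.self_mul_star, Quaternion.normSq_eq_norm_mul_self, hq]
  simp

lemma star_mul_self_of_norm {q : HQ} (hq : ‖q‖ = 1) : star q * q = 1 := by
  rw [Quaternion.star_mul_self, Quaternion.normSq_eq_norm_mul_self, hq]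
  simp

lemma continuous_rho : Continuous rho := by
  unfold rho
  fun_prop

lemma rho_mem {q : HQ} (hq : ‖q‖ = 1) : rho q ∈ K1 := by
  have h1 := star_mul_self_of_norm hq
  refine ⟨?_, ?_, ?_, ?_, ?_⟩
  · simp only [rho, star_mul, star_star, star_qi]
    noncomm_ring
  · simp only [rho, norm_mul, Quaternion.norm_star, hq, norm_qi, mul_one]
  · simp only [rho, star_mul, star_star, star_qj]
    noncomm_ring
  · simp only [rho, norm_mul, Quaternion.norm_star, hq, norm_qj, mul_one]
  · simp only [rho]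
    have h2 : q * qi * star q * (q * qj * star q) = q * qi * (star q * q) * qj * star q := by
      noncomm_ring
    have h3 : q * qj * star q * (q * qi * star q) = q * qj * (star q * q) * qi * star q := by
      noncomm_ring
    rw [h2, h3, h1, mul_one, mul_one, mul_assoc q qi qj, mul_assoc q qj qi, qi_mul_qj, qj_mul_qi]
    noncomm_ring

lemma sq_of_mem {u : HQ} (h1 : star u = -u) (h2 : ‖u‖ = 1) : u * u = -1 := by
  have h3 := self_mul_star_of_norm h2
  rw [h1, mul_neg] at h3
  rw [← h3, neg_neg]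

lemma rho_surj {p : HQ × HQ} (hp : p ∈ K1) : ∃ q : HQ, ‖q‖ = 1 ∧ rho q = p := by
  obtain ⟨u, v⟩ := p
  obtain ⟨hu1, hu2, hv1, hv2, huv⟩ := hp
  simp only at hu1 hu2 hv1 hv2 huv
  have huu := sq_of_mem hu1 hu2
  have hvv := sq_of_mem hv1 hv2
  let Q : HQ → HQ := fun x => x - u * x * qi - v * x * qj - (u * v) * x * qk
  have hQi : ∀ x, Q x * qi = u * Q x := by
    intro x
    have e1 : Q x * qi = x * qi - u * x * (qi * qi) - v * x * (qj * qi) -
        (u * v) * x * (qk * qi) := by
      simp only [Q]; noncomm_ring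
    have e2 : u * Q x = u * x - (u * u) * x * qi - (u * v) * x * qj - (u * u) * v * x * qk := by
      simp only [Q]; noncomm_ring
    rw [e1, e2, huu, qi_mul_qi, qj_mul_qi, qk_mul_qi]
    noncomm_ring
  have hQj : ∀ x, Q x * qj = v * Q x := by
    intro x
    have e1 : Q x * qj = x * qj - u * x * (qi * qj) - v * x * (qj * qj) -
        (u * v) * x * (qk * qj) := by
      simp only [Q]; noncomm_ring
    have e2 : v * Q x = v * x - (v * u) * x * qi - (v * v) * x * qj - (v * u) * v * x * qk := by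
      simp only [Q]; noncomm_ring
    have hvu : v * u = -(u * v) := by rw [huv, neg_neg]
    have hvuv : (v * u) * v = u := by
      rw [hvu, neg_mul, mul_assoc, hvv]; noncomm_ring
    rw [e1, e2, hvuv, hvu, hvv, qi_mul_qj, qj_mul_qj, qk_mul_qj]
    noncomm_ring
  obtain ⟨x, hx⟩ : ∃ x, Q x ≠ 0 := by
    by_contra hcon
    push Not at hcon
    have e : (Q 1).re + (star qi * Q qi).re + (star qj * Q qj).re + (star qk * Q qk).re = 4 := by
      simp only [Q]
      generalize u * v = w
      simp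
      ring
    rw [hcon, hcon, hcon, hcon] at e
    simp at e
  have hn : ‖Q x‖ ≠ 0 := norm_ne_zero_iff.2 hx
  refine ⟨‖Q x‖⁻¹ • Q x, ?_, ?_⟩
  · rw [norm_smul, norm_inv, norm_norm, inv_mul_cancel₀ hn]
  · have hq : ‖‖Q x‖⁻¹ • Q x‖ = 1 := by rw [norm_smul, norm_inv, norm_norm, inv_mul_cancel₀ hn]
    have hs := self_mul_star_of_norm hq
    have e1 : (‖Q x‖⁻¹ • Q x) * qi = u * (‖Q x‖⁻¹ • Q x) := by
      rw [smul_mul_assoc, hQi, mul_smul_comm]
    have e2 : (‖Q x‖⁻¹ • Q x) * qj = v * (‖Q x‖⁻¹ • Q x) := by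
      rw [smul_mul_assoc, hQj, mul_smul_comm]
    simp only [rho]
    rw [e1, e2, mul_assoc, mul_assoc, hs, mul_one, mul_one]

lemma rho_neg (q : HQ) : rho (-q) = rho q := by
  simp [rho]

lemma rho_eq {q q' : HQ} (hq : ‖q‖ = 1) (hq' : ‖q'‖ = 1) (h : rho q = rho q') :
    q = q' ∨ q = -q' := by
  have h1 := star_mul_self_of_norm hq
  have h2 := star_mul_self_of_norm hq'
  have h3 := self_mul_star_of_norm hq'
  simp only [rho, Prod.mk.injEq] at h
  let p : HQ := star q' * q
  have hpi : p * qi = qi * p := by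
    have e : p * qi = star q' * (q * qi * star q) * q := by
      simp only [p]
      rw [show star q' * (q * qi * star q) * q = star q' * q * qi * (star q * q) by noncomm_ring,
        h1, mul_one]
    rw [e, h.1]
    rw [show star q' * (q' * qi * star q') * q = (star q' * q') * qi * (star q' * q) by
      noncomm_ring, h2, one_mul]
  have hpj : p * qj = qj * p := by
    have e : p * qj = star q' * (q * qj * star q) * q := by
      simp only [p]
      rw [show star q' * (q * qj * star q) * q = star q' * q * qj * (star q * q) by noncomm_ring,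
        h1, mul_one]
    rw [e, h.2]
    rw [show star q' * (q' * qj * star q') * q = (star q' * q') * qj * (star q' * q) by
      noncomm_ring, h2, one_mul]
  have hpn : ‖p‖ = 1 := by
    simp only [p]
    rw [norm_mul, Quaternion.norm_star, hq, hq', mul_one]
  have e1 := congrArg (fun t : HQ => t.imJ) hpi
  have e2 := congrArg (fun t : HQ => t.imK) hpi
  have e3 := congrArg (fun t : HQ => t.imK) hpj
  simp at e1 e2 e3
  have f1 : p.imK = 0 := by linarith
  have f2 : p.imJ = 0 := by linarith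
  have f3 : p.imI = 0 := by linarith
  have f4 : p = (p.re : HQ) := by
    ext <;> simp [f1, f2, f3]
  have f5 : |p.re| = 1 := by
    rw [f4, Quaternion.norm_coe, Real.norm_eq_abs] at hpn
    exact hpn
  have f6 : q = q' * p := by
    simp only [p]
    rw [← mul_assoc, h3, one_mul]
  rcases (abs_eq zero_le_one).1 f5 with h' | h'
  · left
    rw [f6, f4, h']
    simp
  · right
    rw [f6, f4, h']
    simp

lemma K1_eq_image : K1 = rho '' sphere (0 : HQ) 1 := by
  apply Subset.antisymm
  · intro p hp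
    obtain ⟨q, hq, hqp⟩ := rho_surj hp
    exact ⟨q, by simpa using hq, hqp⟩
  · rintro _ ⟨q, hq, rfl⟩
    exact rho_mem (by simpa using hq)

lemma K1_pathConnected : IsPathConnected K1 := by
  rw [K1_eq_image]
  refine (isPathConnected_sphere ?_ 0 zero_le_one).image continuous_rho
  rw [← finrank_eq_rank ℝ HQ, Quaternion.finrank_eq_four]
  norm_num

end Pool.Agent.Helper76.Menger
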