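import Pool.Agent.Helper76.Quat

set_option autoImplicit false

namespace Pool.Agent.Helper76.Menger

open Set Topology Metric Filter TopologicalSpace Module

/-- Second component of the orthogonalisation. -/
noncomputable def orth (p : HQ × HQ) : HQ :=
  (‖p.1.im‖ ^ 2 : ℝ) • p.2.im + p.1.im * p.2.im * p.1.im

/-- The retraction onto `K1`. -/
noncomputable def ret1 (p : HQ × HQ) : HQ × HQ :=
  (‖p.1.im‖⁻¹ • p.1.im, ‖orth p‖⁻¹ • orth p)

/-- The open neighbourhood of `K1`. -/
def W1 : Set (HQ × HQ) := {p | p.1.im ≠ 0 ∧ orth p ≠ 0}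

lemma continuous_im_fst : Continuous (fun p : HQ × HQ => p.1.im) :=
  Quaternion.continuous_im.comp continuous_fst

lemma continuous_im_snd : Continuous (fun p : HQ × HQ => p.2.im) :=
  Quaternion.continuous_im.comp continuous_snd

lemma continuous_orth : Continuous orth := by
  unfold orth
  exact ((continuous_im_fst.norm.pow 2).smul continuous_im_snd).add
    ((continuous_im_fst.mul continuous_im_snd).mul continuous_im_fst)

lemma star_im (a : HQ) : star a.im = -a.im := by
  ext <;> simp

lemma im_mul_im (a : HQ) : a.im * a.im = -((‖a.im‖ ^ 2 : ℝ) : HQ) := by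
  have h : a.im * star a.im = ((‖a.im‖ * ‖a.im‖ : ℝ) : HQ) := by
    rw [Quaternion.self_mul_star, Quaternion.normSq_eq_norm_mul_self]
  have h2 : a.im * a.im = -(a.im * star a.im) := by
    rw [star_im, mul_neg, neg_neg]
  rw [h2, h, sq]

lemma star_smul_real (t : ℝ) (x : HQ) : star (t • x) = t • star x := by
  ext <;> simp

lemma im_of_star {u : HQ} (h : star u = -u) : u.im = u := by
  have h1 := congrArg (fun t : HQ => t.re) h
  simp at h1
  have h2 : u.re = 0 := by linarith
  ext <;> simp [h2]

lemma tgt_K1 : Tgt K1 W1 ret1 where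
  compact := by
    rw [K1_eq_image]
    exact (isCompact_sphere _ _).image continuous_rho
  nonempty := ⟨rho 1, rho_mem (by simp)⟩
  isOpen := (isOpen_ne_fun continuous_im_fst continuous_const).inter
    (isOpen_ne_fun continuous_orth continuous_const)
  subset := by
    rintro ⟨u, v⟩ ⟨h1, h2, h3, h4, h5⟩
    simp only at h1 h2 h3 h4 h5
    have huu := sq_of_mem h1 h2
    have h6 : orth (u, v) = (2 : ℝ) • v := by
      simp only [orth, im_of_star h1, im_of_star h3, h2]
      rw [h5, neg_mul, mul_assoc, huu]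
      simp [two_smul]
    refine ⟨?_, ?_⟩
    · simp only [im_of_star h1]
      rintro rfl
      simp at h2
    · rw [h6]
      intro h0
      have : v = 0 := by
        have := smul_eq_zero.1 h0
        simpa using this
      rw [this] at h4
      simp at h4
  cont := by
    unfold ret1
    refine ContinuousOn.prodMk ?_ ?_
    · exact (continuous_im_fst.norm.continuousOn.inv₀
        (fun p hp => norm_ne_zero_iff.2 hp.1)).smul continuous_im_fst.continuousOn
    · exact (continuous_orth.norm.continuousOn.inv₀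
        (fun p hp => norm_ne_zero_iff.2 hp.2)).smul continuous_orth.continuousOn
  maps := by
    rintro ⟨a, b⟩ ⟨h1, h2⟩
    simp only at h1
    have hA := im_mul_im a
    have hstar : star (orth (a, b)) = -orth (a, b) := by
      simp only [orth, star_add, star_smul_real, star_mul, star_im, smul_neg, neg_mul, mul_neg,
        neg_neg]
      rw [neg_add, mul_assoc]
    have hanti : a.im * orth (a, b) = -(orth (a, b) * a.im) := by
      simp only [orth]
      have e1 : a.im * ((‖a.im‖ ^ 2 : ℝ) • b.im + a.im * b.im * a.im) =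
          (‖a.im‖ ^ 2 : ℝ) • (a.im * b.im) + (a.im * a.im) * b.im * a.im := by
        rw [mul_add, mul_smul_comm]
        congr 1
        noncomm_ring
      have e2 : ((‖a.im‖ ^ 2 : ℝ) • b.im + a.im * b.im * a.im) * a.im =
          (‖a.im‖ ^ 2 : ℝ) • (b.im * a.im) + a.im * b.im * (a.im * a.im) := by
        rw [add_mul, smul_mul_assoc]
        congr 1
        noncomm_ring
      rw [e1, e2, hA]
      have e3 : (-((‖a.im‖ ^ 2 : ℝ) : HQ)) * b.im * a.im = -((‖a.im‖ ^ 2 : ℝ) • (b.im * a.im)) := by
        rw [neg_mul, neg_mul, mul_assoc, Quaternion.coe_mul_eq_smul]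
      have e4 : a.im * b.im * (-((‖a.im‖ ^ 2 : ℝ) : HQ)) = -((‖a.im‖ ^ 2 : ℝ) • (a.im * b.im)) := by
        rw [mul_neg, Quaternion.mul_coe_eq_smul]
      rw [e3, e4]
      abel
    refine ⟨?_, ?_, ?_, ?_, ?_⟩
    · simp only [ret1, star_smul_real, star_im, smul_neg]
    · exact norm_normalize h1
    · simp only [ret1, star_smul_real, hstar, smul_neg]
    · exact norm_normalize h2
    · simp only [ret1, smul_mul_smul_comm, hanti, smul_neg]
      rw [mul_comm]
  fix := by
    rintro ⟨u, v⟩ ⟨h1, h2, h3, h4, h5⟩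
    simp only at h1 h2 h3 h4 h5
    have huu := sq_of_mem h1 h2
    have h6 : orth (u, v) = (2 : ℝ) • v := by
      simp only [orth, im_of_star h1, im_of_star h3, h2]
      rw [h5, neg_mul, mul_assoc, huu]
      simp [two_smul]
    simp only [ret1, h6, im_of_star h1, h2, norm_smul, h4]
    simp

/-- The covering map. -/
noncomputable def rhoS (q : sphere (0 : HQ) 1) : K1 := ⟨rho q, rho_mem (by simp)⟩

lemma continuous_rhoS : Continuous rhoS :=
  (continuous_rho.comp continuous_subtype_val).subtype_mk _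

/-- The kernel. -/
def pm : Subgroup (sphere (0 : HQ) 1) where
  carrier := {g | (g : HQ) = 1 ∨ (g : HQ) = -1}
  mul_mem' := by
    rintro a b (ha | ha) (hb | hb) <;> simp [ha, hb]
  one_mem' := Or.inl rfl
  inv_mem' := by
    rintro a (ha | ha) <;> simp [ha]

lemma rhoS_covering : IsCoveringMap rhoS := by
  have : CompactSpace (sphere (0 : HQ) 1) := isCompact_iff_compactSpace.1 (isCompact_sphere _ _)
  have hsurj : Function.Surjective rhoS := by
    rintro ⟨p, hp⟩
    obtain ⟨q, hq, hqp⟩ := rho_surj hp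
    exact ⟨⟨q, by simpa using hq⟩, Subtype.ext hqp⟩
  have hquot : IsQuotientMap rhoS :=
    (continuous_rhoS.isClosedMap).isQuotientMap continuous_rhoS hsurj
  refine (hquot.isQuotientCoveringMap_of_subgroupOp pm ?_ ?_).isCoveringMap
  · have hfin : (pm : Set (sphere (0 : HQ) 1)).Finite := by
      have : (pm : Set (sphere (0 : HQ) 1)) ⊆ ((↑) : sphere (0 : HQ) 1 → HQ) ⁻¹' {1, -1} := by
        intro g hg
        exact hg
      exact (Set.Finite.preimage Subtype.val_injective.injOn (by simp)).subset this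
    exact hfin.isDiscrete
  · intro e₁ e₂
    have h1 : ‖(e₁ : HQ)‖ = 1 := by simp
    have h2 : ‖(e₂ : HQ)‖ = 1 := by simp
    have h10 : (e₁ : HQ) ≠ 0 := by
      intro h0
      rw [h0] at h1
      simp at h1
    constructor
    · intro h
      have h3 : rho e₂ = rho e₁ := (congrArg Subtype.val h).symm
      show ((e₁⁻¹ * e₂ : sphere (0 : HQ) 1) : HQ) = 1 ∨ ((e₁⁻¹ * e₂ : sphere (0 : HQ) 1) : HQ) = -1
      rcases rho_eq h2 h1 h3 with h4 | h4
      · left
        simp [h4, inv_mul_cancel₀ h10]
      · right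
        simp [h4, inv_mul_cancel₀ h10]
    · intro h
      have h3 : ((e₁⁻¹ * e₂ : sphere (0 : HQ) 1) : HQ) = 1 ∨
        ((e₁⁻¹ * e₂ : sphere (0 : HQ) 1) : HQ) = -1 := h
      have h4 : (e₂ : HQ) = e₁ * ((e₁⁻¹ * e₂ : sphere (0 : HQ) 1) : HQ) := by
        simp [mul_inv_cancel_left₀ h10]
      apply Subtype.ext
      show rho e₁ = rho e₂
      rcases h3 with h3 | h3
      · rw [h3, mul_one] at h4
        rw [h4]
      · rw [h3, mul_neg, mul_one] at h4
        rw [h4, rho_neg]

/-- Quaternions on the circle through `1` and `k`. -/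
noncomputable def ck (t : ℝ) : HQ := ⟨Real.cos t, 0, 0, Real.sin t⟩

@[simp] lemma ck_re (t : ℝ) : (ck t).re = Real.cos t := rfl
@[simp] lemma ck_imI (t : ℝ) : (ck t).imI = 0 := rfl
@[simp] lemma ck_imJ (t : ℝ) : (ck t).imJ = 0 := rfl
@[simp] lemma ck_imK (t : ℝ) : (ck t).imK = Real.sin t := rfl

lemma ck_eq (t : ℝ) : ck t = (Real.cos t : ℝ) • (1 : HQ) + (Real.sin t : ℝ) • qk := by
  ext <;> simp

lemma continuous_ck : Continuous ck := by
  have : ck = fun t => (Real.cos t : ℝ) • (1 : HQ) + (Real.sin t : ℝ) • qk := funext ck_eq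
  rw [this]
  fun_prop

lemma norm_ck (t : ℝ) : ‖ck t‖ = 1 := by
  have h : ‖ck t‖ * ‖ck t‖ = 1 := by
    rw [← Quaternion.normSq_eq_norm_mul_self, Quaternion.normSq_def']
    simp
  nlinarith [norm_nonneg (ck t)]

lemma ck_zero : ck 0 = 1 := by ext <;> simp

lemma ck_add_pi (t : ℝ) : ck (t + Real.pi) = -ck t := by
  ext <;> simp [Real.cos_add_pi, Real.sin_add_pi]

lemma rho_mul_ck_add (x : HQ) (t : ℝ) (m : ℤ) :
    rho (x * ck (t + m * Real.pi)) = rho (x * ck t) := by
  have key : ∀ n : ℕ, ∀ t : ℝ, rho (x * ck (t + n * Real.pi)) = rho (x * ck t) := by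
    intro n
    induction n with
    | zero => intro t; simp
    | succ n ih =>
      intro t
      rw [show t + ((n + 1 : ℕ) : ℝ) * Real.pi = (t + n * Real.pi) + Real.pi by push_cast; ring,
        ck_add_pi, mul_neg, rho_neg, ih]
  obtain ⟨n, rfl | rfl⟩ := m.eq_nat_or_neg
  · exact_mod_cast key n t
  · have := key n (t + ((-(n : ℤ) : ℤ) : ℝ) * Real.pi)
    rw [← this]
    congr 3
    push_cast
    ring

lemma fill3_K1 : Fill3 K1 := by
  intro f hf hfK h01
  obtain ⟨q₀, hq₀, hq₀f⟩ := rho_surj (hfK 0)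
  let γ : C(unitInterval, K1) := ⟨fun t => ⟨f t, hfK t⟩, by fun_prop⟩
  let e : sphere (0 : HQ) 1 := ⟨q₀, by simpa using hq₀⟩
  have hγe : γ 0 = rhoS e := Subtype.ext (by simp [γ, rhoS, e, hq₀f])
  let Γ := rhoS_covering.liftPath γ e hγe
  have hΓ : ∀ t, rho (Γ t) = f t := by
    intro t
    have := congrFun (rhoS_covering.liftPath_lifts γ e hγe) t
    exact congrArg Subtype.val this
  have hΓ0 : Γ 0 = e := rhoS_covering.liftPath_zero γ e hγe
  let top : ℝ → HQ := fun t => Γ (projIcc 0 1 zero_le_one t)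
  have htop : Continuous top :=
    continuous_subtype_val.comp (Γ.continuous.comp continuous_projIcc)
  have htopK : ∀ t, top t ∈ sphere (0 : HQ) 1 := fun t => (Γ _).2
  have htopn : ∀ t, ‖top t‖ = 1 := fun t => by simpa using htopK t
  have htopf : ∀ t ∈ Icc (0 : ℝ) 1, rho (top t) = f t := by
    intro t ht
    simp only [top, projIcc_of_mem zero_le_one ht]
    exact hΓ ⟨t, ht⟩
  have htop0 : top 0 = q₀ := by
    have : projIcc (0 : ℝ) 1 zero_le_one 0 = 0 := projIcc_left _
    simp only [top, this, hΓ0, e]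
  have hfin : 3 ≤ finrank ℝ HQ := by
    rw [Quaternion.finrank_eq_four]; norm_num
  have h1 : rho (top 1) = rho q₀ := by
    rw [htopf 1 (by norm_num), ← h01, hq₀f]
  rcases rho_eq (htopn 1) hq₀ h1 with h2 | h2
  · obtain ⟨H, hH, hHK, e1, e2, e3, e4⟩ := square_fill hfin (x₀ := q₀) (x₁ := q₀) (top := top)
      (bot := fun _ => q₀) htop continuous_const htopK (fun _ => by simpa using hq₀) htop0 h2
      rfl rfl
    refine ⟨rho ∘ H, continuous_rho.comp hH, fun x => rho_mem (by simpa using hHK x), ?_, ?_, ?_⟩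
    · intro t ht
      simp only [Function.comp, e1 t ht, htopf t ht]
    · intro s hs
      simp only [Function.comp, e3 s hs, e4 s hs]
    · intro t ht t' ht' _
      simp only [Function.comp, e2 t ht, e2 t' ht']
  · obtain ⟨H, hH, hHK, e1, e2, e3, e4⟩ := square_fill hfin (x₀ := q₀) (x₁ := -q₀) (top := top)
      (bot := fun t => q₀ * ck (t * (3 * Real.pi))) htop
      (continuous_const.mul (continuous_ck.comp (by fun_prop))) htopK
      (fun t => by simp [norm_mul, hq₀, norm_ck]) htop0 h2
      (by simp [ck_zero]) (by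
        have : ck (1 * (3 * Real.pi)) = -1 := by
          rw [show (1 : ℝ) * (3 * Real.pi) = ((0 + Real.pi) + Real.pi) + Real.pi by ring,
            ck_add_pi, ck_add_pi, ck_add_pi, ck_zero]
          simp
        simp only [this]
        simp)
    refine ⟨rho ∘ H, continuous_rho.comp hH, fun x => rho_mem (by simpa using hHK x), ?_, ?_, ?_⟩
    · intro t ht
      simp only [Function.comp, e1 t ht, htopf t ht]
    · intro s hs
      simp only [Function.comp, e3 s hs, e4 s hs, rho_neg]
    · rintro t ht t' ht' ⟨m, hm⟩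
      simp only [Function.comp, e2 t ht, e2 t' ht']
      have : t * (3 * Real.pi) = t' * (3 * Real.pi) + m * Real.pi := by
        rw [← hm]; ring
      rw [this, rho_mul_ck_add]

/-- The rotation loop. -/
noncomputable def rotLoop (z : ℂ) : HQ × HQ :=
  (z.re • qi + z.im • qj, (-z.im) • qi + z.re • qj)

lemma continuous_rotLoop : Continuous rotLoop := by
  unfold rotLoop
  have h1 := Complex.continuous_re
  have h2 := Complex.continuous_im
  fun_prop

lemma rho_ck (t : ℝ) : rho (ck (t / 2)) = rotLoop (Complex.exp (t * Complex.I)) := by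
  have hc : Real.cos t = Real.cos (t / 2) ^ 2 - Real.sin (t / 2) ^ 2 := by
    rw [← Real.cos_two_mul']
    congr 1
    ring
  have hs : Real.sin t = 2 * Real.sin (t / 2) * Real.cos (t / 2) := by
    rw [← Real.sin_two_mul]
    congr 1
    ring
  simp only [rho, rotLoop, Complex.exp_ofReal_mul_I_re, Complex.exp_ofReal_mul_I_im, hc, hs]
  ext <;> simp <;> ring

/-- The plane does not have the extension property for `K1`. -/
lemma not_ext_plane : ¬ Ext ℂ K1 := by
  intro h
  obtain ⟨F, hF, hFK, hFf⟩ := h (sphere 0 1) rotLoop isClosed_sphere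
    continuous_rotLoop.continuousOn (by
      intro z hz
      have h1 : ‖z‖ = 1 := by simpa using hz
      have h2 : Complex.exp (Complex.arg z * Complex.I) = z := by
        have := Complex.norm_mul_exp_arg_mul_I z
        rw [h1] at this
        simpa using this
      rw [← h2, ← rho_ck]
      exact rho_mem (norm_ck _))
  obtain ⟨q₀, hq₀, hq₀F⟩ := rho_surj (hFK 0)
  obtain ⟨G, ⟨-, hG⟩, -⟩ := rhoS_covering.existsUnique_continuousMap_lifts
    (A := ℂ) ⟨fun z => (⟨F z, hFK z⟩ : K1), by fun_prop⟩ 0 ⟨q₀, by simpa using hq₀⟩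
    (Subtype.ext (by simp [rhoS, hq₀F]))
  have hG' : ∀ z, rho (G z) = F z := fun z => congrArg Subtype.val (congrFun hG z)
  let g : ℝ → HQ := fun t => G (Complex.exp (t * Complex.I))
  have hg : Continuous g := by
    have : Continuous (fun t : ℝ => Complex.exp (t * Complex.I)) := by fun_prop
    exact continuous_subtype_val.comp (G.continuous.comp this)
  have hgn : ∀ t, ‖g t‖ = 1 := fun t => by
    exact mem_sphere_zero_iff_norm.1 (G (Complex.exp (t * Complex.I))).2
  have hgr : ∀ t, rho (g t) = rho (ck (t / 2)) := by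
    intro t
    rw [rho_ck, hG']
    exact hFf (by simp [Complex.norm_exp_ofReal_mul_I])
  let D : ℝ → ℝ := fun t => (star (ck (t / 2)) * g t).re
  have hD : Continuous D := by
    have h1 : Continuous (fun t : ℝ => ck (t / 2)) := continuous_ck.comp (by fun_prop)
    exact Quaternion.continuous_re.comp (h1.star.mul hg)
  have hD1 : ∀ t, D t = 1 ∨ D t = -1 := by
    intro t
    have h1 := star_mul_self_of_norm (norm_ck (t / 2))
    rcases rho_eq (hgn t) (norm_ck _) (hgr t) with h2 | h2
    · left
      simp only [D, h2, h1]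
      simp
    · right
      simp only [D, h2, mul_neg, h1]
      simp
  have hper : g (2 * Real.pi) = g 0 := by
    simp only [g]
    congr 2
    push_cast
    rw [zero_mul, Complex.exp_zero, Complex.exp_two_pi_mul_I]
  have hD2 : D (2 * Real.pi) = -D 0 := by
    simp only [D]
    rw [hper, show (2 * Real.pi) / 2 = 0 + Real.pi by ring, ck_add_pi]
    simp
  have hne : ∀ t, D t ≠ 0 := by
    intro t
    rcases hD1 t with h | h <;> rw [h] <;> norm_num
  rcases hD1 0 with h0 | h0
  · obtain ⟨t, ht⟩ := mem_range_of_exists_le_of_exists_ge hD (c := 0)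
      ⟨2 * Real.pi, by rw [hD2, h0]; norm_num⟩ ⟨0, by rw [h0]; norm_num⟩
    exact hne t ht
  · obtain ⟨t, ht⟩ := mem_range_of_exists_le_of_exists_ge hD (c := 0)
      ⟨0, by rw [h0]; norm_num⟩ ⟨2 * Real.pi, by rw [hD2, h0]; norm_num⟩
    exact hne t ht

end Pool.Agent.Helper76.Menger
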