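import Pool.Agent.Helper76.Gauge

set_option autoImplicit false
set_option linter.unusedSectionVars false

open MeasureTheory Set ENNReal Filter Topology Pointwise

namespace Pool.Agent.Helper76

/-- `expn t = exp (-t)` on the extended half line. -/
noncomputable def expn (t : ℝ≥0∞) : ℝ≥0∞ :=
  if t = ∞ then 0 else ENNReal.ofReal (Real.exp (-t.toReal))

lemma measurable_expn : Measurable expn := by
  refine Measurable.ite (measurableSet_singleton ∞) measurable_const ?_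
  exact ENNReal.measurable_ofReal.comp (Real.measurable_exp.comp ENNReal.measurable_toReal.neg)

lemma expn_top : expn ∞ = 0 := by simp [expn]

lemma expn_of_ne_top {t : ℝ≥0∞} (h : t ≠ ∞) : expn t = ENNReal.ofReal (Real.exp (-t.toReal)) := by
  simp [expn, h]

lemma expn_zero : expn 0 = 1 := by simp [expn]

lemma expn_anti {a b : ℝ≥0∞} (h : a ≤ b) : expn b ≤ expn a := by
  rcases eq_or_ne b ∞ with rfl | hb
  · rw [expn_top]; exact bot_le
  · have ha : a ≠ ∞ := ne_top_of_le_ne_top hb h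
    rw [expn_of_ne_top ha, expn_of_ne_top hb]
    apply ENNReal.ofReal_le_ofReal
    apply Real.exp_le_exp.2
    have := ENNReal.toReal_mono hb h
    linarith

lemma expn_add (a b : ℝ≥0∞) : expn (a + b) = expn a * expn b := by
  rcases eq_or_ne a ∞ with rfl | ha
  · simp [expn_top]
  rcases eq_or_ne b ∞ with rfl | hb
  · simp [expn_top]
  rw [expn_of_ne_top ha, expn_of_ne_top hb, expn_of_ne_top (ENNReal.add_ne_top.2 ⟨ha, hb⟩),
    ← ENNReal.ofReal_mul (Real.exp_pos _).le, ← Real.exp_add, ENNReal.toReal_add ha hb]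
  congr 2
  ring

lemma expn_mul {c : ℝ} (hc : 0 < c) (a : ℝ≥0∞) :
    expn (ENNReal.ofReal c * a) = (expn a) ^ c := by
  rcases eq_or_ne a ∞ with rfl | ha
  · rw [ENNReal.mul_top (by simpa using hc), expn_top, ENNReal.zero_rpow_of_pos hc]
  rw [expn_of_ne_top ha, expn_of_ne_top (ENNReal.mul_ne_top ENNReal.ofReal_ne_top ha),
    ENNReal.ofReal_rpow_of_pos (Real.exp_pos _), ← Real.exp_mul, ENNReal.toReal_mul,
    ENNReal.toReal_ofReal hc.le]
  congr 2
  ring

lemma expn_sum {J : Type*} (s : Finset J) {c : ℝ} (hc : 0 < c) (a : J → ℝ≥0∞) :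
    expn (∑ j ∈ s, ENNReal.ofReal c * a j) = ∏ j ∈ s, (expn (a j)) ^ c := by
  classical
  induction s using Finset.induction_on with
  | empty => simp [expn_zero]
  | insert i s hi ih =>
    rw [Finset.sum_insert hi, Finset.prod_insert hi, expn_add, ih, expn_mul hc]

/-- The test function. -/
noncomputable def θ (q : ℕ) (t : ℝ≥0∞) : ℝ≥0∞ :=
  if t = 0 ∨ t = ∞ then 0 else ENNReal.ofReal (t.toReal ^ q * Real.exp (-t.toReal))

lemma measurable_θ (q : ℕ) : Measurable (θ q) := by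
  refine Measurable.ite ?_ measurable_const ?_
  · exact (measurableSet_singleton 0).union (measurableSet_singleton ∞)
  · exact ENNReal.measurable_ofReal.comp ((ENNReal.measurable_toReal.pow_const q).mul
      (Real.measurable_exp.comp ENNReal.measurable_toReal.neg))

lemma gamma_integral {q : ℕ} (hq : 1 ≤ q) {ν : ℝ} (hν : 0 < ν) :
    (q : ℝ≥0∞) * ∫⁻ u in Ioi (0:ℝ), ENNReal.ofReal (u ^ q * (u ^ (q + 1))⁻¹) *
      ENNReal.ofReal ((u * ν) ^ q * Real.exp (-(u * ν))) = (q.factorial : ℝ≥0∞) := by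
  have hq' : (0 : ℝ) < q := by exact_mod_cast hq
  have h1 : ∀ u ∈ Ioi (0:ℝ), ENNReal.ofReal (u ^ q * (u ^ (q + 1))⁻¹) *
      ENNReal.ofReal ((u * ν) ^ q * Real.exp (-(u * ν))) =
      ENNReal.ofReal (ν ^ q * (u ^ ((q : ℝ) - 1) * Real.exp (-(ν * u)))) := by
    intro u hu
    have hu0 : (0:ℝ) < u := hu
    rw [← ENNReal.ofReal_mul (by positivity)]
    congr 1
    rw [Real.rpow_sub_one hu0.ne', Real.rpow_natCast, mul_pow, pow_succ, mul_comm u ν]
    field_simp
  rw [setLIntegral_congr_fun measurableSet_Ioi h1]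
  have hint : IntegrableOn (fun u : ℝ => ν ^ q * (u ^ ((q : ℝ) - 1) * Real.exp (-(ν * u))))
      (Ioi 0) := by
    refine Integrable.const_mul ?_ _
    have := Real.GammaIntegral_convergent hq'
    have h2 := integrableOn_rpow_mul_exp_neg_mul_rpow (s := (q : ℝ) - 1) (p := 1) (b := ν)
      (by linarith) one_pos hν
    refine h2.congr_fun ?_ measurableSet_Ioi
    intro u hu
    simp
  rw [← ofReal_integral_eq_lintegral_ofReal hint]
  · rw [integral_const_mul, Real.integral_rpow_mul_exp_neg_mul_Ioi hq' hν,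
      ← ENNReal.ofReal_natCast, ← ENNReal.ofReal_mul hq'.le]
    have h3 : Real.Gamma q = ((q - 1).factorial : ℝ) := by
      obtain ⟨k, rfl⟩ := Nat.exists_eq_add_of_le' hq
      simp [Real.Gamma_nat_eq_factorial]
    rw [h3, Real.rpow_natCast]
    have h4 : (q : ℝ) * (ν ^ q * ((1 / ν) ^ q * ((q - 1).factorial : ℝ))) = (q.factorial : ℝ) := by
      rw [one_div, inv_pow, ← mul_assoc (ν ^ q), mul_inv_cancel₀ (by positivity), one_mul]
      exact_mod_cast Nat.mul_factorial_pred (by omega)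
    rw [h4, ENNReal.ofReal_natCast]
  · refine (ae_restrict_iff' measurableSet_Ioi).2 (Eventually.of_forall fun u hu => ?_)
    have hu0 : (0:ℝ) < u := hu
    positivity

section

variable {V : Type*} [NormedAddCommGroup V] [NormedSpace ℝ V] [MeasurableSpace V] [BorelSpace V]
  [FiniteDimensional ℝ V] [SecondCountableTopology V] (μ : Measure V) [μ.IsAddHaarMeasure]
  [SFinite μ]

lemma fubini_scale (a : ℕ) {f Θ : V → ℝ≥0∞} (hf : Measurable f) (hΘ : Measurable Θ) :
    ∫⁻ v, (∫⁻ u in Ioi (0:ℝ), ENNReal.ofReal ((u ^ (a + 1))⁻¹) * f (u⁻¹ • v)) * Θ v ∂μ =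
      ∫⁻ v, f v * (∫⁻ u in Ioi (0:ℝ),
        ENNReal.ofReal (u ^ (Module.finrank ℝ V) * (u ^ (a + 1))⁻¹) * Θ (u • v)) ∂μ := by
  have hA : Measurable fun u : ℝ => ENNReal.ofReal ((u ^ (a + 1))⁻¹) :=
    ENNReal.measurable_ofReal.comp ((measurable_id.pow_const _).inv)
  have hB : Measurable fun u : ℝ => ENNReal.ofReal (u ^ (Module.finrank ℝ V) * (u ^ (a + 1))⁻¹) :=
    ENNReal.measurable_ofReal.comp ((measurable_id.pow_const _).mul ((measurable_id.pow_const _).inv))
  have hm1 : Measurable fun p : V × ℝ => ENNReal.ofReal ((p.2 ^ (a + 1))⁻¹) * f (p.2⁻¹ • p.1) *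
      Θ p.1 := (measurable_integrand a hf).mul (hΘ.comp measurable_fst)
  have hm2 : Measurable fun p : V × ℝ => f p.1 *
      (ENNReal.ofReal (p.2 ^ (Module.finrank ℝ V) * (p.2 ^ (a + 1))⁻¹) * Θ (p.2 • p.1)) :=
    (hf.comp measurable_fst).mul ((hB.comp measurable_snd).mul
      (hΘ.comp (measurable_snd.smul measurable_fst)))
  calc ∫⁻ v, (∫⁻ u in Ioi (0:ℝ), ENNReal.ofReal ((u ^ (a + 1))⁻¹) * f (u⁻¹ • v)) * Θ v ∂μ
      = ∫⁻ v, (∫⁻ u in Ioi (0:ℝ), ENNReal.ofReal ((u ^ (a + 1))⁻¹) * f (u⁻¹ • v) * Θ v) ∂μ := by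
        refine lintegral_congr fun v => ?_
        rw [lintegral_mul_const]
        exact (measurable_integrand a hf).comp (measurable_const.prodMk measurable_id)
    _ = ∫⁻ u in Ioi (0:ℝ), (∫⁻ v, ENNReal.ofReal ((u ^ (a + 1))⁻¹) * f (u⁻¹ • v) * Θ v ∂μ) := by
        rw [lintegral_lintegral_swap]
        exact hm1.aemeasurable
    _ = ∫⁻ u in Ioi (0:ℝ), (∫⁻ v, f v *
          (ENNReal.ofReal (u ^ (Module.finrank ℝ V) * (u ^ (a + 1))⁻¹) * Θ (u • v)) ∂μ) := by
        refine setLIntegral_congr_fun measurableSet_Ioi fun u hu => ?_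
        have hu0 : (0:ℝ) < u := hu
        rw [lintegral_smul_space μ
          (fun v => ENNReal.ofReal ((u ^ (a + 1))⁻¹) * f (u⁻¹ • v) * Θ v) hu0,
          ← lintegral_const_mul' _ _ ENNReal.ofReal_ne_top]
        refine lintegral_congr fun v => ?_
        rw [smul_smul, inv_mul_cancel₀ hu0.ne', one_smul, ENNReal.ofReal_mul (by positivity)]
        ring
    _ = ∫⁻ v, (∫⁻ u in Ioi (0:ℝ), f v *
          (ENNReal.ofReal (u ^ (Module.finrank ℝ V) * (u ^ (a + 1))⁻¹) * Θ (u • v))) ∂μ := by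
        rw [lintegral_lintegral_swap]
        exact (hm2.comp measurable_swap).aemeasurable
    _ = _ := by
        refine lintegral_congr fun v => ?_
        rw [lintegral_const_mul]
        exact hB.mul (hΘ.comp (measurable_id.smul measurable_const))

/-- The bathtub inequality `W_q ≤ N ^ (-q)`. -/
lemma bathtub {q d : ℕ} (hq : 1 ≤ q) (hqd : q ≤ d) {f : V → ℝ≥0∞} (hf : Measurable f)
    (hf1 : ∀ x, f x ≤ 1) (v : V) {ν : ℝ} (hν : 0 < ν)
    (hW : W d f v = ENNReal.ofReal ((ν ^ d)⁻¹)) :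
    W q f v ≤ ENNReal.ofReal ((ν ^ q)⁻¹) := by
  have hd : 1 ≤ d := hq.trans hqd
  have hd0 : (d : ℝ≥0∞) ≠ 0 := by exact_mod_cast (by omega : d ≠ 0)
  have hA : Measurable fun u : ℝ => ENNReal.ofReal ((u ^ (d + 1))⁻¹) :=
    ENNReal.measurable_ofReal.comp ((measurable_id.pow_const _).inv)
  have hg : Measurable fun u : ℝ => ENNReal.ofReal ((u ^ (d + 1))⁻¹) * f (u⁻¹ • v) :=
    (measurable_integrand d hf).comp (measurable_const.prodMk measurable_id)
  -- the value of the full integral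
  have hAA : ∫⁻ u in Ioi (0:ℝ), ENNReal.ofReal ((u ^ (d + 1))⁻¹) * f (u⁻¹ • v) =
      ∫⁻ u in Ioi ν, ENNReal.ofReal ((u ^ (d + 1))⁻¹) := by
    have h1 : (d : ℝ≥0∞) * ∫⁻ u in Ioi (0:ℝ), ENNReal.ofReal ((u ^ (d + 1))⁻¹) * f (u⁻¹ • v) =
        (d : ℝ≥0∞) * ∫⁻ u in Ioi ν, ENNReal.ofReal ((u ^ (d + 1))⁻¹) := by
      rw [lintegral_tail hd hν]; exact hW
    exact (ENNReal.mul_right_inj hd0 (ENNReal.natCast_ne_top d)).1 h1
  set B : ℝ → ℝ≥0∞ := fun u =>
    ENNReal.ofReal ((u ^ (q + 1))⁻¹ - ν ^ (d - q) * (u ^ (d + 1))⁻¹) with hB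
  have hBm : Measurable B := by
    refine ENNReal.measurable_ofReal.comp ?_
    exact ((measurable_id.pow_const _).inv).sub (((measurable_id.pow_const _).inv).const_mul _)
  have hpow : ∀ u : ℝ, 0 < u → (u ^ (q + 1))⁻¹ = u ^ (d - q) * (u ^ (d + 1))⁻¹ := by
    intro u hu
    have : u ^ (d + 1) = u ^ (d - q) * u ^ (q + 1) := by
      rw [← pow_add]; congr 1; omega
    rw [this]
    field_simp
  have hle : ∀ u : ℝ, ν < u → ν ^ (d - q) * (u ^ (d + 1))⁻¹ ≤ (u ^ (q + 1))⁻¹ := by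
    intro u hu
    have hu0 : 0 < u := hν.trans hu
    rw [hpow u hu0]
    gcongr
  have hpt : ∀ u ∈ Ioi (0:ℝ), ENNReal.ofReal ((u ^ (q + 1))⁻¹) * f (u⁻¹ • v) ≤
      ENNReal.ofReal (ν ^ (d - q)) * (ENNReal.ofReal ((u ^ (d + 1))⁻¹) * f (u⁻¹ • v)) +
        indicator (Ioi ν) B u := by
    intro u hu
    have hu0 : (0:ℝ) < u := hu
    by_cases huν : ν < u
    · rw [indicator_of_mem (show u ∈ Ioi ν from huν), ← mul_assoc,
        ← ENNReal.ofReal_mul (by positivity)]
      have e : (u ^ (q + 1))⁻¹ = ν ^ (d - q) * (u ^ (d + 1))⁻¹ +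
          ((u ^ (q + 1))⁻¹ - ν ^ (d - q) * (u ^ (d + 1))⁻¹) := by ring
      conv_lhs => rw [e]
      rw [ENNReal.ofReal_add (by positivity) (sub_nonneg.2 (hle u huν)), add_mul]
      gcongr
      calc B u * f (u⁻¹ • v) ≤ B u * 1 := by gcongr; exact hf1 _
        _ = B u := mul_one _
    · push Not at huν
      refine le_trans ?_ le_self_add
      rw [← mul_assoc, ← ENNReal.ofReal_mul (by positivity)]
      gcongr
      rw [hpow u hu0]
      gcongr
  have h1 : ∫⁻ u in Ioi (0:ℝ), ENNReal.ofReal ((u ^ (q + 1))⁻¹) * f (u⁻¹ • v) ≤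
      ENNReal.ofReal (ν ^ (d - q)) *
        (∫⁻ u in Ioi (0:ℝ), ENNReal.ofReal ((u ^ (d + 1))⁻¹) * f (u⁻¹ • v)) +
        ∫⁻ u in Ioi ν, B u := by
    refine (setLIntegral_mono' measurableSet_Ioi hpt).trans ?_
    rw [lintegral_add_left (hg.const_mul _), lintegral_const_mul _ hg]
    refine add_le_add le_rfl ?_
    calc ∫⁻ u in Ioi (0:ℝ), indicator (Ioi ν) B u ≤ ∫⁻ u, indicator (Ioi ν) B u :=
          setLIntegral_le_lintegral _ _
      _ = _ := lintegral_indicator measurableSet_Ioi B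
  have h2 : ENNReal.ofReal (ν ^ (d - q)) * (∫⁻ u in Ioi ν, ENNReal.ofReal ((u ^ (d + 1))⁻¹)) +
      ∫⁻ u in Ioi ν, B u = ∫⁻ u in Ioi ν, ENNReal.ofReal ((u ^ (q + 1))⁻¹) := by
    rw [← lintegral_const_mul _ hA, ← lintegral_add_left (hA.const_mul _)]
    refine setLIntegral_congr_fun measurableSet_Ioi fun u hu => ?_
    have hu' : ν < u := hu
    have hu0 : 0 < u := hν.trans hu'
    simp only [hB]
    rw [← ENNReal.ofReal_mul (by positivity), ← ENNReal.ofReal_add (by positivity)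
      (sub_nonneg.2 (hle u hu'))]
    congr 1
    ring
  rw [hAA, h2] at h1
  unfold W
  rw [← lintegral_tail hq hν]
  gcongr

lemma W_mul_θ_le {q d : ℕ} (hq : 1 ≤ q) (hqd : q ≤ d) {f : V → ℝ≥0∞} (hf : Measurable f)
    (hf1 : ∀ x, f x ≤ 1) (v : V) : W q f v * θ q (N d f v) ≤ expn (N d f v) := by
  have hd : 1 ≤ d := hq.trans hqd
  have hd' : (0 : ℝ) < d := by exact_mod_cast hd
  have hneg : (-(1 / (d : ℝ))) < 0 := by
    have : 0 < 1 / (d : ℝ) := by positivity
    linarith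
  by_cases h : N d f v = 0 ∨ N d f v = ∞
  · rw [θ, if_pos h, mul_zero]; exact bot_le
  · push Not at h
    have hW0 : W d f v ≠ 0 := by
      intro h0
      apply h.2
      unfold N
      rw [h0, ENNReal.zero_rpow_of_neg hneg]
    have hWt : W d f v ≠ ∞ := by
      intro h0
      apply h.1
      unfold N
      rw [h0, ENNReal.top_rpow_of_neg hneg]
    obtain ⟨h1, h2, h3⟩ := W_of_N hd hW0 hWt
    have h4 := bathtub hq hqd hf hf1 v h1 h3
    rw [θ, if_neg (by push Not; exact h), expn_of_ne_top h.2]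
    refine (mul_le_mul' h4 le_rfl).trans (le_of_eq ?_)
    rw [← ENNReal.ofReal_mul (by positivity), ← mul_assoc, inv_mul_cancel₀ (by positivity),
      one_mul]

lemma W_mul_θ_eq {d : ℕ} (hd : 1 ≤ d) {f : V → ℝ≥0∞} (v : V) (hv : N d f v ≠ 0) :
    W d f v * θ d (N d f v) = expn (N d f v) := by
  have hd' : (0 : ℝ) < d := by exact_mod_cast hd
  have hneg : (-(1 / (d : ℝ))) < 0 := by
    have : 0 < 1 / (d : ℝ) := by positivity
    linarith
  by_cases h : N d f v = ∞
  · rw [θ, if_pos (Or.inr h), mul_zero, h, expn_top]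
  · have hW0 : W d f v ≠ 0 := by
      intro h0
      apply h
      unfold N
      rw [h0, ENNReal.zero_rpow_of_neg hneg]
    have hWt : W d f v ≠ ∞ := by
      intro h0
      apply hv
      unfold N
      rw [h0, ENNReal.top_rpow_of_neg hneg]
    obtain ⟨h1, h2, h3⟩ := W_of_N hd hW0 hWt
    rw [θ, if_neg (by push Not; exact ⟨hv, h⟩), expn_of_ne_top h, h3,
      ← ENNReal.ofReal_mul (by positivity), ← mul_assoc, inv_mul_cancel₀ (by positivity), one_mul]

lemma inner_gamma {q d : ℕ} (hq : 1 ≤ q) (hd : 1 ≤ d) (f : V → ℝ≥0∞) (v : V) :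
    (q : ℝ≥0∞) * ∫⁻ u in Ioi (0:ℝ), ENNReal.ofReal (u ^ q * (u ^ (q + 1))⁻¹) *
      θ q (N d f (u • v)) =
      if N d f v = 0 ∨ N d f v = ∞ then 0 else (q.factorial : ℝ≥0∞) := by
  by_cases h : N d f v = 0 ∨ N d f v = ∞
  · rw [if_pos h]
    have h1 : ∀ u ∈ Ioi (0:ℝ), ENNReal.ofReal (u ^ q * (u ^ (q + 1))⁻¹) *
        θ q (N d f (u • v)) = 0 := by
      intro u hu
      have hu0 : (0:ℝ) < u := hu
      rw [N_smul hd f hu0]
      have : ENNReal.ofReal u * N d f v = 0 ∨ ENNReal.ofReal u * N d f v = ∞ := by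
        rcases h with h | h
        · left; rw [h, mul_zero]
        · right; rw [h, ENNReal.mul_top]; simpa using hu0
      rw [θ, if_pos this, mul_zero]
    rw [setLIntegral_congr_fun measurableSet_Ioi h1]
    simp
  · rw [if_neg h]
    push Not at h
    have hp := ENNReal.toReal_pos h.1 h.2
    rw [← gamma_integral hq hp]
    congr 1
    refine setLIntegral_congr_fun measurableSet_Ioi fun u hu => ?_
    have hu0 : (0:ℝ) < u := hu
    rw [N_smul hd f hu0]
    have hne : ¬ (ENNReal.ofReal u * N d f v = 0 ∨ ENNReal.ofReal u * N d f v = ∞) := by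
      push Not
      refine ⟨mul_ne_zero (by simpa using hu0) h.1, ENNReal.mul_ne_top ENNReal.ofReal_ne_top h.2⟩
    rw [θ, if_neg hne, ENNReal.toReal_mul, ENNReal.toReal_ofReal hu0.le]

lemma integral_W_θ {q d : ℕ} (hq : 1 ≤ q) (hd : 1 ≤ d) (hV : Module.finrank ℝ V = q)
    {f : V → ℝ≥0∞} (hf : Measurable f) :
    ∫⁻ v, W q f v * θ q (N d f v) ∂μ =
      ∫⁻ v, f v * (if N d f v = 0 ∨ N d f v = ∞ then 0 else (q.factorial : ℝ≥0∞)) ∂μ := by
  have hm : Measurable fun v => θ q (N d f v) := (measurable_θ q).comp (measurable_N d hf)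
  have h := fubini_scale μ q hf hm
  rw [hV] at h
  have h1 : ∀ v, W q f v * θ q (N d f v) = (q : ℝ≥0∞) * ((∫⁻ u in Ioi (0:ℝ),
      ENNReal.ofReal ((u ^ (q + 1))⁻¹) * f (u⁻¹ • v)) * θ q (N d f v)) := by
    intro v
    unfold W
    rw [mul_assoc]
  simp_rw [h1]
  rw [lintegral_const_mul' _ _ (ENNReal.natCast_ne_top q), h,
    ← lintegral_const_mul' _ _ (ENNReal.natCast_ne_top q)]
  refine lintegral_congr fun v => ?_
  rw [← inner_gamma hq hd f v]
  ring

lemma null_top {d : ℕ} (hd : 1 ≤ d) {f : V → ℝ≥0∞} (hf : Measurable f) :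
    ∀ᵐ v ∂μ, N d f v = ∞ → f v = 0 := by
  have hd' : (0 : ℝ) < d := by exact_mod_cast hd
  have hd0 : (d : ℝ≥0∞) ≠ 0 := by exact_mod_cast (by omega : d ≠ 0)
  have hZ : MeasurableSet {v | N d f v = ∞} :=
    measurable_N d hf (measurableSet_singleton ∞)
  have hW0 : ∀ v, N d f v = ∞ → W d f v = 0 := by
    intro v hv
    unfold N at hv
    rw [ENNReal.rpow_eq_top_iff] at hv
    rcases hv with h | h
    · exact h.1
    · exfalso
      have : 0 < 1 / (d : ℝ) := by positivity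
      linarith [h.2]
  have h := fubini_scale μ d hf (measurable_one.indicator hZ)
  have hL : ∫⁻ v, (∫⁻ u in Ioi (0:ℝ), ENNReal.ofReal ((u ^ (d + 1))⁻¹) * f (u⁻¹ • v)) *
      indicator {v | N d f v = ∞} 1 v ∂μ = 0 := by
    rw [lintegral_congr (g := fun _ => 0)]
    · simp
    · intro v
      by_cases hv : N d f v = ∞
      · have h0 := hW0 v hv
        unfold W at h0
        rw [mul_eq_zero] at h0
        rcases h0 with h0 | h0
        · exact absurd h0 hd0
        · rw [h0, zero_mul]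
      · rw [indicator_of_notMem (by simpa using hv), mul_zero]
  rw [hL] at h
  have hB : Measurable fun u : ℝ => ENNReal.ofReal (u ^ (Module.finrank ℝ V) * (u ^ (d + 1))⁻¹) :=
    ENNReal.measurable_ofReal.comp ((measurable_id.pow_const _).mul ((measurable_id.pow_const _).inv))
  have hm : Measurable fun v => f v * (∫⁻ u in Ioi (0:ℝ),
      ENNReal.ofReal (u ^ (Module.finrank ℝ V) * (u ^ (d + 1))⁻¹) *
        indicator {v | N d f v = ∞} 1 (u • v)) := by
    refine hf.mul ?_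
    refine Measurable.lintegral_prod_right' (f := fun p : V × ℝ =>
      ENNReal.ofReal (p.2 ^ (Module.finrank ℝ V) * (p.2 ^ (d + 1))⁻¹) *
        indicator {v | N d f v = ∞} 1 (p.2 • p.1)) ?_
    exact (hB.comp measurable_snd).mul ((measurable_one.indicator hZ).comp
      (measurable_snd.smul measurable_fst))
  have h2 := (lintegral_eq_zero_iff hm).1 h.symm
  filter_upwards [h2] with v hv hvN
  simp only [Pi.zero_apply, mul_eq_zero] at hv
  rcases hv with hv | hv
  · exact hv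
  · exfalso
    have h3 : ∀ u ∈ Ioi (0:ℝ), ENNReal.ofReal (u ^ (Module.finrank ℝ V) * (u ^ (d + 1))⁻¹) *
        indicator {v | N d f v = ∞} 1 (u • v) =
        ENNReal.ofReal (u ^ (Module.finrank ℝ V) * (u ^ (d + 1))⁻¹) := by
      intro u hu
      have hu0 : (0:ℝ) < u := hu
      rw [indicator_of_mem, Pi.one_apply, mul_one]
      show N d f (u • v) = ∞
      rw [N_smul hd f hu0, hvN, ENNReal.mul_top]
      simpa using hu0
    rw [setLIntegral_congr_fun measurableSet_Ioi h3, lintegral_eq_zero_iff hB] at hv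
    have h4 := (ae_restrict_iff' measurableSet_Ioi).1 hv
    have h5 : volume (Ioi (0:ℝ)) = 0 := by
      refine measure_mono_null ?_ h4
      intro u hu hcon
      have hu0 : (0:ℝ) < u := hu
      have h6 := hcon hu
      simp only [Pi.zero_apply, ENNReal.ofReal_eq_zero] at h6
      have : 0 < u ^ (Module.finrank ℝ V) * (u ^ (d + 1))⁻¹ := by positivity
      linarith
    simp at h5

lemma null_zero [Nontrivial V] {d : ℕ} (hd : 1 ≤ d) {f : V → ℝ≥0∞} (hf1 : ∀ x, f x ≤ 1)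
    {R : ℝ} (hR : 0 < R) (hs : ∀ x, f x ≠ 0 → ‖x‖ ≤ R) : ∀ᵐ v ∂μ, N d f v ≠ 0 := by
  have h1 : ∀ᵐ v ∂μ, v ≠ 0 := by
    have : μ {(0 : V)} = 0 := by
      exact measure_singleton 0
    exact compl_mem_ae_iff.2 this
  filter_upwards [h1] with v hv h0
  unfold N at h0
  rw [ENNReal.rpow_eq_zero_iff] at h0
  have hd' : (0 : ℝ) < d := by exact_mod_cast hd
  rcases h0 with h | h
  · have : 0 < 1 / (d : ℝ) := by positivity
    linarith [h.2]
  · exact W_ne_top hd hf1 hR hs hv h.1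

/-- Lower bound for the integral of the radial log-concave function. -/
theorem lower_bound [Nontrivial V] {q d : ℕ} (hq : 1 ≤ q) (hqd : q ≤ d)
    (hV : Module.finrank ℝ V = q) {f : V → ℝ≥0∞} (hf : Measurable f) (hf1 : ∀ x, f x ≤ 1)
    {R : ℝ} (hR : 0 < R) (hs : ∀ x, f x ≠ 0 → ‖x‖ ≤ R) :
    (q.factorial : ℝ≥0∞) * ∫⁻ v, f v ∂μ ≤ ∫⁻ v, expn (N d f v) ∂μ := by
  have hd : 1 ≤ d := hq.trans hqd
  calc (q.factorial : ℝ≥0∞) * ∫⁻ v, f v ∂μ
      = ∫⁻ v, f v * (if N d f v = 0 ∨ N d f v = ∞ then 0 else (q.factorial : ℝ≥0∞)) ∂μ := by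
        rw [← lintegral_const_mul _ hf]
        refine lintegral_congr_ae ?_
        filter_upwards [null_top μ hd hf, null_zero μ hd hf1 hR hs] with v h1 h2
        by_cases h : N d f v = ∞
        · rw [if_pos (Or.inr h), h1 h]; simp
        · rw [if_neg (by push Not; exact ⟨h2, h⟩), mul_comm]
    _ = ∫⁻ v, W q f v * θ q (N d f v) ∂μ := (integral_W_θ μ hq hd hV hf).symm
    _ ≤ ∫⁻ v, expn (N d f v) ∂μ := lintegral_mono fun v => W_mul_θ_le hq hqd hf hf1 v

/-- Upper bound in full dimension. -/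
theorem upper_bound [Nontrivial V] {d : ℕ} (hd : 1 ≤ d)
    (hV : Module.finrank ℝ V = d) {f : V → ℝ≥0∞} (hf : Measurable f) (hf1 : ∀ x, f x ≤ 1)
    {R : ℝ} (hR : 0 < R) (hs : ∀ x, f x ≠ 0 → ‖x‖ ≤ R) :
    ∫⁻ v, expn (N d f v) ∂μ ≤ (d.factorial : ℝ≥0∞) * ∫⁻ v, f v ∂μ := by
  calc ∫⁻ v, expn (N d f v) ∂μ = ∫⁻ v, W d f v * θ d (N d f v) ∂μ := by
        refine lintegral_congr_ae ?_
        filter_upwards [null_zero μ hd hf1 hR hs] with v h2
        exact (W_mul_θ_eq hd v h2).symm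
    _ = ∫⁻ v, f v * (if N d f v = 0 ∨ N d f v = ∞ then 0 else (d.factorial : ℝ≥0∞)) ∂μ :=
        integral_W_θ μ hd hd hV hf
    _ ≤ ∫⁻ v, (d.factorial : ℝ≥0∞) * f v ∂μ := by
        refine lintegral_mono fun v => ?_
        rw [mul_comm]
        gcongr
        split_ifs
        · exact bot_le
        · exact le_rfl
    _ = _ := lintegral_const_mul _ hf

end

end Pool.Agent.Helper76
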