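import Pool.Agent.Helper76.Embed

set_option autoImplicit false

namespace Pool.Agent.Helper76.Menger

open Set Topology Metric Filter TopologicalSpace Module

section

variable {V : Type} [NormedAddCommGroup V] [NormedSpace ℝ V] [FiniteDimensional ℝ V]

omit [FiniteDimensional ℝ V] in
lemma norm_normalize {x : V} (hx : x ≠ 0) : ‖‖x‖⁻¹ • x‖ = 1 := by
  rw [norm_smul, norm_inv, norm_norm, inv_mul_cancel₀ (norm_ne_zero_iff.2 hx)]

omit [FiniteDimensional ℝ V] in
lemma norm_normalize_le (x : V) : ‖‖x‖⁻¹ • x‖ ≤ 1 := by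
  by_cases hx : x = 0
  · simp [hx]
  · exact (norm_normalize hx).le

lemma tgt_sphere [Nontrivial V] :
    Tgt (sphere (0 : V) 1) {0}ᶜ (fun x => ‖x‖⁻¹ • x) where
  compact := isCompact_sphere _ _
  nonempty := NormedSpace.sphere_nonempty.2 zero_le_one
  isOpen := isOpen_compl_singleton
  subset := by
    intro x hx h0
    rw [mem_singleton_iff] at h0
    rw [h0] at hx
    simp at hx
  cont := by
    refine ContinuousOn.smul (ContinuousOn.inv₀ continuous_norm.continuousOn ?_) continuousOn_id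
    intro x hx
    exact norm_ne_zero_iff.2 hx
  maps := by
    intro x hx
    rw [mem_sphere_zero_iff_norm]
    exact norm_normalize hx
  fix := by
    intro x hx
    rw [mem_sphere_zero_iff_norm] at hx
    simp [hx]

/-- Maps to the sphere extend: then nowhere zero maps are dense. -/
lemma sr_of_ext {Z : Type} [TopologicalSpace Z]
    (h : Ext Z (sphere (0 : Fin 3 → ℝ) 1)) : SR 3 Z := by
  intro f ε hε
  have hA : IsClosed {z | ε / 2 ≤ ‖f z‖} := isClosed_le continuous_const f.continuous.norm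
  have hA0 : ∀ z ∈ {z | ε / 2 ≤ ‖f z‖}, f z ≠ 0 := by
    intro z hz h0
    simp only [mem_ofPred_eq, h0, norm_zero] at hz
    linarith
  obtain ⟨g, hg, hgK, hgA⟩ := h {z | ε / 2 ≤ ‖f z‖} (fun z => ‖f z‖⁻¹ • f z) hA
    (tgt_sphere.cont.comp f.continuous.continuousOn hA0)
    (fun z hz => tgt_sphere.maps (hA0 z hz))
  refine ⟨⟨fun z => (max ‖f z‖ (ε / 2)) • g z, by fun_prop⟩, ?_, ?_⟩
  · intro z
    simp only [ContinuousMap.coe_mk]
    have h1 : (0 : ℝ) < max ‖f z‖ (ε / 2) := lt_of_lt_of_le (by positivity) (le_max_right _ _)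
    refine smul_ne_zero h1.ne' ?_
    intro h0
    have := hgK z
    rw [h0] at this
    simp at this
  · intro z
    simp only [ContinuousMap.coe_mk]
    by_cases hz : ε / 2 ≤ ‖f z‖
    · rw [hgA hz, max_eq_left hz, smul_smul,
        mul_inv_cancel₀ (norm_ne_zero_iff.2 (hA0 z hz)), one_smul, dist_self]
      exact hε
    · push Not at hz
      rw [max_eq_right hz.le, dist_eq_norm]
      have h1 : ‖g z‖ = 1 := by simpa using hgK z
      calc ‖f z - (ε / 2) • g z‖ ≤ ‖f z‖ + ‖(ε / 2) • g z‖ := norm_sub_le _ _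
        _ = ‖f z‖ + ε / 2 := by
            rw [norm_smul, h1, mul_one, Real.norm_of_nonneg (by positivity)]
        _ < ε := by linarith

/-- Loops in spheres of dimension at least two bound. -/
lemma loop_ext (hV : 3 ≤ finrank ℝ V) {f : ℂ → V} (hf : ContinuousOn f (sphere 0 1))
    (hfK : MapsTo f (sphere 0 1) (sphere 0 1)) :
    ∃ F : ℂ → V, Continuous F ∧ (∀ z, F z ∈ sphere (0 : V) 1) ∧ EqOn F f (sphere 0 1) := by
  have : Nontrivial V := nontrivial_of_finrank_pos (R := ℝ) (by omega)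
  have hT : Tgt (sphere (0 : V) 1) {0}ᶜ (fun x => ‖x‖⁻¹ • x) := tgt_sphere
  obtain ⟨ε, hε, hclose⟩ := close_ext hT
  obtain ⟨δ, hδ, hnear⟩ := hT.near hε
  have hS : IsClosed (sphere (0 : ℂ) 1) := isClosed_sphere
  obtain ⟨f', hf', hff⟩ := tietze hS hf
  obtain ⟨p, hp, hpf, -⟩ := hf'.exists_contDiff_approx 1 (ε := fun _ => δ) continuous_const
    (fun _ => hδ)
  have hpc : Continuous p := hp.continuous
  -- the cone
  let c : ℝ × ℝ → V := fun x => x.1 • p (Complex.exp (x.2 * Complex.I))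
  have hexp : ContDiff ℝ 1 (fun x : ℝ × ℝ => Complex.exp (x.2 * Complex.I)) := by
    refine ContDiff.cexp ?_
    refine ContDiff.mul ?_ contDiff_const
    exact Complex.ofRealCLM.contDiff.comp contDiff_snd
  have hc : ContDiff ℝ 1 c := contDiff_fst.smul (hp.comp hexp)
  have hdense := hc.dense_compl_range_of_finrank_lt_finrank (by
    simp only [finrank_prod, finrank_self]
    omega)
  obtain ⟨u, hu⟩ := hdense.nonempty
  have hu0 : u ≠ 0 := by
    rintro rfl
    exact hu ⟨(0, 0), by simp [c]⟩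
  let u' : V := ‖u‖⁻¹ • u
  have hu' : ‖u'‖ = 1 := norm_normalize hu0
  -- normalised approximant
  let g : ℂ → V := fun z => ‖p z‖⁻¹ • p z
  have hpK : ∀ z ∈ sphere (0 : ℂ) 1, p z ≠ 0 ∧ dist (f z) (g z) < ε := by
    intro z hz
    have h1 := hpf z
    rw [hff hz] at h1
    obtain ⟨h2, h3⟩ := hnear (f z) (hfK hz) (p z) h1
    exact ⟨h2, by rw [dist_comm]; exact h3⟩
  have hg1 : ∀ z ∈ sphere (0 : ℂ) 1, ‖g z‖ = 1 := fun z hz => norm_normalize (hpK z hz).1
  have hgu : ∀ z ∈ sphere (0 : ℂ) 1, g z ≠ u' := by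
    intro z hz hgz
    apply hu
    have hz1 : ‖z‖ = 1 := by simpa using hz
    have hpz := (hpK z hz).1
    refine ⟨(‖u‖ * ‖p z‖⁻¹, Complex.arg z), ?_⟩
    have h1 : Complex.exp (Complex.arg z * Complex.I) = z := by
      have := Complex.norm_mul_exp_arg_mul_I z
      rw [hz1] at this
      simpa using this
    simp only [c]
    rw [h1, mul_smul]
    have h2 : ‖p z‖⁻¹ • p z = ‖u‖⁻¹ • u := hgz
    rw [h2, smul_smul, mul_inv_cancel₀ (norm_ne_zero_iff.2 hu0), one_smul]
  -- the radial extension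
  let w : ℂ → ℂ := fun z => (‖z‖⁻¹ : ℝ) • z
  have hw : ∀ z, z ≠ 0 → w z ∈ sphere (0 : ℂ) 1 := by
    intro z hz
    rw [mem_sphere_zero_iff_norm]
    exact norm_normalize hz
  let s : ℂ → ℝ := fun z => min ‖z‖ 1
  have hs : Continuous s := continuous_norm.min continuous_const
  let N : ℂ → V := fun z => s z • g (w z) - (1 - s z) • u'
  have hN0 : ∀ z, N z ≠ 0 := by
    intro z hz
    by_cases hz0 : z = 0
    · simp only [N, s, hz0, norm_zero] at hz
      rw [min_eq_left zero_le_one] at hz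
      simp only [zero_smul, sub_zero, one_smul, zero_sub, neg_eq_zero] at hz
      rw [hz] at hu'
      simp at hu'
    · have hwz := hw z hz0
      have h1 : s z • g (w z) = (1 - s z) • u' := sub_eq_zero.1 hz
      have hs0 : 0 ≤ s z := le_min (norm_nonneg _) zero_le_one
      have hs1 : s z ≤ 1 := min_le_right _ _
      have h2 := congrArg norm h1
      rw [norm_smul (s z) (g (w z)), norm_smul (1 - s z) u', hg1 _ hwz, hu', mul_one, mul_one,
        Real.norm_of_nonneg hs0, Real.norm_of_nonneg (by linarith)] at h2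
      have h3 : s z = 1 / 2 := by linarith
      rw [h3] at h1
      have h4 : (1 / 2 : ℝ) • g (w z) = (1 / 2 : ℝ) • u' := by
        rw [h1]; norm_num
      exact hgu _ hwz (smul_right_injective V (by norm_num : (1 / 2 : ℝ) ≠ 0) h4)
  have hNc : Continuous N := by
    refine Continuous.sub ?_ ((continuous_const.sub hs).smul continuous_const)
    rw [continuous_iff_continuousAt]
    intro z
    by_cases hz0 : z = 0
    · rw [hz0]
      have h0 : s 0 • g (w 0) = 0 := by simp [s]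
      rw [ContinuousAt, h0]
      refine squeeze_zero_norm (a := fun z => ‖z‖) (fun z => ?_) ?_
      · rw [norm_smul]
        calc ‖s z‖ * ‖g (w z)‖ ≤ ‖s z‖ * 1 :=
              mul_le_mul_of_nonneg_left (norm_normalize_le _) (norm_nonneg _)
          _ = s z := by
              rw [mul_one, Real.norm_of_nonneg (le_min (norm_nonneg _) zero_le_one)]
          _ ≤ ‖z‖ := min_le_left _ _
      · have := (continuous_norm (E := ℂ)).tendsto 0
        rwa [norm_zero] at this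
    · have h1 : ContinuousAt w z := by
        refine ContinuousAt.smul (ContinuousAt.inv₀ continuous_norm.continuousAt
          (norm_ne_zero_iff.2 hz0)) continuousAt_id
      have h2 : p (w z) ≠ 0 := (hpK _ (hw z hz0)).1
      have h3 : ContinuousAt g (w z) := by
        refine ContinuousAt.smul (ContinuousAt.inv₀ hpc.norm.continuousAt
          (norm_ne_zero_iff.2 h2)) hpc.continuousAt
      exact hs.continuousAt.smul (h3.comp h1)
  refine hclose hS hf hfK (G := fun z => ‖N z‖⁻¹ • N z)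
    (hT.cont.comp_continuous hNc hN0) (fun z => hT.maps (hN0 z)) ?_
  intro z hz
  have hz1 : ‖z‖ = 1 := by simpa using hz
  have h1 : N z = g z := by
    simp only [N, s, w, hz1, min_self, one_smul, inv_one, sub_self, zero_smul, sub_zero]
  show dist (f z) (‖N z‖⁻¹ • N z) < ε
  rw [h1, hg1 z hz, inv_one, one_smul]
  exact (hpK z hz).2

/-- Continuity of radial rescalings. -/
lemma continuous_radial {B B' : Type} [NormedAddCommGroup B] [NormedSpace ℝ B]
    [NormedAddCommGroup B'] [NormedSpace ℝ B'] (T : B ≃L[ℝ] B') :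
    Continuous (fun x : B => (‖x‖ * ‖T x‖⁻¹) • T x) := by
  rw [continuous_iff_continuousAt]
  intro x
  by_cases hx : x = 0
  · rw [hx, ContinuousAt]
    simp only [map_zero, norm_zero, smul_zero]
    refine squeeze_zero_norm (a := fun z => ‖z‖) (fun z => ?_) ?_
    · rw [mul_smul, norm_smul, norm_norm]
      calc ‖z‖ * ‖‖T z‖⁻¹ • T z‖ ≤ ‖z‖ * 1 :=
            mul_le_mul_of_nonneg_left (norm_normalize_le _) (norm_nonneg _)
        _ = ‖z‖ := mul_one _
    · have := (continuous_norm (E := B)).tendsto 0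
      rwa [norm_zero] at this
  · have h1 : T x ≠ 0 := by simpa using hx
    have h2 : ContinuousAt (fun x => T x) x := T.continuous.continuousAt
    exact (continuous_norm.continuousAt.mul (h2.norm.inv₀ (norm_ne_zero_iff.2 h1))).smul h2

lemma norm_radial {B B' : Type} [NormedAddCommGroup B] [NormedSpace ℝ B]
    [NormedAddCommGroup B'] [NormedSpace ℝ B'] (T : B ≃L[ℝ] B') (x : B) :
    ‖(‖x‖ * ‖T x‖⁻¹) • T x‖ = ‖x‖ := by
  by_cases hx : x = 0
  · simp [hx]
  · have h1 : T x ≠ 0 := by simpa using hx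
    rw [mul_smul, norm_smul, norm_norm, norm_normalize h1, mul_one]

/-- The extension property for the boundary of a square. -/
lemma square_ext (hV : 3 ≤ finrank ℝ V) {f : ℝ × ℝ → V}
    (hf : ContinuousOn f (sphere ((1 / 2 : ℝ), (1 / 2 : ℝ)) (1 / 2)))
    (hfK : MapsTo f (sphere ((1 / 2 : ℝ), (1 / 2 : ℝ)) (1 / 2)) (sphere 0 1)) :
    ∃ F : ℝ × ℝ → V, Continuous F ∧ (∀ z, F z ∈ sphere (0 : V) 1) ∧
      EqOn F f (sphere ((1 / 2 : ℝ), (1 / 2 : ℝ)) (1 / 2)) := by
  let c : ℝ × ℝ := (1 / 2, 1 / 2)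
  let L : ℂ ≃L[ℝ] ℝ × ℝ := Complex.equivRealProdCLM
  let Ψ : ℂ → ℝ × ℝ := fun z => (‖z‖ * ‖L z‖⁻¹) • L z
  let Φ : ℝ × ℝ → ℂ := fun x => (‖x‖ * ‖L.symm x‖⁻¹) • L.symm x
  have hΨ : Continuous Ψ := continuous_radial L
  have hΦ : Continuous Φ := continuous_radial L.symm
  have hΨn : ∀ z, ‖Ψ z‖ = ‖z‖ := norm_radial L
  have hΦn : ∀ z, ‖Φ z‖ = ‖z‖ := norm_radial L.symm
  have hmaps : ∀ z ∈ sphere (0 : ℂ) 1, c + (1 / 2 : ℝ) • Ψ z ∈ sphere c (1 / 2) := by
    intro z hz
    rw [mem_sphere_iff_norm, add_sub_cancel_left, norm_smul, hΨn]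
    rw [mem_sphere_zero_iff_norm] at hz
    rw [hz]
    norm_num
  obtain ⟨F', hF', hFK', hFf'⟩ := loop_ext hV (f := fun z => f (c + (1 / 2 : ℝ) • Ψ z))
    (hf.comp (by fun_prop) hmaps) (fun z hz => hfK (hmaps z hz))
  refine ⟨fun x => F' (Φ ((2 : ℝ) • (x - c))), by fun_prop, fun x => hFK' _, ?_⟩
  intro x hx
  rw [mem_sphere_iff_norm] at hx
  have h1 : ‖(2 : ℝ) • (x - c)‖ = 1 := by
    rw [norm_smul, hx]
    norm_num
  have h2 : Φ ((2 : ℝ) • (x - c)) ∈ sphere (0 : ℂ) 1 := by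
    rw [mem_sphere_zero_iff_norm, hΦn, h1]
  have h3 : Ψ (Φ ((2 : ℝ) • (x - c))) = (2 : ℝ) • (x - c) := by
    generalize (2 : ℝ) • (x - c) = y at h1
    have hy0 : y ≠ 0 := by
      rintro rfl
      simp at h1
    have hy1 : L.symm y ≠ 0 := by simpa using hy0
    have h4 : 0 < ‖y‖ * ‖L.symm y‖⁻¹ := mul_pos (norm_pos_iff.2 hy0)
      (inv_pos.2 (norm_pos_iff.2 hy1))
    simp only [Ψ]
    rw [hΦn]
    have h5 : L (Φ y) = (‖y‖ * ‖L.symm y‖⁻¹) • y := by
      simp only [Φ, map_smul, ContinuousLinearEquiv.apply_symm_apply]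
    rw [h5, norm_smul, Real.norm_of_nonneg h4.le, smul_smul, h1]
    have h6 : ‖L.symm y‖ ≠ 0 := norm_ne_zero_iff.2 hy1
    field_simp
    simp
  simp only
  rw [hFf' h2]
  simp only
  rw [h3, smul_smul]
  norm_num

lemma mem_sphere_square {x : ℝ × ℝ} : x ∈ sphere ((1 / 2 : ℝ), (1 / 2 : ℝ)) (1 / 2) ↔
    (x.1 ∈ Icc (0 : ℝ) 1 ∧ x.2 ∈ Icc (0 : ℝ) 1) ∧ (x.1 = 0 ∨ x.1 = 1 ∨ x.2 = 0 ∨ x.2 = 1) := by
  rw [mem_sphere_iff_norm, Prod.norm_def]
  simp only [Prod.fst_sub, Prod.snd_sub, Real.norm_eq_abs, mem_Icc]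
  constructor
  · intro h
    have h1 : |x.1 - 1 / 2| ≤ 1 / 2 := (le_max_left _ _).trans h.le
    have h2 : |x.2 - 1 / 2| ≤ 1 / 2 := (le_max_right _ _).trans h.le
    rw [abs_le] at h1 h2
    refine ⟨⟨⟨by linarith, by linarith⟩, ⟨by linarith, by linarith⟩⟩, ?_⟩
    rcases max_choice |x.1 - 1 / 2| |x.2 - 1 / 2| with h3 | h3
    · rw [h3] at h
      rcases (abs_eq (by norm_num)).1 h with h4 | h4
      · right; left; linarith
      · left; linarith
    · rw [h3] at h
      rcases (abs_eq (by norm_num)).1 h with h4 | h4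
      · right; right; right; linarith
      · right; right; left; linarith
  · rintro ⟨⟨⟨h1, h2⟩, ⟨h3, h4⟩⟩, h⟩
    have h5 : |x.1 - 1 / 2| ≤ 1 / 2 := by rw [abs_le]; constructor <;> linarith
    have h6 : |x.2 - 1 / 2| ≤ 1 / 2 := by rw [abs_le]; constructor <;> linarith
    refine le_antisymm (max_le h5 h6) ?_
    rcases h with h | h | h | h
    · refine le_trans ?_ (le_max_left _ _)
      rw [h]; norm_num
    · refine le_trans ?_ (le_max_left _ _)
      rw [h]; norm_num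
    · refine le_trans ?_ (le_max_right _ _)
      rw [h]; norm_num
    · refine le_trans ?_ (le_max_right _ _)
      rw [h]; norm_num

/-- Filling a square whose vertical sides are constant. -/
lemma square_fill (hV : 3 ≤ finrank ℝ V) {x₀ x₁ : V} {top bot : ℝ → V}
    (htop : Continuous top) (hbot : Continuous bot)
    (htopK : ∀ t, top t ∈ sphere (0 : V) 1) (hbotK : ∀ t, bot t ∈ sphere (0 : V) 1)
    (ht0 : top 0 = x₀) (ht1 : top 1 = x₁) (hb0 : bot 0 = x₀) (hb1 : bot 1 = x₁) :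
    ∃ H : ℝ × ℝ → V, Continuous H ∧ (∀ z, H z ∈ sphere (0 : V) 1) ∧
      (∀ t ∈ Icc (0 : ℝ) 1, H (t, 1) = top t) ∧ (∀ t ∈ Icc (0 : ℝ) 1, H (t, 0) = bot t) ∧
      (∀ s ∈ Icc (0 : ℝ) 1, H (0, s) = x₀) ∧ (∀ s ∈ Icc (0 : ℝ) 1, H (1, s) = x₁) := by
  classical
  let g : ℝ × ℝ → V := fun x => if x.2 = 1 then top x.1 else if x.2 = 0 then bot x.1
    else if x.1 = 0 then x₀ else x₁
  have hg1 : ∀ x : ℝ × ℝ, x.2 = 1 → g x = top x.1 := by
    intro x hx
    simp [g, hx]
  have hg2 : ∀ x : ℝ × ℝ, x.2 = 0 → g x = bot x.1 := by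
    intro x hx
    simp [g, hx]
  have hg3 : ∀ x : ℝ × ℝ, x.1 = 0 → g x = x₀ := by
    intro x hx
    by_cases h1 : x.2 = 1
    · rw [hg1 x h1, hx, ht0]
    by_cases h2 : x.2 = 0
    · rw [hg2 x h2, hx, hb0]
    simp [g, hx, h1, h2]
  have hg4 : ∀ x : ℝ × ℝ, x.1 = 1 → g x = x₁ := by
    intro x hx
    by_cases h1 : x.2 = 1
    · rw [hg1 x h1, hx, ht1]
    by_cases h2 : x.2 = 0
    · rw [hg2 x h2, hx, hb1]
    simp [g, hx, h1, h2]
  have hclosed1 : IsClosed {x : ℝ × ℝ | x.2 = 1} := isClosed_eq continuous_snd continuous_const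
  have hclosed2 : IsClosed {x : ℝ × ℝ | x.2 = 0} := isClosed_eq continuous_snd continuous_const
  have hclosed3 : IsClosed {x : ℝ × ℝ | x.1 = 0} := isClosed_eq continuous_fst continuous_const
  have hclosed4 : IsClosed {x : ℝ × ℝ | x.1 = 1} := isClosed_eq continuous_fst continuous_const
  have hgc : ContinuousOn g ({x : ℝ × ℝ | x.2 = 1} ∪ ({x : ℝ × ℝ | x.2 = 0} ∪
      ({x : ℝ × ℝ | x.1 = 0} ∪ {x : ℝ × ℝ | x.1 = 1}))) := by
    refine ContinuousOn.union_of_isClosed ?_ (ContinuousOn.union_of_isClosed ?_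
      (ContinuousOn.union_of_isClosed ?_ ?_ hclosed3 hclosed4) hclosed2
      (hclosed3.union hclosed4)) hclosed1 (hclosed2.union (hclosed3.union hclosed4))
    · exact (htop.comp continuous_fst).continuousOn.congr hg1
    · exact (hbot.comp continuous_fst).continuousOn.congr hg2
    · exact continuousOn_const.congr hg3
    · exact continuousOn_const.congr hg4
  have hx₀ : x₀ ∈ sphere (0 : V) 1 := ht0 ▸ htopK 0
  have hx₁ : x₁ ∈ sphere (0 : V) 1 := ht1 ▸ htopK 1
  obtain ⟨H, hH, hHK, hHg⟩ := square_ext hV (f := g) (hgc.mono (by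
      intro x hx
      rcases (mem_sphere_square.1 hx).2 with h | h | h | h
      · exact Or.inr (Or.inr (Or.inl h))
      · exact Or.inr (Or.inr (Or.inr h))
      · exact Or.inr (Or.inl h)
      · exact Or.inl h)) (by
      intro x hx
      rcases (mem_sphere_square.1 hx).2 with h | h | h | h
      · rw [hg3 x h]; exact hx₀
      · rw [hg4 x h]; exact hx₁
      · rw [hg2 x h]; exact hbotK _
      · rw [hg1 x h]; exact htopK _)
  refine ⟨H, hH, hHK, ?_, ?_, ?_, ?_⟩
  · intro t ht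
    rw [hHg (mem_sphere_square.2 ⟨⟨ht, by norm_num⟩, by simp⟩), hg1 _ rfl]
  · intro t ht
    rw [hHg (mem_sphere_square.2 ⟨⟨ht, by norm_num⟩, by simp⟩), hg2 _ rfl]
  · intro t ht
    rw [hHg (mem_sphere_square.2 ⟨⟨by norm_num, ht⟩, by simp⟩), hg3 _ rfl]
  · intro t ht
    rw [hHg (mem_sphere_square.2 ⟨⟨by norm_num, ht⟩, by simp⟩), hg4 _ rfl]

end

/-- Loops can be filled over the mapping cylinder of the triple cover of the circle. -/
def Fill3 {E : Type} [TopologicalSpace E] (K : Set E) : Prop :=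
  ∀ f : ℝ → E, Continuous f → (∀ t, f t ∈ K) → f 0 = f 1 →
    ∃ H : ℝ × ℝ → E, Continuous H ∧ (∀ x, H x ∈ K) ∧
      (∀ t ∈ Icc (0 : ℝ) 1, H (t, 1) = f t) ∧ (∀ s ∈ Icc (0 : ℝ) 1, H (0, s) = H (1, s)) ∧
      (∀ t ∈ Icc (0 : ℝ) 1, ∀ t' ∈ Icc (0 : ℝ) 1, (∃ m : ℤ, 3 * (t - t') = m) →
        H (t, 0) = H (t', 0))

lemma fill3_sphere {V : Type} [NormedAddCommGroup V] [NormedSpace ℝ V] [FiniteDimensional ℝ V]
    (hV : 3 ≤ finrank ℝ V) : Fill3 (sphere (0 : V) 1) := by
  intro f hf hfK h01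
  obtain ⟨H, hH, hHK, h1, h2, h3, h4⟩ := square_fill hV (x₀ := f 0) (x₁ := f 0) (top := f)
    (bot := fun _ => f 0) hf continuous_const hfK (fun _ => hfK 0) rfl h01.symm rfl rfl
  refine ⟨H, hH, hHK, h1, ?_, ?_⟩
  · intro s hs
    rw [h3 s hs, h4 s hs]
  · intro t ht t' ht' _
    rw [h2 t ht, h2 t' ht']

end Pool.Agent.Helper76.Menger
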